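import Pool.Agent.NHS.UnR

/-!
# NHS/Shr: the shear   (difficulty 3)

PROOF.  For `x` off `κ` let `G x` be the point off `κ'` with `F (G x) = x` (`hF.surj`, unique by `hF.inj`); `G` is a local diffeomorphism at
`x` (the local inverse of `F` at `G x`; `hF.loc`, injectivity, `Pool.Agent.CSG.ld_of_comp_left` etc.).  For a unit number `u` let `θ u = arg u / 2π` (any choice).
New data: `Q` the same, `A₁ (x, t) = D.A (G x, t - k θ (φ x))`.  Because `D.A` has period `1` in `t` and `k` is an integer, `θ` may be replaced by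
any `θ'` with `ex θ' = φ x`; near `x₀` by the smooth branch `θ₀ + (log (φ x / φ x₀)).im / 2π`, so `A₁` is a local diffeomorphism:
`(x, t) ↦ (x, t - k θ' (x))` has the inverse `(x, t + k θ' (x))`.
`glue`: phases `(a₁ - k b₁) m + b₁ t`, `(a₂ - k b₂) m + b₂ t`, `l - n t` of `z`, `r = 2 |c1| |c2|`, `0 < r < 1`: `D.glue z (l - k n m) m (t - k m)` gives
`D.Q z = D.A (κ' (l - k n m, r ex m), t - k m)`; and `F (κ' (l - k n m, r ex m)) = κ (l, r ex m)`, `φ (κ (l, r ex m)) = ex m`.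
`disj`, `cover`: from those of `D` (`A₁ (F x', t' + k θ (φ (F x'))) = D.A (x', t')`).
-/

open scoped Manifold ContDiff Topology
open Set Filter
open Complex (I)
open Pool.Agent.RSG

namespace Pool.Agent.NHS

theorem shr_per {α : Type*} {f : ℝ → α} (h : ∀ x, f (x + 1) = f x) (x : ℝ) (k : ℤ) :
    f (x + k) = f x := by
  have h1 : Function.Periodic f 1 := h
  have h2 := h1.int_mul k x
  rwa [mul_one] at h2

theorem shr_ex_arg {u : ℂ} (h : ‖u‖ = 1) : ex (Complex.arg u / (2 * Real.pi)) = u := by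
  have h1 := ex_arg (p := u)
  rwa [h, Complex.ofReal_one, one_mul] at h1

/-- a smooth branch of the angle -/
theorem shr_branch {N : Type*} [TopologicalSpace N] [ChartedSpace E3 N] {φ : N → ℂ} {U : Set N} (hU : IsOpen U)
    (hs : ∀ x ∈ U, ContMDiffAt (𝓡 3) 𝓘(ℝ, ℂ) ∞ φ x) (hn : ∀ x ∈ U, ‖φ x‖ = 1) {x : N} (hx : x ∈ U) :
    ∃ θ : N → ℝ, (∀ᶠ y in 𝓝 x, ContMDiffAt (𝓡 3) 𝓘(ℝ, ℝ) ∞ θ y) ∧ ∀ᶠ y in 𝓝 x, ex (θ y) = φ y := by
  obtain ⟨θ₀, hθ₀⟩ := ex_surj (hn x hx)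
  have hne : φ x ≠ 0 := by
    rw [hθ₀]
    exact ex_ne _
  have hcont : ContinuousAt (fun y => φ y / φ x) x := (hs x hx).continuousAt.div_const _
  have hsl : ∀ᶠ y in 𝓝 x, φ y / φ x ∈ Complex.slitPlane := by
    apply hcont.eventually_mem
    rw [div_self hne]
    exact Complex.isOpen_slitPlane.mem_nhds Complex.one_mem_slitPlane
  have hU' : ∀ᶠ y in 𝓝 x, y ∈ U := hU.mem_nhds hx
  refine ⟨fun y => θ₀ + (Complex.log (φ y / φ x)).im / (2 * Real.pi), ?_, ?_⟩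
  · filter_upwards [hsl, hU'] with y h1 h2
    have h3 : ContMDiffAt (𝓡 3) 𝓘(ℝ, ℂ) ∞ (fun y => φ y / φ x) y := by
      have e : ContDiff ℝ ∞ fun z : ℂ => z / φ x := contDiff_id.div_const _
      exact e.contMDiff.contMDiffAt.comp y (hs y h2)
    have h4 : ContDiffAt ℝ ∞ (fun z : ℂ => θ₀ + (Complex.log z).im / (2 * Real.pi)) (φ y / φ x) := by
      have h5 : ContDiffAt ℝ ∞ Complex.log (φ y / φ x) :=
        (Complex.contDiffAt_log (n := ∞) h1).restrict_scalars ℝ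
      have h6 : ContDiffAt ℝ ∞ (fun z : ℂ => (Complex.log z).im) (φ y / φ x) :=
        Complex.imCLM.contDiff.contDiffAt.comp _ h5
      exact contDiffAt_const.add (h6.div_const _)
    exact ContMDiffAt.comp (g := fun z : ℂ => θ₀ + (Complex.log z).im / (2 * Real.pi)) (f := fun y => φ y / φ x)
      y h4.contMDiffAt h3
  · filter_upwards [hU'] with y h2
    have h3 : ‖φ y / φ x‖ = 1 := by
      rw [norm_div, hn y h2, hn x hx, div_one]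
    rw [ex_add, ← hθ₀, Complex.log_im, shr_ex_arg h3]
    field_simp

/-- the shear `(x, t) ↦ (x, t - k θ x)` -/
theorem shr_sig {N : Type*} [TopologicalSpace N] [ChartedSpace E3 N] {θ : N → ℝ} {x : N}
    (hs : ∀ᶠ y in 𝓝 x, ContMDiffAt (𝓡 3) 𝓘(ℝ, ℝ) ∞ θ y) (k : ℝ) (t : ℝ) :
    IsLocalDiffeomorphAt ((𝓡 3).prod 𝓘(ℝ, ℝ)) ((𝓡 3).prod 𝓘(ℝ, ℝ)) ∞ (fun q : N × ℝ => (q.1, q.2 - k * θ q.1)) (x, t) := by
  have key : ∀ c : ℝ, ∀ s : ℝ, ∀ᶠ q in 𝓝 (x, s), ContMDiffAt ((𝓡 3).prod 𝓘(ℝ, ℝ)) ((𝓡 3).prod 𝓘(ℝ, ℝ)) ∞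
      (fun q : N × ℝ => (q.1, q.2 + c * θ q.1)) q := by
    intro c s
    have h1 : ∀ᶠ q in 𝓝 (x, s), ContMDiffAt (𝓡 3) 𝓘(ℝ, ℝ) ∞ θ q.1 :=
      (continuous_fst.tendsto (x, s)).eventually hs
    filter_upwards [h1] with q hq
    have h2 : ContMDiffAt ((𝓡 3).prod 𝓘(ℝ, ℝ)) 𝓘(ℝ, ℝ) ∞ (fun q : N × ℝ => θ q.1) q :=
      hq.comp q contMDiffAt_fst
    have h3 : ContMDiffAt ((𝓡 3).prod 𝓘(ℝ, ℝ)) 𝓘(ℝ, ℝ) ∞ (fun q : N × ℝ => q.2) q := contMDiffAt_snd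
    exact contMDiffAt_fst.prodMk (h3.add (contMDiffAt_const.mul h2))
  have e : (fun q : N × ℝ => (q.1, q.2 - k * θ q.1)) = fun q : N × ℝ => (q.1, q.2 + (-k) * θ q.1) := by
    funext q
    rw [neg_mul, ← sub_eq_add_neg]
  rw [e]
  refine ld_two (g := fun q : N × ℝ => (q.1, q.2 + k * θ q.1)) (key (-k) t) (key k _) ?_ ?_
  · refine Eventually.of_forall fun q => ?_
    apply Prod.ext
    · rfl
    · change q.2 + (-k) * θ q.1 + k * θ q.1 = q.2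
      ring
  · refine Eventually.of_forall fun q => ?_
    apply Prod.ext
    · rfl
    · change q.2 + k * θ q.1 + (-k) * θ q.1 = q.2
      ring

/-- the inverse of the diffeomorphism of the complements -/
theorem shr_G {N : Type*} [TopologicalSpace N] [ChartedSpace E3 N] {N' : Type*} [TopologicalSpace N']
    [ChartedSpace E3 N'] [T2Space N'] {κ : ℝ × ℂ → N} {κ' : ℝ × ℂ → N'} (hκ' : Thick κ')
    {q : ℤ} {F : N' → N} (hF : Dual q κ κ' F) : ∃ G : N → N', (∀ x, ¬ OnKnot κ x → ¬ OnKnot κ' (G x) ∧ F (G x) = x) ∧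
      (∀ x, ¬ OnKnot κ' x → G (F x) = x) ∧ ∀ x, ¬ OnKnot κ x → IsLocalDiffeomorphAt (𝓡 3) (𝓡 3) ∞ G x := by
  classical
  have h0 : ∀ x, ∃ y : N', ¬ OnKnot κ x → ¬ OnKnot κ' y ∧ F y = x := by
    intro x
    by_cases hx : OnKnot κ x
    · exact ⟨κ' (0, 0), fun h => absurd hx h⟩
    · obtain ⟨y, hy⟩ := hF.surj x hx
      exact ⟨y, fun _ => hy⟩
  choose G hG using h0
  have hGF : ∀ x, ¬ OnKnot κ' x → G (F x) = x := by
    intro x hx
    have h1 := hG (F x) (hF.off x hx)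
    exact hF.inj _ _ h1.1 hx h1.2
  refine ⟨G, hG, hGF, ?_⟩
  intro x hx
  obtain ⟨h1, h2⟩ := hG x hx
  have h3 := hF.loc (G x) h1
  have h4 : IsLocalDiffeomorphAt (𝓡 3) (𝓡 3) ∞ G (F (G x)) := by
    refine CSG.ld_of_comp_left (f := F) ?_ h3
    refine CSG.ld_congr (CSG.ld_id (G x)) ?_
    have h5 : ∀ᶠ y in 𝓝 (G x), y ∈ {x | OnKnot κ' x}ᶜ :=
      (Uniq_open hκ').isOpen_compl.mem_nhds h1
    filter_upwards [h5] with y hy
    exact hGF y hy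
  rwa [h2] at h4

theorem shear {N : Type*} [TopologicalSpace N] [ChartedSpace E3 N] [T2Space N] {N' : Type*} [TopologicalSpace N']
    [ChartedSpace E3 N'] [T2Space N'] {κ : ℝ × ℂ → N} {κ' : ℝ × ℂ → N'} (hκ : Thick κ) (hκ' : Thick κ') {φ : N → ℂ}
    (hφ : Seif κ φ) {k n : ℤ} {F : N' → N} (hF : Dual (k * n) κ κ' F) {a₁ b₁ a₂ b₂ : ℤ}
    {X : Type*} [TopologicalSpace X] [ChartedSpace E4 X] (D : TwinData κ' a₁ b₁ a₂ b₂ n X) :
    Nonempty (TwinData κ (a₁ - k * b₁) b₁ (a₂ - k * b₂) b₂ n X) := by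
  classical
  obtain ⟨G, hG, hGF, hGl⟩ := shr_G hκ' hF
  let θ : ℂ → ℝ := fun u => Complex.arg u / (2 * Real.pi)
  have hθ : ∀ u : ℂ, ‖u‖ = 1 → ex (θ u) = u := fun u hu => shr_ex_arg hu
  have hAint : ∀ (x : N') (t : ℝ) (m : ℤ), D.A (x, t + m) = D.A (x, t) := fun x t m =>
    shr_per (f := fun s => D.A (x, s)) (fun s => D.A_per _ _) t m
  have hAk : ∀ (x : N') (t s s' : ℝ), ex s = ex s' → D.A (x, t - k * s) = D.A (x, t - k * s') := by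
    intro x t s s' h
    obtain ⟨m, hm⟩ := ex_eq_iff.1 h
    have h1 : t - k * s = t - k * s' + ((k * m : ℤ) : ℝ) := by
      rw [hm]
      push_cast
      ring
    rw [h1, hAint]
  refine ⟨{ A := fun q => D.A (G q.1, q.2 - k * θ (φ q.1)), Q := D.Q, A_per := ?_, A_loc := ?_, A_inj := ?_,
            Q_loc := D.Q_loc, Q_inj := D.Q_inj, glue := ?_, disj := ?_, cover := ?_ }⟩
  · intro x t
    change D.A (G x, t + 1 - k * θ (φ x)) = D.A (G x, t - k * θ (φ x))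
    rw [add_sub_right_comm, D.A_per]
  · intro x t hx
    have hO : IsOpen {x | OnKnot κ x}ᶜ := (Uniq_open hκ).isOpen_compl
    obtain ⟨θ', h1, h2⟩ := shr_branch hO hφ.smooth hφ.norm hx
    have h3 : IsLocalDiffeomorphAt ((𝓡 3).prod 𝓘(ℝ, ℝ)) ((𝓡 3).prod 𝓘(ℝ, ℝ)) ∞ (Prod.map G (id : ℝ → ℝ))
        (x, t - k * θ' x) := ld_prodMap (hGl x hx) (CSG.ld_id _)
    have h4 := shr_sig h1 (k : ℝ) t
    have h5 := IsLocalDiffeomorphAt.comp (hf := h4) (g := Prod.map G (id : ℝ → ℝ)) (hg := h3)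
    have h6 := IsLocalDiffeomorphAt.comp (hf := h5) (g := D.A) (hg := D.A_loc (G x) (t - k * θ' x) (hG x hx).1)
    refine CSG.ld_congr h6 ?_
    have h7 : ∀ᶠ q in 𝓝 (x, t), ex (θ' q.1) = φ q.1 := (continuous_fst.tendsto (x, t)).eventually h2
    have h8 : ∀ᶠ q in 𝓝 (x, t), q.1 ∈ {x | OnKnot κ x}ᶜ :=
      (continuous_fst.tendsto (x, t)).eventually (hO.mem_nhds hx)
    filter_upwards [h7, h8] with q hq hq'
    change D.A (G q.1, q.2 - k * θ (φ q.1)) = D.A (G q.1, q.2 - k * θ' q.1)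
    apply hAk
    rw [hq, hθ _ (hφ.norm _ hq')]
  · intro x x' t t' hx hx' h
    obtain ⟨h1, m, hm⟩ := D.A_inj _ _ _ _ (hG x hx).1 (hG x' hx').1 h
    have h2 : x = x' := by
      rw [← (hG x hx).2, ← (hG x' hx').2, h1]
    subst h2
    exact ⟨rfl, m, by linarith⟩
  · intro z l m t hf h1 h2 e1 e2 e3
    have p1 : 0 < ‖c1 z‖ := norm_pos_iff.2 h1
    have p2 : 0 < ‖c2 z‖ := norm_pos_iff.2 h2
    have p3 : 0 < ‖fh z‖ := norm_pos_iff.2 hf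
    have r0 : 0 < 2 * ‖c1 z‖ * ‖c2 z‖ := by positivity
    have r1 : 2 * ‖c1 z‖ * ‖c2 z‖ < 1 := by
      have h3 := fh_sq z
      have h4 : 0 < ‖fh z‖ ^ 2 := by positivity
      nlinarith
    have g := D.glue z (l - ((k * n : ℤ) : ℝ) * m) m (t - k * m) hf h1 h2
      (by
        rw [show (a₁ : ℝ) * m + b₁ * (t - k * m) = ((a₁ - k * b₁ : ℤ) : ℝ) * m + b₁ * t by push_cast; ring]
        exact e1)
      (by
        rw [show (a₂ : ℝ) * m + b₂ * (t - k * m) = ((a₂ - k * b₂ : ℤ) : ℝ) * m + b₂ * t by push_cast; ring]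
        exact e2)
      (by
        rw [show l - ((k * n : ℤ) : ℝ) * m - n * (t - k * m) = l - n * t by push_cast; ring]
        exact e3)
    rw [g]
    have hv : ((2 * ‖c1 z‖ * ‖c2 z‖ : ℝ) : ℂ) * ex m ≠ 0 :=
      mul_ne_zero (by exact_mod_cast r0.ne') (ex_ne m)
    have hvn : ‖((2 * ‖c1 z‖ * ‖c2 z‖ : ℝ) : ℂ) * ex m‖ < 1 := by
      rw [norm_mul, ex_norm, mul_one, Complex.norm_real, Real.norm_of_nonneg r0.le]
      exact r1
    have hoff : ¬ OnKnot κ' (κ' (l - ((k * n : ℤ) : ℝ) * m, ((2 * ‖c1 z‖ * ‖c2 z‖ : ℝ) : ℂ) * ex m)) := by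
      rintro ⟨l', hl'⟩
      exact hv (hκ'.inj _ _ _ _ hvn (by simp) hl').1
    have hF1 := hF.near (l - ((k * n : ℤ) : ℝ) * m) m (2 * ‖c1 z‖ * ‖c2 z‖) r0 r1
    rw [sub_add_cancel] at hF1
    have hG1 : G (κ (l, ((2 * ‖c1 z‖ * ‖c2 z‖ : ℝ) : ℂ) * ex m)) =
        κ' (l - ((k * n : ℤ) : ℝ) * m, ((2 * ‖c1 z‖ * ‖c2 z‖ : ℝ) : ℂ) * ex m) := by
      rw [← hF1, hGF _ hoff]
    change D.A (κ' (l - ((k * n : ℤ) : ℝ) * m, ((2 * ‖c1 z‖ * ‖c2 z‖ : ℝ) : ℂ) * ex m), t - k * m) =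
      D.A (G (κ (l, ((2 * ‖c1 z‖ * ‖c2 z‖ : ℝ) : ℂ) * ex m)),
        t - k * θ (φ (κ (l, ((2 * ‖c1 z‖ * ‖c2 z‖ : ℝ) : ℂ) * ex m))))
    rw [hG1, hφ.near l m _ r0 r1]
    apply hAk
    rw [hθ _ (ex_norm m)]
  · intro z x t hf h1 hx
    exact D.disj z _ _ hf h1 (hG x hx).1
  · intro q
    rcases D.cover q with ⟨x, t, hx, rfl⟩ | ⟨z, hz, rfl⟩
    · left
      refine ⟨F x, t + k * θ (φ (F x)), hF.off x hx, ?_⟩
      change D.A (x, t) = D.A (G (F x), t + k * θ (φ (F x)) - k * θ (φ (F x)))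
      rw [hGF x hx, add_sub_cancel_right]
    · exact Or.inr ⟨z, hz, rfl⟩

end Pool.Agent.NHS
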