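import Pool.Agent.NHS.GcR
import Pool.Agent.RSG.BaA
import Pool.Agent.RSG.Base

/-!
# NHS/BaR: the unknot   (difficulty 3)

PROOF.  `RSG/BaA.lean`, `RSG/Base.lean` are the special case of the Gluck matrix (`base_unknot`; there also for all framings `k`, which
is not needed here: `k = 0`, `Q = id`).  `A (w, t) = pG (u ^ a₁ * ex (b₁ t)) (u ^ a₂ * ex (b₂ t)) (w₂ * ex (-n t))`, `u = w₁ / |w₁|`, `w₁, w₂` the complex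
coordinates of `w ∈ S3`; `OnKnot (std 0) w ↔ w₁ = 0`.  The unimodularity is used for the injectivity and the local inverse:
`ex m = u`, `ex t` are recovered from `c1 / |c1|` and `c2 / |c2|` by the inverse matrix.  Local diffeomorphism: adapt `bA_ld`, or: near a point
`A (w, t)` is `bA 0 n 0 (w', t')` with `u' = ex m'`, `m' = a₂ m + b₂ t`, `t' = (a₁ - a₂) m + (b₁ - b₂) t`, `w₁' = |w₁| u'`, `w₂' = w₂ ex (n (t' - t))` (`m` a smooth branch of the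
argument of `w₁`), and `(w, t) ↦ (w', t')` is a local diffeomorphism.
-/

open scoped Manifold ContDiff Topology
open Set Filter
open Complex (I)
open Pool.Agent.RSG

namespace Pool.Agent.NHS

/-- the chart -/
noncomputable def baR_A (a₁ b₁ a₂ b₂ n : ℤ) (q : S3 × ℝ) : S4 :=
  pG (ex (b₁ * q.2) * ((⟨q.1.1 0, q.1.1 1⟩ : ℂ) / ‖(⟨q.1.1 0, q.1.1 1⟩ : ℂ)‖) ^ a₁)
    (ex (b₂ * q.2) * ((⟨q.1.1 0, q.1.1 1⟩ : ℂ) / ‖(⟨q.1.1 0, q.1.1 1⟩ : ℂ)‖) ^ a₂)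
    ((⟨q.1.1 2, q.1.1 3⟩ : ℂ) * ex (-n * q.2))

theorem baR_eval (a₁ b₁ a₂ b₂ n : ℤ) (w : S3) (t : ℝ) {m : ℝ} {w₁ w₂ : ℂ}
    (h1 : (⟨w.1 0, w.1 1⟩ : ℂ) = w₁) (h2 : (⟨w.1 2, w.1 3⟩ : ℂ) = w₂) (h0 : w₁ ≠ 0) (hm : w₁ = ‖w₁‖ * ex m) :
    baR_A a₁ b₁ a₂ b₂ n (w, t) =
      pG (ex (a₁ * m + b₁ * t)) (ex (a₂ * m + b₂ * t)) (w₂ * ex (-n * t)) := by
  have hn : (‖w₁‖ : ℂ) ≠ 0 := by exact_mod_cast (norm_pos_iff.2 h0).ne'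
  have hu : w₁ / ‖w₁‖ = ex m := by
    rw [div_eq_iff hn, mul_comm]
    exact hm
  unfold baR_A
  dsimp only
  rw [h1, h2, hu, Base_zpow, Base_zpow, ← ex_add, ← ex_add, add_comm ((b₁ : ℝ) * t), add_comm ((b₂ : ℝ) * t)]

theorem baR_spec (a₁ b₁ a₂ b₂ n : ℤ) {w : S3} (t : ℝ) {m : ℝ} (h : (⟨w.1 0, w.1 1⟩ : ℂ) ≠ 0)
    (hm : (⟨w.1 0, w.1 1⟩ : ℂ) = ‖(⟨w.1 0, w.1 1⟩ : ℂ)‖ * ex m) :
    c1 (baR_A a₁ b₁ a₂ b₂ n (w, t)) ≠ 0 ∧ c2 (baR_A a₁ b₁ a₂ b₂ n (w, t)) ≠ 0 ∧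
    c1 (baR_A a₁ b₁ a₂ b₂ n (w, t)) = ‖c1 (baR_A a₁ b₁ a₂ b₂ n (w, t))‖ * ex (a₁ * m + b₁ * t) ∧
    c2 (baR_A a₁ b₁ a₂ b₂ n (w, t)) = ‖c2 (baR_A a₁ b₁ a₂ b₂ n (w, t))‖ * ex (a₂ * m + b₂ * t) ∧
    fh (baR_A a₁ b₁ a₂ b₂ n (w, t)) = (⟨w.1 2, w.1 3⟩ : ℂ) * ex (-n * t) ∧
    2 * ‖c1 (baR_A a₁ b₁ a₂ b₂ n (w, t))‖ * ‖c2 (baR_A a₁ b₁ a₂ b₂ n (w, t))‖ = ‖(⟨w.1 0, w.1 1⟩ : ℂ)‖ := by
  rw [baR_eval a₁ b₁ a₂ b₂ n w t rfl rfl h hm]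
  have hf0 : ‖(⟨w.1 2, w.1 3⟩ : ℂ) * ex (-n * t)‖ = ‖(⟨w.1 2, w.1 3⟩ : ℂ)‖ := by
    rw [norm_mul, ex_norm, mul_one]
  have hf : ‖(⟨w.1 2, w.1 3⟩ : ℂ) * ex (-n * t)‖ < 1 := by rw [hf0]; exact BaA_w2 h
  obtain ⟨e1, e2, e3, e4, e5⟩ := pG_dir (ex_norm (a₁ * m + b₁ * t)) (ex_norm (a₂ * m + b₂ * t)) hf
  refine ⟨e1, e2, e3, e4, pG_fh (ex_norm _) (ex_norm _) hf, ?_⟩
  rw [e5, hf0]
  have h1 := S3_sq w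
  have e : 1 - ‖(⟨w.1 2, w.1 3⟩ : ℂ)‖ ^ 2 = ‖(⟨w.1 0, w.1 1⟩ : ℂ)‖ ^ 2 := by linarith
  rw [e, Real.sqrt_sq (norm_nonneg _)]

/-- a complex number and its angle -/
theorem baR_ang {v : ℂ} (h : v ≠ 0) : ∃ m : ℝ, v = ‖v‖ * ex m :=
  ⟨Complex.arg v / (2 * Real.pi), ex_arg.symm⟩

theorem baR_int {a₁ b₁ a₂ b₂ : ℤ} (hU : Uni a₁ b₁ a₂ b₂) {m t m' t' : ℝ} {k k' : ℤ}
    (h1 : (a₁ : ℝ) * m' + b₁ * t' = a₁ * m + b₁ * t + k) (h2 : (a₂ : ℝ) * m' + b₂ * t' = a₂ * m + b₂ * t + k') :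
    (∃ j : ℤ, m' = m + j) ∧ ∃ j : ℤ, t' = t + j := by
  rcases hU with hU | hU
  · have hU' : (a₁ : ℝ) * b₂ - a₂ * b₁ = 1 := by exact_mod_cast hU
    refine ⟨⟨b₂ * k - b₁ * k', ?_⟩, ⟨a₁ * k' - a₂ * k, ?_⟩⟩
    · push_cast
      linear_combination (b₂ : ℝ) * h1 - b₁ * h2 - (m' - m) * hU'
    · push_cast
      linear_combination (a₁ : ℝ) * h2 - a₂ * h1 - (t' - t) * hU'
  · have hU' : (a₁ : ℝ) * b₂ - a₂ * b₁ = -1 := by exact_mod_cast hU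
    refine ⟨⟨-(b₂ * k - b₁ * k'), ?_⟩, ⟨-(a₁ * k' - a₂ * k), ?_⟩⟩
    · push_cast
      linear_combination -((b₂ : ℝ) * h1 - b₁ * h2) + (m' - m) * hU'
    · push_cast
      linear_combination -((a₁ : ℝ) * h2 - a₂ * h1) + (t' - t) * hU'

theorem baR_det {a₁ b₁ a₂ b₂ : ℤ} (hU : Uni a₁ b₁ a₂ b₂) :
    ((a₁ : ℝ) * b₂ - a₂ * b₁) * ((a₁ : ℝ) * b₂ - a₂ * b₁) = 1 := by
  rcases hU with hU | hU
  · have hU' : (a₁ : ℝ) * b₂ - a₂ * b₁ = 1 := by exact_mod_cast hU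
    rw [hU']
    norm_num
  · have hU' : (a₁ : ℝ) * b₂ - a₂ * b₁ = -1 := by exact_mod_cast hU
    rw [hU']
    norm_num

theorem baR_per (a₁ b₁ a₂ b₂ n : ℤ) (w : S3) (t : ℝ) :
    baR_A a₁ b₁ a₂ b₂ n (w, t + 1) = baR_A a₁ b₁ a₂ b₂ n (w, t) := by
  unfold baR_A
  have e1 : ex ((b₁ : ℝ) * (t + 1)) = ex ((b₁ : ℝ) * t) := by
    rw [← ex_add_int ((b₁ : ℝ) * t) b₁]
    congr 1
    ring
  have e2 : ex ((b₂ : ℝ) * (t + 1)) = ex ((b₂ : ℝ) * t) := by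
    rw [← ex_add_int ((b₂ : ℝ) * t) b₂]
    congr 1
    ring
  have e3 : ex (-(n : ℝ) * (t + 1)) = ex (-(n : ℝ) * t) := by
    rw [← ex_add_int (-(n : ℝ) * t) (-n)]
    congr 1
    push_cast
    ring
  simp only [e1, e2, e3]

theorem baR_inj {a₁ b₁ a₂ b₂ : ℤ} (n : ℤ) (hU : Uni a₁ b₁ a₂ b₂) {w w' : S3} {t t' : ℝ}
    (h : (⟨w.1 0, w.1 1⟩ : ℂ) ≠ 0) (h' : (⟨w'.1 0, w'.1 1⟩ : ℂ) ≠ 0)
    (he : baR_A a₁ b₁ a₂ b₂ n (w, t) = baR_A a₁ b₁ a₂ b₂ n (w', t')) :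
    w = w' ∧ ∃ m : ℤ, t' = t + m := by
  obtain ⟨m, hm⟩ := baR_ang h
  obtain ⟨m', hm'⟩ := baR_ang h'
  obtain ⟨p1, p2, p3, p4, p5, p6⟩ := baR_spec a₁ b₁ a₂ b₂ n t h hm
  obtain ⟨q1, q2, q3, q4, q5, q6⟩ := baR_spec a₁ b₁ a₂ b₂ n t' h' hm'
  rw [← he] at q1 q2 q3 q4 q5 q6
  obtain ⟨_, k, hk⟩ := ex_polar (norm_pos_iff.2 p1) (norm_pos_iff.2 q1) (p3.symm.trans q3)
  obtain ⟨_, k', hk'⟩ := ex_polar (norm_pos_iff.2 p2) (norm_pos_iff.2 q2) (p4.symm.trans q4)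
  obtain ⟨⟨i, hi⟩, ⟨j, hj⟩⟩ := baR_int hU hk hk'
  refine ⟨?_, j, hj⟩
  have e3 : ex (-(n : ℝ) * t') = ex (-(n : ℝ) * t) := by
    rw [← ex_add_int (-(n : ℝ) * t) (-n * j), hj]
    congr 1
    push_cast
    ring
  rw [e3] at q5
  apply BaA_ext
  · have hn : ‖(⟨w.1 0, w.1 1⟩ : ℂ)‖ = ‖(⟨w'.1 0, w'.1 1⟩ : ℂ)‖ := p6.symm.trans q6
    rw [hm, hm', ← hn, hi, ex_add_int]
  · exact mul_right_cancel₀ (ex_ne _) (p5.symm.trans q5)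

theorem baR_arg {c c₀ : ℂ} {x₀ : ℝ} (hc₀ : c₀ ≠ 0) (h₀ : c₀ = ‖c₀‖ * ex x₀) :
    c = ‖c‖ * ex (x₀ + (Complex.log (c / c₀)).im / (2 * Real.pi)) := by
  have q1 : (‖c / c₀‖ : ℂ) * ex (Complex.arg (c / c₀) / (2 * Real.pi)) = c / c₀ := ex_arg
  have n0 : (‖c₀‖ : ℂ) ≠ 0 := by exact_mod_cast (norm_pos_iff.2 hc₀).ne'
  rw [Complex.log_im, ex_add]
  have q2 : c = (c / c₀) * c₀ := (div_mul_cancel₀ _ hc₀).symm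
  have q3 : (‖c‖ : ℂ) = (‖c / c₀‖ : ℂ) * (‖c₀‖ : ℂ) := by
    rw [norm_div]
    push_cast
    field_simp
  calc c = (c / c₀) * c₀ := q2
    _ = ((‖c / c₀‖ : ℂ) * ex (Complex.arg (c / c₀) / (2 * Real.pi))) * ((‖c₀‖ : ℂ) * ex x₀) := by rw [q1, ← h₀]
    _ = ((‖c / c₀‖ : ℂ) * (‖c₀‖ : ℂ)) * (ex x₀ * ex (Complex.arg (c / c₀) / (2 * Real.pi))) := by ring
    _ = _ := by rw [← q3]

theorem baR_arg' {c c₀ : ℂ} {x x₀ : ℝ} (hc : c ≠ 0) (hc₀ : c₀ ≠ 0) (h : c = ‖c‖ * ex x) (h₀ : c₀ = ‖c₀‖ * ex x₀)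
    (hx : |x - x₀| < 1 / 2) : x₀ + (Complex.log (c / c₀)).im / (2 * Real.pi) = x := by
  have n1 : 0 < ‖c‖ := norm_pos_iff.2 hc
  have n0 : 0 < ‖c₀‖ := norm_pos_iff.2 hc₀
  have m0 : (‖c₀‖ : ℂ) ≠ 0 := by exact_mod_cast n0.ne'
  have e : c / c₀ = ((‖c‖ / ‖c₀‖ : ℝ) : ℂ) * ex (x - x₀) := by
    have e1 : ex x = ex (x - x₀) * ex x₀ := by rw [← ex_add]; congr 1; ring
    have he := ex_ne x₀
    rw [div_eq_iff hc₀]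
    calc c = ‖c‖ * ex x := h
      _ = ((‖c‖ / ‖c₀‖ : ℝ) : ℂ) * ex (x - x₀) * ((‖c₀‖ : ℂ) * ex x₀) := by
        rw [e1]
        push_cast
        field_simp
      _ = ((‖c‖ / ‖c₀‖ : ℝ) : ℂ) * ex (x - x₀) * c₀ := by rw [← h₀]
  rw [e, ex_log (by positivity) (by linarith [(abs_lt.1 hx).1]) (abs_lt.1 hx).2]
  have := Real.pi_pos
  field_simp
  ring

/-- smooth branch of an angle -/
theorem baR_log_smooth {V : Type*} [NormedAddCommGroup V] [NormedSpace ℝ V] {H : Type*}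
    [TopologicalSpace H] {J : ModelWithCorners ℝ V H} {M : Type*} [TopologicalSpace M]
    [ChartedSpace H M] {x : M} {c : M → ℂ} (hc : ContMDiffAt J 𝓘(ℝ, ℂ) ∞ c x) (c₀ : ℂ) (x₀ : ℝ)
    (h : c x / c₀ ∈ Complex.slitPlane) :
    ContMDiffAt J 𝓘(ℝ, ℝ) ∞ (fun y => x₀ + (Complex.log (c y / c₀)).im / (2 * Real.pi)) x := by
  have h3 : ContDiffAt ℝ ∞ (fun q : ℂ => x₀ + (Complex.log (q / c₀)).im / (2 * Real.pi)) (c x) := by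
    have h4 : ContDiffAt ℝ ∞ (fun q : ℂ => Complex.log (q / c₀)) (c x) := by
      have h5 : ContDiffAt ℝ ∞ Complex.log (c x / c₀) := (Complex.contDiffAt_log h).restrict_scalars ℝ
      exact ContDiffAt.comp (f := fun q : ℂ => q / c₀) (c x) h5 (contDiffAt_id.div_const _)
    exact contDiffAt_const.add ((Complex.imCLM.contDiff.contDiffAt.comp _ h4).div_const _)
  exact BaA_comp (f := fun q : ℂ => x₀ + (Complex.log (q / c₀)).im / (2 * Real.pi)) hc h3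

/-- the angles -/
noncomputable def baR_x (c₀ : ℂ) (x₀ : ℝ) (z : S4) : ℝ := x₀ + (Complex.log (c1 z / c₀)).im / (2 * Real.pi)
/-- the angles -/
noncomputable def baR_y (c₀ : ℂ) (x₀ : ℝ) (z : S4) : ℝ := x₀ + (Complex.log (c2 z / c₀)).im / (2 * Real.pi)
/-- the angles -/
noncomputable def baR_M (a₁ b₁ a₂ b₂ : ℤ) (x y : ℝ) : ℝ := ((a₁ : ℝ) * b₂ - a₂ * b₁) * (b₂ * x - b₁ * y)
/-- the angles -/
noncomputable def baR_T (a₁ b₁ a₂ b₂ : ℤ) (x y : ℝ) : ℝ := ((a₁ : ℝ) * b₂ - a₂ * b₁) * (a₁ * y - a₂ * x)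

theorem baR_MT {a₁ b₁ a₂ b₂ : ℤ} (hU : Uni a₁ b₁ a₂ b₂) (x y : ℝ) :
    (a₁ : ℝ) * baR_M a₁ b₁ a₂ b₂ x y + b₁ * baR_T a₁ b₁ a₂ b₂ x y = x ∧
    (a₂ : ℝ) * baR_M a₁ b₁ a₂ b₂ x y + b₂ * baR_T a₁ b₁ a₂ b₂ x y = y := by
  have h := baR_det hU
  unfold baR_M baR_T
  constructor
  · linear_combination x * h
  · linear_combination y * h

theorem baR_MT' {a₁ b₁ a₂ b₂ : ℤ} (hU : Uni a₁ b₁ a₂ b₂) (m t : ℝ) :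
    baR_M a₁ b₁ a₂ b₂ (a₁ * m + b₁ * t) (a₂ * m + b₂ * t) = m ∧
    baR_T a₁ b₁ a₂ b₂ (a₁ * m + b₁ * t) (a₂ * m + b₂ * t) = t := by
  have h := baR_det hU
  unfold baR_M baR_T
  constructor
  · linear_combination m * h
  · linear_combination t * h

/-- the local inverse -/
noncomputable def baR_inv (a₁ b₁ a₂ b₂ n : ℤ) (z₀ : S4) (x₀ y₀ : ℝ) (z : S4) : S3 × ℝ :=
  (pS3 (((2 : ℝ) : ℂ) * ‖c1 z‖ * ‖c2 z‖ * ex (1 * baR_M a₁ b₁ a₂ b₂ (baR_x (c1 z₀) x₀ z) (baR_y (c2 z₀) y₀ z)))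
    (fh z * ex (n * baR_T a₁ b₁ a₂ b₂ (baR_x (c1 z₀) x₀ z) (baR_y (c2 z₀) y₀ z))),
    baR_T a₁ b₁ a₂ b₂ (baR_x (c1 z₀) x₀ z) (baR_y (c2 z₀) y₀ z))

theorem baR_inv_smooth (a₁ b₁ a₂ b₂ n : ℤ) {z₀ z : S4} (x₀ y₀ : ℝ) (h1 : c1 z ≠ 0) (h2 : c2 z ≠ 0)
    (h3 : c1 z / c1 z₀ ∈ Complex.slitPlane) (h4 : c2 z / c2 z₀ ∈ Complex.slitPlane) :
    ContMDiffAt (𝓡 4) ((𝓡 3).prod 𝓘(ℝ, ℝ)) ∞ (baR_inv a₁ b₁ a₂ b₂ n z₀ x₀ y₀) z := by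
  have m1 := c1_smooth.contMDiffAt (x := z)
  have m2 := c2_smooth.contMDiffAt (x := z)
  have mf := fh_smooth.contMDiffAt (x := z)
  have hx : ContMDiffAt (𝓡 4) 𝓘(ℝ, ℝ) ∞ (baR_x (c1 z₀) x₀) z := baR_log_smooth m1 _ _ h3
  have hy : ContMDiffAt (𝓡 4) 𝓘(ℝ, ℝ) ∞ (baR_y (c2 z₀) y₀) z := baR_log_smooth m2 _ _ h4
  have hM : ContMDiffAt (𝓡 4) 𝓘(ℝ, ℝ) ∞
      (fun z => baR_M a₁ b₁ a₂ b₂ (baR_x (c1 z₀) x₀ z) (baR_y (c2 z₀) y₀ z)) z := by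
    have h5 : ContDiff ℝ ∞ (fun q : ℝ × ℝ => baR_M a₁ b₁ a₂ b₂ q.1 q.2) := by
      unfold baR_M
      fun_prop
    exact h5.contDiffAt.contMDiffAt.comp z (hx.prodMk_space hy)
  have hT : ContMDiffAt (𝓡 4) 𝓘(ℝ, ℝ) ∞
      (fun z => baR_T a₁ b₁ a₂ b₂ (baR_x (c1 z₀) x₀ z) (baR_y (c2 z₀) y₀ z)) z := by
    have h5 : ContDiff ℝ ∞ (fun q : ℝ × ℝ => baR_T a₁ b₁ a₂ b₂ q.1 q.2) := by
      unfold baR_T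
      fun_prop
    exact h5.contDiffAt.contMDiffAt.comp z (hx.prodMk_space hy)
  have ha := BaA_mul (BaA_mul (BaA_mul (contMDiffAt_const (c := ((2 : ℝ) : ℂ)))
    (BaA_nrm m1 h1)) (BaA_nrm m2 h2)) (BaA_exm hM 1)
  have hb := BaA_mul mf (BaA_exm hT (n : ℝ))
  refine ContMDiffAt.prodMk (pS3_smooth ha hb ?_) hT
  have h6 : ((2 : ℝ) : ℂ) * ‖c1 z‖ * ‖c2 z‖ *
      ex (1 * baR_M a₁ b₁ a₂ b₂ (baR_x (c1 z₀) x₀ z) (baR_y (c2 z₀) y₀ z)) ≠ 0 := by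
    have k1 : (‖c1 z‖ : ℂ) ≠ 0 := by exact_mod_cast (norm_pos_iff.2 h1).ne'
    have k2 : (‖c2 z‖ : ℂ) ≠ 0 := by exact_mod_cast (norm_pos_iff.2 h2).ne'
    have k4 : ((2 : ℝ) : ℂ) ≠ 0 := by norm_num
    exact mul_ne_zero (mul_ne_zero (mul_ne_zero k4 k1) k2) (ex_ne _)
  have := norm_pos_iff.2 h6
  positivity

theorem baR_smooth (a₁ b₁ a₂ b₂ n : ℤ) {w : S3} (t : ℝ) (h : (⟨w.1 0, w.1 1⟩ : ℂ) ≠ 0) :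
    ContMDiffAt ((𝓡 3).prod 𝓘(ℝ, ℝ)) (𝓡 4) ∞ (baR_A a₁ b₁ a₂ b₂ n) (w, t) := by
  have s1 : ContMDiffAt ((𝓡 3).prod 𝓘(ℝ, ℝ)) 𝓘(ℝ, ℂ) ∞
      (fun q : S3 × ℝ => (⟨q.1.1 0, q.1.1 1⟩ : ℂ)) (w, t) :=
    S3c_smooth.1.contMDiffAt.comp (w, t) contMDiffAt_fst
  have s2 : ContMDiffAt ((𝓡 3).prod 𝓘(ℝ, ℝ)) 𝓘(ℝ, ℂ) ∞
      (fun q : S3 × ℝ => (⟨q.1.1 2, q.1.1 3⟩ : ℂ)) (w, t) :=
    S3c_smooth.2.contMDiffAt.comp (w, t) contMDiffAt_fst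
  have s3 : ContMDiffAt ((𝓡 3).prod 𝓘(ℝ, ℝ)) 𝓘(ℝ, ℝ) ∞
      (fun q : S3 × ℝ => q.2) (w, t) := contMDiffAt_snd
  have hz : ∀ a b : ℤ, ContMDiffAt ((𝓡 3).prod 𝓘(ℝ, ℝ)) 𝓘(ℝ, ℂ) ∞
      (fun q : S3 × ℝ => ex ((b : ℝ) * q.2) *
        ((⟨q.1.1 0, q.1.1 1⟩ : ℂ) / ‖(⟨q.1.1 0, q.1.1 1⟩ : ℂ)‖) ^ a) (w, t) := fun a b =>
    (BaQ_cd a (p := (ex ((b : ℝ) * t), (⟨w.1 0, w.1 1⟩ : ℂ))) h).contMDiffAt.comp (w, t)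
      ((BaA_exm s3 (b : ℝ)).prodMk_space s1)
  have hn : ∀ (a b : ℤ), ‖ex ((b : ℝ) * t) * ((⟨w.1 0, w.1 1⟩ : ℂ) / ‖(⟨w.1 0, w.1 1⟩ : ℂ)‖) ^ a‖ = 1 := by
    intro a b
    rw [norm_mul, ex_norm, norm_zpow, BaA_unit h, one_zpow, one_mul]
  refine pG_smooth (hz a₁ b₁) (hz a₂ b₂) (BaA_mul s2 (BaA_exm s3 _)) (hn a₁ b₁) (hn a₂ b₂) ?_
  rw [norm_mul, ex_norm, mul_one]
  exact BaA_w2 h

theorem baR_left {a₁ b₁ a₂ b₂ : ℤ} (n : ℤ) (hU : Uni a₁ b₁ a₂ b₂) {w₀ w : S3} {t₀ t m₀ m : ℝ}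
    (h0 : (⟨w₀.1 0, w₀.1 1⟩ : ℂ) ≠ 0) (h : (⟨w.1 0, w.1 1⟩ : ℂ) ≠ 0)
    (hm₀ : (⟨w₀.1 0, w₀.1 1⟩ : ℂ) = ‖(⟨w₀.1 0, w₀.1 1⟩ : ℂ)‖ * ex m₀)
    (hm : (⟨w.1 0, w.1 1⟩ : ℂ) = ‖(⟨w.1 0, w.1 1⟩ : ℂ)‖ * ex m)
    (h1 : |(a₁ * m + b₁ * t) - (a₁ * m₀ + b₁ * t₀)| < 1 / 2)
    (h2 : |(a₂ * m + b₂ * t) - (a₂ * m₀ + b₂ * t₀)| < 1 / 2) :
    baR_inv a₁ b₁ a₂ b₂ n (baR_A a₁ b₁ a₂ b₂ n (w₀, t₀)) (a₁ * m₀ + b₁ * t₀) (a₂ * m₀ + b₂ * t₀)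
      (baR_A a₁ b₁ a₂ b₂ n (w, t)) = (w, t) := by
  obtain ⟨p1, p2, p3, p4, p5, p6⟩ := baR_spec a₁ b₁ a₂ b₂ n t h hm
  obtain ⟨q1, q2, q3, q4, q5, q6⟩ := baR_spec a₁ b₁ a₂ b₂ n t₀ h0 hm₀
  set z := baR_A a₁ b₁ a₂ b₂ n (w, t)
  set z₀ := baR_A a₁ b₁ a₂ b₂ n (w₀, t₀)
  have hx : baR_x (c1 z₀) (a₁ * m₀ + b₁ * t₀) z = a₁ * m + b₁ * t := baR_arg' p1 q1 p3 q3 h1
  have hy : baR_y (c2 z₀) (a₂ * m₀ + b₂ * t₀) z = a₂ * m + b₂ * t := baR_arg' p2 q2 p4 q4 h2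
  obtain ⟨k1, k2⟩ := baR_MT' hU m t
  unfold baR_inv
  rw [hx, hy, k1, k2, p5, one_mul]
  have e2 : ex (-(n : ℝ) * t) * ex ((n : ℝ) * t) = 1 := by
    rw [← ex_add, show -(n : ℝ) * t + (n : ℝ) * t = 0 by ring, ex_zero]
  have f1 : ((2 : ℝ) : ℂ) * ‖c1 z‖ * ‖c2 z‖ * ex m = (⟨w.1 0, w.1 1⟩ : ℂ) := by
    have : ((2 : ℝ) : ℂ) * ‖c1 z‖ * ‖c2 z‖ = ((‖(⟨w.1 0, w.1 1⟩ : ℂ)‖ : ℝ) : ℂ) := by
      rw [← p6]; push_cast; ring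
    rw [this]
    exact hm.symm
  have f2 : (⟨w.1 2, w.1 3⟩ : ℂ) * ex (-(n : ℝ) * t) * ex ((n : ℝ) * t) = ⟨w.1 2, w.1 3⟩ := by
    rw [mul_assoc, e2, mul_one]
  rw [f1, f2, pS3_self]

theorem baR_right {a₁ b₁ a₂ b₂ : ℤ} (n : ℤ) (hU : Uni a₁ b₁ a₂ b₂) {z z₀ : S4} {x₀ y₀ : ℝ}
    (h1 : c1 z₀ ≠ 0) (h2 : c2 z₀ ≠ 0) (hx : c1 z₀ = ‖c1 z₀‖ * ex x₀) (hy : c2 z₀ = ‖c2 z₀‖ * ex y₀)
    (h3 : c1 z ≠ 0) (h4 : c2 z ≠ 0) :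
    baR_A a₁ b₁ a₂ b₂ n (baR_inv a₁ b₁ a₂ b₂ n z₀ x₀ y₀ z) = z := by
  have g1 : c1 z = ‖c1 z‖ * ex (baR_x (c1 z₀) x₀ z) := baR_arg h1 hx
  have g2 : c2 z = ‖c2 z‖ * ex (baR_y (c2 z₀) y₀ z) := baR_arg h2 hy
  set x := baR_x (c1 z₀) x₀ z with hxd
  set y := baR_y (c2 z₀) y₀ z with hyd
  set M := baR_M a₁ b₁ a₂ b₂ x y with hM
  set T := baR_T a₁ b₁ a₂ b₂ x y with hT
  obtain ⟨k1, k2⟩ := baR_MT hU x y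
  rw [← hM, ← hT] at k1 k2
  have n1 : 0 < ‖c1 z‖ := norm_pos_iff.2 h3
  have n2 : 0 < ‖c2 z‖ := norm_pos_iff.2 h4
  set a : ℂ := ((2 : ℝ) : ℂ) * ‖c1 z‖ * ‖c2 z‖ * ex (1 * M) with ha
  set b : ℂ := fh z * ex ((n : ℝ) * T) with hb
  have na : ‖a‖ = 2 * ‖c1 z‖ * ‖c2 z‖ := by
    rw [ha, norm_mul, ex_norm, mul_one]
    simp
  have nb : ‖b‖ = ‖fh z‖ := by rw [hb, norm_mul, ex_norm, mul_one]
  have hsum : ‖a‖ ^ 2 + ‖b‖ ^ 2 = 1 := by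
    rw [na, nb]
    have := fh_sq z
    linarith
  obtain ⟨s1, s2⟩ := pS3_c hsum
  have ha0 : a ≠ 0 := by
    rw [← norm_pos_iff, na]
    positivity
  have ham : a = ‖a‖ * ex M := by
    rw [na, ha, one_mul]
    push_cast
    ring
  have hinv : baR_inv a₁ b₁ a₂ b₂ n z₀ x₀ y₀ z = (pS3 a b, T) := rfl
  rw [hinv, baR_eval a₁ b₁ a₂ b₂ n (pS3 a b) T s1 s2 ha0 ham, k1, k2]
  have e3 : b * ex (-(n : ℝ) * T) = fh z := by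
    rw [hb, mul_assoc, ← ex_add, show (n : ℝ) * T + -(n : ℝ) * T = 0 by ring, ex_zero, mul_one]
  have m1 : (‖c1 z‖ : ℂ) ≠ 0 := by exact_mod_cast n1.ne'
  have m2 : (‖c2 z‖ : ℂ) ≠ 0 := by exact_mod_cast n2.ne'
  have e1 : ex x = c1 z / ‖c1 z‖ := by
    rw [eq_div_iff m1, mul_comm]
    exact g1.symm
  have e2 : ex y = c2 z / ‖c2 z‖ := by
    rw [eq_div_iff m2, mul_comm]
    exact g2.symm
  rw [e1, e2, e3]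
  exact pG_self h3 h4

theorem baR_ld {a₁ b₁ a₂ b₂ : ℤ} (n : ℤ) (hU : Uni a₁ b₁ a₂ b₂) {w : S3} (t : ℝ)
    (h : (⟨w.1 0, w.1 1⟩ : ℂ) ≠ 0) :
    IsLocalDiffeomorphAt ((𝓡 3).prod 𝓘(ℝ, ℝ)) (𝓡 4) ∞ (baR_A a₁ b₁ a₂ b₂ n) (w, t) := by
  obtain ⟨m, hm⟩ := baR_ang h
  obtain ⟨p1, p2, p3, p4, p5, p6⟩ := baR_spec a₁ b₁ a₂ b₂ n t h hm
  set z₀ := baR_A a₁ b₁ a₂ b₂ n (w, t) with hz₀
  set w₀ : ℂ := (⟨w.1 0, w.1 1⟩ : ℂ) with hw₀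
  have c0 : ContinuousAt (fun q : S3 × ℝ => (⟨q.1.1 0, q.1.1 1⟩ : ℂ)) (w, t) :=
    (S3c_smooth.1.continuous.comp continuous_fst).continuousAt
  have o1 : ∀ᶠ q : S3 × ℝ in 𝓝 (w, t), (⟨q.1.1 0, q.1.1 1⟩ : ℂ) ≠ 0 := c0.eventually_ne h
  have s1 : ContMDiffAt ((𝓡 3).prod 𝓘(ℝ, ℝ)) 𝓘(ℝ, ℂ) ∞
      (fun q : S3 × ℝ => (⟨q.1.1 0, q.1.1 1⟩ : ℂ)) (w, t) :=
    S3c_smooth.1.contMDiffAt.comp (w, t) contMDiffAt_fst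
  have hself : w₀ / w₀ ∈ Complex.slitPlane := by
    rw [div_self h]
    exact Complex.one_mem_slitPlane
  have cμ : ContinuousAt (fun q : S3 × ℝ => m +
      (Complex.log ((⟨q.1.1 0, q.1.1 1⟩ : ℂ) / w₀)).im / (2 * Real.pi)) (w, t) :=
    (baR_log_smooth s1 w₀ m hself).continuousAt
  have hμ0 : m + (Complex.log (w₀ / w₀)).im / (2 * Real.pi) = m := by
    rw [div_self h, Complex.log_one, Complex.zero_im, zero_div, add_zero]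
  have oo : ∀ a b : ℤ, ∀ᶠ q : S3 × ℝ in 𝓝 (w, t), |(a * (m +
      (Complex.log ((⟨q.1.1 0, q.1.1 1⟩ : ℂ) / w₀)).im / (2 * Real.pi)) + b * q.2) -
      (a * m + b * t)| < 1 / 2 := by
    intro a b
    have hc : ContinuousAt (fun q : S3 × ℝ => |(a * (m +
      (Complex.log ((⟨q.1.1 0, q.1.1 1⟩ : ℂ) / w₀)).im / (2 * Real.pi)) + b * q.2) -
      (a * m + b * t)|) (w, t) := by
      refine ContinuousAt.abs (ContinuousAt.sub (ContinuousAt.add (continuousAt_const.mul cμ)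
        (continuousAt_const.mul continuousAt_snd)) continuousAt_const)
    refine hc.eventually_lt continuousAt_const ?_
    change |((a : ℝ) * (m + (Complex.log (w₀ / w₀)).im / (2 * Real.pi)) + b * t) - (a * m + b * t)| < 1 / 2
    rw [hμ0, sub_self, abs_zero]
    norm_num
  have o3 : ∀ᶠ z : S4 in 𝓝 z₀, c1 z ≠ 0 := c1_smooth.continuous.continuousAt.eventually_ne p1
  have o4 : ∀ᶠ z : S4 in 𝓝 z₀, c2 z ≠ 0 := c2_smooth.continuous.continuousAt.eventually_ne p2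
  have o5 : ∀ᶠ z : S4 in 𝓝 z₀, c1 z / c1 z₀ ∈ Complex.slitPlane := by
    have hc : ContinuousAt (fun z : S4 => c1 z / c1 z₀) z₀ :=
      (c1_smooth.continuous.div_const _).continuousAt
    apply hc.eventually_mem
    apply Complex.isOpen_slitPlane.mem_nhds
    rw [div_self p1]
    exact Complex.one_mem_slitPlane
  have o6 : ∀ᶠ z : S4 in 𝓝 z₀, c2 z / c2 z₀ ∈ Complex.slitPlane := by
    have hc : ContinuousAt (fun z : S4 => c2 z / c2 z₀) z₀ :=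
      (c2_smooth.continuous.div_const _).continuousAt
    apply hc.eventually_mem
    apply Complex.isOpen_slitPlane.mem_nhds
    rw [div_self p2]
    exact Complex.one_mem_slitPlane
  refine ld_two (g := baR_inv a₁ b₁ a₂ b₂ n z₀ (a₁ * m + b₁ * t) (a₂ * m + b₂ * t)) ?_ ?_ ?_ ?_
  · filter_upwards [o1] with q hq using baR_smooth a₁ b₁ a₂ b₂ n q.2 hq
  · filter_upwards [o3, o4, o5, o6] with z h3 h4 h5 h6 using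
      baR_inv_smooth a₁ b₁ a₂ b₂ n _ _ h3 h4 h5 h6
  · filter_upwards [o1, oo a₁ b₁, oo a₂ b₂] with q hq1 hq2 hq3 using
      baR_left n hU h hq1 hm (baR_arg h hm) hq2 hq3
  · filter_upwards [o3, o4] with z h3 h4 using baR_right n hU p1 p2 p3 p4 h3 h4

theorem baR_glue (a₁ b₁ a₂ b₂ n : ℤ) (z : S4) (l m t : ℝ) (hf : fh z ≠ 0) (h1 : c1 z ≠ 0)
    (h2 : c2 z ≠ 0) (e1 : c1 z = ‖c1 z‖ * ex (a₁ * m + b₁ * t))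
    (e2 : c2 z = ‖c2 z‖ * ex (a₂ * m + b₂ * t)) (e3 : fh z = ‖fh z‖ * ex (l - n * t)) :
    z = baR_A a₁ b₁ a₂ b₂ n (std 0 (l, (2 * ‖c1 z‖ * ‖c2 z‖ : ℝ) * ex m), t) := by
  have p1 : 0 < ‖c1 z‖ := norm_pos_iff.2 h1
  have p2 : 0 < ‖c2 z‖ := norm_pos_iff.2 h2
  have p3 : 0 < ‖fh z‖ := norm_pos_iff.2 hf
  set r : ℝ := 2 * ‖c1 z‖ * ‖c2 z‖ with hr
  have hr0 : 0 < r := by positivity
  have hsq : ‖fh z‖ ^ 2 + r ^ 2 = 1 := fh_sq z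
  have hn : ‖(r : ℂ) * ex m‖ = r := by
    rw [norm_mul, ex_norm, mul_one, Complex.norm_real, Real.norm_of_nonneg hr0.le]
  have hq : Real.sqrt (1 - ‖(r : ℂ) * ex m‖ ^ 2) = ‖fh z‖ := by
    rw [hn, show 1 - r ^ 2 = ‖fh z‖ ^ 2 by linarith, Real.sqrt_sq p3.le]
  have hw : std 0 (l, (r : ℂ) * ex m) = pS3 ((r : ℂ) * ex m) ((‖fh z‖ : ℂ) * ex l) := by
    unfold std
    dsimp only
    rw [hq, Int.cast_zero, zero_mul, ex_zero, mul_one]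
  have hH : ‖(r : ℂ) * ex m‖ ^ 2 + ‖(‖fh z‖ : ℂ) * ex l‖ ^ 2 = 1 := by
    rw [hn, norm_mul, ex_norm, mul_one, Complex.norm_real, norm_norm]
    linarith
  obtain ⟨w1, w2⟩ := pS3_c hH
  have hne : (r : ℂ) * ex m ≠ 0 := by
    rw [← norm_pos_iff, hn]
    exact hr0
  rw [hw, baR_eval a₁ b₁ a₂ b₂ n _ t w1 w2 hne (by rw [hn])]
  have m1 : (‖c1 z‖ : ℂ) ≠ 0 := by exact_mod_cast p1.ne'
  have m2 : (‖c2 z‖ : ℂ) ≠ 0 := by exact_mod_cast p2.ne'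
  have f1 : ex (a₁ * m + b₁ * t) = c1 z / ‖c1 z‖ := by
    rw [eq_div_iff m1, mul_comm]
    exact e1.symm
  have f2 : ex (a₂ * m + b₂ * t) = c2 z / ‖c2 z‖ := by
    rw [eq_div_iff m2, mul_comm]
    exact e2.symm
  have f3 : (‖fh z‖ : ℂ) * ex l * ex (-(n : ℝ) * t) = fh z := by
    rw [mul_assoc, ← ex_add, show l + -(n : ℝ) * t = l - n * t by ring]
    exact e3.symm
  rw [f1, f2, f3]
  exact (pG_self h1 h2).symm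

theorem baseR {a₁ b₁ a₂ b₂ : ℤ} (n : ℤ) (hU : Uni a₁ b₁ a₂ b₂) : Nonempty (TwinData (std 0) a₁ b₁ a₂ b₂ n S4) := by
  refine ⟨{ A := baR_A a₁ b₁ a₂ b₂ n, Q := id, A_per := baR_per a₁ b₁ a₂ b₂ n, A_loc := ?_, A_inj := ?_,
            Q_loc := fun z _ => CSG.ld_id z, Q_inj := fun _ _ _ _ h => h, glue := ?_, disj := ?_, cover := ?_ }⟩
  · intro x t hx
    exact baR_ld n hU t fun h => hx ((std_knot 0 x).2 h)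
  · intro x x' t t' hx hx' he
    exact baR_inj n hU (fun h => hx ((std_knot 0 x).2 h)) (fun h => hx' ((std_knot 0 x').2 h)) he
  · intro z l m t hf h1 h2 e1 e2 e3
    exact baR_glue a₁ b₁ a₂ b₂ n z l m t hf h1 h2 e1 e2 e3
  · intro z x t hf hc hx he
    have hx0 : (⟨x.1 0, x.1 1⟩ : ℂ) ≠ 0 := fun h => hx ((std_knot 0 x).2 h)
    obtain ⟨m, hm⟩ := baR_ang hx0
    obtain ⟨q1, q2, _⟩ := baR_spec a₁ b₁ a₂ b₂ n t hx0 hm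
    rw [← he] at q1 q2
    rcases hc with h | h
    · exact q1 h
    · exact q2 h
  · intro q
    by_cases hf : fh q = 0
    · left
      have hsq := fh_sq q
      rw [hf, norm_zero] at hsq
      have h1 : c1 q ≠ 0 := by
        intro h; rw [h, norm_zero] at hsq; norm_num at hsq
      have h2 : c2 q ≠ 0 := by
        intro h; rw [h, norm_zero] at hsq; norm_num at hsq
      have m1 : (‖c1 q‖ : ℂ) ≠ 0 := by exact_mod_cast (norm_pos_iff.2 h1).ne'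
      have m2 : (‖c2 q‖ : ℂ) ≠ 0 := by exact_mod_cast (norm_pos_iff.2 h2).ne'
      obtain ⟨x1, hx1⟩ := baR_ang h1
      obtain ⟨x2, hx2⟩ := baR_ang h2
      obtain ⟨k1, k2⟩ := baR_MT hU x1 x2
      set M := baR_M a₁ b₁ a₂ b₂ x1 x2 with hM
      set T := baR_T a₁ b₁ a₂ b₂ x1 x2 with hT
      have hH : ‖ex M‖ ^ 2 + ‖(0 : ℂ)‖ ^ 2 = 1 := by
        rw [ex_norm, norm_zero]; norm_num
      obtain ⟨w1, w2⟩ := pS3_c hH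
      refine ⟨pS3 (ex M) 0, T, ?_, ?_⟩
      · rw [std_knot, w1]
        exact ex_ne _
      · have key := pG_self h1 h2
        have g1 : c1 q / ‖c1 q‖ = ex x1 := by
          rw [div_eq_iff m1, mul_comm]
          exact hx1
        have g2 : c2 q / ‖c2 q‖ = ex x2 := by
          rw [div_eq_iff m2, mul_comm]
          exact hx2
        rw [g1, g2, hf] at key
        rw [baR_eval a₁ b₁ a₂ b₂ n _ T w1 w2 (ex_ne _) (by rw [ex_norm, Complex.ofReal_one, one_mul]), k1, k2,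
          zero_mul]
        exact key.symm
    · right
      exact ⟨q, hf, rfl⟩

end Pool.Agent.NHS
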