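import Pool.Agent.NHS.Defs
import Pool.Agent.RSG.GcM

/-!
# NHS/GcR: the chart of the twin for a unimodular matrix   (difficulty 3)

`Ph a₁ b₁ a₂ b₂ n z l m t`: the phases of `z` are `a₁ m + b₁ t`, `a₂ m + b₂ t`, `l - n t`.
`GcR` is `RSG.Gc` for a general matrix (`RSG/GcM` is the special case `a₁ = 1, b₁ = 1 - j, a₂ = 1, b₂ = -j`; copy and adapt).

PROOFS.  `ph_exists`: `c1 z = ‖c1 z‖ ex x`, `c2 z = ‖c2 z‖ ex y`, `fh z = ‖fh z‖ ex w` (`ex_surj`, or `Complex.arg`; also if a number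
is `0`), solve `a₁ m + b₁ t = x`, `a₂ m + b₂ t = y` (determinant `±1`), `l = w + n t`.
`ph_unique`: `ex_polar` gives integers `a₁ (m' - m) + b₁ (t' - t)`, `a₂ (m' - m) + b₂ (t' - t)`; determinant `±1`: `m' - m`, `t' - t`
are integers; then `l' - l`.
`gcR_spec`: `v = ‖v‖ ex m`, so `v / ‖v‖ = ex m`, `(ex m) ^ a = ex (a m)`; `pG_dir`, `pG_fh` (as `Gc_spec`).
`gcR_eq`: `pG_self` (as `Gc_eq`).
`gcR_ld`: near `v₀` write `v = ‖v‖ ex (m (v))`, `m` a smooth branch of the argument.  With `t' = (a₁ - a₂) m + (b₁ - b₂) t`,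
`m' = a₂ m + b₂ t` we have `GcR (l, v, t) = Gc n 0 (l + n (t' - t), ‖v‖ ex m', t')` (`m' + t' = a₁ m + b₁ t`), and
`(l, v, t) ↦ (l + n (t' - t), ‖v‖ ex m', t')` is a local diffeomorphism for `v ≠ 0` (inverse: the inverse matrix; `ld_two`, or
polar coordinates); `RSG.Gc_ld`.  Or adapt the proof of `Gc_ld` directly.
-/

open scoped Manifold ContDiff Topology
open Set Filter
open Complex (I)
open Pool.Agent.RSG

namespace Pool.Agent.NHS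

/-- the phases of `z` -/
structure Ph (a₁ b₁ a₂ b₂ n : ℤ) (z : S4) (l m t : ℝ) : Prop where
  p1 : c1 z = ‖c1 z‖ * ex (a₁ * m + b₁ * t)
  p2 : c2 z = ‖c2 z‖ * ex (a₂ * m + b₂ * t)
  p3 : fh z = ‖fh z‖ * ex (l - n * t)

/-- the point of the twin which is glued to `(κ (l, v), t)` -/
noncomputable def GcR (a₁ b₁ a₂ b₂ n : ℤ) (q : ℝ × ℂ × ℝ) : S4 :=
  pG ((q.2.1 / ‖q.2.1‖) ^ a₁ * ex (b₁ * q.2.2)) ((q.2.1 / ‖q.2.1‖) ^ a₂ * ex (b₂ * q.2.2))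
    (Real.sqrt (1 - ‖q.2.1‖ ^ 2) * ex (q.1 - n * q.2.2))

variable {a₁ b₁ a₂ b₂ n : ℤ}

theorem gcr_zpow (m : ℝ) (a : ℤ) : (ex m) ^ a = ex (a * m) := by
  unfold ex
  rw [← Complex.exp_int_mul]
  congr 1
  push_cast
  ring

theorem gcr_dir {v : ℂ} (h0 : v ≠ 0) {m : ℝ} (hm : v = ‖v‖ * ex m) : v / (‖v‖ : ℂ) = ex m := by
  have hv : (‖v‖ : ℂ) ≠ 0 := by
    rw [Complex.ofReal_ne_zero]
    exact norm_ne_zero_iff.2 h0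
  rw [div_eq_iff hv, mul_comm]
  exact hm

theorem gcr_phase (v : ℂ) : ∃ m : ℝ, v = ‖v‖ * ex m := ⟨_, ex_arg.symm⟩

theorem ph_exists (hU : Uni a₁ b₁ a₂ b₂) (n : ℤ) (z : S4) : ∃ l m t : ℝ, Ph a₁ b₁ a₂ b₂ n z l m t := by
  obtain ⟨x, hx⟩ := gcr_phase (c1 z)
  obtain ⟨y, hy⟩ := gcr_phase (c2 z)
  obtain ⟨w, hw⟩ := gcr_phase (fh z)
  have hD : ∃ D : ℝ, D * ((a₁ : ℝ) * b₂ - a₂ * b₁) = 1 := by
    rcases hU with h | h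
    · refine ⟨1, ?_⟩
      have : (a₁ : ℝ) * b₂ - a₂ * b₁ = 1 := by exact_mod_cast h
      rw [this, one_mul]
    · refine ⟨-1, ?_⟩
      have : (a₁ : ℝ) * b₂ - a₂ * b₁ = -1 := by exact_mod_cast h
      rw [this]
      norm_num
  obtain ⟨D, hD⟩ := hD
  refine ⟨w + n * (D * (a₁ * y - a₂ * x)), D * (b₂ * x - b₁ * y), D * (a₁ * y - a₂ * x), ?_, ?_, ?_⟩
  · have e : (a₁ : ℝ) * (D * (b₂ * x - b₁ * y)) + b₁ * (D * (a₁ * y - a₂ * x)) = x := by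
      linear_combination x * hD
    rw [e]
    exact hx
  · have e : (a₂ : ℝ) * (D * (b₂ * x - b₁ * y)) + b₂ * (D * (a₁ * y - a₂ * x)) = y := by
      linear_combination y * hD
    rw [e]
    exact hy
  · have e : w + n * (D * (a₁ * y - a₂ * x)) - n * (D * (a₁ * y - a₂ * x)) = w := by ring
    rw [e]
    exact hw

theorem ph_unique (hU : Uni a₁ b₁ a₂ b₂) {z : S4} (hf : fh z ≠ 0) (h1 : c1 z ≠ 0) (h2 : c2 z ≠ 0) {l m t l' m' t' : ℝ}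
    (h : Ph a₁ b₁ a₂ b₂ n z l m t) (h' : Ph a₁ b₁ a₂ b₂ n z l' m' t') :
    (∃ k : ℤ, l' = l + k) ∧ (∃ k : ℤ, m' = m + k) ∧ ∃ k : ℤ, t' = t + k := by
  obtain ⟨-, k1, e1⟩ := ex_polar (norm_pos_iff.2 h1) (norm_pos_iff.2 h1) (h.p1.symm.trans h'.p1)
  obtain ⟨-, k2, e2⟩ := ex_polar (norm_pos_iff.2 h2) (norm_pos_iff.2 h2) (h.p2.symm.trans h'.p2)
  obtain ⟨-, k3, e3⟩ := ex_polar (norm_pos_iff.2 hf) (norm_pos_iff.2 hf) (h.p3.symm.trans h'.p3)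
  have hD : ∃ D : ℤ, (D : ℝ) * ((a₁ : ℝ) * b₂ - a₂ * b₁) = 1 := by
    rcases hU with h | h
    · refine ⟨1, ?_⟩
      have : (a₁ : ℝ) * b₂ - a₂ * b₁ = 1 := by exact_mod_cast h
      rw [this]
      norm_num
    · refine ⟨-1, ?_⟩
      have : (a₁ : ℝ) * b₂ - a₂ * b₁ = -1 := by exact_mod_cast h
      rw [this]
      norm_num
  obtain ⟨D, hD⟩ := hD
  have em : m' = m + ((D * (b₂ * k1 - b₁ * k2) : ℤ) : ℝ) := by
    push_cast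
    linear_combination (-(m' - m)) * hD + (D : ℝ) * b₂ * e1 - (D : ℝ) * b₁ * e2
  have et : t' = t + ((D * (a₁ * k2 - a₂ * k1) : ℤ) : ℝ) := by
    push_cast
    linear_combination (-(t' - t)) * hD + (D : ℝ) * a₁ * e2 - (D : ℝ) * a₂ * e1
  refine ⟨⟨n * (D * (a₁ * k2 - a₂ * k1)) + k3, ?_⟩, ⟨_, em⟩, ⟨_, et⟩⟩
  push_cast at et ⊢
  linear_combination e3 + (n : ℝ) * et

theorem gcr_norm {v : ℂ} (h0 : v ≠ 0) (a : ℤ) (x : ℝ) : ‖(v / (‖v‖ : ℂ)) ^ a * ex x‖ = 1 := by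
  obtain ⟨m, hm⟩ := gcr_phase v
  rw [gcr_dir h0 hm, gcr_zpow, norm_mul, ex_norm, ex_norm, mul_one]

theorem gcR_spec (a₁ b₁ a₂ b₂ n : ℤ) {l m t : ℝ} {v : ℂ} (h0 : v ≠ 0) (h1 : ‖v‖ < 1) (hm : v = ‖v‖ * ex m) :
    let z := GcR a₁ b₁ a₂ b₂ n (l, v, t)
    fh z ≠ 0 ∧ c1 z ≠ 0 ∧ c2 z ≠ 0 ∧ 2 * ‖c1 z‖ * ‖c2 z‖ = ‖v‖ ∧ Ph a₁ b₁ a₂ b₂ n z l m t := by
  intro z
  have n1 := gcr_norm h0 a₁ (b₁ * t)
  have n2 := gcr_norm h0 a₂ (b₂ * t)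
  have nf : ‖(Real.sqrt (1 - ‖v‖ ^ 2) : ℂ) * ex (l - n * t)‖ < 1 := by
    rw [GcM_nf]; exact GcM_sqrt_lt h0
  have hf : fh z = (Real.sqrt (1 - ‖v‖ ^ 2) : ℂ) * ex (l - n * t) := pG_fh n1 n2 nf
  have hd := pG_dir n1 n2 nf
  have hpos := GcM_sqrt_pos h1
  have hnf : ‖fh z‖ = Real.sqrt (1 - ‖v‖ ^ 2) := by rw [hf, GcM_nf]
  have e2 : z = pG (ex (a₁ * m + b₁ * t)) (ex (a₂ * m + b₂ * t))
      ((Real.sqrt (1 - ‖v‖ ^ 2) : ℂ) * ex (l - n * t)) := by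
    show pG _ _ _ = _
    simp only
    rw [gcr_dir h0 hm, gcr_zpow, gcr_zpow, ← ex_add, ← ex_add]
  have hd' := pG_dir (ex_norm (a₁ * m + b₁ * t)) (ex_norm (a₂ * m + b₂ * t)) nf
  rw [← e2] at hd'
  refine ⟨?_, hd.1, hd.2.1, ?_, ?_, ?_, ?_⟩
  · rw [← norm_pos_iff, hnf]; exact hpos
  · have h := hd.2.2.2.2
    rw [GcM_nf] at h
    have e : (1 : ℝ) - Real.sqrt (1 - ‖v‖ ^ 2) ^ 2 = ‖v‖ ^ 2 := by
      rw [Real.sq_sqrt (by nlinarith [norm_nonneg v])]; ring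
    rw [e, Real.sqrt_sq (norm_nonneg v)] at h
    exact h
  · exact hd'.2.2.1
  · exact hd'.2.2.2.1
  · rw [hnf, hf]

theorem gcR_eq {z : S4} {l m t : ℝ} (hf : fh z ≠ 0) (h1 : c1 z ≠ 0) (h2 : c2 z ≠ 0) (h : Ph a₁ b₁ a₂ b₂ n z l m t) :
    z = GcR a₁ b₁ a₂ b₂ n (l, (2 * ‖c1 z‖ * ‖c2 z‖ : ℝ) * ex m, t) := by
  obtain ⟨e1, e2, e3⟩ := h
  have p1 : 0 < ‖c1 z‖ := norm_pos_iff.2 h1
  have p2 : 0 < ‖c2 z‖ := norm_pos_iff.2 h2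
  set r : ℝ := 2 * ‖c1 z‖ * ‖c2 z‖ with hr
  have hr0 : 0 < r := by positivity
  have hn : ‖(r : ℂ) * ex m‖ = r := by
    rw [norm_mul, ex_norm, mul_one, Complex.norm_real, Real.norm_of_nonneg hr0.le]
  have hdir : (r : ℂ) * ex m / (‖(r : ℂ) * ex m‖ : ℂ) = ex m := by
    rw [hn]
    have : (r : ℂ) ≠ 0 := by exact_mod_cast hr0.ne'
    field_simp
  have hs : Real.sqrt (1 - ‖(r : ℂ) * ex m‖ ^ 2) = ‖fh z‖ := by
    rw [hn]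
    have := fh_sq z
    rw [← hr] at this
    have e : 1 - r ^ 2 = ‖fh z‖ ^ 2 := by linarith
    rw [e, Real.sqrt_sq (norm_nonneg _)]
  have u1 : c1 z / ‖c1 z‖ = (ex m) ^ a₁ * ex (b₁ * t) := by
    have hc : (‖c1 z‖ : ℂ) ≠ 0 := by exact_mod_cast p1.ne'
    rw [gcr_zpow, ← ex_add, div_eq_iff hc, mul_comm]
    exact e1
  have u2 : c2 z / ‖c2 z‖ = (ex m) ^ a₂ * ex (b₂ * t) := by
    have hc : (‖c2 z‖ : ℂ) ≠ 0 := by exact_mod_cast p2.ne'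
    rw [gcr_zpow, ← ex_add, div_eq_iff hc, mul_comm]
    exact e2
  show z = pG (_ * _) (_ * _) (_ * _)
  simp only [hdir, hs]
  rw [← u1, ← u2, ← e3]
  exact (pG_self h1 h2).symm

/-! ### the change of coordinates -/

/-- a branch of the angle -/
noncomputable def gcr_b (m₀ : ℝ) (v₀ v : ℂ) : ℝ := m₀ + (Complex.log (v / v₀)).im / (2 * Real.pi)

theorem gcr_b_spec {m₀ : ℝ} {v₀ : ℂ} (h0 : v₀ ≠ 0) (hm : v₀ = ‖v₀‖ * ex m₀) (v : ℂ) :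
    v = ‖v‖ * ex (gcr_b m₀ v₀ v) := by
  have h1 : v / v₀ = ‖v / v₀‖ * ex ((Complex.log (v / v₀)).im / (2 * Real.pi)) := by
    rw [Complex.log_im]
    exact ex_arg.symm
  have hn : ((‖v₀‖ : ℝ) : ℂ) ≠ 0 := by
    rw [Complex.ofReal_ne_zero]
    exact norm_ne_zero_iff.2 h0
  calc v = v / v₀ * v₀ := by rw [div_mul_cancel₀ _ h0]
    _ = (‖v / v₀‖ * ex ((Complex.log (v / v₀)).im / (2 * Real.pi))) * (‖v₀‖ * ex m₀) := by rw [← h1, ← hm]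
    _ = ‖v‖ * ex (gcr_b m₀ v₀ v) := by
      unfold gcr_b
      rw [ex_add, norm_div, Complex.ofReal_div]
      field_simp

theorem gcr_b_inv {m₀ : ℝ} {v₀ : ℂ} (h0 : v₀ ≠ 0) (hm : v₀ = ‖v₀‖ * ex m₀) {r m : ℝ} (hr : 0 < r)
    (h : |m - m₀| < 1 / 2) : gcr_b m₀ v₀ (r * ex m) = m := by
  have hn : 0 < ‖v₀‖ := norm_pos_iff.2 h0
  have e : (r : ℂ) * ex m / v₀ = ((r / ‖v₀‖ : ℝ) : ℂ) * ex (m - m₀) := by
    rw [div_eq_iff h0]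
    have hn' : ((‖v₀‖ : ℝ) : ℂ) ≠ 0 := by exact_mod_cast hn.ne'
    calc (r : ℂ) * ex m = (r : ℂ) * ex ((m - m₀) + m₀) := by rw [sub_add_cancel]
      _ = ((r / ‖v₀‖ : ℝ) : ℂ) * ex (m - m₀) * (‖v₀‖ * ex m₀) := by
        rw [ex_add, Complex.ofReal_div]
        field_simp
      _ = _ := by rw [← hm]
  unfold gcr_b
  rw [e, ex_log (by positivity) (by linarith [(abs_lt.1 h).1]) (abs_lt.1 h).2]
  field_simp
  ring

theorem gcr_b_self (m₀ : ℝ) {v₀ : ℂ} (h0 : v₀ ≠ 0) : gcr_b m₀ v₀ v₀ = m₀ := by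
  unfold gcr_b
  rw [div_self h0, Complex.log_one]
  simp

/-- a general change of coordinates -/
noncomputable def gcr_T (m₀ : ℝ) (v₀ : ℂ) (k₁ k₂ p₁ p₂ q₁ q₂ : ℝ) (a : ℝ × ℂ × ℝ) : ℝ × ℂ × ℝ :=
  (a.1 + (k₁ * gcr_b m₀ v₀ a.2.1 + k₂ * a.2.2), ‖a.2.1‖ * ex (p₁ * gcr_b m₀ v₀ a.2.1 + p₂ * a.2.2),
    q₁ * gcr_b m₀ v₀ a.2.1 + q₂ * a.2.2)

theorem gcr_b_smooth {m₀ : ℝ} {v₀ : ℂ} {a : ℝ × ℂ × ℝ} (h : a.2.1 / v₀ ∈ Complex.slitPlane) :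
    ContDiffAt ℝ ∞ (fun a : ℝ × ℂ × ℝ => gcr_b m₀ v₀ a.2.1) a := by
  have a2 : ContDiffAt ℝ ∞ (fun a : ℝ × ℂ × ℝ => a.2.1 / v₀) a := by
    simpa [div_eq_mul_inv] using (contDiff_snd.fst.contDiffAt (x := a)).mul (contDiffAt_const (c := v₀⁻¹))
  exact contDiffAt_const.add ((GcM_log_smooth a2 h).div_const _)

theorem gcr_T_smooth {m₀ : ℝ} {v₀ : ℂ} (k₁ k₂ p₁ p₂ q₁ q₂ : ℝ) {a : ℝ × ℂ × ℝ} (h0 : a.2.1 ≠ 0)
    (h : a.2.1 / v₀ ∈ Complex.slitPlane) : ContDiffAt ℝ ∞ (gcr_T m₀ v₀ k₁ k₂ p₁ p₂ q₁ q₂) a := by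
  have hb : ContDiffAt ℝ ∞ (fun a : ℝ × ℂ × ℝ => gcr_b m₀ v₀ a.2.1) a := gcr_b_smooth h
  have a1 : ContDiffAt ℝ ∞ (fun a : ℝ × ℂ × ℝ => a.1) a := contDiffAt_fst
  have a2 : ContDiffAt ℝ ∞ (fun a : ℝ × ℂ × ℝ => a.2.1) a := contDiff_snd.fst.contDiffAt
  have a3 : ContDiffAt ℝ ∞ (fun a : ℝ × ℂ × ℝ => a.2.2) a := contDiff_snd.snd.contDiffAt
  have lin : ∀ x y : ℝ, ContDiffAt ℝ ∞ (fun a : ℝ × ℂ × ℝ => x * gcr_b m₀ v₀ a.2.1 + y * a.2.2) a := fun x y =>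
    (contDiffAt_const.mul hb).add (contDiffAt_const.mul a3)
  exact (a1.add (lin k₁ k₂)).prodMk
    (((GcM_norm_smooth a2 h0).mul (ex_smooth.contDiffAt.comp a (lin p₁ p₂))).prodMk (lin q₁ q₂))

theorem gcR_ld (hU : Uni a₁ b₁ a₂ b₂) {l t : ℝ} {v : ℂ} (h0 : v ≠ 0) (h1 : ‖v‖ < 1) :
    IsLocalDiffeomorphAt 𝓘(ℝ, ℝ × ℂ × ℝ) (𝓡 4) ∞ (GcR a₁ b₁ a₂ b₂ n) (l, v, t) := by
  have hD : ∃ D : ℝ, D * ((a₁ : ℝ) * b₂ - a₂ * b₁) = 1 := by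
    rcases hU with h | h
    · refine ⟨1, ?_⟩
      have : (a₁ : ℝ) * b₂ - a₂ * b₁ = 1 := by exact_mod_cast h
      rw [this, one_mul]
    · refine ⟨-1, ?_⟩
      have : (a₁ : ℝ) * b₂ - a₂ * b₁ = -1 := by exact_mod_cast h
      rw [this]
      norm_num
  obtain ⟨D, hD⟩ := hD
  obtain ⟨m, hm⟩ := gcr_phase v
  have hv : 0 < ‖v‖ := norm_pos_iff.2 h0
  set M₀ : ℝ := a₂ * m + b₂ * t with hM₀
  set V₀ : ℂ := ‖v‖ * ex M₀ with hV₀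
  have hVn : ‖V₀‖ = ‖v‖ := by
    rw [hV₀, norm_mul, ex_norm, mul_one, Complex.norm_real, norm_norm]
  have hV0 : V₀ ≠ 0 := norm_pos_iff.1 (by rw [hVn]; exact hv)
  have hVm : V₀ = ‖V₀‖ * ex M₀ := by rw [hVn]
  -- the change of coordinates
  set f := gcr_T m v (n * (a₁ - a₂)) (n * (b₁ - b₂ - 1)) a₂ b₂ (a₁ - a₂) (b₁ - b₂) with hf
  set g := gcr_T M₀ V₀ (n * (D * (a₁ - a₂))) (n * (-(D * a₂)) - n) (-(D * (b₁ - b₂))) (D * b₂) (D * (a₁ - a₂))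
    (-(D * a₂)) with hg
  have hfx : f (l, v, t) = (l + (n * (a₁ - a₂) * m + n * (b₁ - b₂ - 1) * t), V₀, (a₁ - a₂) * m + (b₁ - b₂) * t) := by
    simp only [hf, gcr_T, gcr_b_self m h0, hV₀, hM₀]
  have A1 : ∀ᶠ a : ℝ × ℂ × ℝ in 𝓝 (l, v, t), a.2.1 ≠ 0 :=
    (continuous_snd.fst).continuousAt.eventually_ne h0
  have A2 : ∀ᶠ a : ℝ × ℂ × ℝ in 𝓝 (l, v, t), a.2.1 / v ∈ Complex.slitPlane := by
    have c : Continuous fun a : ℝ × ℂ × ℝ => a.2.1 / v := (continuous_snd.fst).div_const _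
    apply c.continuousAt.eventually_mem
    apply Complex.isOpen_slitPlane.mem_nhds
    show v / v ∈ _
    rw [div_self h0]
    exact Complex.one_mem_slitPlane
  have A3 : ∀ᶠ a : ℝ × ℂ × ℝ in 𝓝 (l, v, t), |a₂ * gcr_b m v a.2.1 + b₂ * a.2.2 - M₀| < 1 / 2 := by
    have c : ContinuousAt (fun a : ℝ × ℂ × ℝ => |a₂ * gcr_b m v a.2.1 + b₂ * a.2.2 - M₀|) (l, v, t) := by
      have h2 : ContinuousAt (fun a : ℝ × ℂ × ℝ => gcr_b m v a.2.1) (l, v, t) :=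
        (gcr_b_smooth (by rw [div_self h0]; exact Complex.one_mem_slitPlane)).continuousAt
      have h3 : ContinuousAt (fun a : ℝ × ℂ × ℝ => a.2.2) (l, v, t) := (continuous_snd.snd).continuousAt
      exact (((continuousAt_const.mul h2).add (continuousAt_const.mul h3)).sub continuousAt_const).abs
    apply c.eventually_lt continuousAt_const
    simp only [gcr_b_self m h0, hM₀, sub_self, abs_zero]
    norm_num
  have hfl : IsLocalDiffeomorphAt 𝓘(ℝ, ℝ × ℂ × ℝ) 𝓘(ℝ, ℝ × ℂ × ℝ) ∞ f (l, v, t) := by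
    refine ld_left (g := g) ?_ rfl ?_ ?_
    · filter_upwards [A1, A2] with a ha1 ha2
      exact gcr_T_smooth _ _ _ _ _ _ ha1 ha2
    · rw [hfx]
      refine (gcr_T_smooth _ _ _ _ _ _ hV0 ?_).differentiableAt (by simp)
      show V₀ / V₀ ∈ _
      rw [div_self hV0]
      exact Complex.one_mem_slitPlane
    · filter_upwards [A1, A3] with a ha1 ha3
      obtain ⟨l', v', t'⟩ := a
      simp only at ha1 ha3
      have hv' : 0 < ‖v'‖ := norm_pos_iff.2 ha1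
      set μ := gcr_b m v v' with hμ
      have hb := gcr_b_inv hV0 hVm hv' ha3
      have hvμ := gcr_b_spec h0 hm v'
      have hnV : ‖(‖v'‖ : ℂ) * ex (a₂ * μ + b₂ * t')‖ = ‖v'‖ := by
        rw [norm_mul, ex_norm, mul_one, Complex.norm_real, norm_norm]
      simp only [hf, hg, gcr_T, ← hμ]
      rw [hb, hnV]
      have et : D * (a₁ - a₂) * (a₂ * μ + b₂ * t') + -(D * a₂) * ((a₁ - a₂) * μ + (b₁ - b₂) * t') = t' := by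
        linear_combination t' * hD
      have em : -(D * (b₁ - b₂)) * (a₂ * μ + b₂ * t') + D * b₂ * ((a₁ - a₂) * μ + (b₁ - b₂) * t') = μ := by
        linear_combination μ * hD
      refine Prod.ext ?_ (Prod.ext ?_ ?_)
      · show l' + (n * (a₁ - a₂) * μ + n * (b₁ - b₂ - 1) * t') +
          (n * (D * (a₁ - a₂)) * (a₂ * μ + b₂ * t') + (n * (-(D * a₂)) - n) * ((a₁ - a₂) * μ + (b₁ - b₂) * t')) = l'
        linear_combination (n : ℝ) * et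
      · show (‖v'‖ : ℂ) * ex (-(D * (b₁ - b₂)) * (a₂ * μ + b₂ * t') + D * b₂ * ((a₁ - a₂) * μ + (b₁ - b₂) * t')) = v'
        rw [em]
        exact hvμ.symm
      · exact et
  have hG : IsLocalDiffeomorphAt 𝓘(ℝ, ℝ × ℂ × ℝ) (𝓡 4) ∞ (Gc n 0) (f (l, v, t)) := by
    rw [hfx]
    exact Gc_ld n 0 hV0 (by rw [hVn]; exact h1)
  have hcomp : IsLocalDiffeomorphAt 𝓘(ℝ, ℝ × ℂ × ℝ) (𝓡 4) ∞ (Gc n 0 ∘ f) (l, v, t) :=
    IsLocalDiffeomorphAt.comp (hf := hfl) (hg := hG) ..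
  refine CSG.ld_congr hcomp ?_
  filter_upwards [A1] with a ha
  obtain ⟨l', v', t'⟩ := a
  simp only at ha
  have hv' : 0 < ‖v'‖ := norm_pos_iff.2 ha
  have hvμ := gcr_b_spec h0 hm v'
  set μ := gcr_b m v v' with hμ
  have hnV : ‖(‖v'‖ : ℂ) * ex (a₂ * μ + b₂ * t')‖ = ‖v'‖ := by
    rw [norm_mul, ex_norm, mul_one, Complex.norm_real, norm_norm]
  have hne : (‖v'‖ : ℂ) * ex (a₂ * μ + b₂ * t') ≠ 0 := norm_pos_iff.1 (by rw [hnV]; exact hv')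
  have hdV := gcr_dir hne (m := a₂ * μ + b₂ * t') (by rw [hnV])
  show pG _ _ _ = Gc n 0 (f (l', v', t'))
  simp only [hf, gcr_T, ← hμ, Gc]
  rw [hdV, hnV, gcr_dir ha hvμ, gcr_zpow, gcr_zpow, ← ex_add, ← ex_add, ← ex_add, ← ex_add]
  congr 1
  · congr 1
    push_cast
    ring
  · congr 1
    push_cast
    ring
  · congr 2
    ring

theorem gcR_per (l t : ℝ) (v : ℂ) (a c : ℤ) :
    GcR a₁ b₁ a₂ b₂ n (l + a, v, t + c) = GcR a₁ b₁ a₂ b₂ n (l, v, t) := by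
  have h1 : ∀ b : ℤ, ex (b * (t + c)) = ex (b * t) := by
    intro b
    have : (b : ℝ) * (t + c) = b * t + ((b * c : ℤ) : ℝ) := by push_cast; ring
    rw [this, ex_add_int]
  have h3 : ex (l + a - n * (t + c)) = ex (l - n * t) := by
    have : l + a - n * (t + c) = l - n * t + ((a - n * c : ℤ) : ℝ) := by push_cast; ring
    rw [this, ex_add_int]
  simp only [GcR, h1, h3]

/-- `GcR` is injective up to the periods -/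
theorem gcR_inj (hU : Uni a₁ b₁ a₂ b₂) {l t l' t' : ℝ} {v v' : ℂ} (h0 : v ≠ 0) (h1 : ‖v‖ < 1) (h0' : v' ≠ 0) (h1' : ‖v'‖ < 1)
    (h : GcR a₁ b₁ a₂ b₂ n (l, v, t) = GcR a₁ b₁ a₂ b₂ n (l', v', t')) :
    v = v' ∧ (∃ k : ℤ, l' = l + k) ∧ ∃ k : ℤ, t' = t + k := by
  obtain ⟨m, hm⟩ := gcr_phase v
  obtain ⟨m', hm'⟩ := gcr_phase v'
  obtain ⟨s1, s2, s3, s4, s5⟩ := gcR_spec a₁ b₁ a₂ b₂ n (l := l) (t := t) h0 h1 hm
  obtain ⟨-, -, -, s4', s5'⟩ := gcR_spec a₁ b₁ a₂ b₂ n (l := l') (t := t') h0' h1' hm'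
  rw [← h] at s4' s5'
  obtain ⟨k1, ⟨k, hk⟩, k3⟩ := ph_unique hU s1 s2 s3 s5 s5'
  refine ⟨?_, k1, k3⟩
  have hn : ‖v‖ = ‖v'‖ := s4.symm.trans s4'
  rw [hm, hm', hn, hk, ex_add_int]

end Pool.Agent.NHS
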