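import Pool.Agent.NHS.Prd
import Pool.Agent.NHS.GcR
import Pool.Agent.ACB.GluM

/-!
# NHS/Exs: twin manifolds exist   (difficulty 4)

PROOF.  `P, π` from `exists_prod`.  `ACB.glue_mfd` with `N := P`, `X₀ = P - torus`, `torus = {π (κ (l, 0), t)}` (compact, hence closed; `X₀` is not empty: it contains
`π (κ (0, 1/2), 0)`), and the twin `{z ∈ S4 | fh z ≠ 0}` moved to `E4` by the stereographic projection from a point `p₀` of the standard torus (`fh p₀ = 0`, e.g. the point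
`c1 = c2 = 1/√2`, `ht = 0`): `Y = stereo '' {fh ≠ 0}`, `Y₁ = stereo '' {fh ≠ 0, c1 ≠ 0, c2 ≠ 0}` (open: `stereographic'` is an `OpenPartialHomeomorph` with source `{p₀}ᶜ`, smooth with
smooth inverse), `θ y = π (κ (l, 2 |c1| |c2| ex m), t)` for the point `z = stereo.symm y` and any phases `l, m, t` of `z` (`ph_exists`, well defined by `ph_unique` and the
periodicities).  `θ` is a local diffeomorphism: `θ ∘ stereo ∘ GcR (l, v, t) = π (κ (l, v), t)` (`gcR_spec`, `gcR_ld`, `ld_of_comp_left`).  Injective: `gcR_inj`-type argument (if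
`θ y = θ y'` the phases and `2 |c1| |c2|` agree modulo integers, `z = z'` by `gcR_eq`, `gcR_per`).
Separation: `y ∈ Y - Y₁` corresponds to `z₀` with `c1 z₀ = 0` or `c2 z₀ = 0`, so `2 |c1| |c2| < δ` near `z₀`; for `x ∈ X₀` there is `δ > 0` and a neighbourhood `W` of `x` which does not
meet the compact set `{π (κ (l, v), t) | ‖v‖ ≤ δ}` (the intersection of these compact sets is the torus; if `x = π (κ (l, v), t)` with `0 < ‖v‖ < 1` take `δ = ‖v‖ / 2`, otherwise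
`δ = 1/2`).
Result: `V, A, B`; the twin data are `A' (x, t) = A (π (x, t))`, `Q z = B (stereo z)` (for `fh z ≠ 0`).
-/

open scoped Manifold ContDiff Topology
open Set Filter
open Pool.Agent.RSG

namespace Pool.Agent.NHS

theorem exs_pr {α : Type*} {f : ℝ → α} (h : ∀ x, f (x + 1) = f x) (x : ℝ) (m : ℤ) : f (x + m) = f x := by
  have h1 : Function.Periodic f 1 := h
  have := h1.int_mul m x
  simpa using this

theorem exs_asc (q : ℝ × ℂ × ℝ) : IsLocalDiffeomorphAt 𝓘(ℝ, ℝ × ℂ × ℝ) (𝓘(ℝ, ℝ × ℂ).prod 𝓘(ℝ, ℝ)) ∞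
    (fun q : ℝ × ℂ × ℝ => (((q.1, q.2.1), q.2.2) : (ℝ × ℂ) × ℝ)) q := by
  have h1 : ContMDiff 𝓘(ℝ, ℝ × ℂ × ℝ) (𝓘(ℝ, ℝ × ℂ).prod 𝓘(ℝ, ℝ)) ∞
      (fun q : ℝ × ℂ × ℝ => (((q.1, q.2.1), q.2.2) : (ℝ × ℂ) × ℝ)) := by
    have a1 : ContDiff ℝ ∞ (fun q : ℝ × ℂ × ℝ => ((q.1, q.2.1) : ℝ × ℂ)) := by fun_prop
    have a2 : ContDiff ℝ ∞ (fun q : ℝ × ℂ × ℝ => q.2.2) := by fun_prop
    exact a1.contMDiff.prodMk a2.contMDiff
  have h2 : ContMDiff (𝓘(ℝ, ℝ × ℂ).prod 𝓘(ℝ, ℝ)) 𝓘(ℝ, ℝ × ℂ × ℝ) ∞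
      (fun q : (ℝ × ℂ) × ℝ => ((q.1.1, q.1.2, q.2) : ℝ × ℂ × ℝ)) := by
    have a1 : ContDiff ℝ ∞ (fun q : (ℝ × ℂ) × ℝ => ((q.1.1, q.1.2, q.2) : ℝ × ℂ × ℝ)) := by fun_prop
    have a2 := a1.contMDiff
    rw [modelWithCornersSelf_prod, ← chartedSpaceSelf_prod] at a2
    exact a2
  refine ld_two (g := fun q : (ℝ × ℂ) × ℝ => ((q.1.1, q.1.2, q.2) : ℝ × ℂ × ℝ)) ?_ ?_ ?_ ?_
  · exact Eventually.of_forall fun w => h1 w
  · exact Eventually.of_forall fun w => h2 w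
  · exact Eventually.of_forall fun w => rfl
  · exact Eventually.of_forall fun w => rfl

section top
variable {N : Type} [TopologicalSpace N] [ChartedSpace E3 N] {P : Type} [TopologicalSpace P] [ChartedSpace E4 P]
  {π : N × ℝ → P} {κ : ℝ × ℂ → N}

/-- the thick torus of `P` -/
def exs_G (π : N × ℝ → P) (κ : ℝ × ℂ → N) (q : ℝ × ℂ × ℝ) : P := π (κ (q.1, q.2.1), q.2.2)

theorem exs_Gld (hP : Prod4 π) (hκ : Thick κ) (l t : ℝ) {v : ℂ} (hv : ‖v‖ < 1) :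
    IsLocalDiffeomorphAt 𝓘(ℝ, ℝ × ℂ × ℝ) (𝓡 4) ∞ (exs_G π κ) (l, v, t) := by
  have h1 := exs_asc (l, v, t)
  have h2 : IsLocalDiffeomorphAt (𝓘(ℝ, ℝ × ℂ).prod 𝓘(ℝ, ℝ)) ((𝓡 3).prod 𝓘(ℝ, ℝ)) ∞ (Prod.map κ (id : ℝ → ℝ))
      ((l, v), t) := ld_prodMap (hκ.loc l v hv) (CSG.ld_id t)
  have h3 : IsLocalDiffeomorphAt ((𝓡 3).prod 𝓘(ℝ, ℝ)) (𝓡 4) ∞ π (Prod.map κ (id : ℝ → ℝ) ((l, v), t)) :=
    hP.loc (κ (l, v)) t
  have h4 : IsLocalDiffeomorphAt 𝓘(ℝ, ℝ × ℂ × ℝ) ((𝓡 3).prod 𝓘(ℝ, ℝ)) ∞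
      (Prod.map κ (id : ℝ → ℝ) ∘ fun q : ℝ × ℂ × ℝ => (((q.1, q.2.1), q.2.2) : (ℝ × ℂ) × ℝ)) (l, v, t) :=
    IsLocalDiffeomorphAt.comp (hf := h1) (hg := h2) ..
  exact IsLocalDiffeomorphAt.comp (hf := h4) (hg := h3) ..

theorem exs_Gper (hP : Prod4 π) (hκ : Thick κ) (l t : ℝ) (v : ℂ) (a c : ℤ) :
    exs_G π κ (l + a, v, t + c) = exs_G π κ (l, v, t) := by
  unfold exs_G
  dsimp only
  have h1 : κ (l + a, v) = κ (l, v) := exs_pr (f := fun x => κ (x, v)) (fun x => hκ.per x v) l a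
  rw [h1]
  exact exs_pr (f := fun x => π (κ (l, v), x)) (fun x => hP.per _ x) t c

theorem exs_Ginj (hP : Prod4 π) (hκ : Thick κ) {l t l' t' : ℝ} {v v' : ℂ} (hv : ‖v‖ < 1) (hv' : ‖v'‖ < 1)
    (h : exs_G π κ (l, v, t) = exs_G π κ (l', v', t')) :
    v = v' ∧ (∃ a : ℤ, l' = l + a) ∧ ∃ c : ℤ, t' = t + c := by
  obtain ⟨h1, h2⟩ := hP.inj _ _ _ _ h
  obtain ⟨h3, h4⟩ := hκ.inj _ _ _ _ hv hv' h1
  exact ⟨h3, h4, h2⟩

/-- compact neighbourhoods of the torus -/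
def exs_C (π : N × ℝ → P) (κ : ℝ × ℂ → N) (δ : ℝ) : Set P := {p | ∃ (l t : ℝ) (v : ℂ), ‖v‖ ≤ δ ∧ p = exs_G π κ (l, v, t)}

theorem exs_cpt (hP : Prod4 π) (hκ : Thick κ) {δ : ℝ} (hδ : δ < 1) : IsCompact (exs_C π κ δ) := by
  have h1 : exs_C π κ δ = exs_G π κ '' (Icc (0 : ℝ) 1 ×ˢ Metric.closedBall (0 : ℂ) δ ×ˢ Icc (0 : ℝ) 1) := by
    apply Subset.antisymm
    · rintro p ⟨l, t, v, hv, rfl⟩
      refine ⟨(Int.fract l, v, Int.fract t), ⟨⟨Int.fract_nonneg l, (Int.fract_lt_one l).le⟩, ?_,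
        ⟨Int.fract_nonneg t, (Int.fract_lt_one t).le⟩⟩, ?_⟩
      · rw [mem_closedBall_zero_iff]
        exact hv
      · have h2 := exs_Gper hP hκ (Int.fract l) (Int.fract t) v ⌊l⌋ ⌊t⌋
        rw [Int.fract_add_floor, Int.fract_add_floor] at h2
        exact h2.symm
    · rintro _ ⟨⟨l, v, t⟩, ⟨-, hv, -⟩, rfl⟩
      rw [mem_closedBall_zero_iff] at hv
      exact ⟨l, t, v, hv, rfl⟩
  rw [h1]
  refine (isCompact_Icc.prod ((isCompact_closedBall _ _).prod isCompact_Icc)).image_of_continuousOn ?_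
  rintro ⟨l, v, t⟩ ⟨-, hv, -⟩
  rw [mem_closedBall_zero_iff] at hv
  exact (exs_Gld hP hκ l t (lt_of_le_of_lt hv hδ)).contMDiffAt.continuousAt.continuousWithinAt

/-- points off the torus -/
theorem exs_off (hP : Prod4 π) (hκ : Thick κ) {x : P} (hx : x ∉ exs_C π κ 0) : ∃ δ : ℝ, 0 < δ ∧ δ < 1 ∧ x ∉ exs_C π κ δ := by
  by_cases h : x ∈ exs_C π κ (1 / 2)
  · obtain ⟨l, t, v, hv, rfl⟩ := h
    have h0 : v ≠ 0 := by
      intro h0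
      apply hx
      exact ⟨l, t, v, by rw [h0, norm_zero], rfl⟩
    have hp : 0 < ‖v‖ := norm_pos_iff.2 h0
    refine ⟨‖v‖ / 2, by positivity, by linarith, ?_⟩
    rintro ⟨l', t', v', hv', he⟩
    have h1 := (exs_Ginj hP hκ (by linarith) (by linarith) he).1
    rw [← h1] at hv'
    linarith
  · exact ⟨1 / 2, by norm_num, by norm_num, h⟩

theorem exs_knot (hP : Prod4 π) {x : N} {t : ℝ} : π (x, t) ∈ exs_C π κ 0 ↔ OnKnot κ x := by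
  constructor
  · rintro ⟨l, t', v, hv, he⟩
    have hv0 : v = 0 := norm_le_zero_iff.1 hv
    rw [hv0] at he
    exact ⟨l, (hP.inj _ _ _ _ he).1⟩
  · rintro ⟨l, rfl⟩
    exact ⟨l, t, 0, by rw [norm_zero], rfl⟩

end top

/-! ## the stereographic projection -/

theorem exs_p₀ : ∃ p : S4, fh p = 0 := by
  have h1 : ‖((Real.sqrt (1 / 2) : ℝ) : ℂ)‖ ^ 2 = 1 / 2 := by
    rw [Complex.norm_real, Real.norm_eq_abs, sq_abs, Real.sq_sqrt (by norm_num)]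
  obtain ⟨e1, e2, e3⟩ := pS4_c (a := ((Real.sqrt (1 / 2) : ℝ) : ℂ)) (b := ((Real.sqrt (1 / 2) : ℝ) : ℂ)) (h := 0)
    (by rw [h1]; norm_num)
  refine ⟨pS4 ((Real.sqrt (1 / 2) : ℝ) : ℂ) ((Real.sqrt (1 / 2) : ℝ) : ℂ) 0, ?_⟩
  unfold fh
  rw [e1, e2, e3]
  apply Complex.ext
  · show _ - _ = (0 : ℝ)
    ring
  · show (0 : ℝ) * _ = 0
    ring

theorem exs_fact : Fact (Module.finrank ℝ E5 = 4 + 1) := Fact.mk (@finrank_euclideanSpace_fin ℝ _ (4 + 1))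

/-- the stereographic projection from the point `p` -/
noncomputable def exs_σ (p : S4) : OpenPartialHomeomorph S4 E4 :=
  have := exs_fact
  stereographic' 4 p

theorem exs_src (p : S4) : (exs_σ p).source = {p}ᶜ := by
  have := exs_fact
  exact stereographic'_source (n := 4) p

theorem exs_tgt (p : S4) : (exs_σ p).target = univ := by
  have := exs_fact
  exact stereographic'_target (n := 4) p

theorem exs_σld (p : S4) {z : S4} (h : z ≠ p) : IsLocalDiffeomorphAt (𝓡 4) (𝓡 4) ∞ (exs_σ p) z := by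
  have hm : exs_σ p ∈ IsManifold.maximalAtlas (𝓡 4) ∞ S4 := IsManifold.subset_maximalAtlas ⟨p, rfl⟩
  refine ⟨⟨(exs_σ p).toPartialEquiv, (exs_σ p).open_source, (exs_σ p).open_target,
    contMDiffOn_of_mem_maximalAtlas hm, contMDiffOn_symm_of_mem_maximalAtlas hm⟩, ?_, fun _ _ => rfl⟩
  show z ∈ (exs_σ p).source
  rw [exs_src]
  exact h

theorem exs_symm (p : S4) (y : E4) : exs_σ p ((exs_σ p).symm y) = y ∧ (exs_σ p).symm y ≠ p := by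
  have h1 : y ∈ (exs_σ p).target := by rw [exs_tgt]; exact mem_univ y
  refine ⟨(exs_σ p).right_inv h1, ?_⟩
  have h2 := (exs_σ p).map_target h1
  rw [exs_src] at h2
  exact h2

theorem exs_left (p : S4) {z : S4} (h : z ≠ p) : (exs_σ p).symm (exs_σ p z) = z := by
  refine (exs_σ p).left_inv ?_
  rw [exs_src]
  exact h

theorem exs_scont (p : S4) : Continuous (exs_σ p).symm := by
  rw [← continuousOn_univ, ← exs_tgt p]
  exact (exs_σ p).continuousOn_symm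

section glue
variable {N : Type} [TopologicalSpace N] [ChartedSpace E3 N] {P : Type} [TopologicalSpace P] [ChartedSpace E4 P]
  {π : N × ℝ → P} {κ : ℝ × ℂ → N} {a₁ b₁ a₂ b₂ : ℤ} {n : ℤ}

/-- the point of the torus for a point of the twin -/
noncomputable def exs_T (π : N × ℝ → P) (κ : ℝ × ℂ → N) (hU : Uni a₁ b₁ a₂ b₂) (n : ℤ) (z : S4) : P :=
  exs_G π κ ((ph_exists hU n z).choose, ((2 * ‖c1 z‖ * ‖c2 z‖ : ℝ) : ℂ) * ex (ph_exists hU n z).choose_spec.choose,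
    (ph_exists hU n z).choose_spec.choose_spec.choose)

theorem exs_nv (z : S4) (m : ℝ) : ‖((2 * ‖c1 z‖ * ‖c2 z‖ : ℝ) : ℂ) * ex m‖ = 2 * ‖c1 z‖ * ‖c2 z‖ := by
  rw [norm_mul, ex_norm, mul_one, Complex.norm_real, Real.norm_eq_abs, abs_of_nonneg (by positivity)]

theorem exs_Gph (hP : Prod4 π) (hκ : Thick κ) (hU : Uni a₁ b₁ a₂ b₂) {z : S4} (hf : fh z ≠ 0) (h1 : c1 z ≠ 0)
    (h2 : c2 z ≠ 0) {l m t l' m' t' : ℝ} (h : Ph a₁ b₁ a₂ b₂ n z l m t) (h' : Ph a₁ b₁ a₂ b₂ n z l' m' t') :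
    exs_G π κ (l', ((2 * ‖c1 z‖ * ‖c2 z‖ : ℝ) : ℂ) * ex m', t') =
      exs_G π κ (l, ((2 * ‖c1 z‖ * ‖c2 z‖ : ℝ) : ℂ) * ex m, t) := by
  obtain ⟨⟨a, ha⟩, ⟨b, hb⟩, ⟨c, hc⟩⟩ := ph_unique hU hf h1 h2 h h'
  rw [ha, hb, hc, ex_add_int, exs_Gper hP hκ]

/-- it does not depend on the phases -/
theorem exs_Teq (hP : Prod4 π) (hκ : Thick κ) (hU : Uni a₁ b₁ a₂ b₂) {z : S4} (hf : fh z ≠ 0) (h1 : c1 z ≠ 0)
    (h2 : c2 z ≠ 0) {l m t : ℝ} (h : Ph a₁ b₁ a₂ b₂ n z l m t) :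
    exs_T π κ hU n z = exs_G π κ (l, ((2 * ‖c1 z‖ * ‖c2 z‖ : ℝ) : ℂ) * ex m, t) :=
  exs_Gph hP hκ hU hf h1 h2 h (ph_exists hU n z).choose_spec.choose_spec.choose_spec

/-- some phases -/
theorem exs_Tex (hU : Uni a₁ b₁ a₂ b₂) (z : S4) : ∃ l m t : ℝ, Ph a₁ b₁ a₂ b₂ n z l m t ∧
    exs_T π κ hU n z = exs_G π κ (l, ((2 * ‖c1 z‖ * ‖c2 z‖ : ℝ) : ℂ) * ex m, t) :=
  ⟨_, _, _, (ph_exists hU n z).choose_spec.choose_spec.choose_spec, rfl⟩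

theorem exs_Tld (hP : Prod4 π) (hκ : Thick κ) (hU : Uni a₁ b₁ a₂ b₂) {z : S4} (hf : fh z ≠ 0) (h1 : c1 z ≠ 0)
    (h2 : c2 z ≠ 0) : IsLocalDiffeomorphAt (𝓡 4) (𝓡 4) ∞ (exs_T π κ hU n) z := by
  obtain ⟨l, m, t, h⟩ := ph_exists hU n z
  have hz := gcR_eq hf h1 h2 h
  set v : ℂ := ((2 * ‖c1 z‖ * ‖c2 z‖ : ℝ) : ℂ) * ex m with hv
  have hvn : ‖v‖ = 2 * ‖c1 z‖ * ‖c2 z‖ := exs_nv z m
  have hv0 : v ≠ 0 := by
    rw [← norm_pos_iff, hvn]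
    have := norm_pos_iff.2 h1
    have := norm_pos_iff.2 h2
    positivity
  have hv1 : ‖v‖ < 1 := by
    rw [hvn]
    exact (fh_ne_iff z).1 hf
  have l1 : IsLocalDiffeomorphAt 𝓘(ℝ, ℝ × ℂ × ℝ) (𝓡 4) ∞ (GcR a₁ b₁ a₂ b₂ n) (l, v, t) := gcR_ld hU hv0 hv1
  have l2 : IsLocalDiffeomorphAt 𝓘(ℝ, ℝ × ℂ × ℝ) (𝓡 4) ∞ (exs_T π κ hU n ∘ GcR a₁ b₁ a₂ b₂ n) (l, v, t) := by
    refine CSG.ld_congr (exs_Gld hP hκ l t hv1) ?_
    have e1 : ∀ᶠ q : ℝ × ℂ × ℝ in 𝓝 (l, v, t), q.2.1 ≠ 0 := by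
      have : ContinuousAt (fun q : ℝ × ℂ × ℝ => q.2.1) (l, v, t) := by fun_prop
      exact this.eventually_ne hv0
    have e2 : ∀ᶠ q : ℝ × ℂ × ℝ in 𝓝 (l, v, t), ‖q.2.1‖ < 1 := by
      have : ContinuousAt (fun q : ℝ × ℂ × ℝ => ‖q.2.1‖) (l, v, t) := by fun_prop
      exact this.eventually_lt_const hv1
    filter_upwards [e1, e2] with q hq0 hq1
    obtain ⟨l', v', t'⟩ := q
    have hm' : v' = (‖v'‖ : ℂ) * ex (Complex.arg v' / (2 * Real.pi)) := ex_arg.symm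
    obtain ⟨g1, g2, g3, g4, g5⟩ := gcR_spec a₁ b₁ a₂ b₂ n (l := l') (t := t') hq0 hq1 hm'
    show exs_T π κ hU n (GcR a₁ b₁ a₂ b₂ n (l', v', t')) = exs_G π κ (l', v', t')
    rw [exs_Teq hP hκ hU g1 g2 g3 g5, g4, ← hm']
  have l3 := CSG.ld_of_comp_left l2 l1
  rw [← hz] at l3
  exact l3

theorem exs_Tinj (hP : Prod4 π) (hκ : Thick κ) (hU : Uni a₁ b₁ a₂ b₂) {z z' : S4} (hf : fh z ≠ 0) (h1 : c1 z ≠ 0)
    (h2 : c2 z ≠ 0) (hf' : fh z' ≠ 0) (h1' : c1 z' ≠ 0) (h2' : c2 z' ≠ 0)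
    (he : exs_T π κ hU n z = exs_T π κ hU n z') : z = z' := by
  obtain ⟨l, m, t, h, e⟩ := exs_Tex (π := π) (κ := κ) (n := n) hU z
  obtain ⟨l', m', t', h', e'⟩ := exs_Tex (π := π) (κ := κ) (n := n) hU z'
  rw [e, e'] at he
  have hv1 : ‖((2 * ‖c1 z‖ * ‖c2 z‖ : ℝ) : ℂ) * ex m‖ < 1 := by
    rw [exs_nv]
    exact (fh_ne_iff z).1 hf
  have hv1' : ‖((2 * ‖c1 z'‖ * ‖c2 z'‖ : ℝ) : ℂ) * ex m'‖ < 1 := by
    rw [exs_nv]
    exact (fh_ne_iff z').1 hf'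
  obtain ⟨k1, ⟨a, ha⟩, ⟨c, hc⟩⟩ := exs_Ginj hP hκ hv1 hv1' he
  rw [gcR_eq hf h1 h2 h, gcR_eq hf' h1' h2' h', ← k1, ha, hc, gcR_per]

theorem exs_Toff (hP : Prod4 π) (hκ : Thick κ) (hU : Uni a₁ b₁ a₂ b₂) {z : S4} (hf : fh z ≠ 0) (h1 : c1 z ≠ 0)
    (h2 : c2 z ≠ 0) : exs_T π κ hU n z ∉ exs_C π κ 0 := by
  obtain ⟨l, m, t, h, e⟩ := exs_Tex (π := π) (κ := κ) (n := n) hU z
  rw [e]
  rintro ⟨l', t', v', hv', he⟩
  have hv1 : ‖((2 * ‖c1 z‖ * ‖c2 z‖ : ℝ) : ℂ) * ex m‖ < 1 := by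
    rw [exs_nv]
    exact (fh_ne_iff z).1 hf
  have k1 := (exs_Ginj hP hκ hv1 (by linarith) he).1
  rw [← k1, exs_nv] at hv'
  have := norm_pos_iff.2 h1
  have := norm_pos_iff.2 h2
  have : 0 < 2 * ‖c1 z‖ * ‖c2 z‖ := by positivity
  linarith

theorem exs_Tin (hU : Uni a₁ b₁ a₂ b₂) {z : S4} {δ : ℝ} (hδ : 2 * ‖c1 z‖ * ‖c2 z‖ ≤ δ) :
    exs_T π κ hU n z ∈ exs_C π κ δ := by
  obtain ⟨l, m, t, h, e⟩ := exs_Tex (π := π) (κ := κ) (n := n) hU z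
  rw [e]
  exact ⟨l, t, _, by rw [exs_nv]; exact hδ, rfl⟩

end glue

theorem existsR {N : Type} [TopologicalSpace N] [ChartedSpace E3 N] [T2Space N] [IsManifold (𝓡 3) ∞ N] {κ : ℝ × ℂ → N}
    (hκ : Thick κ) {a₁ b₁ a₂ b₂ : ℤ} (n : ℤ) (hU : Uni a₁ b₁ a₂ b₂) :
    ∃ (X : Type) (_ : TopologicalSpace X) (_ : ChartedSpace E4 X) (_ : IsManifold (𝓡 4) ∞ X) (_ : T2Space X),
      Nonempty (TwinData κ a₁ b₁ a₂ b₂ n X) := by
  obtain ⟨P, tP, cP, mP, t2P, π, hP⟩ := exists_prod N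
  obtain ⟨p, hp⟩ := exs_p₀
  have hnp : ∀ z : S4, fh z ≠ 0 → z ≠ p := by
    intro z hz he
    rw [he] at hz
    exact hz hp
  have hfc : Continuous (fun y : E4 => fh ((exs_σ p).symm y)) := fh_smooth.continuous.comp (exs_scont p)
  have h1c : Continuous (fun y : E4 => c1 ((exs_σ p).symm y)) := c1_smooth.continuous.comp (exs_scont p)
  have h2c : Continuous (fun y : E4 => c2 ((exs_σ p).symm y)) := c2_smooth.continuous.comp (exs_scont p)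
  set X₀ : Set P := (exs_C π κ 0)ᶜ with hX₀
  set Y : Set E4 := {y | fh ((exs_σ p).symm y) ≠ 0} with hY
  set Y₁ : Set E4 := {y | fh ((exs_σ p).symm y) ≠ 0 ∧ c1 ((exs_σ p).symm y) ≠ 0 ∧ c2 ((exs_σ p).symm y) ≠ 0} with hY₁
  have hXo : IsOpen X₀ := (exs_cpt hP hκ (by norm_num)).isClosed.isOpen_compl
  have hYo : IsOpen Y := isOpen_ne_fun hfc continuous_const
  have hY₁o : IsOpen Y₁ := (isOpen_ne_fun hfc continuous_const).inter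
    ((isOpen_ne_fun h1c continuous_const).inter (isOpen_ne_fun h2c continuous_const))
  have hXne : X₀.Nonempty := by
    refine ⟨exs_G π κ (0, 1 / 2, 0), ?_⟩
    rintro ⟨l', t', v', hv', he⟩
    have hh : ‖(1 / 2 : ℂ)‖ = 1 / 2 := by norm_num
    have k1 := (exs_Ginj hP hκ (by rw [hh]; norm_num) (by linarith) he).1
    rw [← k1, hh] at hv'
    norm_num at hv'
  set θ : E4 → P := fun y => exs_T π κ hU n ((exs_σ p).symm y) with hθd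
  have hσs : ∀ y : E4, IsLocalDiffeomorphAt (𝓡 4) (𝓡 4) ∞ (exs_σ p).symm y := by
    intro y
    have h1 := exs_σld p (exs_symm p y).2
    have h2 : IsLocalDiffeomorphAt (𝓡 4) (𝓡 4) ∞ ((exs_σ p).symm ∘ exs_σ p) ((exs_σ p).symm y) := by
      refine CSG.ld_congr (CSG.ld_id _) ?_
      filter_upwards [isOpen_ne.mem_nhds (exs_symm p y).2] with z hz
      exact exs_left p hz
    have h3 := CSG.ld_of_comp_left h2 h1
    rw [(exs_symm p y).1] at h3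
    exact h3
  have hθ : ∀ y ∈ Y₁, IsLocalDiffeomorphAt (𝓡 4) (𝓡 4) ∞ θ y := by
    intro y hy
    exact IsLocalDiffeomorphAt.comp (hf := hσs y) (hg := exs_Tld hP hκ hU hy.1 hy.2.1 hy.2.2) ..
  have hθi : InjOn θ Y₁ := by
    intro y hy y' hy' he
    have h1 := exs_Tinj hP hκ hU hy.1 hy.2.1 hy.2.2 hy'.1 hy'.2.1 hy'.2.2 he
    rw [← (exs_symm p y).1, ← (exs_symm p y').1, h1]
  have hθX : MapsTo θ Y₁ X₀ := fun y hy => exs_Toff hP hκ hU hy.1 hy.2.1 hy.2.2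
  have hYc : ∀ y ∈ Y, y ∉ Y₁ → c1 ((exs_σ p).symm y) = 0 ∨ c2 ((exs_σ p).symm y) = 0 := by
    intro y hy hy1
    by_contra hc
    push Not at hc
    exact hy1 ⟨hy, hc.1, hc.2⟩
  have hsep : ∀ y ∈ Y, y ∉ Y₁ → ∀ x ∈ X₀, ∃ U ∈ 𝓝 y, ∃ W ∈ 𝓝 x, ∀ z ∈ U, z ∈ Y₁ → θ z ∉ W := by
    intro y hy hy1 x hx
    obtain ⟨δ, hδ0, hδ1, hxδ⟩ := exs_off hP hκ hx
    have hz : 2 * ‖c1 ((exs_σ p).symm y)‖ * ‖c2 ((exs_σ p).symm y)‖ < δ := by
      rcases hYc y hy hy1 with h | h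
      · rw [h, norm_zero, mul_zero, zero_mul]
        exact hδ0
      · rw [h, norm_zero, mul_zero]
        exact hδ0
    have hcont : Continuous fun y : E4 => 2 * ‖c1 ((exs_σ p).symm y)‖ * ‖c2 ((exs_σ p).symm y)‖ :=
      (continuous_const.mul h1c.norm).mul h2c.norm
    refine ⟨{y | 2 * ‖c1 ((exs_σ p).symm y)‖ * ‖c2 ((exs_σ p).symm y)‖ < δ},
      (isOpen_lt hcont continuous_const).mem_nhds hz, (exs_C π κ δ)ᶜ,
      (exs_cpt hP hκ hδ1).isClosed.isOpen_compl.mem_nhds hxδ, ?_⟩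
    intro z hzU hzY hW
    have hzU' : 2 * ‖c1 ((exs_σ p).symm z)‖ * ‖c2 ((exs_σ p).symm z)‖ < δ := hzU
    exact hW (exs_Tin hU hzU'.le)
  obtain ⟨V, tV, cV, mV, t2V, A, B, hA, hAi, hB, hBi, hAB, hdisj, hcov⟩ :=
    ACB.glue_mfd hXo hXne hYo hY₁o (fun y hy => hy.1) hθ hθi hθX hsep
  have hYσ : ∀ z : S4, fh z ≠ 0 → exs_σ p z ∈ Y := by
    intro z hz
    show fh ((exs_σ p).symm (exs_σ p z)) ≠ 0
    rw [exs_left p (hnp z hz)]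
    exact hz
  have hXπ : ∀ (x : N) (t : ℝ), ¬ OnKnot κ x → π (x, t) ∈ X₀ := fun x t hx h => hx ((exs_knot hP).1 h)
  refine ⟨V, tV, cV, mV, t2V, ⟨?_⟩⟩
  refine
    { A := fun q => A (π q)
      Q := fun z => B (exs_σ p z)
      A_per := ?_
      A_loc := ?_
      A_inj := ?_
      Q_loc := ?_
      Q_inj := ?_
      glue := ?_
      disj := ?_
      cover := ?_ }
  · intro x t
    show A (π (x, t + 1)) = A (π (x, t))
    rw [hP.per]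
  · intro x t hx
    exact IsLocalDiffeomorphAt.comp (hf := hP.loc x t) (hg := hA _ (hXπ x t hx)) ..
  · intro x x' t t' hx hx' he
    exact hP.inj _ _ _ _ (hAi (hXπ x t hx) (hXπ x' t' hx') he)
  · intro z hz
    exact IsLocalDiffeomorphAt.comp (hf := exs_σld p (hnp z hz)) (hg := hB _ (hYσ z hz)) ..
  · intro z z' hz hz' he
    have h1 := hBi (hYσ z hz) (hYσ z' hz') he
    rw [← exs_left p (hnp z hz), ← exs_left p (hnp z' hz'), h1]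
  · intro z l m t hf h1 h2 p1 p2 p3
    have hz := exs_left p (hnp z hf)
    have hy : exs_σ p z ∈ Y₁ := by
      show fh ((exs_σ p).symm (exs_σ p z)) ≠ 0 ∧ c1 ((exs_σ p).symm (exs_σ p z)) ≠ 0 ∧
        c2 ((exs_σ p).symm (exs_σ p z)) ≠ 0
      rw [hz]
      exact ⟨hf, h1, h2⟩
    show B (exs_σ p z) = A (π (κ (l, (2 * ‖c1 z‖ * ‖c2 z‖ : ℝ) * ex m), t))
    rw [hAB _ hy]
    congr 1
    show exs_T π κ hU n ((exs_σ p).symm (exs_σ p z)) = _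
    rw [hz, exs_Teq hP hκ hU hf h1 h2 ⟨p1, p2, p3⟩]
    rfl
  · intro z x t hf hc hx
    refine hdisj _ (hYσ z hf) ?_ _ (hXπ x t hx)
    rintro ⟨-, h1, h2⟩
    rw [exs_left p (hnp z hf)] at h1 h2
    rcases hc with hc | hc
    · exact h1 hc
    · exact h2 hc
  · intro q
    rcases hcov q with ⟨x, hx, rfl⟩ | ⟨y, hy, rfl⟩
    · obtain ⟨⟨x', t⟩, rfl⟩ := hP.surj x
      exact Or.inl ⟨x', t, fun hk => hx ((exs_knot hP).2 hk), rfl⟩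
    · refine Or.inr ⟨(exs_σ p).symm y, hy, ?_⟩
      show B y = B (exs_σ p ((exs_σ p).symm y))
      rw [(exs_symm p y).1]

end Pool.Agent.NHS
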