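import Pool.Agent.NHS.Defs

/-!
# NHS/GnH: `GenH1` is invariant under free homotopy   (difficulty 2)

PROOF.  `H` the free homotopy, `x = κ (0, 0)`, `x' = κ' (0, 0)`, `δ s = H (s, 0)` the track from `x` to `x'`.  Let `f : π₁(N, x') → ℤ/2` kill the loop `κ'`.
Put `g (γ) = f (δ⁻¹ γ δ)` (change of the base point: `FundamentalGroup.fundamentalGroupMulEquivOfPath`, or conjugation in the groupoid).  `g` kills the loop `κ`:
`δ⁻¹ κ δ ~ κ'` (the square `H`; a homotopy of paths on `[0, 1]²`; compare `NHT/Hyp`, `ACB/ClF.cls_track`, `NHQ/PC` lemmas).  So `g` is trivial and `f` is trivial.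
-/

open scoped Manifold ContDiff Topology
open Set Filter
open Pool.Agent.RSG
open Pool.Agent.NHT (FreeHomotopic GenH1)

namespace Pool.Agent.NHS

theorem gnh_sq {N : Type*} [TopologicalSpace N] {x x' y y' : N} (F : C(ℝ × ℝ, N)) (γ : Path x y)
    (hγ : ∀ t : unitInterval, γ t = F (0, (t : ℝ)))
    (γ' : Path x' y') (hγ' : ∀ t : unitInterval, γ' t = F (1, (t : ℝ)))
    (ρ : Path x x') (hρ : ∀ s : unitInterval, ρ s = F ((s : ℝ), 0))
    (ρ' : Path y y') (hρ' : ∀ s : unitInterval, ρ' s = F ((s : ℝ), 1)) :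
    Path.Homotopic γ (ρ.trans (γ'.trans ρ'.symm)) := by
  obtain rfl : x = F (0, 0) := by have := hγ 0; rwa [γ.source] at this
  obtain rfl : y = F (0, 1) := by have := hγ 1; rwa [γ.target] at this
  obtain rfl : x' = F (1, 0) := by have := hγ' 0; rwa [γ'.source] at this
  obtain rfl : y' = F (1, 1) := by have := hγ' 1; rwa [γ'.target] at this
  let β : Path ((0, 0) : ℝ × ℝ) (0, 1) :=
    { toFun := fun t => (0, (t : ℝ)), continuous_toFun := by fun_prop, source' := by simp, target' := by simp }
  let τ : Path ((1, 0) : ℝ × ℝ) (1, 1) :=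
    { toFun := fun t => (1, (t : ℝ)), continuous_toFun := by fun_prop, source' := by simp, target' := by simp }
  let l : Path ((0, 0) : ℝ × ℝ) (1, 0) :=
    { toFun := fun t => ((t : ℝ), 0), continuous_toFun := by fun_prop, source' := by simp, target' := by simp }
  let r : Path ((0, 1) : ℝ × ℝ) (1, 1) :=
    { toFun := fun t => ((t : ℝ), 1), continuous_toFun := by fun_prop, source' := by simp, target' := by simp }
  have h := (SimplyConnectedSpace.paths_homotopic β (l.trans (τ.trans r.symm))).map F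
  rw [Path.map_trans, Path.map_trans, ← Path.map_symm] at h
  have e1 : β.map F.continuous = γ := by ext t; exact (hγ t).symm
  have e2 : τ.map F.continuous = γ' := by ext t; exact (hγ' t).symm
  have e3 : l.map F.continuous = ρ := by ext t; exact (hρ t).symm
  have e4 : r.map F.continuous = ρ' := by ext t; exact (hρ' t).symm
  rw [e1, e2, e3, e4] at h
  exact h

theorem genH1_free {N : Type*} [TopologicalSpace N] {κ κ' : ℝ × ℂ → N} (h1 : ∀ l, κ (l + 1, 0) = κ (l, 0))
    (h2 : ∀ l, κ' (l + 1, 0) = κ' (l, 0)) (h : GenH1 κ) (hF : FreeHomotopic κ κ') : GenH1 κ' := by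
  obtain ⟨H, hH, hper, hH0, hH1⟩ := hF
  intro f hf g
  let δ : Path (κ (0, 0)) (κ' (0, 0)) :=
    { toFun := fun s => H (s, 0)
      continuous_toFun := hH.comp (continuous_subtype_val.prodMk continuous_const)
      source' := hH0 0
      target' := hH1 0 }
  let φ : FundamentalGroup N (κ (0, 0)) ≃* FundamentalGroup N (κ' (0, 0)) :=
    FundamentalGroup.fundamentalGroupMulEquivOfPath δ
  have key : ∀ y, f (φ y) = 1 := by
    refine h (f.comp φ.toMonoidHom) ?_
    intro γ hγ
    let γ' : Path (κ' (0, 0)) (κ' (0, 0)) :=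
      { toFun := fun t => H (1, t)
        continuous_toFun := hH.comp (continuous_const.prodMk continuous_subtype_val)
        source' := hH1 0
        target' := by
          have h3 := h2 0
          rw [zero_add] at h3
          exact (hH1 1).trans h3 }
    have hsq := gnh_sq ⟨H, hH⟩ γ (fun t => (hγ t).trans (hH0 t).symm) γ' (fun _ => rfl) δ (fun _ => rfl) δ (by
      intro s
      have h3 := hper s 0
      rw [zero_add] at h3
      exact h3.symm)
    have hφ : φ (FundamentalGroup.fromPath ⟦γ⟧) = FundamentalGroup.fromPath ⟦γ'⟧ := by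
      have h3 : φ (FundamentalGroup.fromPath ⟦γ⟧) = FundamentalGroup.fromPath ⟦δ.symm.trans (γ.trans δ)⟧ := rfl
      rw [h3]
      rw [← Path.Homotopic.Quotient.eq] at hsq
      have h4 : (⟦δ.symm.trans (γ.trans δ)⟧ : Path.Homotopic.Quotient (κ' (0, 0)) (κ' (0, 0))) = ⟦γ'⟧ := by
        change Path.Homotopic.Quotient.mk (δ.symm.trans (γ.trans δ)) = Path.Homotopic.Quotient.mk γ'
        simp only [Path.Homotopic.Quotient.mk_trans, Path.Homotopic.Quotient.mk_symm] at hsq ⊢
        rw [hsq]
        simp only [Path.Homotopic.Quotient.trans_assoc]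
        rw [← Path.Homotopic.Quotient.trans_assoc]
        simp
      rw [h4]
    show f (φ (FundamentalGroup.fromPath ⟦γ⟧)) = 1
    rw [hφ]
    exact hf γ' (fun t => hH1 t)
  have h3 := key (φ.symm g)
  rwa [φ.apply_symm_apply] at h3

end Pool.Agent.NHS
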