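import Pool.Agent.NHS.Defs
import Pool.Agent.NHT.T1G

/-!
# NHS/GnI: `GenH1` is inherited by the surgery   (difficulty 3)

PROOF.  `M = N - K`, `M' = N' - K'`, `F : M' → M` is a homeomorphism (bijective local homeomorphism).  Base point `p' = κ' (0, 1/2) ∈ M'`, `F p' = κ (0, 1/2)`.
(1) `π₁(M', p') → π₁(N', p')` is surjective (a loop of `N'` can be pushed off the knot: `NHT` compl_path / `NHH/Off.lean exists_path_off`).
(2) the kernel of `π₁(M, p) → π₁(N, p)` is normally generated by the meridian (`NHT.ker_compl`, see `NHT/T1.lean`, `NHT/Tub.lean`, `NHT/T1G.lean`), so a homomorphism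
`g : π₁(M, p) → ℤ/2` which kills the meridian `m ↦ κ (0, ex m / 2)` factors through `π₁(N, p)` (which is the image: surjectivity (1) for `N`).
Let `f : π₁(N', κ' (0, 0)) → ℤ/2` kill `κ'`; after the change of the base point (straight path `κ' (0, s)`, `0 ≤ s ≤ 1/2`) `f` is a homomorphism on `π₁(N', p')` which kills the
loop `l ↦ κ' (l, 1/2)` (homotopic to the core).  Let `g = f ∘ i ∘ F⁻¹ : π₁(M, p) → ℤ/2`.  `F` maps the longitude `l ↦ κ' (l, 1/2)` to `l ↦ κ (l, 1/2)` and the meridian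
`m ↦ κ' (0, ex m / 2)` to `m ↦ κ (q m, ex m / 2)`, which is homotopic in the torus `κ (ℝ × {|v| = 1/2})` to the product of the `q`-th power of the longitude and of the
meridian of `κ`.  The meridian of `κ'` is null-homotopic in `N'` (disc), so `g` kills it; `g` kills the longitude; hence `g` kills the meridian of `κ`.  By (2) `g` comes from
`h : π₁(N, p) → ℤ/2`, which kills the longitude `l ↦ κ (l, 1/2)`, homotopic to the core; by `GenH1 κ` `h` is trivial, so `g` is trivial, and `f` is trivial by (1).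
-/

open scoped Manifold ContDiff Topology
open Set Filter
open Pool.Agent.RSG
open Pool.Agent.NHT (FreeHomotopic GenH1 GenMod2 fa fg cl cl_surj cl_trans cl_eq fa_comp fa_inv fg_eq thick_cont thick_mem pt pt_coe pt_real
  exp_lat exists_loop lat lat_mem ex_zero genMod2_of_hom gen_compl exists_path_compl incl core_closed)
open Pool.Agent.NHP (core Rep)
open Pool.Agent.NHQ (PC cc exists_PC)
open CategoryTheory unitInterval

namespace Pool.Agent.NHS

section
variable {N : Type*} [TopologicalSpace N] [ChartedSpace E3 N]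

omit [TopologicalSpace N] [ChartedSpace E3 N] in
theorem gni_core {κ : ℝ × ℂ → N} {x : N} : ¬ OnKnot κ x ↔ x ∈ (core κ)ᶜ := by
  refine not_congr ⟨?_, ?_⟩
  · rintro ⟨l, h⟩; exact ⟨l, h.symm⟩
  · rintro ⟨l, h⟩; exact ⟨l, h.symm⟩

theorem gni_cont {κ : ℝ × ℂ → N} (hκ : Thick κ) : Continuous fun l : ℝ => κ (l, 0) := by
  rw [continuous_iff_continuousAt]
  intro l
  exact (thick_cont hκ (a := (l, 0)) (by simp)).comp (f := fun l : ℝ => (l, (0 : ℂ))) (by fun_prop)

theorem gni_ex_cont : Continuous ex := by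
  unfold ex
  fun_prop

theorem gni_ex_norm (x : ℝ) : ‖ex x‖ = 1 := by
  unfold ex
  exact Complex.norm_exp_ofReal_mul_I _

theorem gni_sq {κ : ℝ × ℂ → N} (hκ : Thick κ) (a b : ℝ × ℝ → ℝ) (ha : Continuous a) (hb : Continuous b) :
    ContinuousOn (fun s : ℝ × ℝ => κ (a s, ((s.1 / 2 : ℝ) : ℂ) * ex (b s))) (Icc (0 : ℝ) 1 ×ˢ Icc (0 : ℝ) 1) := by
  rintro ⟨s, t⟩ ⟨hs, -⟩
  apply ContinuousAt.continuousWithinAt
  have hb' := gni_ex_cont.comp hb
  refine ContinuousAt.comp_of_eq (g := κ) (f := fun s : ℝ × ℝ => (a s, ((s.1 / 2 : ℝ) : ℂ) * ex (b s)))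
    (thick_cont hκ (a := (a (s, t), ((s / 2 : ℝ) : ℂ) * ex (b (s, t)))) ?_) ?_ rfl
  · change ‖((s / 2 : ℝ) : ℂ) * ex (b (s, t))‖ < 1
    rw [norm_mul, gni_ex_norm, mul_one, Complex.norm_real, Real.norm_eq_abs, abs_of_nonneg (by linarith [hs.1])]
    linarith [hs.2]
  · have h1 : Continuous fun s : ℝ × ℝ => (a s, ((s.1 / 2 : ℝ) : ℂ) * ex (b s)) := by
      refine ha.prodMk (Continuous.mul ?_ hb')
      fun_prop
    exact h1.continuousAt

theorem gni_per' {κ : ℝ × ℂ → N} (hκ : Thick κ) (n : ℤ) (t : ℝ) (v : ℂ) : κ ((n : ℝ) + t, v) = κ (t, v) := by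
  induction n using Int.induction_on with
  | zero => simp
  | succ n ih =>
    rw [← ih]
    have e : (((n : ℤ) + 1 : ℤ) : ℝ) + t = (((n : ℤ) : ℝ) + t) + 1 := by push_cast; ring
    rw [e, hκ.per]
  | pred n ih =>
    rw [← ih]
    have e : (((-(n : ℤ) : ℤ) : ℝ) + t) = (((-(n : ℤ) - 1 : ℤ) : ℝ) + t) + 1 := by push_cast; ring
    rw [e, hκ.per]

theorem gni_per {κ : ℝ × ℂ → N} (hκ : Thick κ) (n : ℤ) (v : ℂ) : κ ((n : ℝ), v) = κ (0, v) := by
  have h := gni_per' hκ n 0 v
  rwa [add_zero] at h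

theorem gni_ex_one : ex 1 = 1 := by
  unfold ex
  rw [mul_one]
  push_cast
  exact Complex.exp_two_pi_mul_I

/-- the powers of the core -/
theorem gni_pow {κ : ℝ × ℂ → N} (hκ : Thick κ) {x : N} (f : FundamentalGroup N x →* Multiplicative (ZMod 2))
    {o : FundamentalGroupoid.mk x ⟶ FundamentalGroupoid.mk x} (ho : PC (fun t => κ (t, 0)) o) (hf : f (fa o) = 1) (k : ℤ) :
    ∀ α : FundamentalGroupoid.mk x ⟶ FundamentalGroupoid.mk x, PC (fun t => κ (k * t, 0)) α → f (fa α) = 1 := by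
  have hc : Continuous fun l : ℝ => κ (l, 0) := gni_cont hκ
  have hper : ∀ (n : ℤ) (t : ℝ), κ ((n : ℝ) + t, 0) = κ (t, 0) := fun n t => gni_per' hκ n t 0
  have hx : κ (0, 0) = x := ho.zero
  have hxn : ∀ n : ℤ, κ ((n : ℝ), 0) = x := by
    intro n
    have h1 := hper n 0
    rw [add_zero] at h1
    rw [h1, hx]
  have hstep : ∀ (n : ℤ) (γ δ : FundamentalGroupoid.mk x ⟶ FundamentalGroupoid.mk x),
      PC (fun t => κ (n * t, 0)) γ → PC (fun t => κ (((n + 1 : ℤ) : ℝ) * t, 0)) δ → δ = γ ≫ o := by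
    intro n γ δ hγ hδ
    have h1 : PC (fun t => (fun l : ℝ => κ (l, 0)) (0 + ((n : ℝ) - 0) * t)) γ := by simpa using hγ
    have h2 : PC (fun t => (fun l : ℝ => κ (l, 0)) ((n : ℝ) + (((n : ℝ) + 1) - n) * t)) o := by
      refine ho.congr (fun t _ => ?_)
      have e : (n : ℝ) + (((n : ℝ) + 1) - n) * t = n + t := by ring
      change κ ((n : ℝ) + (((n : ℝ) + 1) - n) * t, 0) = κ (t, 0)
      rw [e, hper]
    have h3 := PC.add (C := univ) convex_univ hc.continuousOn (mem_univ _) (mem_univ _) (mem_univ _) h1 h2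
    have h4 : PC (fun t => κ (((n + 1 : ℤ) : ℝ) * t, 0)) (γ ≫ o) := by
      refine h3.congr (fun t _ => ?_)
      congr 2
      push_cast; ring
    exact hδ.unique h4
  have hex : ∀ n : ℤ, ∃ γ : FundamentalGroupoid.mk x ⟶ FundamentalGroupoid.mk x, PC (fun t => κ (n * t, 0)) γ := by
    intro n
    refine exists_PC (hc.comp (continuous_const.mul continuous_id)).continuousOn ?_ ?_
    · rw [mul_zero, hx]
    · rw [mul_one, hxn]
  induction k using Int.induction_on with
  | zero =>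
    intro α hα
    have h1 : PC (fun t => κ (((0 : ℤ) : ℝ) * t, 0)) (𝟙 (FundamentalGroupoid.mk x)) := by
      refine (PC.const x).congr (fun t _ => ?_)
      rw [Int.cast_zero, zero_mul, hx]
    rw [hα.unique h1]
    exact map_one f
  | succ n ih =>
    intro α hα
    obtain ⟨γ, hγ⟩ := hex n
    rw [hstep n γ α hγ hα, fa_comp, map_mul, hf, ih γ hγ, one_mul]
  | pred n ih =>
    intro α hα
    obtain ⟨γ, hγ⟩ := hex (-n)
    have h1 := hstep (-n - 1) α γ hα (by rw [sub_add_cancel]; exact hγ)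
    have h2 := ih γ hγ
    rw [h1, fa_comp, map_mul, hf, one_mul] at h2
    exact h2

end

theorem genH1_dual {N : Type*} [TopologicalSpace N] [ChartedSpace E3 N] [T2Space N] [IsManifold (𝓡 3) ∞ N] [ConnectedSpace N]
    {N' : Type*} [TopologicalSpace N'] [ChartedSpace E3 N'] [T2Space N'] [IsManifold (𝓡 3) ∞ N'] [ConnectedSpace N']
    {κ : ℝ × ℂ → N} {κ' : ℝ × ℂ → N'} (hκ : Thick κ) (hκ' : Thick κ') {q : ℤ} {F : N' → N} (hF : Dual q κ κ' F)
    (h : GenH1 κ) : GenH1 κ' := by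
  classical
  have _ : LocallyPathConnectedSpace N := ChartedSpace.locallyPathConnectedSpace E3 N
  have _ : PathConnectedSpace N := pathConnectedSpace_iff_connectedSpace.2 inferInstance
  have _ : LocallyPathConnectedSpace N' := ChartedSpace.locallyPathConnectedSpace E3 N'
  have _ : PathConnectedSpace N' := pathConnectedSpace_iff_connectedSpace.2 inferInstance
  intro f hf
  -- the inverse of `F`
  choose G hG1 hG2 using fun z : ((core κ)ᶜ : Set N) => hF.surj z (gni_core.2 z.2)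
  have hGF : ∀ (z : ((core κ)ᶜ : Set N)) (x : N'), ¬ OnKnot κ' x → F x = z → G z = x := by
    intro z x hx hxz
    exact hF.inj _ _ (hG1 z) hx ((hG2 z).trans hxz.symm)
  have hGk : ∀ (z : ((core κ)ᶜ : Set N)) (l m r : ℝ), 0 < r → r < 1 → (z : N) = κ (l + q * m, r * ex m) → G z = κ' (l, r * ex m) := by
    intro z l m r h0 h1 hz
    refine hGF z _ ?_ ?_
    · rw [gni_core]
      refine thick_mem hκ' ?_ ?_
      · rw [norm_mul, gni_ex_norm, mul_one, Complex.norm_real, Real.norm_eq_abs, abs_of_pos h0]; exact h1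
      · refine mul_ne_zero ?_ (Complex.exp_ne_zero _)
        exact_mod_cast h0.ne'
    · rw [hF.near l m r h0 h1, hz]
  have hGc : Continuous G := by
    rw [continuous_iff_continuousAt]
    intro z
    have h1 := hF.loc _ (hG1 z)
    have h2 := h1.localInverse_isLocalDiffeomorphAt
    have h3 : ContinuousAt h1.localInverse (F (G z)) := h2.contMDiffAt.continuousAt
    have h4 : h1.localInverse (F (G z)) = G z := h1.localInverse_left_inv h1.localInverse_mem_target
    have hzz : F (G z) = z := hG2 z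
    have h5 : ContinuousAt (fun y : ((core κ)ᶜ : Set N) => h1.localInverse y) z := by
      refine ContinuousAt.comp (g := h1.localInverse) (f := fun y : ((core κ)ᶜ : Set N) => (y : N)) ?_ continuous_subtype_val.continuousAt
      rw [← hzz]; exact h3
    refine h5.congr ?_
    have h6 : ∀ᶠ y in 𝓝 (F (G z)), F (h1.localInverse y) = y := h1.localInverse_eventuallyEq_right
    have h7 : ∀ᶠ y in 𝓝 (F (G z)), h1.localInverse y ∈ (core κ')ᶜ :=
      h3.eventually ((core_closed hκ').isOpen_compl.mem_nhds (by rw [h4]; exact gni_core.1 (hG1 z)))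
    have h8 : Tendsto (fun y : ((core κ)ᶜ : Set N) => (y : N)) (𝓝 z) (𝓝 (F (G z))) := by
      rw [hzz]; exact continuous_subtype_val.continuousAt
    filter_upwards [h8.eventually h6, h8.eventually h7] with y hy1 hy2
    exact (hGF y _ (gni_core.2 hy2) hy1).symm
  let Φ : C(((core κ)ᶜ : Set N), N') := ⟨G, hGc⟩
  -- the base point, the meridian and the longitude of `κ`
  obtain ⟨μ, hμ⟩ := exists_loop hκ (pt_real hκ (p := 0) (ρ := 1 / 2) (by norm_num) (by norm_num)).1 0 1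
  obtain ⟨ν, hν⟩ := exists_loop hκ (pt_real hκ (p := 0) (ρ := 1 / 2) (by norm_num) (by norm_num)).1 1 0
  obtain ⟨μ', hμ', -⟩ := hμ
  obtain ⟨ν', hν', -⟩ := hν
  let r : ((core κ)ᶜ : Set N) := pt hκ (0, ((Real.log (1 / 2) : ℝ) : ℂ))
  have hm : ∀ t : ℝ, (pt hκ (((0 : ℝ), ((Real.log (1 / 2) : ℝ) : ℂ)) + t • lat 0 1) : N) = κ (0, (1 / 2 : ℝ) * ex t) := by
    intro t
    rw [pt_coe hκ (lat_mem (pt_real hκ (by norm_num) (by norm_num)).1 0 1 t)]
    change κ (0 + t • ((0 : ℤ) : ℝ), Complex.exp (((Real.log (1 / 2) : ℝ) : ℂ) + t • (2 * Real.pi * (1 : ℤ) * Complex.I))) = _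
    rw [exp_lat (by norm_num)]
    simp
  have hl : ∀ t : ℝ, (pt hκ (((0 : ℝ), ((Real.log (1 / 2) : ℝ) : ℂ)) + t • lat 1 0) : N) = κ (0 + t, (1 / 2 : ℝ)) := by
    intro t
    rw [pt_coe hκ (lat_mem (pt_real hκ (by norm_num) (by norm_num)).1 1 0 t)]
    change κ (0 + t • ((1 : ℤ) : ℝ), Complex.exp (((Real.log (1 / 2) : ℝ) : ℂ) + t • (2 * Real.pi * (0 : ℤ) * Complex.I))) = _
    rw [exp_lat (by norm_num)]
    simp [ex_zero]
  have hμR : Rep (fun t => κ (0, (1 / 2 : ℝ) * ex t)) μ' := ⟨μ', fun t => by rw [hμ', hm], Path.Homotopic.refl _⟩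
  have hνR : Rep (fun t => κ (0 + t, (1 / 2 : ℝ))) ν' := ⟨ν', fun t => by rw [hν', hl], Path.Homotopic.refl _⟩
  obtain ⟨o, ho⟩ := exists_PC (x := κ (0, 0)) (y := κ (0, 0)) (gni_cont hκ).continuousOn rfl (by
    have h1 := hκ.per 0 0
    rwa [zero_add] at h1)
  obtain ⟨o1, ho1, ho2⟩ := ho
  have hgen : GenMod2 (fg o1) := by
    refine genMod2_of_hom (fun e he => MonoidHom.ext fun a => ?_)
    refine h e (fun γ hγ => ?_) a
    have h1 : γ = o1 := by
      ext t
      rw [hγ, ho1]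
    rw [h1]
    exact he
  have htop := gen_compl hκ (by norm_num) (by norm_num) hμR hνR ho1 hgen
  -- the core of `κ'`
  obtain ⟨p, hp⟩ := exists_PC (x := κ' (0, 0)) (y := κ' (0, 0)) (gni_cont hκ').continuousOn rfl (by
    have h1 := hκ'.per 0 0
    rwa [zero_add] at h1)
  have hfp : f (fa p) = 1 := by
    obtain ⟨p1, hp1, hp2⟩ := hp
    rw [← hp2]
    exact hf p1 hp1
  have hΦl : ∀ z : ((core κ)ᶜ : Set N), ∀ t : ℝ, (z : N) = κ (t, ((1 / 2 : ℝ) : ℂ)) → Φ z = κ' (t, ((1 / 2 : ℝ) : ℂ)) := by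
    intro z t hz
    have h1 := hGk z t 0 (1 / 2) (by norm_num) (by norm_num) (by rw [hz, ex_zero, mul_one, mul_zero, add_zero])
    rw [ex_zero, mul_one] at h1
    exact h1
  have hΦm : ∀ z : ((core κ)ᶜ : Set N), ∀ t : ℝ, (z : N) = κ (0, ((1 / 2 : ℝ) : ℂ) * ex t) → Φ z = κ' (-q * t, ((1 / 2 : ℝ) : ℂ) * ex t) := by
    intro z t hz
    exact hGk z (-q * t) t (1 / 2) (by norm_num) (by norm_num) (by rw [hz]; congr 2; ring)
  have hΦr : Φ r = κ' (0, ((1 / 2 : ℝ) : ℂ)) := hΦl r 0 (pt_real hκ (by norm_num) (by norm_num)).2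
  obtain ⟨τ, hτ⟩ := exists_PC (x := κ' (0, 0)) (y := Φ r) (f := fun s => κ' (0, ((s / 2 : ℝ) : ℂ) * ex 0)) (by
    have h1 := gni_sq hκ' (fun _ => 0) (fun _ => 0) continuous_const continuous_const
    exact h1.comp (f := fun s : ℝ => (s, (0 : ℝ))) (by fun_prop) (fun s hs => ⟨hs, le_rfl, zero_le_one⟩)) (by simp) (by rw [hΦr, ex_zero, mul_one])
  let E : FundamentalGroup N' (Φ r) →* FundamentalGroup N' (κ' (0, 0)) :=
    { toFun := fun c => fa (τ ≫ (c : FundamentalGroupoid.mk (Φ r) ⟶ FundamentalGroupoid.mk (Φ r)) ≫ inv τ)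
      map_one' := by
        change fa (τ ≫ 𝟙 _ ≫ inv τ) = 1
        rw [Category.id_comp, IsIso.hom_inv_id]; rfl
      map_mul' := by
        intro c d
        change fa (τ ≫ (d ≫ c) ≫ inv τ) = fa (τ ≫ c ≫ inv τ) * fa (τ ≫ d ≫ inv τ)
        rw [← fa_comp]
        congr 1
        simp }
  let g : FundamentalGroup ((core κ)ᶜ : Set N) r →* Multiplicative (ZMod 2) := f.comp (E.comp (FundamentalGroup.map Φ r))
  have hgμ : g (fg μ') = 1 := by
    obtain ⟨α, hα⟩ := exists_PC (x := κ' (0, 0)) (y := κ' (0, 0)) (f := fun t => κ' (((-q : ℤ) : ℝ) * t, 0))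
      ((gni_cont hκ').comp (continuous_const.mul continuous_id)).continuousOn (by simp) (by
        rw [mul_one]
        exact gni_per hκ' (-q) 0)
    have h1 := gni_pow hκ' f hp hfp (-q) α hα
    have h2 : α ≫ τ = τ ≫ cl (μ'.map Φ.continuous) := by
      refine PC.square (H := fun s : ℝ × ℝ => κ' (-q * s.2, ((s.1 / 2 : ℝ) : ℂ) * ex s.2))
        (gni_sq hκ' (fun s => -q * s.2) (fun s => s.2) (by fun_prop) (by fun_prop)) ?_ ?_ ?_ ?_
      · refine hα.congr (fun t _ => ?_)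
        simp
      · refine ⟨μ'.map Φ.continuous, fun t => ?_, rfl⟩
        change Φ (μ' t) = κ' (-q * t, (((1 : ℝ) / 2 : ℝ) : ℂ) * ex t)
        exact hΦm _ _ (by rw [hμ', hm])
      · refine hτ.congr (fun s _ => ?_)
        change κ' (-q * 0, ((s / 2 : ℝ) : ℂ) * ex 0) = κ' (0, ((s / 2 : ℝ) : ℂ) * ex 0)
        rw [mul_zero]
      · refine hτ.congr (fun s _ => ?_)
        change κ' (-q * 1, ((s / 2 : ℝ) : ℂ) * ex 1) = κ' (0, ((s / 2 : ℝ) : ℂ) * ex 0)
        have h3 := gni_per hκ' (-q) (((s / 2 : ℝ) : ℂ) * ex 0)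
        rw [mul_one, gni_ex_one, ex_zero]
        rw [ex_zero] at h3
        rw [Int.cast_neg] at h3
        exact h3
    have h3 : fa (τ ≫ cl (μ'.map Φ.continuous) ≫ inv τ) = fa α := by
      rw [← Category.assoc, ← h2, Category.assoc, IsIso.hom_inv_id, Category.comp_id]
    change f (fa (τ ≫ cl (μ'.map Φ.continuous) ≫ inv τ)) = 1
    rw [h3]; exact h1
  have hgν : g (fg ν') = 1 := by
    have h2 : p ≫ τ = τ ≫ cl (ν'.map Φ.continuous) := by
      refine PC.square (H := fun s : ℝ × ℝ => κ' (s.2, ((s.1 / 2 : ℝ) : ℂ) * ex 0))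
        (gni_sq hκ' (fun s => s.2) (fun s => 0) (by fun_prop) (by fun_prop)) ?_ ?_ ?_ ?_
      · refine hp.congr (fun t _ => ?_)
        simp
      · refine ⟨ν'.map Φ.continuous, fun t => ?_, rfl⟩
        change Φ (ν' t) = κ' (t, (((1 : ℝ) / 2 : ℝ) : ℂ) * ex 0)
        rw [ex_zero, mul_one]
        exact hΦl _ _ (by rw [hν', hl, zero_add])
      · exact hτ
      · refine hτ.congr (fun s _ => ?_)
        change κ' (1, ((s / 2 : ℝ) : ℂ) * ex 0) = κ' (0, ((s / 2 : ℝ) : ℂ) * ex 0)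
        have h3 := gni_per hκ' 1 (((s / 2 : ℝ) : ℂ) * ex 0)
        rw [Int.cast_one] at h3
        exact h3
    have h3 : fa (τ ≫ cl (ν'.map Φ.continuous) ≫ inv τ) = fa p := by
      rw [← Category.assoc, ← h2, Category.assoc, IsIso.hom_inv_id, Category.comp_id]
    change f (fa (τ ≫ cl (ν'.map Φ.continuous) ≫ inv τ)) = 1
    rw [h3]; exact hfp
  have hg : ∀ a, g a = 1 := by
    intro a
    have h1 : a ∈ g.ker := by
      have h2 : (⊤ : Subgroup _) ≤ g.ker := by
        rw [← htop, Subgroup.closure_le]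
        rintro y ((⟨z, rfl⟩ | hy) | hy)
        · change g (z * z) = 1
          rw [map_mul]
          generalize g z = w
          have h5 : ∀ w : ZMod 2, w + w = 0 := by decide
          exact h5 w
        · rw [mem_singleton_iff.1 hy]; exact hgν
        · have h3 : Subgroup.normalClosure {fg μ'} ≤ g.ker := by
            apply Subgroup.normalClosure_le_normal
            intro z hz
            rw [mem_singleton_iff.1 hz]; exact hgμ
          exact h3 hy
      exact h2 (Subgroup.mem_top a)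
    exact h1
  -- surjectivity
  intro a
  obtain ⟨c, hc⟩ := cl_surj (inv τ ≫ (a : FundamentalGroupoid.mk (κ' (0, 0)) ⟶ FundamentalGroupoid.mk (κ' (0, 0))) ≫ τ)
  let r' : ((core κ')ᶜ : Set N') := ⟨Φ r, gni_core.1 (hG1 r)⟩
  obtain ⟨s, hs⟩ := exists_path_compl hκ' (a := r') (b := r') c
  have hFr : F (Φ r) = r := hG2 r
  have hsm : ∀ t, F (s t) ∈ (core κ)ᶜ := fun t => gni_core.1 (hF.off _ (gni_core.2 (s t).2))
  let s' : Path r r := ⟨⟨fun t => ⟨F (s t), hsm t⟩, by
    refine Continuous.subtype_mk ?_ _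
    rw [continuous_iff_continuousAt]
    intro t
    exact ((hF.loc _ (gni_core.2 (s t).2)).contMDiffAt.continuousAt).comp (f := fun t => ((s t : ((core κ')ᶜ : Set N')) : N'))
      (continuous_subtype_val.comp s.continuous).continuousAt⟩, by
    apply Subtype.ext
    change F (s 0) = r
    rw [s.source]; exact hFr, by
    apply Subtype.ext
    change F (s 1) = r
    rw [s.target]; exact hFr⟩
  have h1 : s'.map Φ.continuous = incl s := by
    ext t
    exact hGF _ _ (gni_core.2 (s t).2) rfl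
  have h2 := hg (fg s')
  change f (fa (τ ≫ cl (s'.map Φ.continuous) ≫ inv τ)) = 1 at h2
  rw [h1, cl_eq hs, hc] at h2
  have h3 : τ ≫ (inv τ ≫ (a : FundamentalGroupoid.mk (κ' (0, 0)) ⟶ FundamentalGroupoid.mk (κ' (0, 0))) ≫ τ) ≫ inv τ = a := by simp
  rw [h3] at h2
  exact h2

end Pool.Agent.NHS
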