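import Pool.Agent.NHS.Defs
import Pool.Agent.NHH.Off

/-!
# NHS/GnS: `S³` is simply connected, so `GenH1` holds   (difficulty 2)

PROOF.  Every loop of `S3` at `x` is homotopic (rel end points) to a loop which avoids a point `q ≠ x` (`NHH/Off.lean`: paths in a 3-manifold can be pushed off a
point / off a knot: see `exists_path_off`, `homotopic_off` and use it for a suitable set, e.g. the core of a thick knot through `q`; or directly by Weierstrass
approximation and the measure zero of smooth curves, as in `ACB/S4h.lean` for the 4-sphere).  `S3 - {q}` is homeomorphic to a vector space (`stereographic'`,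
`stereographic`), so the loop is null-homotopic there.  Hence `FundamentalGroup S3 x` is trivial and every homomorphism is trivial.
-/

open scoped Manifold ContDiff Topology
open Set Filter
open Pool.Agent.RSG
open Pool.Agent.NHT (FreeHomotopic GenH1)

namespace Pool.Agent.NHS

theorem gns_contr (z : S3) : ContractibleSpace ({z}ᶜ : Set S3) := by
  have hfact : Fact (Module.finrank ℝ E4 = 3 + 1) := ⟨finrank_euclideanSpace_fin⟩
  have e3 : ({z}ᶜ : Set S3) ≃ₜ (stereographic' 3 z).source :=
    Homeomorph.setCongr (stereographic'_source z).symm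
  have e4 : (stereographic' 3 z).target ≃ₜ (univ : Set (EuclideanSpace ℝ (Fin 3))) :=
    Homeomorph.setCongr (stereographic'_target z)
  have e : ({z}ᶜ : Set S3) ≃ₜ EuclideanSpace ℝ (Fin 3) :=
    ((e3.trans (stereographic' 3 z).toHomeomorphSourceTarget).trans e4).trans (Homeomorph.Set.univ _)
  exact e.contractibleSpace

theorem gns_loop {x : S3} (γ : Path x x) : γ.Homotopic (Path.refl x) := by
  obtain ⟨z, hz⟩ : ∃ z : S3, x ≠ z := ⟨-x, ne_neg_of_mem_unit_sphere ℝ x⟩
  have hx : x ∈ ({z}ᶜ : Set S3) := hz
  obtain ⟨s, hs⟩ := NHH.exists_path_off (z := z) (a := ⟨x, hx⟩) (b := ⟨x, hx⟩) γ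
  have : ContractibleSpace ({z}ᶜ : Set S3) := gns_contr z
  have h1 : s.Homotopic (Path.refl _) := SimplyConnectedSpace.paths_homotopic s (Path.refl _)
  have h2 := h1.map (⟨Subtype.val, continuous_subtype_val⟩ : C(({z}ᶜ : Set S3), S3))
  exact hs.symm.trans h2

theorem genH1_S3 (κ : ℝ × ℂ → S3) : GenH1 κ := by
  intro f _ g
  have h1 : g = 1 := by
    obtain ⟨γ, hγ⟩ := Quotient.exists_rep (FundamentalGroup.toPath g)
    have h2 : (⟦γ⟧ : Path.Homotopic.Quotient (κ (0, 0)) (κ (0, 0))) = ⟦Path.refl _⟧ := Quotient.sound (gns_loop γ)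
    exact hγ.symm.trans h2
  rw [h1, map_one]

end Pool.Agent.NHS
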