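import Pool.Agent.NHS.Defs
import Pool.Agent.NHT.Main

/-!
# NHS/Hgl: the homotopy theorem
-/

open scoped Manifold ContDiff Topology
open Pool.Agent.RSG
open Pool.Agent.NHT (FreeHomotopic GenH1)

namespace Pool.Agent.NHS

theorem hom_gluck {N : Type} [TopologicalSpace N] [ChartedSpace E3 N] [T2Space N] [IsManifold (𝓡 3) ∞ N] [ConnectedSpace N]
    {κ κ' : ℝ × ℂ → N} (hκ : Thick κ) (hκ' : Thick κ') (hF : FreeHomotopic κ κ') (hg : GenH1 κ) (n : ℤ)
    {X : Type} [TopologicalSpace X] [ChartedSpace E4 X] [T2Space X] : IsRollGluck κ n 0 X ↔ IsRollGluck κ' n 0 X :=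
  Pool.Agent.NHT.homotopy_theorem hκ hκ' hF hg n 0 0

end Pool.Agent.NHS
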