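import Pool.Agent.NHS.Defs

/-!
# NHS/Euc: reduction of unimodular matrices by even row operations   (difficulty 2, integers only)

PROOF.  Strong induction on `|a| + |c|`.  `gcd (a, c) = 1` by `hU`.
If `0 < |a| < |c|`: there is `k` with `|c + 2 k a| ≤ |a|` (division by `2 a` with smallest absolute remainder; `Int.emod` and a shift), use `h3`,
the sum decreases.  If `0 < |c| < |a|`: the same with `h4`.  `|a| = |c|`: both are `1` (gcd).  So the remaining cases are
`(|a|, |c|) = (1, 0), (0, 1), (1, 1)`; by `h1`, `h2` the signs are `+` (the signs of the first column).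
`(1, 0)`: `d = ±1`, `h2` gives `d = 1` (`c = 0` stays); `h4`: `b` modulo `2`: `b = 0` or `b = -1`.
`(0, 1)`: `b = ±1`, `h1` gives `b = 1`; `h3`: `d` modulo `2`: `d = 0` or `d = -1`.
`(1, 1)`: `d - b = ±1`.  `(1, b; 1, d) → (1, 2 d - b; 1, d)`: `h4` with `k = -1` gives `(-1, b - 2 d; 1, d)`, then `h1`.  In the same way
`(1, b; 1, 2 b - d)`.  So `(b, b + 1) → (b + 2, b + 1) → (b + 2, b + 3)` etc. (also backwards): one reaches `(b, d) = (1, 0)` if `b` is odd and
`(0, 1)` if `b` is even (induction on the absolute value of `b / 2`, or: show that for all `i : ℤ` `S 1 b 1 (b+1) → S 1 (b + 2 i) 1 (b + 2 i + 1)`,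
and similarly `S 1 (d + 1) 1 d`, `S 1 b 1 (b + 1) → S 1 (b + 2) 1 (b + 1)`).
-/

namespace Pool.Agent.NHS

theorem euc_div (a c : ℤ) (ha : a ≠ 0) : ∃ k : ℤ, |c + 2 * k * a| ≤ |a| := by
  have h2 : 2 * a ≠ 0 := mul_ne_zero two_ne_zero ha
  have e := Int.emod_add_mul_ediv c (2 * a)
  have h0 := Int.emod_nonneg c h2
  have h1 := Int.emod_lt_abs c h2
  rcases lt_or_gt_of_ne ha with hn | hp
  · rw [abs_of_neg (by linarith : 2 * a < 0)] at h1
    rw [abs_of_neg hn]
    by_cases hr : c % (2 * a) ≤ -a
    · refine ⟨-(c / (2 * a)), ?_⟩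
      have h3 : c + 2 * (-(c / (2 * a))) * a = c % (2 * a) := by linarith [mul_comm a (c / (2 * a)), mul_assoc 2 a (c / (2 * a)), mul_assoc 2 (-(c / (2 * a))) a, neg_mul (c / (2 * a)) a]
      rw [h3, abs_of_nonneg h0]
      exact hr
    · refine ⟨-(c / (2 * a)) + 1, ?_⟩
      have h3 : c + 2 * (-(c / (2 * a)) + 1) * a = c % (2 * a) + 2 * a := by
        have : c = c % (2 * a) + 2 * a * (c / (2 * a)) := e.symm
        linear_combination this
      rw [h3, abs_le]
      constructor <;> linarith
  · rw [abs_of_pos (by linarith : 0 < 2 * a)] at h1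
    rw [abs_of_pos hp]
    by_cases hr : c % (2 * a) ≤ a
    · refine ⟨-(c / (2 * a)), ?_⟩
      have h3 : c + 2 * (-(c / (2 * a))) * a = c % (2 * a) := by
        have : c = c % (2 * a) + 2 * a * (c / (2 * a)) := e.symm
        linear_combination this
      rw [h3, abs_of_nonneg h0]
      exact hr
    · refine ⟨-(c / (2 * a)) - 1, ?_⟩
      have h3 : c + 2 * (-(c / (2 * a)) - 1) * a = c % (2 * a) - 2 * a := by
        have : c = c % (2 * a) + 2 * a * (c / (2 * a)) := e.symm
        linear_combination this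
      rw [h3, abs_le]
      constructor <;> linarith

theorem euc_one {a b : ℤ} (h : a * b = 1 ∨ a * b = -1) : a = 1 ∨ a = -1 := by
  have h1 : IsUnit a := by
    rcases h with h | h
    · exact IsUnit.of_mul_eq_one b h
    · exact IsUnit.of_mul_eq_one (-b) (by rw [mul_neg, h, neg_neg])
  exact Int.isUnit_iff.1 h1

theorem euclid {S : ℤ → ℤ → ℤ → ℤ → Prop} (h1 : ∀ a b c d, Uni a b c d → S a b c d → S (-a) (-b) c d)
    (h2 : ∀ a b c d, Uni a b c d → S a b c d → S a b (-c) (-d))
    (h3 : ∀ a b c d k, Uni a b c d → S a b c d → S a b (c + 2 * k * a) (d + 2 * k * b))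
    (h4 : ∀ a b c d k, Uni a b c d → S a b c d → S (a + 2 * k * c) (b + 2 * k * d) c d)
    {a b c d : ℤ} (hU : Uni a b c d) (h : S a b c d) :
    S 1 1 1 0 ∨ S 1 0 1 1 ∨ S 0 1 1 0 ∨ S 1 0 0 1 ∨ S 0 1 1 (-1) ∨ S 1 (-1) 0 1 := by
  have key : ∀ T : ℤ → ℤ → ℤ → ℤ → Prop, (∀ a b c d, T a b c d → Uni a b c d ∧ S a b c d) →
      (∀ a b c d, T a b c d → T (-a) (-b) c d) → (∀ a b c d, T a b c d → T a b (-c) (-d)) →
      (∀ a b c d k, T a b c d → T a b (c + 2 * k * a) (d + 2 * k * b)) →
      (∀ a b c d k, T a b c d → T (a + 2 * k * c) (b + 2 * k * d) c d) →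
      ∀ (m : ℕ) (a b c d : ℤ), a.natAbs + c.natAbs ≤ m → T a b c d →
      T 1 1 1 0 ∨ T 1 0 1 1 ∨ T 0 1 1 0 ∨ T 1 0 0 1 ∨ T 0 1 1 (-1) ∨ T 1 (-1) 0 1 := by
    intro T hT t1 t2 t3 t4
    have cg : ∀ {a b c d a' b' c' d' : ℤ}, T a b c d → a = a' → b = b' → c = c' → d = d' → T a' b' c' d' := by
      rintro a b c d a' b' c' d' h rfl rfl rfl rfl
      exact h
    have up : ∀ b : ℤ, T 1 b 1 (b + 1) → T 1 (b + 2) 1 (b + 3) := by
      intro b hb
      have h5 := cg (t1 _ _ _ _ (t4 1 b 1 (b + 1) (-1) hb)) (a' := 1) (b' := b + 2) (c' := 1) (d' := b + 1)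
        (by ring) (by ring) rfl rfl
      exact cg (t2 _ _ _ _ (t3 1 (b + 2) 1 (b + 1) (-1) h5)) rfl rfl (by ring) (by ring)
    have dn : ∀ b : ℤ, T 1 b 1 (b + 1) → T 1 (b - 2) 1 (b - 1) := by
      intro b hb
      have h5 := cg (t2 _ _ _ _ (t3 1 b 1 (b + 1) (-1) hb)) (a' := 1) (b' := b) (c' := 1) (d' := b - 1)
        rfl rfl (by ring) (by ring)
      exact cg (t1 _ _ _ _ (t4 1 b 1 (b - 1) (-1) h5)) (by ring) (by ring) rfl rfl
    have all : ∀ (b i : ℤ), T 1 b 1 (b + 1) → T 1 (b + 2 * i) 1 (b + 2 * i + 1) := by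
      intro b i hb
      induction i using Int.induction_on with
      | zero => exact cg hb rfl (by ring) rfl (by ring)
      | succ i ih => exact cg (up _ ih) rfl (by ring) rfl (by ring)
      | pred i ih => exact cg (dn _ ih) rfl (by ring) rfl (by ring)
    have fin1 : ∀ b : ℤ, T 1 b 1 (b + 1) → T 1 1 1 0 ∨ T 1 0 1 1 := by
      intro b hb
      rcases Int.even_or_odd' b with ⟨i, hi | hi⟩
      · right
        exact cg (all b (-i) hb) rfl (by linarith) rfl (by linarith)
      · left
        have h5 : T 1 (-1) 1 0 := cg (all b (-i - 1) hb) rfl (by linarith) rfl (by linarith)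
        exact cg (t1 _ _ _ _ (t4 1 (-1) 1 0 (-1) h5)) (by ring) (by ring) rfl rfl
    intro m
    induction m with
    | zero =>
      intro a b c d hm h
      exfalso
      have ha : a = 0 := by omega
      have hc : c = 0 := by omega
      have hU := (hT _ _ _ _ h).1
      unfold Uni at hU
      rw [ha, hc] at hU
      simp at hU
    | succ m ih =>
      intro a b c d hm h
      have hU := (hT _ _ _ _ h).1
      unfold Uni at hU
      by_cases ha : a = 0
      · -- `a = 0`
        subst ha
        have hcb : c * b = 1 ∨ c * b = -1 := by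
          rcases hU with hU | hU
          · right; linarith
          · left; linarith
        have hb1 := euc_one (a := b) (b := c) (by rwa [mul_comm])
        have hc1 := euc_one hcb
        have s1 : ∃ b' d' : ℤ, (b' = 1 ∨ b' = -1) ∧ T 0 b' 1 d' := by
          rcases hc1 with hc1 | hc1
          · exact ⟨b, d, hb1, cg h rfl rfl hc1 rfl⟩
          · exact ⟨b, -d, hb1, cg (t2 _ _ _ _ h) rfl rfl (by rw [hc1]; rfl) rfl⟩
        obtain ⟨b', d', hb', h'⟩ := s1
        have s2 : T 0 1 1 d' := by
          rcases hb' with hb' | hb'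
          · exact cg h' rfl hb' rfl rfl
          · exact cg (t1 _ _ _ _ h') (by ring) (by rw [hb']; rfl) rfl rfl
        rcases Int.even_or_odd' d' with ⟨i, hi | hi⟩
        · right; right; left
          exact cg (t3 _ _ _ _ (-i) s2) rfl rfl (by ring) (by linarith)
        · right; right; right; right; left
          exact cg (t3 _ _ _ _ (-i - 1) s2) rfl rfl (by ring) (by linarith)
      · by_cases hc : c = 0
        · subst hc
          have had : a * d = 1 ∨ a * d = -1 := by
            rcases hU with hU | hU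
            · left; linarith
            · right; linarith
          have hd1 := euc_one (a := d) (b := a) (by rwa [mul_comm])
          have ha1 := euc_one had
          have s1 : ∃ b' : ℤ, T 1 b' 0 d := by
            rcases ha1 with ha1 | ha1
            · exact ⟨b, cg h ha1 rfl rfl rfl⟩
            · exact ⟨-b, cg (t1 _ _ _ _ h) (by rw [ha1]; rfl) rfl rfl rfl⟩
          obtain ⟨b', h'⟩ := s1
          have s2 : T 1 b' 0 1 := by
            rcases hd1 with hd1 | hd1
            · exact cg h' rfl rfl rfl hd1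
            · exact cg (t2 _ _ _ _ h') rfl rfl (by ring) (by rw [hd1]; rfl)
          rcases Int.even_or_odd' b' with ⟨i, hi | hi⟩
          · right; right; right; left
            exact cg (t4 _ _ _ _ (-i) s2) (by ring) (by linarith) rfl rfl
          · right; right; right; right; right
            exact cg (t4 _ _ _ _ (-i - 1) s2) (by ring) (by linarith) rfl rfl
        · rcases lt_trichotomy a.natAbs c.natAbs with hlt | heq | hgt
          · obtain ⟨k, hk⟩ := euc_div a c ha
            have h5 := Int.natAbs_le_iff_sq_le.2 (sq_le_sq.2 hk)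
            exact ih _ _ _ _ (by omega) (t3 _ _ _ _ k h)
          · have s0 : (a = 1 ∨ a = -1) ∧ (c = 1 ∨ c = -1) := by
              rcases Int.natAbs_eq_natAbs_iff.1 heq with e | e
              · have h5 : c * (d - b) = 1 ∨ c * (d - b) = -1 := by
                  rcases hU with hU | hU
                  · left; rw [e] at hU; linarith
                  · right; rw [e] at hU; linarith
                have h6 := euc_one h5
                exact ⟨by rw [e]; exact h6, h6⟩
              · have h5 : c * (d + b) = 1 ∨ c * (d + b) = -1 := by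
                  rcases hU with hU | hU
                  · right; rw [e] at hU; linarith
                  · left; rw [e] at hU; linarith
                have h6 := euc_one h5
                refine ⟨?_, h6⟩
                rcases h6 with h6 | h6
                · right; rw [e, h6]
                · left; rw [e, h6]; rfl
            obtain ⟨ha1, hc1⟩ := s0
            have s1 : ∃ b' : ℤ, T 1 b' c d := by
              rcases ha1 with ha1 | ha1
              · exact ⟨b, cg h ha1 rfl rfl rfl⟩
              · exact ⟨-b, cg (t1 _ _ _ _ h) (by rw [ha1]; rfl) rfl rfl rfl⟩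
            obtain ⟨b', h'⟩ := s1
            have s2 : ∃ d' : ℤ, T 1 b' 1 d' := by
              rcases hc1 with hc1 | hc1
              · exact ⟨d, cg h' rfl rfl hc1 rfl⟩
              · exact ⟨-d, cg (t2 _ _ _ _ h') rfl rfl (by rw [hc1]; rfl) rfl⟩
            obtain ⟨d', h''⟩ := s2
            have hU2 := (hT _ _ _ _ h'').1
            unfold Uni at hU2
            have s3 : T 1 1 1 0 ∨ T 1 0 1 1 := by
              rcases hU2 with hU2 | hU2
              · exact fin1 b' (cg h'' rfl rfl rfl (by linarith))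
              · have h5 : T 1 b' 1 (b' - 1) := cg h'' rfl rfl rfl (by linarith)
                have h6 : T 1 (b' - 2) 1 (b' - 2 + 1) :=
                  cg (t1 _ _ _ _ (t4 1 b' 1 (b' - 1) (-1) h5)) (by ring) (by ring) rfl (by ring)
                exact fin1 _ h6
            rcases s3 with s3 | s3
            · exact Or.inl s3
            · exact Or.inr (Or.inl s3)
          · obtain ⟨k, hk⟩ := euc_div c a hc
            have h5 := Int.natAbs_le_iff_sq_le.2 (sq_le_sq.2 hk)
            exact ih _ _ _ _ (by omega) (t4 _ _ _ _ k h)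
  have hres := key (fun a b c d => Uni a b c d ∧ S a b c d) (fun _ _ _ _ h => h) ?_ ?_ ?_ ?_ _ a b c d le_rfl ⟨hU, h⟩
  · rcases hres with h | h | h | h | h | h
    · exact Or.inl h.2
    · exact Or.inr (Or.inl h.2)
    · exact Or.inr (Or.inr (Or.inl h.2))
    · exact Or.inr (Or.inr (Or.inr (Or.inl h.2)))
    · exact Or.inr (Or.inr (Or.inr (Or.inr (Or.inl h.2))))
    · exact Or.inr (Or.inr (Or.inr (Or.inr (Or.inr h.2))))
  · rintro a b c d ⟨hU, hS⟩
    refine ⟨?_, h1 _ _ _ _ hU hS⟩
    unfold Uni at hU ⊢
    rcases hU with hU | hU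
    · right; linear_combination (-1 : ℤ) * hU
    · left; linear_combination (-1 : ℤ) * hU
  · rintro a b c d ⟨hU, hS⟩
    refine ⟨?_, h2 _ _ _ _ hU hS⟩
    unfold Uni at hU ⊢
    rcases hU with hU | hU
    · right; linear_combination (-1 : ℤ) * hU
    · left; linear_combination (-1 : ℤ) * hU
  · rintro a b c d k ⟨hU, hS⟩
    refine ⟨?_, h3 _ _ _ _ k hU hS⟩
    unfold Uni at hU ⊢
    rcases hU with hU | hU
    · left; linear_combination hU
    · right; linear_combination hU
  · rintro a b c d k ⟨hU, hS⟩
    refine ⟨?_, h4 _ _ _ _ k hU hS⟩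
    unfold Uni at hU ⊢
    rcases hU with hU | hU
    · left; linear_combination hU
    · right; linear_combination hU

end Pool.Agent.NHS
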