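import Pool.Agent.NHS.MvR
import Pool.Agent.NHS.Euc

/-!
# NHS/Red: every unimodular matrix reduces to three cases   (difficulty 1)

PROOF.  `euclid` for `S a b c d = Nonempty (TwinData κ a b c d n X)` (`neg1R`, `neg2R`, `add1R`, `add2R`).  `S 1 1 1 0` is
`IsRollGluck κ n 0 X`, `S 0 1 1 0`, `S 0 1 1 (-1)` are `RollSpin κ n 0`, `RollSpin κ n 1`; in the other three cases `swapR`.
-/

open scoped Manifold ContDiff Topology
open Pool.Agent.RSG

namespace Pool.Agent.NHS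

theorem reduceR {N : Type*} [TopologicalSpace N] [ChartedSpace E3 N] [T2Space N] {κ : ℝ × ℂ → N} {a₁ b₁ a₂ b₂ n : ℤ}
    {X : Type*} [TopologicalSpace X] [ChartedSpace E4 X] (hκ : Thick κ) (hU : Uni a₁ b₁ a₂ b₂)
    (D : TwinData κ a₁ b₁ a₂ b₂ n X) :
    (IsRollGluck κ n 0 X ∨ ∃ j, Nonempty (RollSpin κ n j X)) ∨
      (IsRollGluck (sh κ) n 0 X ∨ ∃ j, Nonempty (RollSpin (sh κ) n j X)) := by
  have h := euclid (S := fun a b c d => Nonempty (TwinData κ a b c d n X))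
    (fun a b c d _ ⟨D⟩ => neg1R D) (fun a b c d _ ⟨D⟩ => neg2R D) (fun a b c d k hU ⟨D⟩ => add1R hκ hU D k)
    (fun a b c d k hU ⟨D⟩ => add2R hκ hU D k) hU ⟨D⟩
  rcases h with h | ⟨⟨h⟩⟩ | h | ⟨⟨h⟩⟩ | h | ⟨⟨h⟩⟩
  · left; left
    exact h
  · right; left
    exact swapR h
  · left; right
    exact ⟨0, h⟩
  · right; right
    exact ⟨0, swapR h⟩
  · left; right
    exact ⟨1, h⟩
  · right; right
    exact ⟨1, swapR h⟩

end Pool.Agent.NHS
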