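import Pool.Agent.NHS.Spn
import Pool.Agent.NHS.Red
import Pool.Agent.NHS.BaR
import Pool.Agent.NHS.Shr
import Pool.Agent.NHS.GnH
import Pool.Agent.NHS.GnS
import Pool.Agent.NHS.GnI
import Pool.Agent.NHS.Exs
import Pool.Agent.NHS.Hgl

/-!
# NHS/Rel: knots in 3-manifolds up to homotopies and surgeries; the recognition theorem (assembly)
-/

open scoped Manifold ContDiff Topology
open Set Filter
open Pool.Agent.RSG
open Pool.Agent.NHT (FreeHomotopic GenH1)

namespace Pool.Agent.NHS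

/-- a thick knot `κ` in a connected Hausdorff smooth 3-manifold `N` -/
structure Knot3 where
  N : Type
  [top : TopologicalSpace N]
  [ch : ChartedSpace E3 N]
  [t2 : T2Space N]
  [mfd : IsManifold (𝓡 3) ∞ N]
  [con : ConnectedSpace N]
  κ : ℝ × ℂ → N
  thick : Thick κ

attribute [instance] Knot3.top Knot3.ch Knot3.t2 Knot3.mfd Knot3.con

/-- The moves: free homotopy of the knot in `N`; `1/(kn)`-surgery, `k ∈ S`, on a knot with a Seifert function (the new
knot is the dual knot). -/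
inductive Step (n : ℤ) (S : Set ℤ) : Knot3 → Knot3 → Prop
  | hom (K : Knot3) (κ' : ℝ × ℂ → K.N) (h : Thick κ') : FreeHomotopic K.κ κ' → Step n S K ⟨K.N, κ', h⟩
  | surg (K K' : Knot3) (k : ℤ) (φ : K.N → ℂ) (F : K'.N → K.N) :
      k ∈ S → Seif K.κ φ → Dual (k * n) K.κ K'.κ F → Step n S K K'

/-- the equivalence relation generated by the moves -/
def Rel (n : ℤ) (S : Set ℤ) : Knot3 → Knot3 → Prop := Relation.EqvGen (Step n S)

theorem free_symm {N : Type} [TopologicalSpace N] {κ κ' : ℝ × ℂ → N} (h : FreeHomotopic κ κ') : FreeHomotopic κ' κ := by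
  obtain ⟨H, h1, h2, h3, h4⟩ := h
  refine ⟨fun q => H (1 - q.1, q.2), h1.comp (by fun_prop), fun s l => h2 _ _, fun l => ?_, fun l => ?_⟩
  · show H (1 - 0, l) = _
    rw [sub_zero, h4]
  · show H (1 - 1, l) = _
    rw [sub_self, h3]

theorem free_sh {N : Type} [TopologicalSpace N] [ChartedSpace E3 N] {κ : ℝ × ℂ → N} (hκ : Thick κ) :
    FreeHomotopic κ (sh κ) := by
  have hc : Continuous fun l : ℝ => κ (l, 0) := by
    rw [continuous_iff_continuousAt]
    intro l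
    have h1 : ContinuousAt κ (l, 0) := (hκ.loc l 0 (by simp)).contMDiffAt.continuousAt
    exact h1.comp (f := fun l : ℝ => (l, (0 : ℂ))) (by fun_prop : ContinuousAt (fun l : ℝ => (l, (0 : ℂ))) l)
  refine ⟨fun q => κ (q.2 + q.1 / 2, 0), hc.comp (by fun_prop : Continuous fun q : ℝ × ℝ => q.2 + q.1 / 2), ?_, ?_, ?_⟩
  · intro s l
    show κ (l + 1 + s / 2, 0) = κ (l + s / 2, 0)
    rw [show l + 1 + s / 2 = l + s / 2 + 1 by ring, hκ.per]
  · intro l
    show κ (l + 0 / 2, 0) = κ (l, 0)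
    simp
  · intro l
    rfl

section dual
variable {N : Type} [TopologicalSpace N] [ChartedSpace E3 N] {N' : Type} [TopologicalSpace N'] [ChartedSpace E3 N']
  {κ : ℝ × ℂ → N} {κ' : ℝ × ℂ → N'} {q : ℤ} {F : N' → N}

/-- the points of the tube off the core are off the knot -/
theorem off_of {κ : ℝ × ℂ → N} (hκ : Thick κ) {l m r : ℝ} (h0 : 0 < r) (h1 : r < 1) : ¬ OnKnot κ (κ (l, r * ex m)) := by
  rintro ⟨l', h⟩
  have hn : ‖(r : ℂ) * ex m‖ = r := by
    rw [norm_mul, ex_norm, mul_one, Complex.norm_real, Real.norm_of_nonneg h0.le]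
  have h2 := (hκ.inj _ _ _ _ (by rw [hn]; exact h1) (by simp) h).1
  rw [h2, norm_zero] at hn
  exact h0.ne hn

/-- the inverse surgery -/
theorem dual_symm [T2Space N] [T2Space N'] (_hκ : Thick κ) (hκ' : Thick κ') (hF : Dual q κ κ' F) :
    ∃ G : N → N', (∀ x, ¬ OnKnot κ' x → G (F x) = x) ∧ Dual (-q) κ' κ G := by
  classical
  have hx : Nonempty N' := ⟨κ' (0, 0)⟩
  let G : N → N' := fun y => if h : ¬ OnKnot κ y then (hF.surj y h).choose else κ' (0, 0)
  have hG : ∀ y, ¬ OnKnot κ y → ¬ OnKnot κ' (G y) ∧ F (G y) = y := by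
    intro y hy
    have e : G y = (hF.surj y hy).choose := dif_pos hy
    rw [e]
    exact (hF.surj y hy).choose_spec
  have hGF : ∀ x, ¬ OnKnot κ' x → G (F x) = x := by
    intro x hx
    have h1 := hG (F x) (hF.off x hx)
    exact hF.inj _ _ h1.1 hx h1.2
  have hop : IsOpen {x : N' | ¬ OnKnot κ' x} := (Uniq_open hκ').isOpen_compl
  refine ⟨G, hGF, ?_⟩
  refine { off := fun y hy => (hG y hy).1, loc := ?_, inj := ?_, surj := ?_, near := ?_ }
  · intro y hy
    obtain ⟨h1, h2⟩ := hG y hy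
    have h3 : IsLocalDiffeomorphAt (𝓡 3) (𝓡 3) ∞ (G ∘ F) (G y) := by
      refine CSG.ld_congr (f := id) ?_ ?_
      · exact (Diffeomorph.refl (𝓡 3) N' ∞).isLocalDiffeomorph _
      · filter_upwards [hop.mem_nhds h1] with x hx
        exact hGF x hx
    have h4 := CSG.ld_of_comp_left h3 (hF.loc _ h1)
    rw [h2] at h4
    exact h4
  · intro y y' hy hy' he
    rw [← (hG y hy).2, he, (hG y' hy').2]
  · intro x hx
    exact ⟨F x, hF.off x hx, hGF x hx⟩
  · intro l m r h0 h1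
    have h2 : ¬ OnKnot κ' (κ' (l + (-q : ℤ) * m, r * ex m)) := off_of hκ' h0 h1
    rw [← hGF _ h2, hF.near _ m r h0 h1]
    congr 2
    push_cast
    ring_nf

theorem seif_dual (_hκ' : Thick κ') {φ : N → ℂ} (hφ : Seif κ φ) (hF : Dual q κ κ' F) : Seif κ' (φ ∘ F) := by
  refine ⟨fun x hx => ?_, fun x hx => hφ.norm _ (hF.off x hx), fun l m r h0 h1 => ?_⟩
  · exact (hφ.smooth _ (hF.off x hx)).comp x (hF.loc x hx).contMDiffAt
  · show φ (F _) = _
    rw [hF.near l m r h0 h1, hφ.near _ m r h0 h1]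

end dual

/-- the symmetric generators -/
theorem step_symm {n : ℤ} {S : Set ℤ} (hS : ∀ k ∈ S, -k ∈ S) {K K' : Knot3} (h : Step n S K K') : Step n S K' K := by
  cases h with
  | hom κ' h' hF => exact Step.hom ⟨K.N, κ', h'⟩ K.κ K.thick (free_symm hF)
  | surg _ k φ F hk hφ hF =>
    obtain ⟨G, _, hG⟩ := dual_symm K.thick K'.thick hF
    refine Step.surg K' K (-k) (φ ∘ F) G (hS k hk) (seif_dual K'.thick hφ hF) ?_
    rw [neg_mul]
    exact hG

/-- induction for the relation -/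
theorem Rel.mp {n : ℤ} {S : Set ℤ} (hS : ∀ k ∈ S, -k ∈ S) {Pr : Knot3 → Prop}
    (h : ∀ K K', Step n S K K' → Pr K → Pr K') {K K' : Knot3} (hR : Rel n S K K') : Pr K → Pr K' := by
  have key : ∀ {K K'}, Relation.EqvGen (Step n S) K K' → (Pr K ↔ Pr K') := by
    intro K K' hR
    induction hR with
    | rel K K' hs => exact ⟨h K K' hs, h K' K (step_symm hS hs)⟩
    | refl K => exact Iff.rfl
    | symm K K' _ ih => exact ih.symm
    | trans K K' K'' _ _ ih ih' => exact ih.trans ih'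
  exact (key hR).1

theorem gen_step {n : ℤ} {S : Set ℤ} {K K' : Knot3} (h : Step n S K K') (hg : GenH1 K.κ) : GenH1 K'.κ := by
  cases h with
  | hom κ' h' hF => exact genH1_free (fun l => K.thick.per l 0) (fun l => h'.per l 0) hg hF
  | surg _ k φ F hk hφ hF => exact genH1_dual K.thick K'.thick hF hg

section gluck
variable {X : Type} [TopologicalSpace X] [ChartedSpace E4 X] [T2Space X]

/-- one step, Gluck type, `k` even -/
theorem gluck_step {n : ℤ} {K K' : Knot3} (h : Step n {k | Even k} K K') (hg : GenH1 K.κ) (hX : IsRollGluck K.κ n 0 X) :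
    IsRollGluck K'.κ n 0 X := by
  cases h with
  | hom κ' h' hF => exact (hom_gluck K.thick h' hF hg n).1 hX
  | surg _ k φ F hk hφ hF =>
    obtain ⟨k', hk'⟩ := hk
    obtain ⟨G, _, hG⟩ := dual_symm K.thick K'.thick hF
    obtain ⟨D⟩ := hX
    rw [← neg_mul] at hG
    -- the matrix is `(1 + k, 1; 1, 0)`
    obtain ⟨D1⟩ := shear K'.thick K.thick (seif_dual K'.thick hφ hF) hG D
    have hU : Uni (1 - -k * (1 - 0)) (1 - 0) (1 - -k * -0) (-0) := Or.inr (by ring)
    obtain ⟨D2⟩ := add2R K'.thick hU D1 (-k')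
    subst hk'
    have e1 : (1 - -(k' + k') * (1 - 0) + 2 * -k' * (1 - -(k' + k') * -0) : ℤ) = 1 := by ring
    have e2 : (1 - 0 + 2 * -k' * -0 : ℤ) = 1 - 0 := by ring
    have e3 : (1 - -(k' + k') * -0 : ℤ) = 1 := by ring
    rw [e1, e2, e3] at D2
    exact ⟨D2⟩

/-- **Homotopies and surgeries, Gluck type.** -/
theorem rel_gluck {n : ℤ} {K K' : Knot3} (h : Rel n {k | Even k} K K') (hg : GenH1 K.κ) (j j' : ℤ) :
    IsRollGluck K.κ n j X ↔ IsRollGluck K'.κ n j' X := by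
  have hS : ∀ k ∈ {k : ℤ | Even k}, -k ∈ {k : ℤ | Even k} := fun k hk => (even_neg).2 hk
  have key : ∀ {K K' : Knot3}, Rel n {k | Even k} K K' → GenH1 K.κ → IsRollGluck K.κ n 0 X → IsRollGluck K'.κ n 0 X := by
    intro K K' h hg hX
    exact (Rel.mp (Pr := fun K => GenH1 K.κ ∧ IsRollGluck K.κ n 0 X) hS
      (fun K K' hs hP => ⟨gen_step hs hP.1, gluck_step hs hP.1 hP.2⟩) h ⟨hg, hX⟩).2
  have hg' : GenH1 K'.κ := Rel.mp (Pr := fun K => GenH1 K.κ) hS (fun K K' hs hP => gen_step hs hP) h hg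
  constructor
  · intro hX
    exact (NHJ.roll_shift K'.thick).1 (key h hg ((NHJ.roll_shift K.thick).1 hX))
  · intro hX
    exact (NHJ.roll_shift K.thick).1 (key (Relation.EqvGen.symm _ _ h) hg' ((NHJ.roll_shift K'.thick).1 hX))

end gluck

/-- the property carried by the induction -/
def Car (n : ℤ) (K : Knot3) : Prop := GenH1 K.κ ∧ Good n K.κ

theorem Car.hom {n : ℤ} {K : Knot3} (h : Car n K) {κ' : ℝ × ℂ → K.N} (hκ' : Thick κ') (hF : FreeHomotopic K.κ κ') :
    Car n ⟨K.N, κ', hκ'⟩ := by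
  refine ⟨genH1_free (fun l => K.thick.per l 0) (fun l => hκ'.per l 0) h.1 hF, ?_⟩
  intro X _ _ _
  refine ⟨fun hX => (h.2 X).1 ((hom_gluck K.thick hκ' hF h.1 n).2 hX), ?_⟩
  rintro j ⟨D'⟩
  obtain ⟨j', hD⟩ := spin_homotopy K.thick hκ' hF D'
  exact (h.2 X).2 j' hD

theorem Car.all {n : ℤ} {K : Knot3} (h : Car n K) : AllS4 n K.κ := by
  intro a₁ b₁ a₂ b₂ hU X _ _ _ hX
  obtain ⟨D⟩ := hX
  have h2 := h.hom (sh_thick K.thick) (free_sh K.thick)
  rcases reduceR K.thick hU D with (h1 | ⟨j, h1⟩) | (h1 | ⟨j, h1⟩)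
  · exact (h.2 X).1 h1
  · exact (h.2 X).2 j h1
  · exact (h2.2 X).1 h1
  · exact (h2.2 X).2 j h1

theorem Car.step {n : ℤ} {S : Set ℤ} {K K' : Knot3} (hs : Step n S K K') (h : Car n K) : Car n K' := by
  refine ⟨gen_step hs h.1, ?_⟩
  cases hs with
  | hom κ' h' hF => exact (h.hom h' hF).2
  | surg _ k φ F hk hφ hF =>
    have hA := h.all
    intro X _ _ _
    constructor
    · rintro ⟨D⟩
      exact hA _ _ _ _ (Or.inr (by ring)) X (shear K.thick K'.thick hφ hF D)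
    · rintro j ⟨D⟩
      exact hA _ _ _ _ (Or.inr (by ring)) X (shear K.thick K'.thick hφ hF D)

instance : ConnectedSpace S3 := by
  have h : 1 < Module.rank ℝ E4 := by
    rw [← Module.finrank_eq_rank]
    simp
  exact isConnected_iff_connectedSpace.1 (isConnected_sphere h 0 zero_le_one)

/-- the unknot of the 3-sphere -/
noncomputable def unknot : Knot3 := ⟨S3, std 0, std_thick 0⟩

theorem car_unknot (n : ℤ) : Car n unknot := by
  have hκ : Thick (std 0) := std_thick 0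
  refine ⟨genH1_S3 _, ?_⟩
  intro X _ _ _
  constructor
  · rintro ⟨D⟩
    obtain ⟨D'⟩ := baseR (a₁ := 1) (b₁ := 1 - 0) (a₂ := 1) (b₂ := -0) n (Or.inr (by norm_num))
    exact uniqR hκ (Or.inr (by norm_num)) D D'
  · rintro j ⟨D⟩
    obtain ⟨D'⟩ := baseR (a₁ := 0) (b₁ := 1) (a₂ := 1) (b₂ := -j) n (Or.inr (by ring))
    exact uniqR hκ (Or.inr (by ring)) D D'

/-- **The recognition theorem.** -/
theorem recognition {n : ℤ} {K : Knot3} (h : Rel n univ unknot K) :
    AllS4 n K.κ ∧ ∀ a₁ b₁ a₂ b₂ : ℤ, Uni a₁ b₁ a₂ b₂ → Nonempty (TwinData K.κ a₁ b₁ a₂ b₂ n S4) := by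
  have hc : Car n K := Rel.mp (fun k _ => mem_univ (-k)) (fun K K' hs hP => hP.step hs) h (car_unknot n)
  refine ⟨hc.all, fun a₁ b₁ a₂ b₂ hU => ?_⟩
  obtain ⟨X, _, _, _, _, ⟨D⟩⟩ := existsR K.thick n hU
  obtain ⟨G⟩ := hc.all a₁ b₁ a₂ b₂ hU X ⟨D⟩
  exact transR D G

/-- the Gluck twists of the 2-knots `D.tube` -/
theorem gluck_twists {n : ℤ} {K : Knot3} (h : Rel n univ unknot K) (j : ℤ) {Y : Type} [TopologicalSpace Y]
    [ChartedSpace E4 Y] (D : RollSpin K.κ n j Y) {X : Type} [TopologicalSpace X] [ChartedSpace E4 X] [T2Space X]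
    (G : GluckTwist D.tube X) : IsS4 X :=
  (recognition h).1 _ _ _ _ (Or.inr (by ring)) X (gluck_spin D G)

end Pool.Agent.NHS
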