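import Pool.Agent.NHS.UnR
import Pool.Agent.NHJ.Mod

/-!
# NHS/MoR: change of the gluing by a diffeomorphism `Φ` of the 4-sphere, general matrices   (difficulty 3)

PROOF.  Adapt `NHJ/Mod.lean` (`NHJ.modify`; there the manifold is `P ⊃ torus` and the matrix is the Gluck matrix; here the manifold is
`N × ℝ` with period, the torus is `κ (l, 0) × ℝ`, the matrices are arbitrary unimodular): `Q' = Q ∘ Φ`; `κ' = κ (· + s, ·)`;
`A' (κ' (l, v), t) = Q' (GcR' (l, v, t))` for `0 < ‖v‖ < 1`, `A' (x, t) = A (x, t)` for `x` not in the tube `κ (ℝ × {‖v‖ < 1})` (which is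
also the tube of `κ'`).  For `7/8 < ‖v‖` the two agree with `A (κ' (l, v), t)` by `hg` (`gcR_spec`), so `A'` is a local diffeomorphism.
`COR.Kmv_closed`, or directly: `κ '' {‖v‖ ≤ 7/8}` is compact.
-/

open scoped Manifold ContDiff Topology
open Set Filter
open Complex (I)
open Pool.Agent.RSG

namespace Pool.Agent.NHS

section
variable {N : Type*} [TopologicalSpace N] [ChartedSpace E3 N] {κ : ℝ × ℂ → N}

theorem mor_thick (hκ : Thick κ) (s : ℝ) : Thick (fun q : ℝ × ℂ => κ (q.1 + s, q.2)) := by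
  refine ⟨fun l v => ?_, fun l v hv => ?_, fun l v l' v' hv hv' he => ?_⟩
  · show κ (l + 1 + s, v) = κ (l + s, v)
    rw [show l + 1 + s = l + s + 1 by ring, hκ.per]
  · have h1 : IsLocalDiffeomorphAt 𝓘(ℝ, ℝ × ℂ) 𝓘(ℝ, ℝ × ℂ) ∞ (fun q : ℝ × ℂ => (q.1 + s, q.2)) (l, v) := by
      refine CSG.ld_of_perm (f := (Equiv.addRight s).prodCongr (Equiv.refl ℂ)) ?_ ?_ (l, v)
      · exact (contDiff_fst.add contDiff_const).prodMk contDiff_snd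
      · exact (contDiff_fst.add contDiff_const).prodMk contDiff_snd
    exact IsLocalDiffeomorphAt.comp (hf := h1) (hg := hκ.loc (l + s) v hv)
  · obtain ⟨h1, m, h2⟩ := hκ.inj _ _ _ _ hv hv' he
    exact ⟨h1, m, by linarith⟩

theorem mor_prod (hκ : Thick κ) {l t : ℝ} {v : ℂ} (hv : ‖v‖ < 1) :
    IsLocalDiffeomorphAt 𝓘(ℝ, ℝ × ℂ × ℝ) ((𝓡 3).prod 𝓘(ℝ, ℝ)) ∞
      (fun q : ℝ × ℂ × ℝ => (κ (q.1, q.2.1), q.2.2)) (l, v, t) := by
  have h1 : IsLocalDiffeomorphAt (𝓘(ℝ, ℝ × ℂ).prod 𝓘(ℝ, ℝ)) ((𝓡 3).prod 𝓘(ℝ, ℝ)) ∞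
      (Prod.map κ (id : ℝ → ℝ)) ((l, v), t) := RSG.ld_prodMap (hκ.loc l v hv) (CSG.ld_id t)
  have h2 : IsLocalDiffeomorphAt 𝓘(ℝ, ℝ × ℂ × ℝ) (𝓘(ℝ, ℝ × ℂ).prod 𝓘(ℝ, ℝ)) ∞
      (fun q : ℝ × ℂ × ℝ => ((q.1, q.2.1), q.2.2)) (l, v, t) := by
    rw [← modelWithCornersSelf_prod, chartedSpaceSelf_prod]
    refine CSG.ld_of_perm (f := (Equiv.prodAssoc ℝ ℂ ℝ).symm) ?_ ?_ (l, v, t)
    · exact (contDiff_fst.prodMk contDiff_snd.fst).prodMk contDiff_snd.snd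
    · exact contDiff_fst.fst.prodMk (contDiff_fst.snd.prodMk contDiff_snd)
  exact IsLocalDiffeomorphAt.comp (hf := h2) (hg := h1) ..

theorem mor_closed [T2Space N] (hκ : Thick κ) {R : ℝ} (hR : R < 1) :
    IsClosed (κ '' {z : ℝ × ℂ | ‖z.2‖ ≤ R}) := by
  have h1 : κ '' {z : ℝ × ℂ | ‖z.2‖ ≤ R} = κ '' (Icc (0 : ℝ) 1 ×ˢ Metric.closedBall (0 : ℂ) R) := by
    ext p
    constructor
    · rintro ⟨⟨l, v⟩, hv, rfl⟩
      refine ⟨(Int.fract l, v), ⟨⟨Int.fract_nonneg l, (Int.fract_lt_one l).le⟩, by simpa using hv⟩, ?_⟩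
      have h2 := per_int hκ.per (Int.fract l) v ⌊l⌋
      rw [Int.fract_add_floor] at h2
      exact h2.symm
    · rintro ⟨⟨l, v⟩, ⟨hl, hv⟩, rfl⟩
      exact ⟨(l, v), by simpa using hv, rfl⟩
  rw [h1]
  apply IsCompact.isClosed
  apply IsCompact.image_of_continuousOn
  · exact isCompact_Icc.prod (isCompact_closedBall 0 R)
  · rintro ⟨l, v⟩ ⟨hl, hv⟩
    exact (CSG.ld_continuousAt (hκ.loc l v (lt_of_le_of_lt (by simpa using hv) hR))).continuousWithinAt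

variable {a₁ b₁ a₂ b₂ n : ℤ} {X : Type*} [TopologicalSpace X] [ChartedSpace E4 X]

theorem mor_nv {z : S4} (h1 : c1 z ≠ 0) (h2 : c2 z ≠ 0) (m : ℝ) : ((2 * ‖c1 z‖ * ‖c2 z‖ : ℝ) : ℂ) * ex m ≠ 0 := by
  refine mul_ne_zero ?_ (ex_ne m)
  have p1 := norm_pos_iff.2 h1
  have p2 := norm_pos_iff.2 h2
  have : (0 : ℝ) < 2 * ‖c1 z‖ * ‖c2 z‖ := by positivity
  exact_mod_cast this.ne'

theorem mor_Q_ne_A (hκ : Thick κ) (hU : Uni a₁ b₁ a₂ b₂) (D : TwinData κ a₁ b₁ a₂ b₂ n X) {z : S4} (hz : fh z ≠ 0)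
    {x : N} (t : ℝ) (hx : ∀ l v, ‖v‖ < 1 → x ≠ κ (l, v)) : D.Q z ≠ D.A (x, t) := by
  have hxT : ¬ OnKnot κ x := by
    rintro ⟨l, h⟩
    exact hx l 0 (by simp) h
  by_cases h12 : c1 z = 0 ∨ c2 z = 0
  · exact D.disj z x t hz h12 hxT
  · push Not at h12
    obtain ⟨l, m, t', e1, e2, e3⟩ := ph_exists hU n z
    rw [D.glue z l m t' hz h12.1 h12.2 e1 e2 e3]
    intro h
    have hn : ‖((2 * ‖c1 z‖ * ‖c2 z‖ : ℝ) : ℂ) * ex m‖ < 1 := glue_norm hz m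
    have hv := mor_nv h12.1 h12.2 m
    exact hx _ _ hn (D.A_inj _ _ _ _ (NewS_thick_knot hκ (l := l) hv hn) hxT h).1.symm

theorem mor_dir {v : ℂ} (hv : v ≠ 0) : ∃ m : ℝ, v = ((‖v‖ : ℝ) : ℂ) * ex m := by
  obtain ⟨m, -, hm⟩ := NHJ.dir_of hv
  exact ⟨m, hm.symm⟩

end

theorem modR {N : Type*} [TopologicalSpace N] [ChartedSpace E3 N] [T2Space N] {κ : ℝ × ℂ → N} (hκ : Thick κ)
    {a₁ b₁ a₂ b₂ a₁' b₁' a₂' b₂' n : ℤ} (hU : Uni a₁ b₁ a₂ b₂) (hU' : Uni a₁' b₁' a₂' b₂')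
    {X : Type*} [TopologicalSpace X] [ChartedSpace E4 X] (D : TwinData κ a₁ b₁ a₂ b₂ n X) (s : ℝ)
    (Φ : Equiv.Perm S4) (hΦ : ∀ z, IsLocalDiffeomorphAt (𝓡 4) (𝓡 4) ∞ Φ z) (hne : ∀ z, fh (Φ z) ≠ 0 ↔ fh z ≠ 0)
    (hg : ∀ (z : S4) (l m t : ℝ), fh z ≠ 0 → 7 / 8 < 2 * ‖c1 z‖ * ‖c2 z‖ → Ph a₁' b₁' a₂' b₂' n z l m t →
      D.Q (Φ z) = D.A (κ (l + s, (2 * ‖c1 z‖ * ‖c2 z‖ : ℝ) * ex m), t)) :
    Nonempty (TwinData (fun q => κ (q.1 + s, q.2)) a₁' b₁' a₂' b₂' n X) := by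
  classical
  obtain ⟨κ', hκ'e⟩ : ∃ κ' : ℝ × ℂ → N, κ' = fun q => κ (q.1 + s, q.2) := ⟨_, rfl⟩
  have hκ'v : ∀ l v, κ' (l, v) = κ (l + s, v) := fun l v => by rw [hκ'e]
  have hκ' : Thick κ' := by
    rw [hκ'e]
    exact mor_thick hκ s
  rw [← hκ'e]
  -- the knot
  have hK : ∀ x, OnKnot κ' x ↔ OnKnot κ x := by
    intro x
    constructor
    · rintro ⟨l, h⟩
      exact ⟨l + s, by rw [h, hκ'v]⟩
    · rintro ⟨l, h⟩
      exact ⟨l - s, by rw [h, hκ'v, sub_add_cancel]⟩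
  -- the new map A
  let In : N → Prop := fun x => ∃ q : ℝ × ℂ, q.2 ≠ 0 ∧ ‖q.2‖ < 1 ∧ x = κ' q
  let A' : N × ℝ → X := fun p => if h : In p.1 then D.Q (Φ (GcR a₁' b₁' a₂' b₂' n (h.choose.1, h.choose.2, p.2)))
    else D.A p
  have hA1 : ∀ l v t, v ≠ 0 → ‖v‖ < 1 → A' (κ' (l, v), t) = D.Q (Φ (GcR a₁' b₁' a₂' b₂' n (l, v, t))) := by
    intro l v t hv hv1
    have h : In (κ' (l, v)) := ⟨(l, v), hv, hv1, rfl⟩
    have e : A' (κ' (l, v), t) = D.Q (Φ (GcR a₁' b₁' a₂' b₂' n (h.choose.1, h.choose.2, t))) := dif_pos h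
    rw [e]
    have key : ∀ q : ℝ × ℂ, ‖q.2‖ < 1 → κ' (l, v) = κ' q →
        GcR a₁' b₁' a₂' b₂' n (q.1, q.2, t) = GcR a₁' b₁' a₂' b₂' n (l, v, t) := by
      rintro ⟨l', v'⟩ b2 b3
      obtain ⟨e1, a, e2⟩ := hκ'.inj l v l' v' hv1 b2 b3
      subst e1
      have h0 := gcR_per (a₁ := a₁') (b₁ := b₁') (a₂ := a₂') (b₂ := b₂') (n := n) l t v a 0
      rw [Int.cast_zero, add_zero] at h0
      show GcR a₁' b₁' a₂' b₂' n (l', v, t) = _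
      rw [e2, h0]
    obtain ⟨b1, b2, b3⟩ := h.choose_spec
    rw [key _ b2 b3]
  have hA2 : ∀ x t, ¬ In x → A' (x, t) = D.A (x, t) := fun x t h => dif_neg h
  have hGne : ∀ l v t, v ≠ 0 → ‖v‖ < 1 → fh (GcR a₁' b₁' a₂' b₂' n (l, v, t)) ≠ 0 := by
    intro l v t h0 h1
    obtain ⟨m, hm⟩ := mor_dir h0
    exact (gcR_spec a₁' b₁' a₂' b₂' n (l := l) (t := t) h0 h1 hm).1
  have hA3 : ∀ l v t, 7 / 8 < ‖v‖ → ‖v‖ < 1 → A' (κ' (l, v), t) = D.A (κ' (l, v), t) := by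
    intro l v t hv hv1
    have hv0 : v ≠ 0 := by
      rintro rfl
      rw [norm_zero] at hv
      norm_num at hv
    obtain ⟨m, hm⟩ := mor_dir hv0
    obtain ⟨hf, a1, a2, hr, hph⟩ := gcR_spec a₁' b₁' a₂' b₂' n (l := l) (t := t) hv0 hv1 hm
    rw [hA1 l v t hv0 hv1, hg _ l m t hf (by rw [hr]; exact hv) hph, hr, ← hm, hκ'v]
  have hout : ∀ x, ¬ OnKnot κ' x → ¬ In x → ∀ l v, ‖v‖ < 1 → x ≠ κ' (l, v) := by
    intro x h1 h2 l v hv h3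
    by_cases h0 : v = 0
    · exact h1 ⟨l, by rw [h3, h0]⟩
    · exact h2 ⟨(l, v), h0, hv, h3⟩
  have hout' : ∀ x, ¬ OnKnot κ' x → ¬ In x → ∀ l v, ‖v‖ < 1 → x ≠ κ (l, v) := by
    intro x h1 h2 l v hv h3
    refine hout x h1 h2 (l - s) v hv ?_
    rw [hκ'v, sub_add_cancel]
    exact h3
  have hQA : ∀ z x t, fh z ≠ 0 → ¬ OnKnot κ' x → ¬ In x → D.Q (Φ z) ≠ D.A (x, t) := fun z x t hz h1 h2 =>
    mor_Q_ne_A hκ hU D ((hne z).2 hz) t (hout' x h1 h2)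
  refine ⟨{ A := A', Q := fun z => D.Q (Φ z), A_per := ?_, A_loc := ?_, A_inj := ?_, Q_loc := ?_,
            Q_inj := ?_, glue := ?_, disj := ?_, cover := ?_ }⟩
  · intro x t
    by_cases hI : In x
    · obtain ⟨⟨l, v⟩, h0, h1, rfl⟩ := hI
      rw [hA1 l v _ h0 h1, hA1 l v _ h0 h1]
      have h2 := gcR_per (a₁ := a₁') (b₁ := b₁') (a₂ := a₂') (b₂ := b₂') (n := n) l t v 0 1
      rw [Int.cast_zero, add_zero, Int.cast_one] at h2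
      rw [h2]
    · rw [hA2 x _ hI, hA2 x _ hI, D.A_per]
  · intro x t hx
    by_cases hI : In x
    · obtain ⟨⟨l, v⟩, h0, h1, rfl⟩ := hI
      have hcomp : IsLocalDiffeomorphAt 𝓘(ℝ, ℝ × ℂ × ℝ) (𝓡 4) ∞
          (A' ∘ fun q : ℝ × ℂ × ℝ => (κ' (q.1, q.2.1), q.2.2)) (l, v, t) := by
        have hG := gcR_ld (n := n) hU' (l := l) (t := t) h0 h1
        have hQ : IsLocalDiffeomorphAt (𝓡 4) (𝓡 4) ∞ (D.Q ∘ Φ) (GcR a₁' b₁' a₂' b₂' n (l, v, t)) :=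
          IsLocalDiffeomorphAt.comp (hf := hΦ _) (hg := D.Q_loc _ ((hne _).2 (hGne l v t h0 h1)))
        have hq : IsLocalDiffeomorphAt 𝓘(ℝ, ℝ × ℂ × ℝ) (𝓡 4) ∞ ((D.Q ∘ Φ) ∘ GcR a₁' b₁' a₂' b₂' n) (l, v, t) :=
          IsLocalDiffeomorphAt.comp (hf := hG) (hg := hQ)
        refine Pool.Agent.CSG.ld_congr hq ?_
        have A1 : ∀ᶠ a : ℝ × ℂ × ℝ in 𝓝 (l, v, t), a.2.1 ≠ 0 :=
          (continuous_snd.fst).continuousAt.eventually_ne h0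
        have A2 : ∀ᶠ a : ℝ × ℂ × ℝ in 𝓝 (l, v, t), ‖a.2.1‖ < 1 :=
          (continuous_snd.fst.norm).continuousAt.eventually_lt continuousAt_const h1
        filter_upwards [A1, A2] with a ha1 ha2
        exact hA1 a.1 a.2.1 a.2.2 ha1 ha2
      exact Pool.Agent.CSG.ld_of_comp_left (f := fun q : ℝ × ℂ × ℝ => (κ' (q.1, q.2.1), q.2.2)) (g := A')
        (x := (l, v, t)) hcomp (mor_prod hκ' (v := v) h1)
    · refine Pool.Agent.CSG.ld_congr (D.A_loc x t fun h => hx ((hK x).2 h)) ?_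
      have hcl := mor_closed hκ' (R := 7 / 8) (by norm_num)
      have hpC : x ∉ κ' '' {z : ℝ × ℂ | ‖z.2‖ ≤ 7 / 8} := by
        rintro ⟨⟨l, v⟩, hv, rfl⟩
        have hv' : ‖v‖ ≤ 7 / 8 := hv
        exact hout _ hx hI l v (by linarith) rfl
      have hnh : ∀ᶠ y : N × ℝ in 𝓝 (x, t), y.1 ∉ κ' '' {z : ℝ × ℂ | ‖z.2‖ ≤ 7 / 8} :=
        (hcl.isOpen_compl.preimage continuous_fst).mem_nhds hpC
      filter_upwards [hnh] with y hy
      obtain ⟨y, u⟩ := y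
      by_cases hIy : In y
      · obtain ⟨⟨l, v⟩, h0, h1, rfl⟩ := hIy
        refine hA3 l v u ?_ h1
        by_contra hc
        exact hy ⟨(l, v), not_lt.1 hc, rfl⟩
      · exact hA2 y u hIy
  · intro x x' t t' hp hp' he
    by_cases hI : In x
    · obtain ⟨⟨l, v⟩, h0, h1, rfl⟩ := hI
      rw [hA1 l v t h0 h1] at he
      by_cases hI' : In x'
      · obtain ⟨⟨l', v'⟩, h0', h1', rfl⟩ := hI'
        rw [hA1 l' v' t' h0' h1'] at he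
        have h2 := D.Q_inj _ _ ((hne _).2 (hGne l v t h0 h1)) ((hne _).2 (hGne l' v' t' h0' h1')) he
        obtain ⟨e1, ⟨k, e2⟩, e3⟩ := gcR_inj hU' h0 h1 h0' h1' (Φ.injective h2)
        refine ⟨?_, e3⟩
        have e1' : v = v' := e1
        rw [← e1', e2]
        exact (per_int hκ'.per l v k).symm
      · rw [hA2 x' t' hI'] at he
        exact absurd he (hQA _ x' t' (hGne l v t h0 h1) hp' hI')
    · rw [hA2 x t hI] at he
      by_cases hI' : In x'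
      · obtain ⟨⟨l', v'⟩, h0', h1', rfl⟩ := hI'
        rw [hA1 l' v' t' h0' h1'] at he
        exact absurd he.symm (hQA _ x t (hGne l' v' t' h0' h1') hp hI)
      · rw [hA2 x' t' hI'] at he
        exact D.A_inj x x' t t' (fun h => hp ((hK x).2 h)) (fun h => hp' ((hK x').2 h)) he
  · intro z hz
    exact IsLocalDiffeomorphAt.comp (hf := hΦ z) (hg := D.Q_loc _ ((hne z).2 hz))
  · intro z z' hz hz' he
    exact Φ.injective (D.Q_inj _ _ ((hne z).2 hz) ((hne z').2 hz') he)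
  · intro z l m t hf h1 h2 e1 e2 e3
    have hz := gcR_eq (a₁ := a₁') (b₁ := b₁') (a₂ := a₂') (b₂ := b₂') (n := n) (l := l) (m := m) (t := t) hf h1 h2
      ⟨e1, e2, e3⟩
    show D.Q (Φ z) = A' _
    rw [hA1 _ _ _ (mor_nv h1 h2 m) (glue_norm hf m), ← hz]
  · intro z x t hf hz hp
    show D.Q (Φ z) ≠ A' (x, t)
    by_cases hI : In x
    · obtain ⟨⟨l, v⟩, h0, h1, rfl⟩ := hI
      rw [hA1 l v t h0 h1]
      intro he
      have h2 := Φ.injective (D.Q_inj _ _ ((hne z).2 hf) ((hne _).2 (hGne l v t h0 h1)) he)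
      obtain ⟨m, hm⟩ := mor_dir h0
      obtain ⟨_, b1, b2, _⟩ := gcR_spec a₁' b₁' a₂' b₂' n (l := l) (t := t) h0 h1 hm
      rcases hz with hz | hz
      · rw [h2] at hz
        exact b1 hz
      · rw [h2] at hz
        exact b2 hz
    · rw [hA2 x t hI]
      exact hQA z x t hf hp hI
  · intro q
    have hQc : ∀ z : S4, fh z ≠ 0 → ∃ z' : S4, fh z' ≠ 0 ∧ D.Q z = D.Q (Φ z') := fun z hz =>
      ⟨Φ.symm z, by
        rw [← hne (Φ.symm z), Equiv.apply_symm_apply]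
        exact hz, by rw [Equiv.apply_symm_apply]⟩
    rcases D.cover q with ⟨x, t, hp, hq⟩ | ⟨z, hf, hq⟩
    · by_cases hI : In x
      · obtain ⟨⟨l, v⟩, h0, h1, h2⟩ := hI
        rw [hκ'v] at h2
        right
        have h0' : v ≠ 0 := h0
        obtain ⟨m, hm⟩ := mor_dir h0'
        obtain ⟨z', e1, e2⟩ := hQc (GcR a₁ b₁ a₂ b₂ n (l + s, v, t))
          (gcR_spec a₁ b₁ a₂ b₂ n (l := l + s) (t := t) h0' h1 hm).1
        refine ⟨z', e1, ?_⟩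
        rw [hq, h2, ← glueR D h0' h1, e2]
      · refine Or.inl ⟨x, t, fun h => hp ((hK x).1 h), ?_⟩
        rw [hA2 x t hI]
        exact hq
    · obtain ⟨z', e1, e2⟩ := hQc z hf
      exact Or.inr ⟨z', e1, by rw [hq, e2]⟩

end Pool.Agent.NHS
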