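import Pool.Agent.NHS.MoR
import Pool.Agent.NHJ.Main

/-!
# NHS/MvR: row operations   (difficulty 2)

PROOFS.  `neg1R`: `Φ z` = `z` with `c1` replaced by its conjugate (`Q' = Q ∘ Φ`, `A' = A`; `fh` and the norms are unchanged;
`D.glue (Φ z) l m t`).  `neg2R`: the same for `c2`.
`swapR`: `Φ z` has the coordinates `c2 z, c1 z, - ht z`, so `fh (Φ z) = - fh z` (`NHJ.fh_of`), `Q' = Q ∘ Φ`, `A' = A`:
`D.glue (Φ z) (l + 1/2) m t` (`NHJ.ex_shift`); the matrix has its rows exchanged and `κ' = sh κ`.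
`sh_sh`: `κ (l + 1/2 + 1/2, v) = κ (l, v)` (`hκ.per`).  `sh_thick`: translation.
`psiR`: `modR` with `Φ = NHJ.PsiP`, `s = 1/2`: for `z` with `2 |c1| |c2| > 7/8`: `c1 (Psi z) = c2 z`,
`c2 (Psi z) = (c2 z / ‖c2 z‖)² * conj (c1 z)` (`NHJ.Psi_far`, `far_of`), `fh (Psi z) = - fh z`; the phases of `Psi z` are
`(a₁' , b₁')`-row of `Psi z` = second row of `z`, second row of `Psi z` = `2 (second row of z) - (first row of z)`; compare `NHJ.twin_shift`,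
`NHJ.Main_glue`.  If the rows of `D` are `r₁, r₂`, the new rows are `2 r₁ - r₂, r₁`.
`add1R`: `psiR`, `swapR` (now `κ` again: `sh_sh`), `neg2R`: rows `r₁, r₂ - 2 r₁`; the inverse: `neg1R`, this, `neg1R`, i.e. `r₂ + 2 r₁`:
`(r₁, r₂) → (-r₁, r₂) → (-r₁, r₂ + 2 r₁) → (r₁, r₂ + 2 r₁)`; induction on `k`.  `add2R`: `swapR`, `add1R` for `sh κ`, `swapR`, `sh_sh`.
-/

open scoped Manifold ContDiff Topology
open Set Filter
open Complex (I)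
open Pool.Agent.RSG

namespace Pool.Agent.NHS

variable {N : Type*} [TopologicalSpace N] [ChartedSpace E3 N] {κ : ℝ × ℂ → N} {a₁ b₁ a₂ b₂ n : ℤ}
  {X : Type*} [TopologicalSpace X] [ChartedSpace E4 X]

theorem sh_sh (hκ : Thick κ) : sh (sh κ) = κ := by
  funext q
  show κ (q.1 + 1 / 2 + 1 / 2, q.2) = κ q
  rw [show q.1 + 1 / 2 + 1 / 2 = q.1 + 1 by ring]
  exact hκ.per q.1 q.2

theorem sh_thick (hκ : Thick κ) : Thick (sh κ) := mor_thick hκ (1 / 2)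

omit [TopologicalSpace N] [ChartedSpace E3 N] in
theorem mvr_knot (x : N) : OnKnot (sh κ) x ↔ OnKnot κ x := by
  constructor
  · rintro ⟨l, h⟩
    exact ⟨l + 1 / 2, h⟩
  · rintro ⟨l, h⟩
    refine ⟨l - 1 / 2, ?_⟩
    show x = κ (l - 1 / 2 + 1 / 2, 0)
    rw [sub_add_cancel]
    exact h

/-- change of the twin by a diffeomorphism `Φ` of the 4-sphere which respects the gluing everywhere -/
theorem mvr_gen {κ' : ℝ × ℂ → N} {a₁' b₁' a₂' b₂' : ℤ} (D : TwinData κ a₁ b₁ a₂ b₂ n X) (Φ : Equiv.Perm S4)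
    (hΦ : ∀ z, IsLocalDiffeomorphAt (𝓡 4) (𝓡 4) ∞ Φ z) (hne : ∀ z, fh (Φ z) ≠ 0 ↔ fh z ≠ 0)
    (h0 : ∀ z, (c1 z = 0 ∨ c2 z = 0) → (c1 (Φ z) = 0 ∨ c2 (Φ z) = 0)) (hK : ∀ x, OnKnot κ' x ↔ OnKnot κ x)
    (hg : ∀ (z : S4) (l m t : ℝ), fh z ≠ 0 → c1 z ≠ 0 → c2 z ≠ 0 → Ph a₁' b₁' a₂' b₂' n z l m t →
      D.Q (Φ z) = D.A (κ' (l, (2 * ‖c1 z‖ * ‖c2 z‖ : ℝ) * ex m), t)) :
    Nonempty (TwinData κ' a₁' b₁' a₂' b₂' n X) := by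
  refine ⟨{ A := D.A, Q := fun z => D.Q (Φ z), A_per := D.A_per, A_loc := ?_, A_inj := ?_, Q_loc := ?_,
            Q_inj := ?_, glue := ?_, disj := ?_, cover := ?_ }⟩
  · exact fun x t hx => D.A_loc x t fun h => hx ((hK x).2 h)
  · exact fun x x' t t' hx hx' he => D.A_inj x x' t t' (fun h => hx ((hK x).2 h)) (fun h => hx' ((hK x').2 h)) he
  · intro z hz
    exact IsLocalDiffeomorphAt.comp (hf := hΦ z) (hg := D.Q_loc _ ((hne z).2 hz))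
  · intro z z' hz hz' he
    exact Φ.injective (D.Q_inj _ _ ((hne z).2 hz) ((hne z').2 hz') he)
  · intro z l m t hf h1 h2 e1 e2 e3
    exact hg z l m t hf h1 h2 ⟨e1, e2, e3⟩
  · intro z x t hf hz hx
    exact D.disj (Φ z) x t ((hne z).2 hf) (h0 z hz) fun h => hx ((hK x).2 h)
  · intro q
    rcases D.cover q with ⟨x, t, hp, hq⟩ | ⟨z, hf, hq⟩
    · exact Or.inl ⟨x, t, fun h => hp ((hK x).1 h), hq⟩
    · refine Or.inr ⟨Φ.symm z, ?_, ?_⟩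
      · rw [← hne (Φ.symm z), Equiv.apply_symm_apply]
        exact hf
      · show q = D.Q (Φ (Φ.symm z))
        rw [Equiv.apply_symm_apply]
        exact hq

/-- maps of the 4-sphere given by their coordinates -/
theorem mvr_map {a b : S4 → ℂ} {h : S4 → ℝ} (ha : ∀ z, ContMDiffAt (𝓡 4) 𝓘(ℝ, ℂ) ∞ a z)
    (hb : ∀ z, ContMDiffAt (𝓡 4) 𝓘(ℝ, ℂ) ∞ b z) (hh : ∀ z, ContMDiffAt (𝓡 4) 𝓘(ℝ, ℝ) ∞ h z)
    (hn : ∀ z, ‖a z‖ ^ 2 + ‖b z‖ ^ 2 + h z ^ 2 = 1)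
    (hi : ∀ z, c1 z = a (pS4 (a z) (b z) (h z)) ∧ c2 z = b (pS4 (a z) (b z) (h z)) ∧
      ht z = h (pS4 (a z) (b z) (h z))) :
    ∃ Φ : Equiv.Perm S4, (∀ z, c1 (Φ z) = a z ∧ c2 (Φ z) = b z ∧ ht (Φ z) = h z) ∧
      ∀ z, IsLocalDiffeomorphAt (𝓡 4) (𝓡 4) ∞ Φ z := by
  obtain ⟨F, hF⟩ : ∃ F : S4 → S4, F = fun z => pS4 (a z) (b z) (h z) := ⟨_, rfl⟩
  have hs : ∀ z, ContMDiffAt (𝓡 4) (𝓡 4) ∞ F z := fun z => by
    rw [hF]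
    exact pS4_smooth (ha z) (hb z) (hh z) (by rw [hn z]; exact one_pos)
  have hc : ∀ z, c1 (F z) = a z ∧ c2 (F z) = b z ∧ ht (F z) = h z := fun z => by
    rw [hF]
    exact pS4_c (hn z)
  have hFF : ∀ z, F (F z) = z := fun z => by
    obtain ⟨e1, e2, e3⟩ := hc (F z)
    obtain ⟨f1, f2, f3⟩ := hi z
    have hFz : F z = pS4 (a z) (b z) (h z) := by rw [hF]
    rw [← hFz] at f1 f2 f3
    exact S4_ext (e1.trans f1.symm) (e2.trans f2.symm) (e3.trans f3.symm)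
  exact ⟨⟨F, F, hFF, hFF⟩, hc, fun z => ld_two (f := F) (g := F) (Eventually.of_forall hs) (Eventually.of_forall hs)
    (Eventually.of_forall hFF) (Eventually.of_forall hFF)⟩

theorem mvr_f1 : ∃ Φ : Equiv.Perm S4, (∀ z, c1 (Φ z) = (starRingEnd ℂ) (c1 z) ∧ c2 (Φ z) = c2 z ∧ ht (Φ z) = ht z) ∧
    ∀ z, IsLocalDiffeomorphAt (𝓡 4) (𝓡 4) ∞ Φ z := by
  have hn : ∀ z : S4, ‖(starRingEnd ℂ) (c1 z)‖ ^ 2 + ‖c2 z‖ ^ 2 + ht z ^ 2 = 1 := fun z => by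
    rw [RCLike.norm_conj]
    exact S4_sq z
  refine mvr_map (a := fun z => (starRingEnd ℂ) (c1 z)) (b := c2) (h := ht) (fun z => NHJ.conj_sm (c1_smooth z))
    c2_smooth ht_smooth hn fun z => ?_
  obtain ⟨e1, e2, e3⟩ := pS4_c (hn z)
  refine ⟨?_, e2.symm, e3.symm⟩
  show c1 z = (starRingEnd ℂ) (c1 _)
  rw [e1, Complex.conj_conj]

theorem mvr_f2 : ∃ Φ : Equiv.Perm S4, (∀ z, c1 (Φ z) = c1 z ∧ c2 (Φ z) = (starRingEnd ℂ) (c2 z) ∧ ht (Φ z) = ht z) ∧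
    ∀ z, IsLocalDiffeomorphAt (𝓡 4) (𝓡 4) ∞ Φ z := by
  have hn : ∀ z : S4, ‖c1 z‖ ^ 2 + ‖(starRingEnd ℂ) (c2 z)‖ ^ 2 + ht z ^ 2 = 1 := fun z => by
    rw [RCLike.norm_conj]
    exact S4_sq z
  refine mvr_map (a := c1) (b := fun z => (starRingEnd ℂ) (c2 z)) (h := ht) c1_smooth
    (fun z => NHJ.conj_sm (c2_smooth z)) ht_smooth hn fun z => ?_
  obtain ⟨e1, e2, e3⟩ := pS4_c (hn z)
  refine ⟨e1.symm, ?_, e3.symm⟩
  show c2 z = (starRingEnd ℂ) (c2 _)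
  rw [e2, Complex.conj_conj]

theorem mvr_sw : ∃ Φ : Equiv.Perm S4, (∀ z, c1 (Φ z) = c2 z ∧ c2 (Φ z) = c1 z ∧ ht (Φ z) = -ht z) ∧
    ∀ z, IsLocalDiffeomorphAt (𝓡 4) (𝓡 4) ∞ Φ z := by
  have hn : ∀ z : S4, ‖c2 z‖ ^ 2 + ‖c1 z‖ ^ 2 + (-ht z) ^ 2 = 1 := fun z => by
    have := S4_sq z
    nlinarith
  refine mvr_map (a := c2) (b := c1) (h := fun z => -ht z) c2_smooth c1_smooth (fun z => NHJ.neg_sm (ht_smooth z)) hn
    fun z => ?_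
  obtain ⟨e1, e2, e3⟩ := pS4_c (hn z)
  refine ⟨e2.symm, e1.symm, ?_⟩
  show ht z = -ht _
  rw [e3, neg_neg]

theorem mvr_fh {z z' : S4} (h1 : ‖c1 z'‖ = ‖c1 z‖) (h2 : ‖c2 z'‖ = ‖c2 z‖) (h3 : ht z' = ht z) : fh z' = fh z := by
  unfold fh
  rw [h1, h2, h3]

theorem neg1R (D : TwinData κ a₁ b₁ a₂ b₂ n X) : Nonempty (TwinData κ (-a₁) (-b₁) a₂ b₂ n X) := by
  obtain ⟨Φ, hc, hΦ⟩ := mvr_f1
  have n1 : ∀ z, ‖c1 (Φ z)‖ = ‖c1 z‖ := fun z => by rw [(hc z).1, RCLike.norm_conj]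
  have n2 : ∀ z, ‖c2 (Φ z)‖ = ‖c2 z‖ := fun z => by rw [(hc z).2.1]
  have hf : ∀ z, fh (Φ z) = fh z := fun z => mvr_fh (n1 z) (n2 z) (hc z).2.2
  refine mvr_gen D Φ hΦ (fun z => by rw [hf z]) ?_ (fun x => Iff.rfl) ?_
  · intro z hz
    rw [← norm_eq_zero, n1, norm_eq_zero, (hc z).2.1]
    exact hz
  · intro z l m t h0 h1 h2 hp
    have e1 : c1 (Φ z) = ‖c1 (Φ z)‖ * ex (a₁ * m + b₁ * t) := by
      rw [n1, (hc z).1]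
      conv_lhs => rw [hp.p1]
      rw [map_mul, Complex.conj_ofReal, ← ex_neg]
      congr 2
      push_cast
      ring
    have e2 : c2 (Φ z) = ‖c2 (Φ z)‖ * ex (a₂ * m + b₂ * t) := by
      rw [(hc z).2.1]
      exact hp.p2
    have e3 : fh (Φ z) = ‖fh (Φ z)‖ * ex (l - n * t) := by
      rw [hf]
      exact hp.p3
    rw [D.glue (Φ z) l m t (by rw [hf]; exact h0) (by rw [← norm_ne_zero_iff, n1, norm_ne_zero_iff]; exact h1)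
      (by rw [← norm_ne_zero_iff, n2, norm_ne_zero_iff]; exact h2) e1 e2 e3, n1, n2]

theorem neg2R (D : TwinData κ a₁ b₁ a₂ b₂ n X) : Nonempty (TwinData κ a₁ b₁ (-a₂) (-b₂) n X) := by
  obtain ⟨Φ, hc, hΦ⟩ := mvr_f2
  have n1 : ∀ z, ‖c1 (Φ z)‖ = ‖c1 z‖ := fun z => by rw [(hc z).1]
  have n2 : ∀ z, ‖c2 (Φ z)‖ = ‖c2 z‖ := fun z => by rw [(hc z).2.1, RCLike.norm_conj]
  have hf : ∀ z, fh (Φ z) = fh z := fun z => mvr_fh (n1 z) (n2 z) (hc z).2.2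
  refine mvr_gen D Φ hΦ (fun z => by rw [hf z]) ?_ (fun x => Iff.rfl) ?_
  · intro z hz
    rw [(hc z).1, ← norm_eq_zero (a := c2 (Φ z)), n2, norm_eq_zero]
    exact hz
  · intro z l m t h0 h1 h2 hp
    have e1 : c1 (Φ z) = ‖c1 (Φ z)‖ * ex (a₁ * m + b₁ * t) := by
      rw [(hc z).1]
      exact hp.p1
    have e2 : c2 (Φ z) = ‖c2 (Φ z)‖ * ex (a₂ * m + b₂ * t) := by
      rw [n2, (hc z).2.1]
      conv_lhs => rw [hp.p2]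
      rw [map_mul, Complex.conj_ofReal, ← ex_neg]
      congr 2
      push_cast
      ring
    have e3 : fh (Φ z) = ‖fh (Φ z)‖ * ex (l - n * t) := by
      rw [hf]
      exact hp.p3
    rw [D.glue (Φ z) l m t (by rw [hf]; exact h0) (by rw [← norm_ne_zero_iff, n1, norm_ne_zero_iff]; exact h1)
      (by rw [← norm_ne_zero_iff, n2, norm_ne_zero_iff]; exact h2) e1 e2 e3, n1, n2]

/-- the third phase after the change of sign of `fh` -/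
theorem mvr_half {w w' : ℂ} {l y : ℝ} (h : w' = -w) (hw : w = ‖w‖ * ex (l - y)) : w' = ‖w'‖ * ex (l + 1 / 2 - y) := by
  rw [h, norm_neg, show l + 1 / 2 - y = l - y + 1 / 2 by ring, NHJ.ex_shift, mul_neg, ← hw]

theorem swapR (D : TwinData κ a₁ b₁ a₂ b₂ n X) : Nonempty (TwinData (sh κ) a₂ b₂ a₁ b₁ n X) := by
  obtain ⟨Φ, hc, hΦ⟩ := mvr_sw
  have n1 : ∀ z, ‖c1 (Φ z)‖ = ‖c2 z‖ := fun z => by rw [(hc z).1]
  have n2 : ∀ z, ‖c2 (Φ z)‖ = ‖c1 z‖ := fun z => by rw [(hc z).2.1]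
  have hf : ∀ z, fh (Φ z) = -fh z := fun z => NHJ.fh_of (n1 z) (n2 z) (hc z).2.2
  refine mvr_gen D Φ hΦ (fun z => by rw [hf z, neg_ne_zero]) ?_ mvr_knot ?_
  · intro z hz
    rw [(hc z).1, (hc z).2.1]
    exact hz.symm
  · intro z l m t h0 h1 h2 hp
    have e1 : c1 (Φ z) = ‖c1 (Φ z)‖ * ex (a₁ * m + b₁ * t) := by
      rw [(hc z).1]
      exact hp.p2
    have e2 : c2 (Φ z) = ‖c2 (Φ z)‖ * ex (a₂ * m + b₂ * t) := by
      rw [(hc z).2.1]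
      exact hp.p1
    rw [D.glue (Φ z) (l + 1 / 2) m t (by rw [hf, neg_ne_zero]; exact h0) (by rw [(hc z).1]; exact h2)
      (by rw [(hc z).2.1]; exact h1) e1 e2 (mvr_half (hf z) hp.p3), n1, n2,
      show 2 * ‖c2 z‖ * ‖c1 z‖ = 2 * ‖c1 z‖ * ‖c2 z‖ by ring]
    rfl

theorem psiR [T2Space N] (hκ : Thick κ) (hU : Uni a₁ b₁ a₂ b₂) (D : TwinData κ a₁ b₁ a₂ b₂ n X) :
    Nonempty (TwinData (sh κ) (2 * a₁ - a₂) (2 * b₁ - b₂) a₁ b₁ n X) := by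
  have hU' : Uni (2 * a₁ - a₂) (2 * b₁ - b₂) a₁ b₁ := by
    unfold Uni at hU ⊢
    have : (2 * a₁ - a₂) * b₁ - a₁ * (2 * b₁ - b₂) = a₁ * b₂ - a₂ * b₁ := by ring
    rw [this]
    exact hU
  refine modR hκ hU hU' D (1 / 2) NHJ.PsiP NHJ.PsiP_ld NHJ.Psi_ne ?_
  intro z l m t h0 hr hp
  show D.Q (NHJ.Psi z) = _
  obtain ⟨f1, f2⟩ := NHJ.far_of hr
  obtain ⟨a1, a2, a3⟩ := NHJ.Psi_far f2
  have n1 : ‖c1 (NHJ.Psi z)‖ = ‖c2 z‖ := by rw [a1]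
  have n2 : ‖c2 (NHJ.Psi z)‖ = ‖c1 z‖ := by
    rw [a2, norm_mul, NHJ.unit_sq f2, one_mul, RCLike.norm_conj]
  have hf : fh (NHJ.Psi z) = -fh z := NHJ.Psi_fh f2
  have k1 : c1 (NHJ.Psi z) ≠ 0 := by
    rw [← norm_ne_zero_iff, n1]
    intro h
    rw [h] at f2
    norm_num at f2
  have k2 : c2 (NHJ.Psi z) ≠ 0 := by
    rw [← norm_ne_zero_iff, n2]
    intro h
    rw [h] at f1
    norm_num at f1
  have e1 : c1 (NHJ.Psi z) = ‖c1 (NHJ.Psi z)‖ * ex (a₁ * m + b₁ * t) := by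
    rw [n1, a1]
    exact hp.p2
  have e2 : c2 (NHJ.Psi z) = ‖c2 (NHJ.Psi z)‖ * ex (a₂ * m + b₂ * t) := by
    rw [n2, a2, NHJ.unit_ex f2 hp.p2]
    have h1 : (starRingEnd ℂ) (c1 z) = ‖c1 z‖ * ex (-((2 * a₁ - a₂ : ℤ) * m + (2 * b₁ - b₂ : ℤ) * t)) := by
      conv_lhs => rw [hp.p1]
      rw [map_mul, Complex.conj_ofReal, ex_neg]
    rw [h1, mul_left_comm, ← ex_add]
    congr 2
    push_cast
    ring
  rw [D.glue (NHJ.Psi z) (l + 1 / 2) m t (by rw [hf, neg_ne_zero]; exact h0) k1 k2 e1 e2 (mvr_half hf hp.p3), n1, n2,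
    show 2 * ‖c2 z‖ * ‖c1 z‖ = 2 * ‖c1 z‖ * ‖c2 z‖ by ring]

theorem mvr_cast {κ' : ℝ × ℂ → N} {a₁' b₁' a₂' b₂' : ℤ} (D : Nonempty (TwinData κ a₁ b₁ a₂ b₂ n X)) (h0 : κ = κ')
    (h1 : a₁ = a₁') (h2 : b₁ = b₁') (h3 : a₂ = a₂') (h4 : b₂ = b₂') : Nonempty (TwinData κ' a₁' b₁' a₂' b₂' n X) := by
  subst h0 h1 h2 h3 h4
  exact D

theorem mvr_down [T2Space N] (hκ : Thick κ) (hU : Uni a₁ b₁ a₂ b₂) (D : TwinData κ a₁ b₁ a₂ b₂ n X) :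
    Nonempty (TwinData κ a₁ b₁ (a₂ - 2 * a₁) (b₂ - 2 * b₁) n X) := by
  obtain ⟨D1⟩ := psiR hκ hU D
  obtain ⟨D2⟩ := swapR D1
  exact mvr_cast (neg2R D2) (sh_sh hκ) rfl rfl (by ring) (by ring)

theorem mvr_up [T2Space N] (hκ : Thick κ) (hU : Uni a₁ b₁ a₂ b₂) (D : TwinData κ a₁ b₁ a₂ b₂ n X) :
    Nonempty (TwinData κ a₁ b₁ (a₂ + 2 * a₁) (b₂ + 2 * b₁) n X) := by
  obtain ⟨D1⟩ := neg1R D
  have hU1 : Uni (-a₁) (-b₁) a₂ b₂ := by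
    unfold Uni at hU ⊢
    rcases hU with h | h
    · right
      linarith
    · left
      linarith
  obtain ⟨D2⟩ := mvr_down hκ hU1 D1
  exact mvr_cast (neg1R D2) rfl (by ring) (by ring) (by ring) (by ring)

theorem add1R [T2Space N] (hκ : Thick κ) (hU : Uni a₁ b₁ a₂ b₂) (D : TwinData κ a₁ b₁ a₂ b₂ n X) (k : ℤ) :
    Nonempty (TwinData κ a₁ b₁ (a₂ + 2 * k * a₁) (b₂ + 2 * k * b₁) n X) := by
  have hUk : ∀ k : ℤ, Uni a₁ b₁ (a₂ + 2 * k * a₁) (b₂ + 2 * k * b₁) := fun k => by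
    unfold Uni at hU ⊢
    have : a₁ * (b₂ + 2 * k * b₁) - (a₂ + 2 * k * a₁) * b₁ = a₁ * b₂ - a₂ * b₁ := by ring
    rw [this]
    exact hU
  induction k using Int.induction_on with
  | zero => exact mvr_cast ⟨D⟩ rfl rfl rfl (by ring) (by ring)
  | succ i ih =>
    obtain ⟨D'⟩ := ih
    exact mvr_cast (mvr_up hκ (hUk i) D') rfl rfl rfl (by ring) (by ring)
  | pred i ih =>
    obtain ⟨D'⟩ := ih
    exact mvr_cast (mvr_down hκ (hUk (-i)) D') rfl rfl rfl (by ring) (by ring)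

theorem add2R [T2Space N] (hκ : Thick κ) (hU : Uni a₁ b₁ a₂ b₂) (D : TwinData κ a₁ b₁ a₂ b₂ n X) (k : ℤ) :
    Nonempty (TwinData κ (a₁ + 2 * k * a₂) (b₁ + 2 * k * b₂) a₂ b₂ n X) := by
  obtain ⟨D1⟩ := swapR D
  have hU1 : Uni a₂ b₂ a₁ b₁ := by
    unfold Uni at hU ⊢
    rcases hU with h | h
    · right
      linarith
    · left
      linarith
  obtain ⟨D2⟩ := add1R (sh_thick hκ) hU1 D1 k
  exact mvr_cast (swapR D2) (sh_sh hκ) rfl rfl rfl rfl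

end Pool.Agent.NHS
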