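import Pool.Agent.NHS.GcR
import Pool.Agent.RSG.Uniq
import Pool.Agent.RSG.Uniq

/-!
# NHS/UnR: a twin manifold is unique; transport by a diffeomorphism   (difficulty 3)

PROOFS.  `uniqR`: `RSG/Uniq.lean` is the special case of the Gluck matrix (`RSG.uniq`); copy and adapt: the only property of the
matrix is that the phases exist (`ph_exists`) and are unique (`ph_unique`).
`transR`: `A' = G ∘ A`, `Q' = G ∘ Q`.
`glueR`: `D.Q (GcR (l, v, t)) = D.A (κ (l, v), t)`: `gcR_spec` and `D.glue`.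
`diffeoR`: the same for a diffeomorphism of `N`: `A' (x, t) = A (F.symm x, t)` (as `RSG.diffeo_data`).
-/

open scoped Manifold ContDiff Topology
open Set Filter
open Complex (I)
open Pool.Agent.RSG

namespace Pool.Agent.NHS

variable {N : Type*} [TopologicalSpace N] [ChartedSpace E3 N] {κ : ℝ × ℂ → N} {a₁ b₁ a₂ b₂ n : ℤ}
  {X : Type*} [TopologicalSpace X] [ChartedSpace E4 X] {Y : Type*} [TopologicalSpace Y] [ChartedSpace E4 Y]

theorem glueR (D : TwinData κ a₁ b₁ a₂ b₂ n X) {l t : ℝ} {v : ℂ} (h0 : v ≠ 0) (h1 : ‖v‖ < 1) :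
    D.Q (GcR a₁ b₁ a₂ b₂ n (l, v, t)) = D.A (κ (l, v), t) := by
  have hm : v = ‖v‖ * ex (Complex.arg v / (2 * Real.pi)) := ex_arg.symm
  obtain ⟨hf, hc1, hc2, hr, hp⟩ := gcR_spec a₁ b₁ a₂ b₂ n (l := l) (t := t) h0 h1 hm
  have h := D.glue _ l _ t hf hc1 hc2 hp.p1 hp.p2 hp.p3
  rw [h, hr, ← hm]

theorem unr_A_iff (D : TwinData κ a₁ b₁ a₂ b₂ n X) {x x' : N} {t t' : ℝ} (hx : ¬ OnKnot κ x)
    (hx' : ¬ OnKnot κ x') : D.A (x, t) = D.A (x', t') ↔ x = x' ∧ ∃ m : ℤ, t' = t + m := by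
  constructor
  · exact D.A_inj x x' t t' hx hx'
  · rintro ⟨rfl, m, rfl⟩
    have hp : Function.Periodic (fun t => D.A (x, t)) 1 := fun t => D.A_per x t
    have := hp.int_mul m t
    simp only [mul_one] at this
    exact this.symm

/-- a common description of the equality `A = Q` -/
theorem unr_mix (hκ : Thick κ) (hU : Uni a₁ b₁ a₂ b₂) (D : TwinData κ a₁ b₁ a₂ b₂ n X)
    (D' : TwinData κ a₁ b₁ a₂ b₂ n Y) {x : N} {t : ℝ} {z : S4} (hx : ¬ OnKnot κ x) (hz : fh z ≠ 0)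
    (he : D.A (x, t) = D.Q z) : D'.A (x, t) = D'.Q z := by
  by_cases hc : c1 z = 0 ∨ c2 z = 0
  · exact absurd he.symm (D.disj z x t hz hc hx)
  · rw [not_or] at hc
    obtain ⟨l, m, t', hp⟩ := ph_exists hU n z
    have hg := D.glue z l m t' hz hc.1 hc.2 hp.p1 hp.p2 hp.p3
    have hg' := D'.glue z l m t' hz hc.1 hc.2 hp.p1 hp.p2 hp.p3
    have hv1 := glue_norm hz m
    have hv0 : ((2 * ‖c1 z‖ * ‖c2 z‖ : ℝ) : ℂ) * ex m ≠ 0 := by
      apply mul_ne_zero _ (ex_ne m)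
      have := norm_pos_iff.2 hc.1
      have := norm_pos_iff.2 hc.2
      exact_mod_cast (by positivity : (2 * ‖c1 z‖ * ‖c2 z‖ : ℝ) ≠ 0)
    have hk := NewS_thick_knot hκ (l := l) hv0 hv1
    rw [hg] at he
    rw [hg']
    exact (unr_A_iff D' hx hk).2 ((unr_A_iff D hx hk).1 he)

/-- **Uniqueness.** -/
theorem uniqR [T2Space N] (hκ : Thick κ) (hU : Uni a₁ b₁ a₂ b₂) (D : TwinData κ a₁ b₁ a₂ b₂ n X)
    (D' : TwinData κ a₁ b₁ a₂ b₂ n Y) : Nonempty (X ≃ₘ⟮𝓡 4, 𝓡 4⟯ Y) := by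
  refine glue_diffeo (I := (𝓡 3).prod 𝓘(ℝ, ℝ)) (I' := 𝓡 4) (J := 𝓡 4)
    (U₁ := {a : N × ℝ | ¬ OnKnot κ a.1}) (U₂ := {z : S4 | fh z ≠ 0})
    (f₁ := D.A) (f₂ := D.Q) (g₁ := D'.A) (g₂ := D'.Q) ?_ ?_ ?_ ?_ ?_ ?_ ?_ ?_ ?_ ?_ ?_
  · have h1 := (Uniq_open hκ).isOpen_compl
    exact h1.preimage continuous_fst
  · exact isOpen_ne.preimage fh_smooth.continuous
  · rintro ⟨x, t⟩ hx
    exact D.A_loc x t hx
  · intro z hz
    exact D.Q_loc z hz
  · rintro ⟨x, t⟩ hx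
    exact D'.A_loc x t hx
  · intro z hz
    exact D'.Q_loc z hz
  · rintro ⟨x, t⟩ hx ⟨x', t'⟩ hx'
    rw [unr_A_iff D hx hx', unr_A_iff D' hx hx']
  · rintro ⟨x, t⟩ hx z hz
    exact ⟨unr_mix hκ hU D D' hx hz, unr_mix hκ hU D' D hx hz⟩
  · intro z hz z' hz'
    constructor
    · intro he
      rw [D.Q_inj z z' hz hz' he]
    · intro he
      rw [D'.Q_inj z z' hz hz' he]
  · intro q
    rcases D.cover q with ⟨x, t, hx, hq⟩ | ⟨z, hz, hq⟩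
    · exact Or.inl ⟨(x, t), hx, hq⟩
    · exact Or.inr ⟨z, hz, hq⟩
  · intro q
    rcases D'.cover q with ⟨x, t, hx, hq⟩ | ⟨z, hz, hq⟩
    · exact Or.inl ⟨(x, t), hx, hq⟩
    · exact Or.inr ⟨z, hz, hq⟩

theorem transR (D : TwinData κ a₁ b₁ a₂ b₂ n X) (G : X ≃ₘ⟮𝓡 4, 𝓡 4⟯ Y) : Nonempty (TwinData κ a₁ b₁ a₂ b₂ n Y) := by
  refine ⟨{
    A := fun q => G (D.A q)
    Q := fun z => G (D.Q z)
    A_per := fun x t => by rw [D.A_per]
    A_loc := fun x t hx => IsLocalDiffeomorphAt.comp (hf := D.A_loc x t hx) (hg := G.isLocalDiffeomorph _) ..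
    A_inj := fun x x' t t' hx hx' h => D.A_inj x x' t t' hx hx' (G.injective h)
    Q_loc := fun z hz => IsLocalDiffeomorphAt.comp (hf := D.Q_loc z hz) (hg := G.isLocalDiffeomorph _) ..
    Q_inj := fun z z' hz hz' h => D.Q_inj z z' hz hz' (G.injective h)
    glue := fun z l m t hf h1 h2 e1 e2 e3 => by rw [D.glue z l m t hf h1 h2 e1 e2 e3]
    disj := fun z x t hz hc hx h => D.disj z x t hz hc hx (G.injective h)
    cover := ?_ }⟩
  intro q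
  rcases D.cover (G.symm q) with ⟨x, t, hx, hq⟩ | ⟨z, hz, hq⟩
  · refine Or.inl ⟨x, t, hx, ?_⟩
    rw [← hq]
    exact (G.apply_symm_apply q).symm
  · refine Or.inr ⟨z, hz, ?_⟩
    rw [← hq]
    exact (G.apply_symm_apply q).symm

end Pool.Agent.NHS
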