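import Pool.Agent.NHS.CDf
import Pool.Agent.RSG.ExM
import Pool.Agent.CSG.Surg
import Pool.Agent.CSG.LDb
import Pool.Agent.RSG.LDc

/-!
# NHS/Btt: the spin coordinates of `P`, the big tube   (difficulty 3)

PROOFS.  `sg_ld`: `sg = π ∘ (κ × id) ∘ L`, `L (lam, w, t) = ((n t + 1/2 + lam, w ex (j t)), t)` is a diffeomorphism of `ℝ × ℂ × ℝ` onto `(ℝ × ℂ) × ℝ` (inverse
`((l, v), t) ↦ (l - n t - 1/2, v ex (- j t), t)`); `κ × id` is a local diffeomorphism where `‖v‖ < 1` (`IsLocalDiffeomorphAt.prodMap` or similar; see the `π`-lemmas of `RBN/Cir.lean`).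
`sg_inj`: `hπ.inj`, `hκ.inj`: `t' = t + c`, `w ex (j t) = w' ex (j t')`, so `w = w'`; `n t' + lam' = n t + lam + integer`.
`sg_per`: periodicity.  `sg_zero`: for `w = 0` the number `j` does not matter.
`bt_thick`: `‖y‖ < 1/2` gives `|y 0| < 1/2`, `‖2 yh y‖ < 1`; two values of `y 0` in `(-1/2, 1/2)` which differ by an integer are equal.
`bt_rot`: `CSG.cmul` (see `CSG/Fun.lean`: first coordinate fixed, `yh` is multiplied by the number).  `flp` : `yh (flp ε y) = yh y`.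
`tor_closed`: compact image.
-/

open scoped Manifold ContDiff Topology
open Set Filter
open Complex (I)
open Pool.Agent.RSG

namespace Pool.Agent.NHS

theorem btt_per {α : Type*} {f : ℝ → α} (h : ∀ x, f (x + 1) = f x) (m : ℤ) (x : ℝ) : f (x + m) = f x := by
  have h1 := (show Function.Periodic f 1 from h).int_mul m x
  rw [mul_one] at h1
  exact h1

/-- the coordinate change -/
noncomputable def btt_L (n j : ℤ) : (ℝ × ℂ × ℝ) ≃ ((ℝ × ℂ) × ℝ) where
  toFun q := ((n * q.2.2 + 1 / 2 + q.1, q.2.1 * ex (j * q.2.2)), q.2.2)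
  invFun q := (q.1.1 - n * q.2 - 1 / 2, q.1.2 * ex (-(j * q.2)), q.2)
  left_inv q := by
    obtain ⟨a, b, c⟩ := q
    simp only [Prod.mk.injEq, and_true]
    refine ⟨by ring, ?_⟩
    rw [mul_assoc, ← ex_add, add_neg_cancel, ex_zero, mul_one]
  right_inv q := by
    obtain ⟨⟨a, b⟩, c⟩ := q
    simp only [Prod.mk.injEq, and_true]
    refine ⟨by ring, ?_⟩
    rw [mul_assoc, ← ex_add, neg_add_cancel, ex_zero, mul_one]

theorem btt_L_ld (n j : ℤ) (q : ℝ × ℂ × ℝ) :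
    IsLocalDiffeomorphAt 𝓘(ℝ, ℝ × ℂ × ℝ) 𝓘(ℝ, (ℝ × ℂ) × ℝ) ∞ (btt_L n j) q := by
  refine CSG.ld_of_perm (f := btt_L n j) ?_ ?_ q
  · have h1 : ContDiff ℝ ∞ (fun q : ℝ × ℂ × ℝ => q.2.2) := contDiff_snd.comp contDiff_snd
    have h2 : ContDiff ℝ ∞ (fun q : ℝ × ℂ × ℝ => q.2.1) := contDiff_fst.comp contDiff_snd
    have h3 : ContDiff ℝ ∞ (fun q : ℝ × ℂ × ℝ => (n : ℝ) * q.2.2 + 1 / 2 + q.1) :=
      ((contDiff_const.mul h1).add contDiff_const).add contDiff_fst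
    have h4 : ContDiff ℝ ∞ (fun q : ℝ × ℂ × ℝ => q.2.1 * ex (j * q.2.2)) :=
      h2.mul (ex_smooth.comp (contDiff_const.mul h1))
    exact (h3.prodMk h4).prodMk h1
  · have h1 : ContDiff ℝ ∞ (fun q : (ℝ × ℂ) × ℝ => q.2) := contDiff_snd
    have h2 : ContDiff ℝ ∞ (fun q : (ℝ × ℂ) × ℝ => q.1.2) := contDiff_snd.comp contDiff_fst
    have h5 : ContDiff ℝ ∞ (fun q : (ℝ × ℂ) × ℝ => q.1.1) := contDiff_fst.comp contDiff_fst
    have h3 : ContDiff ℝ ∞ (fun q : (ℝ × ℂ) × ℝ => q.1.1 - (n : ℝ) * q.2 - 1 / 2) :=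
      (h5.sub (contDiff_const.mul h1)).sub contDiff_const
    have h4 : ContDiff ℝ ∞ (fun q : (ℝ × ℂ) × ℝ => q.1.2 * ex (-(j * q.2))) :=
      h2.mul (ex_smooth.comp (contDiff_const.mul h1).neg)
    exact h3.prodMk (h4.prodMk h1)

/-- the linear coordinate change of the big tube -/
noncomputable def btt_M : (ℝ × E3) ≃ (ℝ × ℂ × ℝ) where
  toFun q := (q.2 0, 2 * yh q.2, q.1)
  invFun q := (q.2.2, CSG.pt q.1 (q.2.1.re / 2) (q.2.1.im / 2))
  left_inv q := by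
    obtain ⟨t, y⟩ := q
    have h1 : (2 * yh y).re / 2 = y 1 := by simp [yh]
    have h2 : (2 * yh y).im / 2 = y 2 := by simp [yh]
    simp only [h1, h2, CSG.pt_eta]
  right_inv q := by
    obtain ⟨a, b, c⟩ := q
    simp only [CSG.pt_zero', Prod.mk.injEq, and_true, true_and]
    apply Complex.ext
    · simp only [yh, CSG.pt_one', CSG.pt_two', Complex.mul_re, Complex.re_ofNat, Complex.im_ofNat, zero_mul, sub_zero]
      ring
    · simp only [yh, CSG.pt_one', CSG.pt_two', Complex.mul_im, Complex.re_ofNat, Complex.im_ofNat, zero_mul, add_zero]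
      ring

theorem btt_pi (i : Fin 3) : ContDiff ℝ ∞ (fun y : E3 => y i) :=
  (EuclideanSpace.proj i : E3 →L[ℝ] ℝ).contDiff

theorem btt_yh : ContDiff ℝ ∞ yh := by
  have h1 : yh = fun y : E3 => ((y 1 : ℝ) : ℂ) + ((y 2 : ℝ) : ℂ) * I := by
    funext y
    apply Complex.ext <;> simp [yh]
  rw [h1]
  exact (Complex.ofRealCLM.contDiff.comp (btt_pi 1)).add ((Complex.ofRealCLM.contDiff.comp (btt_pi 2)).mul contDiff_const)

theorem btt_pt {V : Type*} [NormedAddCommGroup V] [NormedSpace ℝ V] {f g h : V → ℝ} (hf : ContDiff ℝ ∞ f)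
    (hg : ContDiff ℝ ∞ g) (hh : ContDiff ℝ ∞ h) : ContDiff ℝ ∞ (fun x => CSG.pt (f x) (g x) (h x)) := by
  rw [contDiff_euclidean]
  intro i
  fin_cases i
  · simpa using hf
  · simpa using hg
  · simpa using hh

theorem btt_M_ld (q : ℝ × E3) : IsLocalDiffeomorphAt 𝓘(ℝ, ℝ × E3) 𝓘(ℝ, ℝ × ℂ × ℝ) ∞ btt_M q := by
  refine CSG.ld_of_perm (f := btt_M) ?_ ?_ q
  · have h1 : ContDiff ℝ ∞ (fun q : ℝ × E3 => q.2 0) := (btt_pi 0).comp contDiff_snd
    have h2 : ContDiff ℝ ∞ (fun q : ℝ × E3 => 2 * yh q.2) := contDiff_const.mul (btt_yh.comp contDiff_snd)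
    exact h1.prodMk (h2.prodMk contDiff_fst)
  · have h0 : ContDiff ℝ ∞ (fun q : ℝ × ℂ × ℝ => q.2.2) := contDiff_snd.comp contDiff_snd
    have h1 : ContDiff ℝ ∞ (fun q : ℝ × ℂ × ℝ => q.2.1.re / 2) :=
      (Complex.reCLM.contDiff.comp (contDiff_fst.comp contDiff_snd)).div_const 2
    have h2 : ContDiff ℝ ∞ (fun q : ℝ × ℂ × ℝ => q.2.1.im / 2) :=
      (Complex.imCLM.contDiff.comp (contDiff_fst.comp contDiff_snd)).div_const 2
    exact h0.prodMk (btt_pt contDiff_fst h1 h2)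

variable {N : Type*} [TopologicalSpace N] [ChartedSpace E3 N] {P : Type*} [TopologicalSpace P] [ChartedSpace E4 P]
  {π : N × ℝ → P} {κ : ℝ × ℂ → N} {n j : ℤ}

theorem sg_ld (hπ : Prod4 π) (hκ : Thick κ) {lam : ℝ} {w : ℂ} (t : ℝ) (hw : ‖w‖ < 1) :
    IsLocalDiffeomorphAt 𝓘(ℝ, ℝ × ℂ × ℝ) (𝓡 4) ∞ (sg π κ n j) (lam, w, t) := by
  have hw' : ‖w * ex (j * t)‖ < 1 := by rwa [norm_mul, ex_norm, mul_one]
  have h1 := btt_L_ld n j (lam, w, t)
  have h2 : IsLocalDiffeomorphAt 𝓘(ℝ, (ℝ × ℂ) × ℝ) ((𝓡 3).prod 𝓘(ℝ, ℝ)) ∞ (Prod.map κ (id : ℝ → ℝ))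
      (btt_L n j (lam, w, t)) := by
    rw [modelWithCornersSelf_prod, ← chartedSpaceSelf_prod]
    exact ld_prodMap (hκ.loc _ _ hw') (CSG.ld_id t)
  have h3 : IsLocalDiffeomorphAt ((𝓡 3).prod 𝓘(ℝ, ℝ)) (𝓡 4) ∞ π (Prod.map κ (id : ℝ → ℝ) (btt_L n j (lam, w, t))) :=
    hπ.loc _ _
  have h4 := IsLocalDiffeomorphAt.comp (hf := h1) (hg := h2)
  exact IsLocalDiffeomorphAt.comp (hf := h4) (hg := h3)

theorem sg_inj (hπ : Prod4 π) (hκ : Thick κ) {lam lam' t t' : ℝ} {w w' : ℂ} (hw : ‖w‖ < 1) (hw' : ‖w'‖ < 1)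
    (h : sg π κ n j (lam, w, t) = sg π κ n j (lam', w', t')) :
    w = w' ∧ (∃ k : ℤ, lam' = lam + k) ∧ ∃ k : ℤ, t' = t + k := by
  obtain ⟨h1, m, hm⟩ := hπ.inj _ _ _ _ h
  have hw1 : ‖w * ex (j * t)‖ < 1 := by rwa [norm_mul, ex_norm, mul_one]
  have hw2 : ‖w' * ex (j * t')‖ < 1 := by rwa [norm_mul, ex_norm, mul_one]
  obtain ⟨h2, m', hm'⟩ := hκ.inj _ _ _ _ hw1 hw2 h1
  simp only at hm hm' h2
  have h3 : ex (j * t') = ex (j * t) := by
    rw [hm, mul_add, ← Int.cast_mul, ex_add_int]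
  rw [h3] at h2
  refine ⟨mul_right_cancel₀ (ex_ne _) h2, ⟨m' - n * m, ?_⟩, m, hm⟩
  rw [hm] at hm'
  push_cast
  linarith

theorem sg_per (hπ : Prod4 π) (hκ : Thick κ) (lam t : ℝ) (w : ℂ) (a c : ℤ) :
    sg π κ n j (lam + a, w, t + c) = sg π κ n j (lam, w, t) := by
  unfold sg
  simp only
  have h1 : ex (j * (t + c)) = ex (j * t) := by rw [mul_add, ← Int.cast_mul, ex_add_int]
  have h2 : (n : ℝ) * (t + c) + 1 / 2 + (lam + a) = n * t + 1 / 2 + lam + ((n * c + a : ℤ) : ℝ) := by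
    push_cast
    ring
  rw [h1, h2, btt_per (f := fun l => κ (l, w * ex (j * t))) (fun l => hκ.per l _),
    btt_per (f := fun s => π (κ (n * t + 1 / 2 + lam, w * ex (j * t)), s)) (fun s => hπ.per _ s)]

theorem sg_zero (j' : ℤ) (lam t : ℝ) : sg π κ n j (lam, 0, t) = sg π κ n j' (lam, 0, t) := by
  unfold sg
  simp only [zero_mul]

/-- a point of the tube of `κ` in spin coordinates -/
theorem sg_of (l t : ℝ) (v : ℂ) : π (κ (l, v), t) = sg π κ n j (l - n * t - 1 / 2, v * ex (-(j * t)), t) := by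
  unfold sg
  simp only
  rw [mul_assoc, ← ex_add, neg_add_cancel, ex_zero, mul_one, show (n : ℝ) * t + 1 / 2 + (l - n * t - 1 / 2) = l by ring]

/-- `w ≠ 0` iff the point is off the torus -/
theorem sg_off (hπ : Prod4 π) (hκ : Thick κ) {lam t : ℝ} {w : ℂ} (hw : ‖w‖ < 1) (h0 : w ≠ 0) :
    ¬ OnKnot κ (κ (n * t + 1 / 2 + lam, w * ex (j * t))) := by
  rintro ⟨l, hl⟩
  have hw1 : ‖w * ex (j * t)‖ < 1 := by rwa [norm_mul, ex_norm, mul_one]
  have h1 := (hκ.inj _ _ _ _ hw1 (by rw [norm_zero]; norm_num) hl).1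
  exact (mul_ne_zero h0 (ex_ne _)) h1

theorem slit_closed [T2Space P] (hπ : Prod4 π) (hκ : Thick κ) : IsClosed (Slit π κ n) := by
  have h1 : Slit π κ n = (fun q : ℝ × ℝ => sg π κ n 0 (q.1, 0, q.2)) '' (Icc (-(1 / 4)) (1 / 4) ×ˢ Icc 0 1) := by
    ext p
    constructor
    · rintro ⟨lam, t, hl, rfl⟩
      refine ⟨(lam, Int.fract t), ⟨abs_le.mp hl, (Int.fract_nonneg t), (Int.fract_lt_one t).le⟩, ?_⟩
      have h2 := sg_per (n := n) (j := 0) hπ hκ lam (Int.fract t) 0 0 ⌊t⌋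
      rw [Int.cast_zero, add_zero, Int.fract_add_floor] at h2
      exact h2.symm
    · rintro ⟨q, hq, rfl⟩
      exact ⟨q.1, q.2, abs_le.mpr hq.1, rfl⟩
  rw [h1]
  refine (IsCompact.image_of_continuousOn (isCompact_Icc.prod isCompact_Icc) ?_).isClosed
  intro q _
  refine ContinuousAt.continuousWithinAt ?_
  have h2 : ContinuousAt (sg π κ n 0) (q.1, (0 : ℂ), q.2) :=
    CSG.ld_continuousAt (sg_ld hπ hκ q.2 (by rw [norm_zero]; norm_num))
  have h3 : ContinuousAt (fun q : ℝ × ℝ => (q.1, (0 : ℂ), q.2)) q := by fun_prop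
  exact ContinuousAt.comp (f := fun q : ℝ × ℝ => (q.1, (0 : ℂ), q.2)) (g := sg π κ n 0) h2 h3

/-- a point of the tube is in the slit iff its coordinates are -/
theorem sg_slit (hπ : Prod4 π) (hκ : Thick κ) {lam t : ℝ} {w : ℂ} (hw : ‖w‖ < 1) :
    sg π κ n j (lam, w, t) ∉ Slit π κ n ↔ OffS lam w := by
  have hre : ∀ x : ℝ, (ex (x + 1 / 2)).re = -Real.cos (2 * Real.pi * x) := by
    intro x
    rw [ex_re, mul_add, show 2 * Real.pi * (1 / 2) = Real.pi by ring, Real.cos_add_pi]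
  constructor
  · intro h
    by_contra h1
    unfold OffS at h1
    push Not at h1
    obtain ⟨h2, h3⟩ := h1
    apply h
    rw [hre] at h3
    have h4 := abs_sub_round lam
    have h5 : 0 ≤ Real.cos (2 * Real.pi * |lam - round lam|) := by
      have h6 : Real.cos (2 * Real.pi * |lam - round lam|) = Real.cos (2 * Real.pi * (lam - round lam)) := by
        rw [← Real.cos_abs (2 * Real.pi * (lam - round lam)), abs_mul, abs_of_pos Real.two_pi_pos]
      rw [h6, mul_sub, show 2 * Real.pi * (round lam : ℝ) = (round lam : ℝ) * (2 * Real.pi) by ring,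
        Real.cos_sub_int_mul_two_pi]
      linarith
    have h7 : |lam - round lam| ≤ 1 / 4 := by
      by_contra h8
      push Not at h8
      have h9 := Real.pi_pos
      have h10 : Real.cos (2 * Real.pi * |lam - round lam|) < 0 :=
        Real.cos_neg_of_pi_div_two_lt_of_lt (by nlinarith) (by nlinarith)
      linarith
    refine ⟨lam - round lam, t, h7, ?_⟩
    rw [h2, sg_zero (j := j) 0]
    have h11 := sg_per (n := n) (j := 0) hπ hκ (lam - round lam) t 0 (round lam) 0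
    rw [Int.cast_zero, add_zero, sub_add_cancel] at h11
    exact h11
  · rintro h ⟨lam', t', hl, he⟩
    rw [sg_zero (j := 0) j] at he
    obtain ⟨h1, ⟨k, hk⟩, _⟩ := sg_inj hπ hκ hw (by rw [norm_zero]; norm_num) he
    rcases h with h | h
    · exact h h1
    · have h2 : (ex (lam + 1 / 2)).re = (ex (lam' + 1 / 2)).re := by
        rw [hk, show lam + (k : ℝ) + 1 / 2 = lam + 1 / 2 + (k : ℝ) by ring, ex_add_int]
      rw [h2, hre] at h
      have h3 : 0 ≤ Real.cos (2 * Real.pi * lam') := by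
        obtain ⟨h4, h5⟩ := abs_le.mp hl
        have h9 := Real.pi_pos
        exact Real.cos_nonneg_of_neg_pi_div_two_le_of_le (by nlinarith) (by nlinarith)
      linarith

theorem btt_norm (y : E3) : ‖y‖ ^ 2 = y 0 ^ 2 + ‖yh y‖ ^ 2 := by
  rw [EuclideanSpace.norm_sq_eq, Fin.sum_univ_three, ← Complex.normSq_eq_norm_sq, Complex.normSq_apply]
  simp only [Real.norm_eq_abs, sq_abs, yh]
  ring

theorem bt_thick (hπ : Prod4 π) (hκ : Thick κ) : ACB.Thick (bt π κ n j) (1 / 2) := by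
  have hy : ∀ v : E3, ‖v‖ < 1 / 2 → ‖2 * yh v‖ < 1 ∧ |v 0| < 1 / 2 := by
    intro v hv
    have h1 := btt_norm v
    have h2 : ‖v‖ ^ 2 < (1 / 2) ^ 2 := pow_lt_pow_left₀ hv (norm_nonneg _) (by norm_num)
    refine ⟨?_, ?_⟩
    · rw [norm_mul, Complex.norm_ofNat]
      nlinarith [norm_nonneg (yh v), sq_nonneg (v 0)]
    · refine abs_lt_of_sq_lt_sq ?_ (by norm_num)
      nlinarith [sq_nonneg ‖yh v‖]
  refine ⟨by norm_num, ?_, ?_, ?_⟩
  · intro l v _
    have h2 := sg_per (n := n) (j := j) hπ hκ (v 0) l (2 * yh v) 0 1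
    rw [Int.cast_zero, add_zero, Int.cast_one] at h2
    exact h2
  · intro l v hv
    have h1 := btt_M_ld (l, v)
    have h2 : IsLocalDiffeomorphAt 𝓘(ℝ, ℝ × ℂ × ℝ) (𝓡 4) ∞ (sg π κ n j) (btt_M (l, v)) := sg_ld hπ hκ l (hy v hv).1
    exact IsLocalDiffeomorphAt.comp (hf := h1) (hg := h2)
  · intro l v l' v' hv hv' h
    obtain ⟨h1, ⟨k, hk⟩, h3⟩ := sg_inj hπ hκ (hy v hv).1 (hy v' hv').1 h
    simp only at hk h3 h1
    have h4 : k = 0 := by
      have h5 := abs_lt.mp (hy v hv).2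
      have h6 := abs_lt.mp (hy v' hv').2
      have h7 : (k : ℝ) < 1 := by linarith
      have h8 : (-1 : ℝ) < k := by linarith
      have h9 : k < 1 := by exact_mod_cast h7
      have h10 : -1 < k := by exact_mod_cast h8
      omega
    rw [h4, Int.cast_zero, add_zero] at hk
    have h5 : yh v = yh v' := mul_left_cancel₀ two_ne_zero h1
    have h6 : v 1 = v' 1 := congrArg Complex.re h5
    have h7 : v 2 = v' 2 := congrArg Complex.im h5
    refine ⟨?_, h3⟩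
    rw [← CSG.pt_eta v, ← CSG.pt_eta v', hk, h6, h7]

theorem bt_rot (k : ℤ) (t : ℝ) (y : E3) : bt π κ n j (t, CSG.cmul (ex (k * t)) y) = bt π κ n (j + k) (t, y) := by
  unfold bt sg
  simp only
  have h1 : (CSG.cmul (ex (k * t)) y) 0 = y 0 := by simp [CSG.cmul]
  have h2 : yh (CSG.cmul (ex (k * t)) y) = ex (k * t) * yh y := by
    have h3 : ((y 1 : ℝ) : ℂ) + ((y 2 : ℝ) : ℂ) * I = yh y := by
      apply Complex.ext <;> simp [yh]
    apply Complex.ext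
    · simp only [yh, CSG.cmul, CSG.pt_one', CSG.pt_two']
      rw [h3]
      rfl
    · simp only [yh, CSG.cmul, CSG.pt_one', CSG.pt_two']
      rw [h3]
      rfl
  have h4 : ex (((j + k : ℤ) : ℝ) * t) = ex (k * t) * ex (j * t) := by
    rw [← ex_add]
    congr 1
    push_cast
    ring
  rw [h1, h2, h4]
  congr 4
  ring

theorem norm_yh (y : E3) : ‖y‖ ^ 2 = y 0 ^ 2 + ‖yh y‖ ^ 2 := btt_norm y

theorem yh_flp (ε : ℝ) (y : E3) : yh (flp ε y) = yh y ∧ (flp ε y) 0 = ε * y 0 := by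
  refine ⟨?_, ?_⟩
  · apply Complex.ext <;> simp [yh, flp]
  · simp [flp]

theorem pt_yh (a : ℝ) (w : ℂ) : yh (CSG.pt a w.re w.im) = w ∧ (CSG.pt a w.re w.im) 0 = a := by
  refine ⟨?_, ?_⟩
  · apply Complex.ext <;> simp [yh]
  · simp

end Pool.Agent.NHS
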