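import Pool.Agent.NHS.Prd
import Pool.Agent.ACB.Defs
import Pool.Agent.CSG.Fun

/-!
# NHS/CDf: block C (spin types depend only on the free homotopy class), definitions

`P = N × S¹` with the covering `π : N × ℝ → P`.  Spin coordinates: `sg (lam, w, t) = π (κ (n t + 1/2 + lam, w ex (j t)), t)`.  In the roll spin
`X` (`RollSpin κ n j X`) the point `sg (lam, w, t)`, `w ≠ 0`, is glued to the point `zsp lam w t` of the twin: `c1 = |c1| ex t`,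
`2 |c1| c2 = w`, `fh = √(1 - |w|²) ex (lam + 1/2)`.  `zsp` is a chart of `{c1 ≠ 0}`, the coordinates are off the slit
`w = 0, |lam| ≤ 1/4`.  So `X` is the union of `P - slit × S¹` and of the sphere `c1 = 0` (`SpExt`).
-/

open scoped Manifold ContDiff Topology
open Set Filter
open Complex (I)
open Pool.Agent.RSG

namespace Pool.Agent.NHS

/-- the complex number `y 1 + i y 2` -/
noncomputable def yh (y : E3) : ℂ := ⟨y 1, y 2⟩

/-- `(ε y 0, y 1, y 2)` -/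
noncomputable def flp (ε : ℝ) (y : E3) : E3 := CSG.pt (ε * y 0) (y 1) (y 2)

/-- the point of the twin with `c1 = |c1| ex t`, `2 |c1| c2 = w`, `fh = √(1 - |w|²) ex (lam + 1/2)` -/
noncomputable def zsp (lam : ℝ) (w : ℂ) (t : ℝ) : S4 :=
  let f : ℂ := Real.sqrt (1 - ‖w‖ ^ 2) * ex (lam + 1 / 2)
  let x : ℝ := Real.sqrt ((Real.sqrt (1 - f.im ^ 2) + f.re) / 2)
  pS4 (x * ex t) (w / (2 * x)) (f.im / Real.sqrt (1 + Real.sqrt (1 - f.im ^ 2)))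

/-- off the slit -/
def OffS (lam : ℝ) (w : ℂ) : Prop := w ≠ 0 ∨ 0 < (ex (lam + 1 / 2)).re

/-- `(c1, c2, ε ht)` -/
noncomputable def flS (ε : ℝ) (z : S4) : S4 := pS4 (c1 z) (c2 z) (ε * ht z)

section
variable {N : Type*} [TopologicalSpace N] [ChartedSpace E3 N] {P : Type*} [TopologicalSpace P] [ChartedSpace E4 P]

/-- spin coordinates of `P` near the torus -/
noncomputable def sg (π : N × ℝ → P) (κ : ℝ × ℂ → N) (n j : ℤ) (q : ℝ × ℂ × ℝ) : P :=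
  π (κ (n * q.2.2 + 1 / 2 + q.1, q.2.1 * ex (j * q.2.2)), q.2.2)

/-- the big tube around the circle `t ↦ (κ (n t + 1/2, 0), t)` -/
noncomputable def bt (π : N × ℝ → P) (κ : ℝ × ℂ → N) (n j : ℤ) (q : ℝ × E3) : P :=
  sg π κ n j (q.2 0, 2 * yh q.2, q.1)

/-- the slit times the circle -/
def Slit (π : N × ℝ → P) (κ : ℝ × ℂ → N) (n : ℤ) : Set P :=
  {p | ∃ lam t : ℝ, |lam| ≤ 1 / 4 ∧ p = sg π κ n 0 (lam, 0, t)}

/-- the roll spin as a union of `P - slit × S¹` and of a sphere -/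
structure SpExt (π : N × ℝ → P) (κ : ℝ × ℂ → N) (n j : ℤ) {X : Type*} [TopologicalSpace X] [ChartedSpace E4 X]
    (A : P → X) (Q : S4 → X) : Prop where
  loc : ∀ p, p ∉ Slit π κ n → IsLocalDiffeomorphAt (𝓡 4) (𝓡 4) ∞ A p
  inj : InjOn A (Slit π κ n)ᶜ
  Qloc : ∀ z, fh z ≠ 0 → IsLocalDiffeomorphAt (𝓡 4) (𝓡 4) ∞ Q z
  Qinj : ∀ z z', fh z ≠ 0 → fh z' ≠ 0 → Q z = Q z' → z = z'
  glue : ∀ lam w t, ‖w‖ < 1 → OffS lam w → A (sg π κ n j (lam, w, t)) = Q (zsp lam w t)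
  disj : ∀ z p, fh z ≠ 0 → c1 z = 0 → p ∉ Slit π κ n → Q z ≠ A p
  cover : ∀ q, (∃ p, p ∉ Slit π κ n ∧ q = A p) ∨ ∃ z, fh z ≠ 0 ∧ c1 z = 0 ∧ q = Q z

end

/-- smooth homotopy of loops of linear isomorphisms -/
def Hm (M M' : ℝ → E3 →L[ℝ] E3) : Prop :=
  ∃ H : ℝ → ℝ → E3 →L[ℝ] E3, (ContDiff ℝ ∞ fun q : ℝ × ℝ => H q.1 q.2) ∧ (∀ s l, H s (l + 1) = H s l) ∧
    (∀ s l, Function.Bijective (H s l)) ∧ H 0 = M ∧ H 1 = M'

end Pool.Agent.NHS
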