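import Mathlib
import Pool.Agent.RSG.Defs
import Pool.Agent.NHT.Hyp

/-!
# NHS/Defs: recognition of the 4-sphere among the twin manifolds of knots in homology spheres, definitions

`TwinData κ a₁ b₁ a₂ b₂ n X` (RSG/Defs): `X = ((N - K) × S¹) ∪ twin`; a general unimodular matrix is allowed.

* `sh κ`: the thick knot with the parameter shifted by `1/2`.
* `Uni`: the matrix is unimodular.
* `Seif κ φ`: `φ` is a Seifert function of the knot, equal to the meridional angle near the knot (so the framing of `κ` is the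
  Seifert framing).
* `Dual q κ κ' F`: `N'` is the result of the `1/q`-surgery on `κ`, `κ'` is the core of the new solid torus (dual knot),
  `F : N' → N` is the diffeomorphism of the complements.
* `Std n N κ`: the class of thick knots generated from the unknot of `S³` by free homotopies and `1/(kn)`-surgeries.
-/

open scoped Manifold ContDiff
open Pool.Agent.RSG
open Pool.Agent.NHT (FreeHomotopic GenH1)

namespace Pool.Agent.NHS

/-- the shift of the parameter by `1/2` -/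
noncomputable def sh {N : Type*} (κ : ℝ × ℂ → N) (q : ℝ × ℂ) : N := κ (q.1 + 1 / 2, q.2)

/-- unimodular matrices -/
def Uni (a₁ b₁ a₂ b₂ : ℤ) : Prop := a₁ * b₂ - a₂ * b₁ = 1 ∨ a₁ * b₂ - a₂ * b₁ = -1

section
variable {N N' : Type*} [TopologicalSpace N] [ChartedSpace E3 N] [TopologicalSpace N'] [ChartedSpace E3 N']

/-- `φ : N - K → S¹` is smooth and is the angle `m` near the knot -/
structure Seif (κ : ℝ × ℂ → N) (φ : N → ℂ) : Prop where
  smooth : ∀ x, ¬ OnKnot κ x → ContMDiffAt (𝓡 3) 𝓘(ℝ, ℂ) ∞ φ x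
  norm : ∀ x, ¬ OnKnot κ x → ‖φ x‖ = 1
  near : ∀ l m r : ℝ, 0 < r → r < 1 → φ (κ (l, r * ex m)) = ex m

/-- `N'` is the result of the surgery on the knot `κ` with slope `meridian + q * longitude`, `κ'` is the dual knot: `F` is a
diffeomorphism `N' - K' → N - K` and `F (κ' (l, r ex m)) = κ (l + q m, r ex m)`. -/
structure Dual (q : ℤ) (κ : ℝ × ℂ → N) (κ' : ℝ × ℂ → N') (F : N' → N) : Prop where
  off : ∀ x, ¬ OnKnot κ' x → ¬ OnKnot κ (F x)
  loc : ∀ x, ¬ OnKnot κ' x → IsLocalDiffeomorphAt (𝓡 3) (𝓡 3) ∞ F x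
  inj : ∀ x x', ¬ OnKnot κ' x → ¬ OnKnot κ' x' → F x = F x' → x = x'
  surj : ∀ y, ¬ OnKnot κ y → ∃ x, ¬ OnKnot κ' x ∧ F x = y
  near : ∀ l m r : ℝ, 0 < r → r < 1 → F (κ' (l, r * ex m)) = κ (l + q * m, r * ex m)

end

/-- The class of thick knots `κ` in 3-manifolds `N` generated by the unknot of `S³`, free homotopies in `N` and
`1/(kn)`-surgeries on knots with Seifert functions. -/
inductive Std (n : ℤ) : (N : Type) → [TopologicalSpace N] → [ChartedSpace E3 N] → (ℝ × ℂ → N) → Prop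
  | base : Std n S3 (std 0)
  | hom {N : Type} [TopologicalSpace N] [ChartedSpace E3 N] {κ κ' : ℝ × ℂ → N} :
      Std n N κ → Thick κ' → FreeHomotopic κ κ' → Std n N κ'
  | surg {N N' : Type} [TopologicalSpace N] [ChartedSpace E3 N] [TopologicalSpace N'] [ChartedSpace E3 N'] [T2Space N']
      [IsManifold (𝓡 3) ∞ N'] [ConnectedSpace N'] {κ : ℝ × ℂ → N} {κ' : ℝ × ℂ → N'} (k : ℤ) {φ : N → ℂ} {F : N' → N} :
      Std n N κ → Thick κ' → Seif κ φ → Dual (k * n) κ κ' F → Std n N' κ'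

/-- `X` is the 4-sphere -/
def IsS4 (X : Type*) [TopologicalSpace X] [ChartedSpace E4 X] : Prop := Nonempty (X ≃ₘ⟮𝓡 4, 𝓡 4⟯ S4)

/-- the roll-Gluck manifold and the roll spins of `κ` are the 4-sphere -/
def Good (n : ℤ) {N : Type} [TopologicalSpace N] [ChartedSpace E3 N] (κ : ℝ × ℂ → N) : Prop :=
  ∀ (X : Type) [TopologicalSpace X] [ChartedSpace E4 X] [T2Space X],
    (IsRollGluck κ n 0 X → IsS4 X) ∧ ∀ j, Nonempty (RollSpin κ n j X) → IsS4 X

/-- all twin manifolds of `κ` with the number `n` are the 4-sphere -/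
def AllS4 (n : ℤ) {N : Type} [TopologicalSpace N] [ChartedSpace E3 N] (κ : ℝ × ℂ → N) : Prop :=
  ∀ (a₁ b₁ a₂ b₂ : ℤ), Uni a₁ b₁ a₂ b₂ → ∀ (X : Type) [TopologicalSpace X] [ChartedSpace E4 X] [T2Space X],
    Nonempty (TwinData κ a₁ b₁ a₂ b₂ n X) → IsS4 X

end Pool.Agent.NHS
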