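import Pool.Agent.NHS.Zsp
import Pool.Agent.NHS.Btt

/-!
# NHS/Ex1: the roll spin in extended form   (difficulty 3)

PROOF.  `A p = D.A (x, t)` if `p = π (x, t)` with `x` off the knot (`hπ.surj`, well defined by `hπ.inj`, `D.A_per`), and `A p = D.Q (zsp lam 0 t)` if `p = sg (lam, 0, t)` (i.e. `p` is on the
torus; `sg_of`, well defined by `sg_inj`, `zsp_per`).
`glue`: `w = 0`: definition.  `w ≠ 0`: `v = w ex (j t) = |v| ex m`, `l = n t + 1/2 + lam`; `z = zsp lam w t` has `c1 = |c1| ex (0 m + 1 t)`, `c2 = |c2| ex (1 m - j t)` (as `w = 2 |c1| c2` and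
`w = |w| ex (m - j t)`), `fh = |fh| ex (l - n t)`, `2 |c1| |c2| = |w|` : `D.glue z l m t` (`zsp_spec`).
`loc`: at `p = π (x, t)`, `x` off the knot: `A ∘ π = D.A` near `(x, t)` (the complement of the knot is open), `ld_of_comp_left`.  At `p = sg (lam, 0, t)`, `OffS lam 0` (`sg_slit`):
`A ∘ sg = D.Q ∘ zsp` near `(lam, 0, t)` (glue; `OffS` and `‖w‖ < 1` are open conditions), `sg_ld`, `zsp_ld`, `ld_of_comp_left`.
`inj`: two points off the torus: `D.A_inj`; both on the torus: `D.Q_inj`, `zsp_inj`, `sg_per`; one on the torus: `zsp lam 0 t` has `c2 = 0`, so `D.disj`.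
`disj`: `c1 z = 0`: `p` off the torus: `D.disj`; on the torus: `D.Q_inj`, `c1 (zsp ..) ≠ 0`.
`cover`: `D.cover`: `q = D.Q z`: `c1 z = 0`: right; `c1 z ≠ 0`: `zsp_exists`, `glue`, `sg_slit`.
-/

open scoped Manifold ContDiff Topology
open Set Filter
open Complex (I)
open Pool.Agent.RSG

namespace Pool.Agent.NHS

theorem ex1_slit {N : Type*} [TopologicalSpace N] [ChartedSpace E3 N] {P : Type*} [TopologicalSpace P]
    [ChartedSpace E4 P] {π : N × ℝ → P} {κ : ℝ × ℂ → N} {n : ℤ} (hπ : Prod4 π) {x : N} (hx : ¬ OnKnot κ x) (t : ℝ) :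
    π (x, t) ∉ Slit π κ n := by
  rintro ⟨lam, t', -, he⟩
  unfold sg at he
  obtain ⟨h1, -⟩ := hπ.inj _ _ _ _ he
  apply hx
  refine ⟨n * t' + 1 / 2 + lam, ?_⟩
  rw [h1]
  simp only [zero_mul]

theorem ex1_closed {N : Type*} [TopologicalSpace N] [ChartedSpace E3 N] [T2Space N]
    {κ : ℝ × ℂ → N} (h : Thick κ) : IsClosed {x | OnKnot κ x} := by
  have e : {x | OnKnot κ x} = (fun l : ℝ => κ (l, 0)) '' Icc (0 : ℝ) 1 := by
    ext x
    constructor
    · rintro ⟨l, rfl⟩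
      refine ⟨Int.fract l, ⟨Int.fract_nonneg l, (Int.fract_lt_one l).le⟩, ?_⟩
      have hp : Function.Periodic (fun t => κ (t, 0)) 1 := fun t => h.per t 0
      have := hp.int_mul ⌊l⌋ (Int.fract l)
      simp only [mul_one] at this
      rw [Int.fract_add_floor] at this
      exact this.symm
    · rintro ⟨l, -, rfl⟩
      exact ⟨l, rfl⟩
  rw [e]
  apply IsCompact.isClosed
  apply isCompact_Icc.image
  rw [continuous_iff_continuousAt]
  intro l
  have h1 : ContinuousAt κ (l, 0) := (h.loc l 0 (by simp)).contMDiffAt.continuousAt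
  exact ContinuousAt.comp (g := κ) (f := fun l : ℝ => (l, (0 : ℂ))) h1 (by fun_prop)

theorem ex1_c2 {lam t : ℝ} (ho : OffS lam 0) : c2 (zsp lam 0 t) = 0 := by
  have k2 : ‖(0 : ℂ)‖ < 1 := by rw [norm_zero]; exact one_pos
  obtain ⟨h1, -, h3, -⟩ := zsp_spec t k2 ho
  rcases mul_eq_zero.1 h3 with h4 | h4
  · exfalso
    rcases mul_eq_zero.1 h4 with h5 | h5
    · norm_num at h5
    · exact h1 (by simpa using h5)
  · exact h4

theorem spExt_of {N : Type*} [TopologicalSpace N] [ChartedSpace E3 N] [T2Space N] {P : Type*} [TopologicalSpace P]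
    [ChartedSpace E4 P] [T2Space P] {π : N × ℝ → P} {κ : ℝ × ℂ → N} {n j : ℤ} {X : Type*} [TopologicalSpace X]
    [ChartedSpace E4 X] (hπ : Prod4 π) (hκ : Thick κ) (D : RollSpin κ n j X) : ∃ A : P → X, SpExt π κ n j A D.Q := by
  have k0 : ‖(0 : ℂ)‖ < 1 := by rw [norm_zero]; exact one_pos
  have hAper : ∀ (x : N) (t : ℝ) (m : ℤ), D.A (x, t + m) = D.A (x, t) := by
    intro x t m
    have hp : Function.Periodic (fun t => D.A (x, t)) 1 := fun t => D.A_per x t
    have := hp.int_mul m t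
    simp only [mul_one] at this
    exact this
  have hπper : ∀ (x : N) (t : ℝ) (m : ℤ), π (x, t + m) = π (x, t) := by
    intro x t m
    have hp : Function.Periodic (fun t => π (x, t)) 1 := fun t => hπ.per x t
    have := hp.int_mul m t
    simp only [mul_one] at this
    exact this
  have hon : ∀ lam t : ℝ, ∃ x, OnKnot κ x ∧ sg π κ n j (lam, 0, t) = π (x, t) := by
    intro lam t
    refine ⟨κ (n * t + 1 / 2 + lam, 0), ⟨_, rfl⟩, ?_⟩
    unfold sg
    simp only [zero_mul]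
  have hex : ∀ p : P, ∃ y : X, (∀ x t, ¬ OnKnot κ x → p = π (x, t) → y = D.A (x, t)) ∧
      ∀ lam t, p = sg π κ n j (lam, 0, t) → y = D.Q (zsp lam 0 t) := by
    intro p
    obtain ⟨⟨x, t⟩, rfl⟩ := hπ.surj p
    by_cases hx : OnKnot κ x
    · obtain ⟨l, rfl⟩ := hx
      have k1 := sg_of (π := π) (κ := κ) (n := n) (j := j) l t 0
      rw [zero_mul] at k1
      refine ⟨D.Q (zsp (l - n * t - 1 / 2) 0 t), ?_, ?_⟩
      · intro x' t' hx' he
        obtain ⟨h1, -⟩ := hπ.inj _ _ _ _ he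
        exact absurd ⟨l, h1.symm⟩ hx'
      · intro lam t' he
        rw [k1] at he
        obtain ⟨-, ⟨a, ha⟩, c, hc⟩ := sg_inj hπ hκ k0 k0 he
        rw [ha, hc, zsp_per]
    · refine ⟨D.A (x, t), ?_, ?_⟩
      · intro x' t' hx' he
        obtain ⟨h1, m, hm⟩ := hπ.inj _ _ _ _ he
        rw [← h1, hm, hAper]
      · intro lam t' he
        obtain ⟨x', hx', he'⟩ := hon lam t'
        rw [he'] at he
        obtain ⟨h1, -⟩ := hπ.inj _ _ _ _ he
        exact absurd (h1 ▸ hx') hx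
  choose A hA1 hA2 using hex
  have hAoff : ∀ x t, ¬ OnKnot κ x → A (π (x, t)) = D.A (x, t) := fun x t hx => hA1 _ x t hx rfl
  have hAon : ∀ lam t, A (sg π κ n j (lam, 0, t)) = D.Q (zsp lam 0 t) := fun lam t => hA2 _ lam t rfl
  have hcase : ∀ p, p ∉ Slit π κ n → (∃ x t, ¬ OnKnot κ x ∧ p = π (x, t)) ∨
      ∃ lam t, OffS lam 0 ∧ p = sg π κ n j (lam, 0, t) := by
    intro p hp
    obtain ⟨⟨x, t⟩, rfl⟩ := hπ.surj p
    by_cases hx : OnKnot κ x
    · obtain ⟨l, rfl⟩ := hx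
      have k1 := sg_of (π := π) (κ := κ) (n := n) (j := j) l t 0
      rw [zero_mul] at k1
      rw [k1] at hp
      exact Or.inr ⟨_, t, (sg_slit hπ hκ k0).1 hp, k1⟩
    · exact Or.inl ⟨x, t, hx, rfl⟩
  have hglue : ∀ lam w t, ‖w‖ < 1 → OffS lam w → A (sg π κ n j (lam, w, t)) = D.Q (zsp lam w t) := by
    intro lam w t hw ho
    by_cases h0 : w = 0
    · subst h0
      exact hAon lam t
    · have hoff := sg_off (n := n) (j := j) (lam := lam) (t := t) hπ hκ hw h0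
      have e1 : A (sg π κ n j (lam, w, t)) = D.A (κ (n * t + 1 / 2 + lam, w * ex (j * t)), t) := hAoff _ t hoff
      rw [e1]
      obtain ⟨h1, h2, h3, h4⟩ := zsp_spec t hw ho
      have hf := zsp_fh_ne t hw ho
      obtain ⟨z, hz⟩ : ∃ z, z = zsp lam w t := ⟨_, rfl⟩
      rw [← hz] at h1 h2 h3 h4 hf ⊢
      have h5 : c2 z ≠ 0 := by
        intro h
        rw [h, mul_zero] at h3
        exact h0 h3.symm
      obtain ⟨u, hu⟩ : ∃ u : ℝ, w = ‖w‖ * ex u := ⟨_, ex_arg.symm⟩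
      have hn : ‖w‖ = 2 * ‖c1 z‖ * ‖c2 z‖ := by
        rw [← h3, norm_mul, norm_mul, Complex.norm_real, norm_norm, Complex.norm_two]
      have hc2 : c2 z = ‖c2 z‖ * ex u := by
        have e2 : (2 * ‖c1 z‖ : ℂ) * c2 z = (2 * ‖c1 z‖ : ℂ) * (‖c2 z‖ * ex u) := by
          rw [h3]
          conv_lhs => rw [hu, hn]
          push_cast
          ring
        refine mul_left_cancel₀ ?_ e2
        apply mul_ne_zero two_ne_zero
        exact_mod_cast (norm_pos_iff.2 h1).ne'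
      have hfn : ‖fh z‖ = Real.sqrt (1 - ‖w‖ ^ 2) := by
        rw [h4, norm_mul, ex_norm, mul_one, Complex.norm_real, Real.norm_of_nonneg (Real.sqrt_nonneg _)]
      have hg := D.glue z (n * t + 1 / 2 + lam) (u + j * t) t hf h1 h5 (by
          rw [Int.cast_zero, Int.cast_one, zero_mul, zero_add, one_mul]
          exact h2) (by
          have : ((1 : ℤ) : ℝ) * (u + j * t) + ((-j : ℤ) : ℝ) * t = u := by push_cast; ring
          rw [this]
          exact hc2) (by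
          have : n * t + 1 / 2 + lam - n * t = lam + 1 / 2 := by ring
          rw [this, hfn]
          exact h4)
      rw [hg]
      have e3 : ((2 * ‖c1 z‖ * ‖c2 z‖ : ℝ) : ℂ) * ex (u + j * t) = w * ex (j * t) := by
        rw [ex_add, ← hn]
        conv_rhs => rw [hu]
        ring
      rw [e3]
  refine ⟨A, ⟨?_, ?_, D.Q_loc, D.Q_inj, hglue, ?_, ?_⟩⟩
  · intro p hp
    rcases hcase p hp with ⟨x, t, hx, rfl⟩ | ⟨lam, t, ho, rfl⟩
    · refine CSG.ld_of_comp_left (f := π) ?_ (hπ.loc x t)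
      refine CSG.ld_congr (D.A_loc x t hx) ?_
      have h1 : IsOpen {q : N × ℝ | ¬ OnKnot κ q.1} := (ex1_closed hκ).isOpen_compl.preimage continuous_fst
      filter_upwards [h1.mem_nhds (show (x, t) ∈ {q : N × ℝ | ¬ OnKnot κ q.1} from hx)] with q hq
      exact hAoff q.1 q.2 hq
    · refine CSG.ld_of_comp_left (f := sg π κ n j) ?_ (sg_ld hπ hκ t k0)
      have h1 : IsLocalDiffeomorphAt 𝓘(ℝ, ℝ × ℂ × ℝ) (𝓡 4) ∞ (D.Q ∘ fun q : ℝ × ℂ × ℝ => zsp q.1 q.2.1 q.2.2)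
          (lam, 0, t) :=
        IsLocalDiffeomorphAt.comp (hf := zsp_ld k0 ho) (g := D.Q) (hg := D.Q_loc _ (zsp_fh_ne t k0 ho))
      refine CSG.ld_congr h1 ?_
      have h2 : IsOpen {q : ℝ × ℂ × ℝ | ‖q.2.1‖ < 1} := isOpen_lt (by fun_prop) continuous_const
      have h3 : IsOpen {q : ℝ × ℂ × ℝ | OffS q.1 q.2.1} := by
        have e : {q : ℝ × ℂ × ℝ | OffS q.1 q.2.1} = {q : ℝ × ℂ × ℝ | q.2.1 ≠ 0} ∪
            {q : ℝ × ℂ × ℝ | 0 < (ex (q.1 + 1 / 2)).re} := rfl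
        rw [e]
        refine IsOpen.union (isOpen_ne.preimage (by fun_prop)) (isOpen_lt continuous_const ?_)
        have hc : Continuous ex := ex_smooth.continuous
        exact Complex.continuous_re.comp (hc.comp (by fun_prop))
      filter_upwards [h2.mem_nhds (show ((lam, 0, t) : ℝ × ℂ × ℝ) ∈ {q : ℝ × ℂ × ℝ | ‖q.2.1‖ < 1} from k0),
        h3.mem_nhds (show ((lam, 0, t) : ℝ × ℂ × ℝ) ∈ {q : ℝ × ℂ × ℝ | OffS q.1 q.2.1} from ho)] with q hq1 hq2
      exact hglue q.1 q.2.1 q.2.2 hq1 hq2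
  · intro p hp p' hp' he
    rcases hcase p hp with ⟨x, t, hx, rfl⟩ | ⟨lam, t, ho, rfl⟩
    · rcases hcase p' hp' with ⟨x', t', hx', rfl⟩ | ⟨lam', t', ho', rfl⟩
      · rw [hAoff x t hx, hAoff x' t' hx'] at he
        obtain ⟨h1, m, hm⟩ := D.A_inj _ _ _ _ hx hx' he
        rw [← h1, hm, hπper]
      · rw [hAoff x t hx, hAon] at he
        exact absurd he.symm (D.disj _ x t (zsp_fh_ne t' k0 ho') (Or.inr (ex1_c2 ho')) hx)
    · rcases hcase p' hp' with ⟨x', t', hx', rfl⟩ | ⟨lam', t', ho', rfl⟩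
      · rw [hAoff x' t' hx', hAon] at he
        exact absurd he (D.disj _ x' t' (zsp_fh_ne t k0 ho) (Or.inr (ex1_c2 ho)) hx')
      · rw [hAon, hAon] at he
        have h1 := D.Q_inj _ _ (zsp_fh_ne t k0 ho) (zsp_fh_ne t' k0 ho') he
        obtain ⟨-, ⟨a, ha⟩, c, hc⟩ := zsp_inj k0 ho k0 ho' h1
        rw [ha, hc, sg_per hπ hκ]
  · intro z p hf hc hp he
    rcases hcase p hp with ⟨x, t, hx, rfl⟩ | ⟨lam, t, ho, rfl⟩
    · rw [hAoff x t hx] at he
      exact D.disj z x t hf (Or.inl hc) hx he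
    · rw [hAon] at he
      have h1 := D.Q_inj _ _ hf (zsp_fh_ne t k0 ho) he
      rw [h1] at hc
      exact (zsp_spec t k0 ho).1 hc
  · intro q
    rcases D.cover q with ⟨x, t, hx, hq⟩ | ⟨z, hf, hq⟩
    · exact Or.inl ⟨π (x, t), ex1_slit hπ hx t, by rw [hAoff x t hx]; exact hq⟩
    · by_cases hc : c1 z = 0
      · exact Or.inr ⟨z, hf, hc, hq⟩
      · obtain ⟨lam, w, t, h1, h2, h3, -⟩ := zsp_exists hc hf
        refine Or.inl ⟨sg π κ n j (lam, w, t), (sg_slit hπ hκ h3).2 h2, ?_⟩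
        rw [hglue lam w t h3 h2, ← h1]
        exact hq

end Pool.Agent.NHS
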