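import Pool.Agent.NHS.Zsp
import Pool.Agent.NHS.Btt

/-!
# NHS/Ex2: from the extended form to the roll spin   (difficulty 2)

PROOF.  `A' (x, t) = A (π (x, t))`, `Q' = Q`.  If `x` is off the knot then `π (x, t)` is not in the slit (`hπ.inj`, `sg π κ n 0 (lam, 0, t) = π (κ (.., 0), t)`).
`glue`: the phases `0 m + 1 t`, `1 m - j t`, `l - n t` of `z`, `c1, c2 ≠ 0`: `lam = l - n t - 1/2`, `w = 2 |c1| c2 = 2 |c1| |c2| ex (m - j t)`; `zsp_eq`: `z = zsp lam w t`;
`sg (lam, w, t) = π (κ (l, 2 |c1| |c2| ex m), t)`.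
`disj`: `c1 z = 0`: `h.disj`; `c2 z = 0`, `c1 z ≠ 0`: `z = zsp lam 0 t` (`zsp_eq` with phases from `ex_surj`), `Q z = A (sg (lam, 0, t))`, `h.inj`: `sg (lam, 0, t) = π (κ (.., 0), t)`, `hπ.inj`.
`cover`: `h.cover`; if `q = A p`, `p = π (x, t)`: `x` off the knot: left; `x` on the knot: `p = sg (lam, 0, t)`, `OffS lam 0` (`sg_slit`), `A p = Q (zsp lam 0 t)`: right.
-/

open scoped Manifold ContDiff Topology
open Set Filter
open Complex (I)
open Pool.Agent.RSG

namespace Pool.Agent.NHS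

theorem ex2_slit {N : Type*} [TopologicalSpace N] [ChartedSpace E3 N] {P : Type*} [TopologicalSpace P]
    [ChartedSpace E4 P] {π : N × ℝ → P} {κ : ℝ × ℂ → N} {n : ℤ} (hπ : Prod4 π) {x : N} (hx : ¬ OnKnot κ x) (t : ℝ) :
    π (x, t) ∉ Slit π κ n := by
  rintro ⟨lam, t', -, he⟩
  unfold sg at he
  obtain ⟨h1, -⟩ := hπ.inj _ _ _ _ he
  apply hx
  refine ⟨n * t' + 1 / 2 + lam, ?_⟩
  rw [h1]
  simp only [zero_mul]

theorem rollSpin_of {N : Type*} [TopologicalSpace N] [ChartedSpace E3 N] [T2Space N] {P : Type*} [TopologicalSpace P]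
    [ChartedSpace E4 P] [T2Space P] {π : N × ℝ → P} {κ : ℝ × ℂ → N} {n j : ℤ} {X : Type*} [TopologicalSpace X]
    [ChartedSpace E4 X] (hπ : Prod4 π) (hκ : Thick κ) {A : P → X} {Q : S4 → X} (h : SpExt π κ n j A Q) :
    Nonempty (RollSpin κ n j X) := by
  refine ⟨{ A := fun q => A (π q)
            Q := Q
            A_per := ?_
            A_loc := ?_
            A_inj := ?_
            Q_loc := h.Qloc
            Q_inj := h.Qinj
            glue := ?_
            disj := ?_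
            cover := ?_ }⟩
  · intro x t
    rw [hπ.per]
  · intro x t hx
    exact IsLocalDiffeomorphAt.comp (hf := hπ.loc x t) (g := A) (hg := h.loc _ (ex2_slit hπ hx t))
  · intro x x' t t' hx hx' he
    exact hπ.inj _ _ _ _ (h.inj (ex2_slit hπ hx t) (ex2_slit hπ hx' t') he)
  · intro z l m t hf h1 h2 e1 e2 e3
    have e1' : c1 z = ‖c1 z‖ * ex t := by
      rw [Int.cast_zero, Int.cast_one, zero_mul, zero_add, one_mul] at e1
      exact e1
    have e2' : c2 z = ‖c2 z‖ * ex (m - j * t) := by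
      have : ((1 : ℤ) : ℝ) * m + ((-j : ℤ) : ℝ) * t = m - j * t := by push_cast; ring
      rw [this] at e2
      exact e2
    obtain ⟨lam, hlam⟩ : ∃ lam : ℝ, lam = l - n * t - 1 / 2 := ⟨_, rfl⟩
    have e3' : fh z = ‖fh z‖ * ex (lam + 1 / 2) := by
      rw [hlam, sub_add_cancel]
      exact e3
    obtain ⟨k1, k2, k3⟩ := zsp_eq h1 hf e1' e3'
    have k4 := h.glue lam _ t k3 k2
    rw [← k1] at k4
    rw [← k4]
    unfold sg
    simp only
    have k5 : (n : ℝ) * t + 1 / 2 + lam = l := by rw [hlam]; ring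
    have k6 : 2 * (‖c1 z‖ : ℂ) * c2 z * ex (j * t) = ((2 * ‖c1 z‖ * ‖c2 z‖ : ℝ) : ℂ) * ex m := by
      have k7 : ex m = ex (m - j * t) * ex (j * t) := by
        rw [← ex_add, sub_add_cancel]
      rw [k7]
      conv_lhs => rw [e2']
      push_cast
      ring
    rw [k5, k6]
  · intro z x t hf hc hx he
    by_cases h1 : c1 z = 0
    · exact h.disj z _ hf h1 (ex2_slit hπ hx t) he
    · have h2 : c2 z = 0 := hc.resolve_left h1
      obtain ⟨u, hu⟩ : ∃ u : ℝ, c1 z = ‖c1 z‖ * ex u := ⟨_, ex_arg.symm⟩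
      obtain ⟨v, hv⟩ : ∃ v : ℝ, fh z = ‖fh z‖ * ex (v + 1 / 2) :=
        ⟨Complex.arg (fh z) / (2 * Real.pi) - 1 / 2, by rw [sub_add_cancel]; exact ex_arg.symm⟩
      obtain ⟨k1, k2, k3⟩ := zsp_eq h1 hf hu hv
      rw [h2, mul_zero] at k1 k2 k3
      have k4 := h.glue v 0 u k3 k2
      rw [← k1, he] at k4
      have k5 : sg π κ n j (v, 0, u) ∉ Slit π κ n := (sg_slit hπ hκ k3).2 k2
      have k6 := h.inj k5 (ex2_slit hπ hx t) k4
      unfold sg at k6
      obtain ⟨k7, -⟩ := hπ.inj _ _ _ _ k6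
      apply hx
      refine ⟨n * u + 1 / 2 + v, ?_⟩
      rw [← k7]
      simp only [zero_mul]
  · intro q
    rcases h.cover q with ⟨p, hp, hq⟩ | ⟨z, hf, -, hq⟩
    · obtain ⟨⟨x, t⟩, rfl⟩ := hπ.surj p
      by_cases hx : OnKnot κ x
      · obtain ⟨l, rfl⟩ := hx
        have k1 := sg_of (π := π) (κ := κ) (n := n) (j := j) l t 0
        rw [zero_mul] at k1
        have k2 : ‖(0 : ℂ)‖ < 1 := by rw [norm_zero]; exact one_pos
        rw [k1] at hp hq
        have k3 := (sg_slit hπ hκ k2).1 hp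
        rw [h.glue _ _ _ k2 k3] at hq
        exact Or.inr ⟨_, zsp_fh_ne t k2 k3, hq⟩
      · exact Or.inl ⟨x, t, hx, hq⟩
    · exact Or.inr ⟨z, hf, hq⟩

end Pool.Agent.NHS
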