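import Pool.Agent.NHS.CDf
import Pool.Agent.CSG.LoopD
import Pool.Agent.CSG.LoopC
import Pool.Agent.CSG.LoopB
import Pool.Agent.CSG.LoopA
import Pool.Agent.ACB.FrH

/-!
# NHS/Lps: normal form of a loop of linear isomorphisms of `R³`   (difficulty 3)

PROOF.  The sign of `det (M l)` is constant (continuous, never `0`).  `σ = flp (-1)` as a continuous linear map.  If `det (M l) > 0` let `ε = 1`, `M' = M`; otherwise `ε = -1`, `M' l = M l ∘ σ`,
positive determinant.  Turn `M'` into `P : ℝ → E3 ≃L[ℝ] E3` (`LinearEquiv.ofBijective`, `toContinuousLinearEquiv`; `IsLoop P`, `PosDet P`; `ContDiff` of `(t, z) ↦ M' t z`: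
`ContDiff.clm_apply`).  `CSG.loopA`, `loopB`, `loopC`, `loopD`: a chain of `CSG.LoopHom` to `z ↦ cmul (gfr k t) z`.  Last step: `gfr k t = ex (k * thc (t + 1/2))` (see `CSG/Fun.lean`,
`CSG/LoopD.lean`: `thc (t + 1) = thc t + 1`) is homotopic to `ex (k t)`: `ex (k * ((1 - s) * thc (t + 1/2) + s * t))`.
A `CSG.LoopHom P Q` (homotopy `M t τ z`, first variable the loop) gives `Hm` of the underlying continuous linear maps: `H s l = M l s` (smoothness as a map into `E3 →L[ℝ] E3`: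
`CSG/SFrame.lean clm_smooth_of`, or `contDiff_clm_apply_iff`).  `H 0 = M`, `H 1 = M'` as functions: `funext`, `ContinuousLinearMap.ext`.
For `ε = -1` compose all maps with `σ` on the right: a chain of `Hm` from `M' ∘ σ = M` (`σ ∘ σ = 1`) to `cmul (ex (k l)) ∘ σ`.
-/

open scoped Manifold ContDiff Topology
open Set Filter
open Pool.Agent.RSG

namespace Pool.Agent.NHS

theorem lps_hom {P Q : ℝ → E3 ≃L[ℝ] E3} (h : CSG.LoopHom P Q) :
    Hm (fun l => (P l : E3 →L[ℝ] E3)) (fun l => (Q l : E3 →L[ℝ] E3)) := by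
  obtain ⟨M, hM, hper, h0, h1⟩ := h
  refine ⟨fun s l => (M l s : E3 →L[ℝ] E3), ?_, ?_, ?_, ?_, ?_⟩
  · have h2 : ContDiff ℝ ∞ fun q : (ℝ × ℝ) × E3 => (fun q : ℝ × ℝ => M q.2 q.1) q.1 q.2 :=
      hM.comp (by fun_prop : ContDiff ℝ ∞ fun q : (ℝ × ℝ) × E3 => ((q.1.2, q.1.1, q.2) : ℝ × ℝ × E3))
    have h3 : ContDiff ℝ ∞ fun q : ℝ × ℝ => ((M q.2 q.1 : E3 ≃L[ℝ] E3) : E3 →L[ℝ] E3) := by
      rw [contDiff_clm_apply_iff]
      intro z
      exact h2.comp (contDiff_id.prodMk contDiff_const)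
    exact h3
  · intro s l
    apply ContinuousLinearMap.ext
    intro z
    exact hper l s z
  · intro s l
    exact (M l s).bijective
  · funext l
    apply ContinuousLinearMap.ext
    intro z
    exact h0 l z
  · funext l
    apply ContinuousLinearMap.ext
    intro z
    exact h1 l z

/-- the explicit homotopy from `gfr` -/
theorem lps_last (k : ℤ) {Q : ℝ → E3 ≃L[ℝ] E3} (hQ : ∀ t z, Q t z = CSG.cmul (CSG.gfr k t) z) :
    ∃ Q' : ℝ → E3 ≃L[ℝ] E3, CSG.LoopHom Q Q' ∧ ∀ t z, Q' t z = CSG.cmul (ex (k * t)) z := by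
  let c : ℝ → ℝ → ℂ := fun t τ =>
    Complex.exp ((2 * Real.pi * k * ((1 - τ) * CSG.thc (t + 1 / 2) + τ * t) : ℝ) * Complex.I)
  have hof : ContDiff ℝ ∞ fun x : ℝ => (x : ℂ) := Complex.ofRealCLM.contDiff
  have hthc : ContDiff ℝ ∞ fun t : ℝ => CSG.thc (t + 1 / 2) := CSG.thc_smooth.comp (by fun_prop)
  have hc : ContDiff ℝ ∞ fun q : ℝ × ℝ => c q.1 q.2 := by
    apply ContDiff.cexp
    refine ContDiff.mul (hof.comp ?_) contDiff_const
    apply contDiff_const.mul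
    exact ((contDiff_const.sub contDiff_snd).mul (hthc.comp contDiff_fst)).add (contDiff_snd.mul contDiff_fst)
  have hcp : ∀ t τ, c (t + 1) τ = c t τ := by
    intro t τ
    simp only [c]
    have h1 : CSG.thc (t + 1 + 1 / 2) = CSG.thc (t + 1 / 2) + 1 := by
      have := CSG.thc_add_int (t + 1 / 2) 1
      push_cast at this
      rw [← this]
      congr 1
      ring
    rw [h1]
    have h2 : ((2 * Real.pi * k * ((1 - τ) * (CSG.thc (t + 1 / 2) + 1) + τ * (t + 1)) : ℝ) : ℂ) * Complex.I =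
        ((2 * Real.pi * k * ((1 - τ) * CSG.thc (t + 1 / 2) + τ * t) : ℝ) : ℂ) * Complex.I +
          k * (2 * Real.pi * Complex.I) := by
      push_cast
      ring
    rw [h2, Complex.exp_periodic.int_mul k _]
  have hc0 : ∀ t, c t 0 = CSG.gfr k t := by
    intro t
    simp only [c, CSG.gfr]
    congr 3
    ring
  have hc1 : ∀ t, c t 1 = ex (k * t) := by
    intro t
    simp only [c, ex]
    congr 3
    ring
  have hne : ∀ t τ, c t τ ≠ 0 := fun t τ => Complex.exp_ne_zero _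
  obtain ⟨M, hM⟩ := CSG.LoopD_exists c hne
  have hMs : ContDiff ℝ ∞ fun q : ℝ × ℝ × E3 => M q.1 q.2.1 q.2.2 := by
    simp only [hM]
    exact CSG.LoopC_cmul_smooth (hc.comp
      (by fun_prop : ContDiff ℝ ∞ fun q : ℝ × ℝ × E3 => ((q.1, q.2.1) : ℝ × ℝ))) contDiff_snd.snd
  refine ⟨fun t => M t 1, ⟨M, hMs, ?_, ?_, ?_⟩, ?_⟩
  · intro t τ z
    rw [hM, hM, hcp]
  · intro t z
    rw [hM, hc0, hQ]
  · intro t z
    rfl
  · intro t z
    rw [hM, hc1]

theorem lps_pos {P : ℝ → E3 ≃L[ℝ] E3} (hP : CSG.IsLoop P) (hpos : CSG.PosDet P) :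
    ∃ (k : ℤ) (M' : ℝ → E3 →L[ℝ] E3), Relation.ReflTransGen Hm (fun l => (P l : E3 →L[ℝ] E3)) M' ∧
      ∀ l y, M' l y = CSG.cmul (ex (k * l)) y := by
  obtain ⟨Q1, l1, p1, h1, c1⟩ := CSG.loopA hP hpos
  obtain ⟨Q2, l2, p2, h2, c2⟩ := CSG.loopB l1 p1 c1
  obtain ⟨Q3, l3, h3, α, a1, a2, a3, a4⟩ := CSG.loopC l2 p2 c2
  obtain ⟨k, Q4, l4, h4, c4⟩ := CSG.loopD a1 a2 a3 a4
  obtain ⟨Q5, h5, c5⟩ := lps_last k c4
  refine ⟨k, fun l => (Q5 l : E3 →L[ℝ] E3), ?_, fun l y => c5 l y⟩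
  have e1 : Relation.ReflTransGen CSG.LoopHom P Q5 :=
    (((Relation.ReflTransGen.single h1).tail h2).trans h3 |>.tail h4).tail h5
  exact Relation.ReflTransGen.lift (fun (P : ℝ → E3 ≃L[ℝ] E3) (l : ℝ) => (P l : E3 →L[ℝ] E3))
    (fun _ _ h => lps_hom h) _ _ e1

/-- the reflection -/
noncomputable def lps_sg : E3 →L[ℝ] E3 :=
  CSG.LoopC_mkpt (-(EuclideanSpace.proj 0 : E3 →L[ℝ] ℝ)) (EuclideanSpace.proj 1 : E3 →L[ℝ] ℝ)
    (EuclideanSpace.proj 2 : E3 →L[ℝ] ℝ)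

theorem lps_sg_apply (z : E3) : lps_sg z = flp (-1) z := by
  unfold lps_sg flp
  rw [CSG.LoopC_mkpt_apply]
  simp

theorem lps_sg_sg (z : E3) : lps_sg (lps_sg z) = z := by
  rw [lps_sg_apply, lps_sg_apply]
  unfold flp
  ext i
  fin_cases i <;> simp [CSG.pt]

theorem lps_sg_bij : Function.Bijective lps_sg :=
  ⟨fun x y h => by rw [← lps_sg_sg x, h, lps_sg_sg], fun y => ⟨lps_sg y, lps_sg_sg y⟩⟩

theorem lps_sg_det : LinearMap.det (lps_sg : E3 →ₗ[ℝ] E3) = -1 := by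
  have hb : ∀ j : Fin 3, (EuclideanSpace.basisFun (Fin 3) ℝ).toBasis j =
      ![CSG.pt 1 0 0, CSG.pt 0 1 0, CSG.pt 0 0 1] j := by
    intro j
    rw [OrthonormalBasis.coe_toBasis, EuclideanSpace.basisFun_apply]
    ext i
    fin_cases j <;> fin_cases i <;> simp [CSG.pt]
  rw [← LinearMap.det_toMatrix (EuclideanSpace.basisFun (Fin 3) ℝ).toBasis, Matrix.det_fin_three]
  simp only [LinearMap.toMatrix_apply, hb]
  have hr : ∀ (x : E3) (i : Fin 3),
      ((EuclideanSpace.basisFun (Fin 3) ℝ).toBasis.repr x) i = x i := by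
    intro x i
    simp
  simp only [hr, ContinuousLinearMap.coe_coe, lps_sg_apply, flp]
  simp

theorem lps_comp {M M' : ℝ → E3 →L[ℝ] E3} (h : Hm M M') :
    Hm (fun l => (M l).comp lps_sg) (fun l => (M' l).comp lps_sg) := by
  obtain ⟨H, hH, hper, hbij, h0, h1⟩ := h
  refine ⟨fun s l => (H s l).comp lps_sg, ?_, ?_, ?_, ?_, ?_⟩
  · exact hH.clm_comp contDiff_const
  · intro s l
    show (H s (l + 1)).comp lps_sg = (H s l).comp lps_sg
    rw [hper]
  · intro s l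
    exact (hbij s l).comp lps_sg_bij
  · funext l
    show (H 0 l).comp lps_sg = (M l).comp lps_sg
    rw [h0]
  · funext l
    show (H 1 l).comp lps_sg = (M' l).comp lps_sg
    rw [h1]

/-- the loop of equivalences -/
theorem lps_equiv {M : ℝ → E3 →L[ℝ] E3} (hM : ContDiff ℝ ∞ M) (hper : ∀ l, M (l + 1) = M l)
    (hbij : ∀ l, Function.Bijective (M l)) (hdet : ∀ l, 0 < (M l).det) :
    ∃ P : ℝ → E3 ≃L[ℝ] E3, CSG.IsLoop P ∧ CSG.PosDet P ∧ (fun l => (P l : E3 →L[ℝ] E3)) = M := by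
  let P : ℝ → E3 ≃L[ℝ] E3 := fun l =>
    (LinearEquiv.ofBijective (M l : E3 →ₗ[ℝ] E3) (hbij l)).toContinuousLinearEquiv
  have hP : ∀ l z, P l z = M l z := fun l z => rfl
  refine ⟨P, ⟨?_, ?_⟩, ?_, ?_⟩
  · have h1 : (fun q : ℝ × E3 => P q.1 q.2) = fun q : ℝ × E3 => M q.1 q.2 := rfl
    rw [h1]
    exact (hM.comp contDiff_fst).clm_apply contDiff_snd
  · intro t z
    rw [hP, hP, hper]
  · intro t
    have h1 : ((P t).toLinearEquiv : E3 →ₗ[ℝ] E3) = (M t : E3 →ₗ[ℝ] E3) := by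
      ext z
      rfl
    rw [h1]
    exact hdet t
  · funext l
    apply ContinuousLinearMap.ext
    intro z
    exact hP l z

theorem lps_sign {M : ℝ → E3 →L[ℝ] E3} (hM : ContDiff ℝ ∞ M) (hbij : ∀ l, Function.Bijective (M l)) :
    (∀ l, 0 < (M l).det) ∨ ∀ l, (M l).det < 0 := by
  have hc : Continuous fun l : ℝ => (M l).det := ContinuousLinearMap.continuous_det.comp hM.continuous
  have hne : ∀ l, (M l).det ≠ 0 := by
    intro l
    have h1 := (LinearEquiv.ofBijective (M l : E3 →ₗ[ℝ] E3) (hbij l)).isUnit_det'.ne_zero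
    have h2 : ((LinearEquiv.ofBijective (M l : E3 →ₗ[ℝ] E3) (hbij l) : E3 ≃ₗ[ℝ] E3) : E3 →ₗ[ℝ] E3) =
        (M l : E3 →ₗ[ℝ] E3) := by
      ext z
      rfl
    rw [h2] at h1
    exact h1
  by_contra hcon
  push Not at hcon
  obtain ⟨⟨a, ha⟩, b, hb⟩ := hcon
  have hmem : (0 : ℝ) ∈ Set.range fun l : ℝ => (M l).det :=
    mem_range_of_exists_le_of_exists_ge hc ⟨a, ha⟩ ⟨b, hb⟩
  obtain ⟨l, hl⟩ := hmem
  exact hne l hl

theorem loop_nf {M : ℝ → E3 →L[ℝ] E3} (hM : ContDiff ℝ ∞ M) (hper : ∀ l, M (l + 1) = M l)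
    (hbij : ∀ l, Function.Bijective (M l)) :
    ∃ (k : ℤ) (ε : ℝ) (M' : ℝ → E3 →L[ℝ] E3), (ε = 1 ∨ ε = -1) ∧ Relation.ReflTransGen Hm M M' ∧
      ∀ l y, M' l y = CSG.cmul (ex (k * l)) (flp ε y) := by
  rcases lps_sign hM hbij with hd | hd
  · obtain ⟨P, hP, hpos, hPM⟩ := lps_equiv hM hper hbij hd
    obtain ⟨k, M', h1, h2⟩ := lps_pos hP hpos
    rw [hPM] at h1
    refine ⟨k, 1, M', Or.inl rfl, h1, ?_⟩
    intro l y
    have h3 : flp 1 y = y := by
      unfold flp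
      rw [one_mul, CSG.pt_eta]
    rw [h2, h3]
  · have hM1 : ContDiff ℝ ∞ fun l => (M l).comp lps_sg := hM.clm_comp contDiff_const
    obtain ⟨P, hP, hpos, hPM⟩ := lps_equiv (M := fun l => (M l).comp lps_sg) hM1
      (fun l => by rw [hper]) (fun l => (hbij l).comp lps_sg_bij) (fun l => by
        have h1 : ((M l).comp lps_sg).det = (M l).det * LinearMap.det (lps_sg : E3 →ₗ[ℝ] E3) :=
          LinearMap.det_comp (M l : E3 →ₗ[ℝ] E3) (lps_sg : E3 →ₗ[ℝ] E3)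
        rw [h1, lps_sg_det]
        have := hd l
        linarith)
    obtain ⟨k, M', h1, h2⟩ := lps_pos hP hpos
    rw [hPM] at h1
    have h3 : Relation.ReflTransGen Hm (fun l => ((M l).comp lps_sg).comp lps_sg)
        (fun l => (M' l).comp lps_sg) :=
      Relation.ReflTransGen.lift (fun (M : ℝ → E3 →L[ℝ] E3) (l : ℝ) => (M l).comp lps_sg)
      (fun _ _ h => lps_comp h) _ _ h1
    have h4 : (fun l => ((M l).comp lps_sg).comp lps_sg) = M := by
      funext l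
      apply ContinuousLinearMap.ext
      intro z
      show M l (lps_sg (lps_sg z)) = M l z
      rw [lps_sg_sg]
    rw [h4] at h3
    refine ⟨k, -1, fun l => (M' l).comp lps_sg, Or.inr rfl, h3, ?_⟩
    intro l y
    show M' l (lps_sg y) = _
    rw [h2, lps_sg_apply]

end Pool.Agent.NHS
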