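import Pool.Agent.NHS.Defs
import Pool.Agent.ACB.GluC
import Pool.Agent.ACB.CmT
import Pool.Agent.RBN.Cir

/-!
# NHS/Prd: the 4-manifold `N × S¹` with charts in `E4`   (difficulty 3)

PROOF.  `P = N × Circle` (or `N × AddCircle (1 : ℝ)`), `π (x, t) = (x, ex t)` (see `RBN/Cir.lean`: `circ`).  Charts: for a chart `e` of the atlas of `N` and `t₀ ∈ ℝ` the inverse of
`e.source × (t₀ - 1/2, t₀ + 1/2) → P`, `(x, t) ↦ π (x, t)`, followed by `e × id` and by the linear isomorphism `E3 × ℝ ≃ E4`.  `ACB/GluC.lean` (`mfd_of_family`) gives the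
manifold structure from a family of charts with smooth transition maps.  Or: take the product charts of `N × Circle` (model `E3 × EuclideanSpace ℝ (Fin 1)`) and compose all of
them with a linear homeomorphism to `E4`.  The transition maps are `(e' ∘ e.symm) × translation by an integer (locally)`.
-/

open scoped Manifold ContDiff Topology
open Set Filter
open Pool.Agent.RSG

namespace Pool.Agent.NHS

/-- `π : N × ℝ → P` is the covering `N × ℝ → N × S¹ = P` -/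
structure Prod4 {N : Type*} [TopologicalSpace N] [ChartedSpace E3 N] {P : Type*} [TopologicalSpace P] [ChartedSpace E4 P]
    (π : N × ℝ → P) : Prop where
  per : ∀ x t, π (x, t + 1) = π (x, t)
  loc : ∀ x t, IsLocalDiffeomorphAt ((𝓡 3).prod 𝓘(ℝ, ℝ)) (𝓡 4) ∞ π (x, t)
  inj : ∀ x t x' t', π (x, t) = π (x', t') → x = x' ∧ ∃ m : ℤ, t' = t + m
  surj : Function.Surjective π

/-- the model space of the product -/
theorem prd_lin : Nonempty ((E3 × EuclideanSpace ℝ (Fin 1)) ≃L[ℝ] E4) := by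
  refine ⟨ContinuousLinearEquiv.ofFinrankEq ?_⟩
  rw [Module.finrank_prod, finrank_euclideanSpace_fin, finrank_euclideanSpace_fin, finrank_euclideanSpace_fin]

theorem prd_mfd {V : Type} [TopologicalSpace V] [ChartedSpace (ModelProd E3 (EuclideanSpace ℝ (Fin 1))) V]
    [IsManifold ((𝓡 3).prod (𝓡 1)) ∞ V] :
    ∃ (_ : ChartedSpace E4 V), IsManifold (𝓡 4) ∞ V ∧ ∀ v : V, IsLocalDiffeomorphAt ((𝓡 3).prod (𝓡 1)) (𝓡 4) ∞ (fun x : V => x) v := by
  obtain ⟨L⟩ := prd_lin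
  let LH : ModelProd E3 (EuclideanSpace ℝ (Fin 1)) ≃ₜ E4 := L.toHomeomorph
  let 𝓕 : Set (OpenPartialHomeomorph V E4) := (fun e => e.trans LH.toOpenPartialHomeomorph) '' (atlas (ModelProd E3 (EuclideanSpace ℝ (Fin 1))) V)
  have hL : IsLocalDiffeomorph ((𝓡 3).prod (𝓡 1)) (𝓡 4) ∞ (L : E3 × EuclideanSpace ℝ (Fin 1) → E4) := by
    intro x
    have h1 : ContMDiff 𝓘(ℝ, E3 × EuclideanSpace ℝ (Fin 1)) (𝓡 4) ∞ L := L.contDiff.contMDiff
    have h2 : ContMDiff (𝓡 4) 𝓘(ℝ, E3 × EuclideanSpace ℝ (Fin 1)) ∞ L.symm := L.symm.contDiff.contMDiff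
    rw [modelWithCornersSelf_prod, ← chartedSpaceSelf_prod] at h1 h2
    exact (Diffeomorph.isLocalDiffeomorph (I := (𝓡 3).prod (𝓡 1)) (J := 𝓡 4) (n := ∞) ⟨L.toEquiv, h1, h2⟩) x
  have hLM : ∀ x : ModelProd E3 (EuclideanSpace ℝ (Fin 1)), IsLocalDiffeomorphAt ((𝓡 3).prod (𝓡 1)) (𝓡 4) ∞ LH x := by
    intro x
    have h1 := hL x
    rw [chartedSpaceSelf_prod] at h1
    exact h1
  obtain ⟨cs, hM, hF⟩ := Pool.Agent.ACB.mfd_of_family 𝓕 (by
    intro v
    refine ⟨_, ⟨chartAt (ModelProd E3 (EuclideanSpace ℝ (Fin 1))) v, chart_mem_atlas _ v, rfl⟩, ?_⟩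
    rw [OpenPartialHomeomorph.trans_source]
    exact ⟨mem_chart_source _ v, trivial⟩) (by
    rintro _ ⟨e, he, rfl⟩ _ ⟨e', he', rfl⟩
    have h1 := (contDiffGroupoid ∞ ((𝓡 3).prod (𝓡 1))).compatible he he'
    let T : E3 × EuclideanSpace ℝ (Fin 1) → E3 × EuclideanSpace ℝ (Fin 1) := fun q => (e.symm.trans e') q
    let S : Set (E3 × EuclideanSpace ℝ (Fin 1)) := (e.symm.trans e').source
    have h2 : ContDiffOn ℝ ∞ T S := by
      have h3 := (mem_groupoid_of_pregroupoid (PG := contDiffPregroupoid ∞ ((𝓡 3).prod (𝓡 1)))).1 h1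
      have h4 := h3.1
      have h5 : ((𝓡 3).prod (𝓡 1)).symm ⁻¹' (e.symm.trans e').source ∩ range ((𝓡 3).prod (𝓡 1)) = (e.symm.trans e').source := by
        rw [((𝓡 3).prod (𝓡 1)).range_eq_univ, inter_univ]
        rfl
      have h6 : ContDiffOn ℝ ∞ (((𝓡 3).prod (𝓡 1)) ∘ (e.symm.trans e') ∘ ((𝓡 3).prod (𝓡 1)).symm)
        (((𝓡 3).prod (𝓡 1)).symm ⁻¹' (e.symm.trans e').source ∩ range ((𝓡 3).prod (𝓡 1))) := h4
      rw [h5] at h6
      exact h6
    have h6 : ContDiffOn ℝ ∞ (fun y : E4 => L (T (L.symm y))) (L.symm ⁻¹' S) :=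
      L.contDiff.comp_contDiffOn (h2.comp L.symm.contDiff.contDiffOn (fun y hy => hy))
    refine (h6.mono ?_).congr ?_
    · intro y hy
      have h7 : y ∈ ((e.trans LH.toOpenPartialHomeomorph).symm.trans (e'.trans LH.toOpenPartialHomeomorph)).source := hy
      rw [OpenPartialHomeomorph.trans_source, OpenPartialHomeomorph.symm_source, OpenPartialHomeomorph.trans_target] at h7
      obtain ⟨⟨-, h8⟩, h9⟩ := h7
      have h10 := h9.1
      change L.symm y ∈ (e.symm.trans e').source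
      rw [OpenPartialHomeomorph.trans_source]
      exact ⟨h8, h10⟩
    · intro y hy
      rfl)
  refine ⟨cs, hM, fun v => ?_⟩
  let e := chartAt (ModelProd E3 (EuclideanSpace ℝ (Fin 1))) v
  have hmax : e ∈ IsManifold.maximalAtlas ((𝓡 3).prod (𝓡 1)) ∞ V := IsManifold.subset_maximalAtlas (chart_mem_atlas _ v)
  have hv : v ∈ e.source := mem_chart_source _ v
  have h1 : IsLocalDiffeomorphAt ((𝓡 3).prod (𝓡 1)) ((𝓡 3).prod (𝓡 1)) ∞ e v :=
    ⟨{ toPartialEquiv := e.toPartialEquiv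
       open_source := e.open_source
       open_target := e.open_target
       contMDiffOn_toFun := contMDiffOn_of_mem_maximalAtlas hmax
       contMDiffOn_invFun := contMDiffOn_symm_of_mem_maximalAtlas hmax }, hv, fun _ _ => rfl⟩
  have h2 : IsLocalDiffeomorphAt ((𝓡 3).prod (𝓡 1)) (𝓡 4) ∞ (fun x => LH (e x)) v :=
    IsLocalDiffeomorphAt.comp (hf := h1) (hg := hLM (e v)) ..
  have h3 : IsLocalDiffeomorphAt (𝓡 4) (𝓡 4) ∞ (e.trans LH.toOpenPartialHomeomorph) v := by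
    refine hF _ ⟨e, chart_mem_atlas _ v, rfl⟩ v ?_
    rw [OpenPartialHomeomorph.trans_source]
    exact ⟨hv, trivial⟩
  have h4 := h3.localInverse_isLocalDiffeomorphAt
  have h5 : IsLocalDiffeomorphAt ((𝓡 3).prod (𝓡 1)) (𝓡 4) ∞ (h3.localInverse ∘ fun x => LH (e x)) v :=
    IsLocalDiffeomorphAt.comp (hf := h2) (hg := h4) ..
  refine Pool.Agent.ACB.cmt_congr h5 ?_
  exact h3.localInverse_eventuallyEq_left

theorem exists_prod (N : Type) [TopologicalSpace N] [ChartedSpace E3 N] [T2Space N] [IsManifold (𝓡 3) ∞ N] :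
    ∃ (P : Type) (_ : TopologicalSpace P) (_ : ChartedSpace E4 P) (_ : IsManifold (𝓡 4) ∞ P) (_ : T2Space P) (π : N × ℝ → P),
      Prod4 π := by
  obtain ⟨cs, hM, hid⟩ := prd_mfd (V := N × Circle)
  refine ⟨N × Circle, inferInstance, cs, hM, inferInstance, fun q => (q.1, Pool.Agent.RBN.circ q.2), ?_, ?_, ?_, ?_⟩
  · intro x t
    exact Prod.ext rfl (Pool.Agent.RBN.circ_per t)
  · intro x t
    have h1 : IsLocalDiffeomorphAt ((𝓡 3).prod 𝓘(ℝ, ℝ)) ((𝓡 3).prod (𝓡 1)) ∞ (Prod.map (fun x : N => x) Pool.Agent.RBN.circ) (x, t) :=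
      RSG.ld_prodMap ((Diffeomorph.refl (𝓡 3) N ∞).isLocalDiffeomorph x) (Pool.Agent.RBN.circ_ld t)
    exact IsLocalDiffeomorphAt.comp (hf := h1) (hg := hid _) ..
  · intro x t x' t' he
    have h1 := congrArg Prod.fst he
    have h2 := congrArg Prod.snd he
    exact ⟨h1, Pool.Agent.RBN.circ_eq.1 h2.symm⟩
  · rintro ⟨x, z⟩
    obtain ⟨t, ht⟩ := Pool.Agent.RBN.circ_surj z
    exact ⟨(x, t), Prod.ext rfl ht⟩

end Pool.Agent.NHS
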