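import Pool.Agent.NHS.CDf
import Pool.Agent.ACB.ExT
import Pool.Agent.CSG.FunBasic

/-!
# NHS/Shk: shrinking a tube by a diffeomorphism   (difficulty 3)

PROOF.  `ρ' = (ρ₂ + ρ₃) / 2`, `μ : ℝ → ℝ` smooth nondecreasing, `μ a = c` for `a ≤ ρ₂²`, `μ a = 1` for `a ≥ ρ'²` (`μ = c + (1 - c) * Real.smoothTransition ((a - ρ₂²) / (ρ'² - ρ₂²))`, or `CSG.stp`).
`f (l, v) = (l, μ (‖v‖²) • v)`: a bijection of `ℝ × E3` (on each ray `r ↦ μ (r²) r` is continuous and strictly increasing from `0` to `∞`), a local diffeomorphism (derivative of `v ↦ μ (‖v‖²) v` in the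
direction `w`: `μ w + 2 μ' ⟪v, w⟫ v`, injective because `μ > 0`, `μ' ≥ 0`: pair with `w`; `CSG.ld_of_fderiv`), so `f.symm` is smooth.  `ISO.Move Lam1 {‖x.2‖ < ρ₃} f`: `f (x + m) = f x + m` for `m ∈ Lam1`, support
`C = Icc 0 1 ×ˢ closedBall 0 ρ'` (see `ISO/Defs.lean` for the fields of `Move`).  `ACB.ext_tube`.
-/

open scoped Manifold ContDiff Topology
open Set Filter
open Pool.Agent.RSG

namespace Pool.Agent.NHS

theorem shk_fderiv_inj {F : Type*} [NormedAddCommGroup F] [NormedSpace ℝ F] {f : F → F}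
    {x : F} (hf : DifferentiableAt ℝ f x) {c : ℝ} (hc : 0 < c)
    (h : ∀ᶠ y in 𝓝 x, c * ‖y - x‖ ≤ ‖f y - f x‖) (v : F) (hv : fderiv ℝ f x v = 0) : v = 0 := by
  have h1 : HasLineDerivAt ℝ f (fderiv ℝ f x v) x v := hf.hasFDerivAt.hasLineDerivAt v
  have h2 := h1.tendsto_slope_zero
  rw [hv] at h2
  have h3 : Tendsto (fun s : ℝ => x + s • v) (𝓝[≠] 0) (𝓝 x) := by
    have : Tendsto (fun s : ℝ => x + s • v) (𝓝 0) (𝓝 (x + (0 : ℝ) • v)) := by
      apply Continuous.tendsto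
      fun_prop
    simp only [zero_smul, add_zero] at this
    exact this.mono_left nhdsWithin_le_nhds
  have h4 : ∀ᶠ s : ℝ in 𝓝[≠] 0, c * ‖v‖ ≤ ‖s⁻¹ • (f (x + s • v) - f x)‖ := by
    filter_upwards [h3.eventually h, self_mem_nhdsWithin] with s hs hs0
    have hs0' : s ≠ 0 := hs0
    have hpos : 0 < |s| := abs_pos.2 hs0'
    rw [norm_smul, norm_inv, Real.norm_eq_abs]
    have e1 : ‖x + s • v - x‖ = |s| * ‖v‖ := by
      rw [add_sub_cancel_left, norm_smul, Real.norm_eq_abs]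
    rw [e1] at hs
    rw [← div_eq_inv_mul, le_div_iff₀ hpos]
    nlinarith
  have h5 : c * ‖v‖ ≤ ‖(0 : F)‖ := by
    refine ge_of_tendsto (h2.norm) h4
  rw [norm_zero] at h5
  have : ‖v‖ ≤ 0 := by
    by_contra hcon
    push Not at hcon
    nlinarith
  exact norm_le_zero_iff.1 this

/-- the radial factor -/
noncomputable def shk_mu (c a b x : ℝ) : ℝ := c + (1 - c) * CSG.stp a b x

/-- the radial map -/
noncomputable def shk_f (c a b : ℝ) (v : E3) : E3 := shk_mu c a b (‖v‖ ^ 2) • v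

theorem shk_f_smooth (c a b : ℝ) : ContDiff ℝ ∞ (shk_f c a b) := by
  have h1 : ContDiff ℝ ∞ (fun v : E3 => ‖v‖ ^ 2) := contDiff_norm_sq ℝ
  have h2 : ContDiff ℝ ∞ (fun v : E3 => shk_mu c a b (‖v‖ ^ 2)) :=
    contDiff_const.add (contDiff_const.mul ((CSG.stp_smooth a b).comp h1))
  exact h2.smul contDiff_id

theorem shk_low {c a b : ℝ} (hc' : c ≤ 1) (hab : a < b) (v w : E3) :
    c * ‖w - v‖ ≤ ‖shk_f c a b w - shk_f c a b v‖ := by
  have key : ∀ p q : ℝ, ∀ v w : E3, 0 ≤ q → q ≤ p → ‖w‖ ≤ ‖v‖ → 0 ≤ inner ℝ (q • w - p • v) (w - v) := by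
    intro p q v w hq hpq hn
    have e : inner ℝ (q • w - p • v) (w - v) = q * ‖w‖ ^ 2 + p * ‖v‖ ^ 2 - (p + q) * inner ℝ w v := by
      rw [inner_sub_left, inner_sub_right, inner_sub_right, inner_smul_left, inner_smul_left, inner_smul_left,
        inner_smul_left, real_inner_self_eq_norm_sq, real_inner_self_eq_norm_sq, real_inner_comm w v]
      simp only [conj_trivial]
      ring
    rw [e]
    have h1 : inner ℝ w v ≤ ‖w‖ * ‖v‖ := real_inner_le_norm w v
    have h2 : 0 ≤ (p * ‖v‖ - q * ‖w‖) * (‖v‖ - ‖w‖) := by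
      apply mul_nonneg
      · nlinarith [norm_nonneg v, norm_nonneg w]
      · linarith
    nlinarith [norm_nonneg v, norm_nonneg w]
  have hm := CSG.stp_mono (a := a) (b := b) hab
  have hin : c * ‖w - v‖ ^ 2 ≤ inner ℝ (shk_f c a b w - shk_f c a b v) (w - v) := by
    have e : shk_f c a b w - shk_f c a b v = c • (w - v) +
        (((1 - c) * CSG.stp a b (‖w‖ ^ 2)) • w - ((1 - c) * CSG.stp a b (‖v‖ ^ 2)) • v) := by
      unfold shk_f shk_mu
      rw [add_smul, add_smul, smul_sub]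
      abel
    rw [e, inner_add_left, inner_smul_left, real_inner_self_eq_norm_sq]
    simp only [conj_trivial]
    have h0 : 0 ≤ inner ℝ (((1 - c) * CSG.stp a b (‖w‖ ^ 2)) • w - ((1 - c) * CSG.stp a b (‖v‖ ^ 2)) • v) (w - v) := by
      have hc1 : 0 ≤ 1 - c := by linarith
      rcases le_total ‖w‖ ‖v‖ with hn | hn
      · refine key _ _ v w (mul_nonneg hc1 (CSG.stp_nonneg _ _ _)) ?_ hn
        exact mul_le_mul_of_nonneg_left (hm (by gcongr)) hc1
      · have h3 := key _ _ w v (mul_nonneg hc1 (CSG.stp_nonneg a b (‖v‖ ^ 2)))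
          (mul_le_mul_of_nonneg_left (hm (show ‖v‖ ^ 2 ≤ ‖w‖ ^ 2 by gcongr)) hc1) hn
        rw [← neg_sub w v, ← neg_sub (((1 - c) * CSG.stp a b (‖w‖ ^ 2)) • w), inner_neg_neg] at h3
        exact h3
    linarith
  by_cases hz : ‖w - v‖ = 0
  · rw [hz, mul_zero]
    exact norm_nonneg _
  · have hp : 0 < ‖w - v‖ := lt_of_le_of_ne (norm_nonneg _) (Ne.symm hz)
    have h1 := real_inner_le_norm (shk_f c a b w - shk_f c a b v) (w - v)
    have h2 : (c * ‖w - v‖) * ‖w - v‖ ≤ ‖shk_f c a b w - shk_f c a b v‖ * ‖w - v‖ := by nlinarith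
    exact le_of_mul_le_mul_right h2 hp

theorem shk_bij {c a b : ℝ} (hc : 0 < c) (hc' : c ≤ 1) (hab : a < b) : Function.Bijective (shk_f c a b) := by
  constructor
  · intro v w h
    have h1 := shk_low (c := c) (a := a) (b := b) hc' hab v w
    rw [h, sub_self, norm_zero] at h1
    have h2 : ‖w - v‖ = 0 := by
      have := norm_nonneg (w - v)
      nlinarith
    exact (sub_eq_zero.1 (norm_eq_zero.1 h2)).symm
  · intro w
    by_cases hw : w = 0
    · refine ⟨0, ?_⟩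
      unfold shk_f
      rw [smul_zero, hw]
    · have hn : 0 < ‖w‖ := norm_pos_iff.2 hw
      have hcont : Continuous fun r : ℝ => shk_mu c a b (r ^ 2) * r := by
        unfold shk_mu
        exact (continuous_const.add (continuous_const.mul
          ((CSG.stp_smooth a b).continuous.comp (continuous_pow 2)))).mul continuous_id
      set R : ℝ := 1 + |b| + ‖w‖ with hR
      have hR1 : 1 ≤ R := by
        rw [hR]
        linarith [abs_nonneg b]
      have hRb : b ≤ R ^ 2 := by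
        have h3 : b ≤ R := by
          rw [hR]
          linarith [le_abs_self b]
        nlinarith
      have hgR : shk_mu c a b (R ^ 2) * R = R := by
        unfold shk_mu
        rw [CSG.stp_one hab hRb]
        ring
      have h1 : ‖w‖ ∈ Icc (shk_mu c a b ((0 : ℝ) ^ 2) * 0) (shk_mu c a b (R ^ 2) * R) := by
        rw [hgR, mul_zero]
        refine ⟨hn.le, ?_⟩
        rw [hR]
        linarith [abs_nonneg b]
      obtain ⟨r, hr, hre⟩ := intermediate_value_Icc (by linarith : (0 : ℝ) ≤ R) hcont.continuousOn h1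
      have hre' : shk_mu c a b (r ^ 2) * r = ‖w‖ := hre
      refine ⟨(r / ‖w‖) • w, ?_⟩
      have h2 : ‖(r / ‖w‖) • w‖ = r := by
        rw [norm_smul, Real.norm_of_nonneg (div_nonneg hr.1 hn.le)]
        field_simp
      unfold shk_f
      rw [h2, smul_smul, ← mul_div_assoc, hre', div_self hn.ne', one_smul]

theorem shk_inv_smooth {c a b : ℝ} (hc : 0 < c) (hc' : c ≤ 1) (hab : a < b) :
    ContDiff ℝ ∞ (Equiv.ofBijective _ (shk_bij hc hc' hab)).symm := by
  have hl : ∀ v : E3, IsLocalDiffeomorphAt 𝓘(ℝ, E3) 𝓘(ℝ, E3) ∞ (shk_f c a b) v := by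
    intro v
    refine CSG.ld_of_fderiv (Eventually.of_forall fun y => (shk_f_smooth c a b).contDiffAt) rfl ?_
    intro u hu
    refine shk_fderiv_inj (f := shk_f c a b) (x := v) ((shk_f_smooth c a b).differentiable (by simp) v) hc ?_ u hu
    exact Eventually.of_forall fun y => shk_low hc' hab v y
  set Φ := IsLocalDiffeomorph.diffeomorphOfBijective (f := shk_f c a b) (fun v => hl v) (shk_bij hc hc' hab) with hΦ
  have h1 : ∀ v, Φ v = shk_f c a b v := fun v => rfl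
  have h2 : ((Equiv.ofBijective _ (shk_bij hc hc' hab)).symm : E3 → E3) = Φ.symm := by
    funext w
    apply (shk_bij hc hc' hab).1
    rw [← h1 (Φ.symm w), Φ.apply_symm_apply]
    exact Equiv.ofBijective_apply_symm_apply _ _ _
  rw [h2]
  exact Φ.symm.contMDiff_toFun.contDiff

theorem shrink {P : Type} [TopologicalSpace P] [ChartedSpace E4 P] [T2Space P] [IsManifold (𝓡 4) ∞ P] {Γ : ℝ × E3 → P}
    {ρ₃ ρ₂ c : ℝ} (h : ACB.Thick Γ ρ₃) (h0 : 0 < ρ₂) (h1 : ρ₂ < ρ₃) (hc : 0 < c) (hc' : c ≤ 1) :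
    ∃ D : P ≃ₘ⟮𝓡 4, 𝓡 4⟯ P, ∀ (l : ℝ) (v : E3), ‖v‖ ≤ ρ₂ → D (Γ (l, v)) = Γ (l, c • v) := by
  obtain ⟨ρ, hρ2, hρ3⟩ := exists_between h1
  have hab : ρ₂ ^ 2 < ρ ^ 2 := by nlinarith
  let F : Equiv.Perm (ℝ × E3) := Equiv.prodCongr (Equiv.refl ℝ) (Equiv.ofBijective _ (shk_bij hc hc' hab))
  have hF : ∀ x : ℝ × E3, F x = (x.1, shk_f c (ρ₂ ^ 2) (ρ ^ 2) x.2) := fun x => rfl
  have hM : ISO.Move ACB.Lam1 {x : ℝ × E3 | ‖x.2‖ < ρ₃} F := by
    refine ⟨?_, ?_, ?_, ?_⟩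
    · exact contDiff_fst.prodMk ((shk_f_smooth c (ρ₂ ^ 2) (ρ ^ 2)).comp contDiff_snd)
    · exact contDiff_fst.prodMk ((shk_inv_smooth hc hc' hab).comp contDiff_snd)
    · intro m hm x
      obtain ⟨k, rfl⟩ := ACB.exT_mem hm
      rw [hF, hF]
      refine Prod.ext rfl ?_
      change shk_f c (ρ₂ ^ 2) (ρ ^ 2) (x.2 + 0) = shk_f c (ρ₂ ^ 2) (ρ ^ 2) x.2 + 0
      rw [add_zero, add_zero]
    · refine ⟨Icc 0 1 ×ˢ Metric.closedBall 0 ρ, isCompact_Icc.prod (isCompact_closedBall _ _), ?_, ?_⟩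
      · rintro x ⟨_, hx⟩
        rw [mem_closedBall_zero_iff] at hx
        exact lt_of_le_of_lt hx hρ3
      · intro x hx
        have h2 : ρ < ‖x.2‖ := by
          by_contra hcon
          refine hx (((-⌊x.1⌋ : ℤ) : ℝ), 0) (ACB.exT_mem' _) ⟨?_, ?_⟩
          · change x.1 + ((-⌊x.1⌋ : ℤ) : ℝ) ∈ Icc (0 : ℝ) 1
            push_cast
            rw [← sub_eq_add_neg]
            exact ⟨Int.fract_nonneg x.1, (Int.fract_lt_one x.1).le⟩
          · change x.2 + 0 ∈ Metric.closedBall (0 : E3) ρ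
            rw [add_zero, mem_closedBall_zero_iff]
            exact not_lt.1 hcon
        rw [hF]
        refine Prod.ext rfl ?_
        change shk_f c (ρ₂ ^ 2) (ρ ^ 2) x.2 = x.2
        unfold shk_f shk_mu
        rw [CSG.stp_one hab (by nlinarith), mul_one, add_sub_cancel, one_smul]
  obtain ⟨D, hD, _⟩ := ACB.ext_tube h hM
  refine ⟨D, fun l v hv => ?_⟩
  rw [hD (l, v) (lt_of_le_of_lt hv h1), hF]
  change Γ (l, shk_f c (ρ₂ ^ 2) (ρ ^ 2) v) = Γ (l, c • v)
  unfold shk_f shk_mu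
  rw [CSG.stp_zero hab (by gcongr), mul_zero, add_zero]

end Pool.Agent.NHS
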