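import Pool.Agent.NHS.Lps
import Pool.Agent.NHS.Shk
import Pool.Agent.ACB.Gpo
import Pool.Agent.ACB.NFd

/-!
# NHS/Tmt: tubes of homotopic circles in a 4-manifold   (difficulty 3)

PROOF.  (1) `ACB.gp_iso` (`Z = ∅`; `ACB.Thick.circ`): a diffeomorphism `F₁` with `F₁ (core Γ' t) = core Γ t`.  (2) `F₁ ∘ Γ'` is thick with the core of `Γ` (`Thick` of a composition with a diffeomorphism);
`ACB.NFd_lin` (`U = univ`): `M`, `F₂`, `F₂ (F₁ (Γ' (l, v))) = Γ (l, M l v)` for `‖v‖ < δ`.  (3) `loop_nf`: a chain of `Hm` from `M` to `M' l y = cmul (ex (k l)) (flp ε y)`; `ACB.NFd_fr` for each step of the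
chain (induction over `ReflTransGen`; the norm of `H s l` is bounded, `ACB.frh_bound`, so small `v` stay in the range where the previous statement holds; statement for the
induction: for `Relation.ReflTransGen Hm M M'` there are `F` and `δ > 0` with `F (Γ (l, M l v)) = Γ (l, M' l v)` for `‖v‖ < δ`): `F₃`.  So `F₀ (Γ' (l, v)) = Γ (l, L l v)`, `L l v = cmul (ex (k l)) (flp ε v)`, for
`‖v‖ < δ₀`, `‖L l v‖ = ‖v‖`, `L l (c • v) = c • L l v`.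
(4) `c = min 1 (δ₀ / (2 ρ₂))`, `D, D'` from `shrink` for `Γ`, `Γ'`: `F = D⁻¹ ∘ F₀ ∘ D'`: for `‖v‖ < ρ₂`: `D' (Γ' (l, v)) = Γ' (l, c v)`, `F₀ (..) = Γ (l, c L l v) = D (Γ (l, L l v))`.
-/

open scoped Manifold ContDiff Topology
open Set Filter
open Pool.Agent.RSG

namespace Pool.Agent.NHS

theorem tmt_thick {P : Type} [TopologicalSpace P] [ChartedSpace E4 P] {Γ : ℝ × E3 → P} {ρ : ℝ} (h : ACB.Thick Γ ρ)
    (F : P ≃ₘ⟮𝓡 4, 𝓡 4⟯ P) : ACB.Thick (fun q => F (Γ q)) ρ := by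
  refine ⟨h.pos, fun l v hv => congrArg F (h.per l v hv), ?_, ?_⟩
  · intro l v hv
    exact IsLocalDiffeomorphAt.comp (hf := h.loc l v hv) (g := F) (hg := F.isLocalDiffeomorph (Γ (l, v))) ..
  · intro l v l' v' hv hv' e
    exact h.inj l v l' v' hv hv' (F.injective e)

theorem tmt_chain {P : Type} [TopologicalSpace P] [ChartedSpace E4 P] [T2Space P] [IsManifold (𝓡 4) ∞ P]
    {Γ : ℝ × E3 → P} {ρ : ℝ} (h : ACB.Thick Γ ρ) {M M' : ℝ → E3 →L[ℝ] E3} (hc : Relation.ReflTransGen Hm M M') :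
    ∃ F : P ≃ₘ⟮𝓡 4, 𝓡 4⟯ P, ∃ δ > 0, ∀ (l : ℝ) (v : E3), ‖v‖ < δ → F (Γ (l, M l v)) = Γ (l, M' l v) := by
  induction hc with
  | refl => exact ⟨Diffeomorph.refl _ _ _, 1, one_pos, fun _ _ _ => rfl⟩
  | tail _ hstep ih =>
    obtain ⟨F₁, δ₁, hδ₁, h1⟩ := ih
    obtain ⟨H, hH, hper, hbij, h0, h1'⟩ := hstep
    obtain ⟨F₂, _, δ₂, hδ₂, h2⟩ := ACB.NFd_fr h isOpen_univ (fun _ => mem_univ _) hH hper hbij
    refine ⟨F₁.trans F₂, min δ₁ δ₂, lt_min hδ₁ hδ₂, ?_⟩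
    intro l v hv
    show F₂ (F₁ (Γ (l, _))) = _
    rw [h1 l v (lt_of_lt_of_le hv (min_le_left _ _)), ← h0, ← h1']
    exact h2 l v (lt_of_lt_of_le hv (min_le_right _ _))

theorem tmt_ex (x : ℝ) : ‖ex x‖ = 1 := by
  unfold ex
  exact Complex.norm_exp_ofReal_mul_I _

theorem tmt_norm {c : ℂ} (hc : ‖c‖ = 1) {ε : ℝ} (hε : ε = 1 ∨ ε = -1) (y : E3) : ‖CSG.cmul c (flp ε y)‖ = ‖y‖ := by
  have h1 : c.re ^ 2 + c.im ^ 2 = 1 := by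
    have h2 := Complex.sq_norm c
    rw [hc, Complex.normSq_apply] at h2
    nlinarith
  have h3 : ε ^ 2 = 1 := by
    rcases hε with rfl | rfl <;> norm_num
  rw [EuclideanSpace.norm_eq, EuclideanSpace.norm_eq]
  congr 1
  simp only [Fin.sum_univ_three, Real.norm_eq_abs, sq_abs]
  unfold CSG.cmul flp
  simp only [CSG.pt_zero', CSG.pt_one', CSG.pt_two', Complex.mul_re, Complex.mul_im, Complex.add_re, Complex.add_im,
    Complex.ofReal_re, Complex.ofReal_im, Complex.I_re, Complex.I_im]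
  linear_combination (y 0) ^ 2 * h3 + ((y 1) ^ 2 + (y 2) ^ 2) * h1

theorem tube_match {P : Type} [TopologicalSpace P] [ChartedSpace E4 P] [T2Space P] [IsManifold (𝓡 4) ∞ P]
    {Γ Γ' : ℝ × E3 → P} {ρ₃ ρ₂ : ℝ} (h : ACB.Thick Γ ρ₃) (h' : ACB.Thick Γ' ρ₃) (h0 : 0 < ρ₂) (h1 : ρ₂ < ρ₃)
    (hF : ACB.FHom univ (ACB.core Γ') (ACB.core Γ)) :
    ∃ (k : ℤ) (ε : ℝ) (F : P ≃ₘ⟮𝓡 4, 𝓡 4⟯ P), (ε = 1 ∨ ε = -1) ∧
      ∀ (l : ℝ) (v : E3), ‖v‖ < ρ₂ → F (Γ' (l, v)) = Γ (l, CSG.cmul (ex (k * l)) (flp ε v)) := by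
  obtain ⟨F₁, hF₁, _⟩ := ACB.gp_iso ACB.Obst.empty h'.circ h.circ (fun _ => notMem_empty _) (fun _ => notMem_empty _) hF
  have hk : ACB.Thick (fun q => F₁ (Γ' q)) ρ₃ := tmt_thick h' F₁
  have hcore : ACB.core (fun q => F₁ (Γ' q)) = ACB.core Γ := funext fun l => hF₁ l
  obtain ⟨M, hMs, hMp, hMb, F₂, _, δ₁, hδ₁, h2⟩ := ACB.NFd_lin hk h hcore isOpen_univ (fun _ => mem_univ _)
  obtain ⟨k, ε, M', hε, hchain, hM'⟩ := loop_nf hMs hMp hMb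
  obtain ⟨F₃, δ₂, hδ₂, h3⟩ := tmt_chain h hchain
  obtain ⟨δ, hδd⟩ : ∃ δ, δ = min δ₁ δ₂ := ⟨_, rfl⟩
  have hδ : 0 < δ := by
    rw [hδd]
    exact lt_min hδ₁ hδ₂
  have h4 : ∀ (l : ℝ) (v : E3), ‖v‖ < δ → F₃ (F₂ (F₁ (Γ' (l, v)))) = Γ (l, M' l v) := by
    intro l v hv
    rw [hδd] at hv
    rw [h2 l v (lt_of_lt_of_le hv (min_le_left _ _))]
    exact h3 l v (lt_of_lt_of_le hv (min_le_right _ _))
  obtain ⟨c, hc⟩ : ∃ c, c = min 1 (δ / (2 * ρ₂)) := ⟨_, rfl⟩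
  have hc0 : 0 < c := by
    rw [hc]
    exact lt_min one_pos (by positivity)
  have hc1 : c ≤ 1 := by
    rw [hc]
    exact min_le_left _ _
  have hc2 : c * ρ₂ < δ := by
    have h5 : c ≤ δ / (2 * ρ₂) := by
      rw [hc]
      exact min_le_right _ _
    have h6 : c * ρ₂ ≤ δ / (2 * ρ₂) * ρ₂ := mul_le_mul_of_nonneg_right h5 h0.le
    have h7 : δ / (2 * ρ₂) * ρ₂ = δ / 2 := by field_simp
    linarith
  obtain ⟨D, hD⟩ := shrink h h0 h1 hc0 hc1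
  obtain ⟨D', hD'⟩ := shrink h' h0 h1 hc0 hc1
  refine ⟨k, ε, D'.trans (F₁.trans (F₂.trans (F₃.trans D.symm))), hε, ?_⟩
  intro l v hv
  show D.symm (F₃ (F₂ (F₁ (D' (Γ' (l, v)))))) = _
  have h5 : ‖c • v‖ < δ := by
    rw [norm_smul, Real.norm_of_nonneg hc0.le]
    exact lt_of_le_of_lt (mul_le_mul_of_nonneg_left hv.le hc0.le) hc2
  have h6 : ‖CSG.cmul (ex (k * l)) (flp ε v)‖ ≤ ρ₂ := by
    rw [tmt_norm (tmt_ex _) hε]
    exact hv.le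
  rw [hD' l v hv.le, h4 l (c • v) h5, map_smul, hM', ← hD l _ h6]
  exact D.left_inv _

end Pool.Agent.NHS
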