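import Pool.Agent.NHS.Zsp
import Pool.Agent.NHS.Btt

/-!
# NHS/Trf: transfer of the extended form by a diffeomorphism of `P`   (difficulty 3)

`F` maps the big tube of `κ'` (radius `3/8`, it contains the slit) to the big tube of `κ`.
PROOF.  `A = A' ∘ F.symm`.  `F` maps `Slit π κ' n` onto `Slit π κ n`: `sg π κ' n 0 (lam, 0, t) = bt π κ' n j' (t, (lam, 0, 0))` (`sg_zero`, `pt_yh`), `‖(lam, 0, 0)‖ = |lam| ≤ 1/4 < 3/8`, `flp`.
`Q z = Q' (flS ε z)` if `‖c1 z‖ < 1/8`, otherwise `Q z = A (sg π κ n j (lam, w, t))` for any `lam, w, t` with `z = zsp lam w t` (`zsp_exists`, well defined by `zsp_inj`, `sg_per`).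
(*) `Q z = A (sg π κ n j (lam, w, t))` for all `z = zsp lam w t` (`‖w‖ < 1`, `OffS`): if `‖c1 z‖ < 1/8`, we may take `|lam| ≤ 1/2`; `zsp_small`: `y = (lam, w / 2)` has `‖y‖ < 3/8` (`norm_yh`), and
`sg π κ n j (lam, w, t) = bt π κ n j (t, y) = bt π κ n j (t, flp ε (flp ε y)) = F (bt π κ' n j' (t, flp ε y))`, so `A (..) = A' (sg π κ' n j' (ε lam, w, t)) = Q' (zsp (ε lam) w t) = Q' (flS ε z)` (`h.glue`,
`offS_flip`, `zsp_flip`).
`Qloc`: if `‖c1 z‖ < 1/8`: `Q = Q' ∘ flS ε` near `z`.  If `c1 z ≠ 0`: `z = zsp q`, `Q ∘ zsp = A ∘ sg` near `q` (by (*)), `ld_of_comp_left` with `zsp_ld`; `sg_ld`, `sg_slit`.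
`Qinj`: `c1 z, c1 z' ≠ 0`: `A` is injective off the slit, `sg_inj`, `zsp_per`; `c1 z = 0`: `Q z = Q' (flS ε z)`, `c1 (flS ε z) = 0`; if `c1 z' ≠ 0`: `Q z' = A' (F.symm ..)`: `h.disj`.
`disj`, `cover`: from `h`.
-/

open scoped Manifold ContDiff Topology
open Set Filter
open Complex (I)
open Pool.Agent.RSG

namespace Pool.Agent.NHS

theorem trf_eps {ε : ℝ} (hε : ε = 1 ∨ ε = -1) (x : ℝ) : ε * (ε * x) = x := by
  rcases hε with rfl | rfl <;> ring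

theorem trf_sq {ε : ℝ} (hε : ε = 1 ∨ ε = -1) (x : ℝ) : (ε * x) ^ 2 = x ^ 2 := by
  rcases hε with rfl | rfl <;> ring

theorem trf_abs {ε : ℝ} (hε : ε = 1 ∨ ε = -1) (x : ℝ) : |ε * x| = |x| := by
  rcases hε with rfl | rfl
  · rw [one_mul]
  · rw [neg_one_mul, abs_neg]

section
variable {N : Type*} [TopologicalSpace N] [ChartedSpace E3 N] {P : Type*} [TopologicalSpace P]
    [ChartedSpace E4 P] {π : N × ℝ → P} {κ κ' : ℝ × ℂ → N} {n j j' : ℤ}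

theorem trf_F (F : P ≃ₘ⟮𝓡 4, 𝓡 4⟯ P) {ε : ℝ}
    (hF : ∀ (t : ℝ) (y : E3), ‖y‖ < 3 / 8 → F (bt π κ' n j' (t, y)) = bt π κ n j (t, flp ε y))
    {lam : ℝ} {w : ℂ} (t : ℝ) (hs : lam ^ 2 + ‖w‖ ^ 2 / 4 < 9 / 64) :
    F (sg π κ' n j' (lam, w, t)) = sg π κ n j (ε * lam, w, t) := by
  obtain ⟨y, hyd⟩ : ∃ y : E3, y = CSG.pt lam (w / 2).re (w / 2).im := ⟨_, rfl⟩
  have hy := pt_yh lam (w / 2)
  rw [← hyd] at hy
  have hf := yh_flp ε y
  have hn : ‖y‖ < 3 / 8 := by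
    have h1 := norm_yh y
    have h2 : ‖w / 2‖ ^ 2 = ‖w‖ ^ 2 / 4 := by
      rw [norm_div, div_pow]
      norm_num
    rw [hy.1, hy.2, h2] at h1
    nlinarith [norm_nonneg y]
  have h2 := hF t y hn
  have e1 : bt π κ' n j' (t, y) = sg π κ' n j' (lam, w, t) := by
    have e0 : (2 * (w / 2) : ℂ) = w := by ring
    show sg π κ' n j' (y 0, 2 * yh y, t) = _
    rw [hy.1, hy.2, e0]
  have e2 : bt π κ n j (t, flp ε y) = sg π κ n j (ε * lam, w, t) := by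
    have e0 : (2 * (w / 2) : ℂ) = w := by ring
    show sg π κ n j ((flp ε y) 0, 2 * yh (flp ε y), t) = _
    rw [hf.1, hf.2, hy.1, hy.2, e0]
  rw [← e1, ← e2]
  exact h2

theorem trf_F0 (F : P ≃ₘ⟮𝓡 4, 𝓡 4⟯ P) {ε : ℝ}
    (hF : ∀ (t : ℝ) (y : E3), ‖y‖ < 3 / 8 → F (bt π κ' n j' (t, y)) = bt π κ n j (t, flp ε y))
    {lam : ℝ} (t : ℝ) (hs : |lam| ≤ 1 / 4) :
    F (sg π κ' n 0 (lam, 0, t)) = sg π κ n 0 (ε * lam, 0, t) := by
  have h1 : lam ^ 2 + ‖(0 : ℂ)‖ ^ 2 / 4 < 9 / 64 := by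
    rw [norm_zero]
    have h2 : lam ^ 2 ≤ (1 / 4) ^ 2 := by
      rw [← sq_abs]
      exact pow_le_pow_left₀ (abs_nonneg _) hs 2
    nlinarith
  rw [sg_zero j', trf_F F hF t h1, sg_zero 0]

theorem trf_slit (F : P ≃ₘ⟮𝓡 4, 𝓡 4⟯ P) {ε : ℝ} (hε : ε = 1 ∨ ε = -1)
    (hF : ∀ (t : ℝ) (y : E3), ‖y‖ < 3 / 8 → F (bt π κ' n j' (t, y)) = bt π κ n j (t, flp ε y)) (p : P) :
    p ∈ Slit π κ n ↔ F.symm p ∈ Slit π κ' n := by
  constructor
  · rintro ⟨lam, t, hl, rfl⟩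
    refine ⟨ε * lam, t, by rw [trf_abs hε]; exact hl, ?_⟩
    have h1 := trf_F0 F hF (lam := ε * lam) t (by rw [trf_abs hε]; exact hl)
    rw [trf_eps hε] at h1
    rw [← h1, F.symm_apply_apply]
  · rintro ⟨lam, t, hl, hp⟩
    refine ⟨ε * lam, t, by rw [trf_abs hε]; exact hl, ?_⟩
    rw [← trf_F0 F hF t hl, ← hp, F.apply_symm_apply]

end

theorem trf_offS {ε : ℝ} (hε : ε = 1 ∨ ε = -1) {z : S4} (hf : fh z ≠ 0) : fh (flS ε z) ≠ 0 := by
  rw [(flS_c hε z).2.2.2]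
  intro h0
  have h1 := cj_norm hε (fh z)
  rw [h0, norm_zero] at h1
  exact hf (norm_eq_zero.1 h1.symm)

theorem trf_open {lam : ℝ} {w : ℂ} (ho : OffS lam w) (hw : ‖w‖ < 1) (t : ℝ) :
    ∀ᶠ q : ℝ × ℂ × ℝ in 𝓝 (lam, w, t), ‖q.2.1‖ < 1 ∧ OffS q.1 q.2.1 := by
  have h1 : ∀ᶠ q : ℝ × ℂ × ℝ in 𝓝 (lam, w, t), ‖q.2.1‖ < 1 := by
    have h2 : ContinuousAt (fun q : ℝ × ℂ × ℝ => ‖q.2.1‖) (lam, w, t) := by fun_prop
    exact h2.eventually (Iio_mem_nhds hw)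
  have h3 : ∀ᶠ q : ℝ × ℂ × ℝ in 𝓝 (lam, w, t), OffS q.1 q.2.1 := by
    rcases ho with h0 | h0
    · have h2 : ContinuousAt (fun q : ℝ × ℂ × ℝ => q.2.1) (lam, w, t) := by fun_prop
      filter_upwards [h2.eventually (isOpen_ne.mem_nhds h0)] with q hq
      exact Or.inl hq
    · have h2 : ContinuousAt (fun q : ℝ × ℂ × ℝ => (ex (q.1 + 1 / 2)).re) (lam, w, t) := by
        have h4 : Continuous fun q : ℝ × ℂ × ℝ => (ex (q.1 + 1 / 2)).re :=
          Complex.continuous_re.comp (ex_smooth.continuous.comp (by fun_prop))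
        exact h4.continuousAt
      filter_upwards [h2.eventually (Ioi_mem_nhds h0)] with q hq
      exact Or.inr hq
  exact h1.and h3

theorem trf_dir {lam : ℝ} {w : ℂ} (hw : ‖w‖ < 1) (ho : OffS lam w) (t : ℝ) :
    fh (zsp lam w t) = ‖fh (zsp lam w t)‖ * ex (lam + 1 / 2) := by
  have h1 := (zsp_spec t hw ho).2.2.2
  have h2 : ‖fh (zsp lam w t)‖ = Real.sqrt (1 - ‖w‖ ^ 2) := by
    rw [h1, norm_mul, ex_norm, mul_one, Complex.norm_real, Real.norm_of_nonneg (Real.sqrt_nonneg _)]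
  rw [h2, h1]

theorem transfer {N : Type*} [TopologicalSpace N] [ChartedSpace E3 N] [T2Space N] {P : Type*} [TopologicalSpace P]
    [ChartedSpace E4 P] [T2Space P] {π : N × ℝ → P} {κ κ' : ℝ × ℂ → N} {n j j' : ℤ} {X : Type*} [TopologicalSpace X]
    [ChartedSpace E4 X] (hπ : Prod4 π) (hκ : Thick κ) (hκ' : Thick κ') {A' : P → X} {Q' : S4 → X}
    (h : SpExt π κ' n j' A' Q') (F : P ≃ₘ⟮𝓡 4, 𝓡 4⟯ P) {ε : ℝ} (hε : ε = 1 ∨ ε = -1)
    (hF : ∀ (t : ℝ) (y : E3), ‖y‖ < 3 / 8 → F (bt π κ' n j' (t, y)) = bt π κ n j (t, flp ε y)) :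
    ∃ (A : P → X) (Q : S4 → X), SpExt π κ n j A Q := by
  classical
  have hsl := trf_slit F hε hF
  obtain ⟨A, hA⟩ : ∃ A : P → X, A = fun p => A' (F.symm p) := ⟨_, rfl⟩
  have hA1 : ∀ p, A p = A' (F.symm p) := fun p => by rw [hA]
  have hch : ∀ z : S4, ∃ q : ℝ × ℂ × ℝ, c1 z ≠ 0 → fh z ≠ 0 →
      z = zsp q.1 q.2.1 q.2.2 ∧ OffS q.1 q.2.1 ∧ ‖q.2.1‖ < 1 := by
    intro z
    by_cases h1 : c1 z ≠ 0 ∧ fh z ≠ 0
    · obtain ⟨lam, w, t, e1, e2, e3, -⟩ := zsp_exists h1.1 h1.2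
      exact ⟨(lam, w, t), fun _ _ => ⟨e1, e2, e3⟩⟩
    · exact ⟨(0, 0, 0), fun h2 h3 => absurd ⟨h2, h3⟩ h1⟩
  choose q hq using hch
  obtain ⟨Q, hQ⟩ : ∃ Q : S4 → X, Q = fun z => if ‖c1 z‖ < 1 / 8 then Q' (flS ε z) else A (sg π κ n j (q z)) := ⟨_, rfl⟩
  have hQs : ∀ z, ‖c1 z‖ < 1 / 8 → Q z = Q' (flS ε z) := by
    intro z hz
    rw [hQ]
    exact if_pos hz
  have hQb : ∀ z, ¬ ‖c1 z‖ < 1 / 8 → Q z = A (sg π κ n j (q z)) := by
    intro z hz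
    rw [hQ]
    exact if_neg hz
  -- the values of `A` at points of the small tube
  have hAs : ∀ (lam : ℝ) (w : ℂ) (t : ℝ), ‖w‖ < 1 → OffS lam w → lam ^ 2 + ‖w‖ ^ 2 / 4 < 9 / 64 →
      A (sg π κ n j (lam, w, t)) = Q' (flS ε (zsp lam w t)) := by
    intro lam w t hw ho hs
    have h1 := trf_F F hF (lam := ε * lam) (w := w) t (by rw [trf_sq hε]; exact hs)
    rw [trf_eps hε] at h1
    rw [hA1, ← h1, F.symm_apply_apply, h.glue (ε * lam) w t hw (offS_flip hε ho), zsp_flip hε hw ho]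
  -- the glueing
  have key : ∀ (lam : ℝ) (w : ℂ) (t : ℝ), ‖w‖ < 1 → OffS lam w → A (sg π κ n j (lam, w, t)) = Q (zsp lam w t) := by
    intro lam w t hw ho
    by_cases hc : ‖c1 (zsp lam w t)‖ < 1 / 8
    · rw [hQs _ hc]
      obtain ⟨a, ha⟩ : ∃ a : ℤ, |lam - a| ≤ 1 / 2 := ⟨round lam, abs_sub_round lam⟩
      obtain ⟨mu, hmu⟩ : ∃ mu : ℝ, mu = lam - a := ⟨_, rfl⟩
      rw [← hmu] at ha
      have e1 : zsp mu w t = zsp lam w t := by
        have h1 := zsp_per mu t w a 0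
        rw [Int.cast_zero, add_zero, hmu, sub_add_cancel, ← hmu] at h1
        exact h1.symm
      have e2 : sg π κ n j (mu, w, t) = sg π κ n j (lam, w, t) := by
        have h1 := sg_per hπ hκ (n := n) (j := j) mu t w a 0
        rw [Int.cast_zero, add_zero, hmu, sub_add_cancel, ← hmu] at h1
        exact h1.symm
      have ho' : OffS mu w := by
        rcases ho with h0 | h0
        · exact Or.inl h0
        · right
          have h1 : ex (mu + 1 / 2) = ex (lam + 1 / 2) := by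
            rw [← ex_add_int (mu + 1 / 2) a, hmu]
            congr 1
            ring
          rw [h1]
          exact h0
      rw [← e1, ← e2]
      apply hAs mu w t hw ho'
      have h2 := zsp_spec t hw ho'
      have h3 := zsp_small (z := zsp mu w t) (lam := mu) h2.1 (zsp_fh_ne t hw ho') (by rw [e1]; exact hc)
        (trf_dir hw ho' t) ha
      rw [h2.2.2.1] at h3
      exact h3
    · rw [hQb _ hc]
      have h2 := zsp_spec t hw ho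
      obtain ⟨e1, e2, e3⟩ := hq (zsp lam w t) h2.1 (zsp_fh_ne t hw ho)
      obtain ⟨f1, ⟨k, f2⟩, ⟨k', f3⟩⟩ := zsp_inj hw ho e3 e2 e1
      have e4 : q (zsp lam w t) = (lam + k, w, t + k') := by
        apply Prod.ext
        · exact f2
        · apply Prod.ext
          · exact f1.symm
          · exact f3
      rw [e4, sg_per hπ hκ]
  have hc1 : Continuous c1 := c1_smooth.continuous
  have hdisj : ∀ z p, fh z ≠ 0 → c1 z = 0 → p ∉ Slit π κ n → Q z ≠ A p := by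
    intro z p hf hc hp
    rw [hQs z (by rw [hc, norm_zero]; norm_num), hA1]
    exact h.disj (flS ε z) (F.symm p) (trf_offS hε hf) (by rw [(flS_c hε z).1, hc]) (fun h1 => hp ((hsl p).2 h1))
  have hinj : InjOn A (Slit π κ n)ᶜ := by
    intro p hp p' hp' he
    rw [hA1, hA1] at he
    have h1 := h.inj (fun h2 => hp ((hsl p).2 h2)) (fun h2 => hp' ((hsl p').2 h2)) he
    exact F.symm.injective h1
  have hloc : ∀ p, p ∉ Slit π κ n → IsLocalDiffeomorphAt (𝓡 4) (𝓡 4) ∞ A p := by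
    intro p hp
    have h1 : IsLocalDiffeomorphAt (𝓡 4) (𝓡 4) ∞ A' (F.symm p) := h.loc _ (fun h2 => hp ((hsl p).2 h2))
    have h2 : IsLocalDiffeomorphAt (𝓡 4) (𝓡 4) ∞ F.symm p := F.symm.isLocalDiffeomorph p
    rw [hA]
    exact IsLocalDiffeomorphAt.comp (hf := h2) (g := A') (hg := h1)
  have hex : ∀ z, c1 z ≠ 0 → fh z ≠ 0 → ∃ (lam : ℝ) (w : ℂ) (t : ℝ), ‖w‖ < 1 ∧ OffS lam w ∧ z = zsp lam w t ∧
      Q z = A (sg π κ n j (lam, w, t)) ∧ sg π κ n j (lam, w, t) ∉ Slit π κ n := by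
    intro z h1 h2
    obtain ⟨lam, w, t, e1, e2, e3, -⟩ := zsp_exists h1 h2
    refine ⟨lam, w, t, e3, e2, e1, ?_, (sg_slit hπ hκ e3).2 e2⟩
    rw [e1]
    exact (key lam w t e3 e2).symm
  refine ⟨A, Q, hloc, hinj, ?_, ?_, key, hdisj, ?_⟩
  · intro z hf
    by_cases hc : c1 z = 0
    · have h1 : IsLocalDiffeomorphAt (𝓡 4) (𝓡 4) ∞ Q' (flS ε z) := h.Qloc _ (trf_offS hε hf)
      have h2 : IsLocalDiffeomorphAt (𝓡 4) (𝓡 4) ∞ (Q' ∘ flS ε) z :=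
        IsLocalDiffeomorphAt.comp (hf := flS_ld hε z) (g := Q') (hg := h1)
      refine CSG.ld_congr h2 ?_
      have h3 : ∀ᶠ y in 𝓝 z, ‖c1 y‖ < 1 / 8 := by
        have h4 : ContinuousAt (fun y => ‖c1 y‖) z := hc1.norm.continuousAt
        apply h4.eventually (Iio_mem_nhds _)
        show ‖c1 z‖ < 1 / 8
        rw [hc, norm_zero]
        norm_num
      filter_upwards [h3] with y hy
      exact hQs y hy
    · obtain ⟨lam, w, t, e3, e2, e1, e4, e5⟩ := hex z hc hf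
      have h1 : IsLocalDiffeomorphAt 𝓘(ℝ, ℝ × ℂ × ℝ) (𝓡 4) ∞ (A ∘ sg π κ n j) (lam, w, t) :=
        IsLocalDiffeomorphAt.comp (hf := sg_ld hπ hκ t e3) (g := A) (hg := hloc _ e5)
      have h2 : IsLocalDiffeomorphAt 𝓘(ℝ, ℝ × ℂ × ℝ) (𝓡 4) ∞
          (Q ∘ fun q : ℝ × ℂ × ℝ => zsp q.1 q.2.1 q.2.2) (lam, w, t) := by
        refine CSG.ld_congr h1 ?_
        filter_upwards [trf_open e2 e3 t] with y hy
        exact (key y.1 y.2.1 y.2.2 hy.1 hy.2).symm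
      have h3 := CSG.ld_of_comp_left h2 (zsp_ld e3 e2)
      rw [e1]
      exact h3
  · intro z z' hf hf' he
    by_cases hc : c1 z = 0
    · by_cases hc' : c1 z' = 0
      · rw [hQs z (by rw [hc, norm_zero]; norm_num), hQs z' (by rw [hc', norm_zero]; norm_num)] at he
        have h1 := h.Qinj _ _ (trf_offS hε hf) (trf_offS hε hf') he
        rw [← flS_flS hε z, h1, flS_flS hε]
      · obtain ⟨lam, w, t, e3, e2, e1, e4, e5⟩ := hex z' hc' hf'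
        rw [e4] at he
        exact absurd he (hdisj z _ hf hc e5)
    · obtain ⟨lam, w, t, e3, e2, e1, e4, e5⟩ := hex z hc hf
      by_cases hc' : c1 z' = 0
      · rw [e4] at he
        exact absurd he.symm (hdisj z' _ hf' hc' e5)
      · obtain ⟨lam', w', t', e3', e2', e1', e4', e5'⟩ := hex z' hc' hf'
        rw [e4, e4'] at he
        have h1 := hinj e5 e5' he
        obtain ⟨f1, ⟨k, f2⟩, ⟨k', f3⟩⟩ := sg_inj hπ hκ e3 e3' h1
        rw [e1, e1', f2, f3, ← f1, zsp_per]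
  · intro x
    rcases h.cover x with ⟨p, hp, rfl⟩ | ⟨z, hf, hc, rfl⟩
    · left
      refine ⟨F p, fun h1 => hp ?_, ?_⟩
      · have h2 := (hsl (F p)).1 h1
        rw [F.symm_apply_apply] at h2
        exact h2
      · rw [hA1, F.symm_apply_apply]
    · right
      refine ⟨flS ε z, trf_offS hε hf, by rw [(flS_c hε z).1, hc], ?_⟩
      rw [hQs (flS ε z) (by rw [(flS_c hε z).1, hc, norm_zero]; norm_num), flS_flS hε]

end Pool.Agent.NHS
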