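import Pool.Agent.NHS.Ex1
import Pool.Agent.NHS.Ex2
import Pool.Agent.NHS.Trf
import Pool.Agent.NHS.Tmt

/-!
# NHS/Spn: the roll spins depend only on the free homotopy class   (difficulty 2)

PROOF.  `P, π` from `exists_prod`; `spExt_of` for `D'`; `tube_match` with `Γ' = bt π κ' n j'`, `Γ = bt π κ n 0`, `ρ₃ = 1/2`, `ρ₂ = 3/8` (`bt_thick`); the cores `t ↦ π (κ (n t + 1/2, 0), t)` are homotopic:
`H' s t = π (H (s, n t + 1/2), t)` (`H` the free homotopy; `ACB.FHom.mk'`, orientation of the homotopy: `FHom.symm`); periodicity: `H (s, l + 1) = H (s, l)`, so `H (s, l + n) = H (s, l)`.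
`bt_rot`: `F (bt π κ' n j' (t, y)) = bt π κ n k (t, flp ε y)`; `transfer`, `rollSpin_of`.
-/

open scoped Manifold ContDiff Topology
open Set Filter
open Pool.Agent.RSG
open Pool.Agent.NHT (FreeHomotopic GenH1)

namespace Pool.Agent.NHS

theorem spin_homotopy {N : Type} [TopologicalSpace N] [ChartedSpace E3 N] [T2Space N] [IsManifold (𝓡 3) ∞ N]
    {κ κ' : ℝ × ℂ → N} (hκ : Thick κ) (hκ' : Thick κ') (hF : FreeHomotopic κ κ') {n j' : ℤ} {X : Type}
    [TopologicalSpace X] [ChartedSpace E4 X] (D' : RollSpin κ' n j' X) : ∃ j, Nonempty (RollSpin κ n j X) := by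
  obtain ⟨P, _, _, _, _, π, hπ⟩ := exists_prod N
  obtain ⟨A', hA'⟩ := spExt_of hπ hκ' D'
  obtain ⟨H, hHc, hHp, hH0, hH1⟩ := hF
  have hπc : Continuous π := continuous_iff_continuousAt.2 fun q => (hπ.loc q.1 q.2).contMDiffAt.continuousAt
  have hcore : ∀ (κ : ℝ × ℂ → N) (j : ℤ) (t : ℝ), ACB.core (bt π κ n j) t = π (κ (n * t + 1 / 2, 0), t) := by
    intro κ j t
    have h1 : yh (0 : E3) = 0 := by
      unfold yh
      rfl
    show π (κ (n * t + 1 / 2 + (0 : E3) 0, 2 * yh (0 : E3) * ex (j * t)), t) = _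
    rw [h1, mul_zero, zero_mul]
    have h2 : (0 : E3) 0 = 0 := rfl
    rw [h2, add_zero]
  have hHn : ∀ (s t : ℝ), H (s, n * (t + 1) + 1 / 2) = H (s, n * t + 1 / 2) := by
    intro s t
    have h0 : Function.Periodic (fun l => H (s, l)) (1 : ℝ) := fun l => hHp s l
    have h1 := h0.int_mul n (n * t + 1 / 2)
    rw [mul_one] at h1
    have h2 : (n : ℝ) * (t + 1) + 1 / 2 = n * t + 1 / 2 + n := by ring
    rw [h2]
    exact h1
  have hFH : ACB.FHom univ (ACB.core (bt π κ' n j')) (ACB.core (bt π κ n 0)) := by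
    refine ACB.FHom.symm ⟨fun s t => π (H (s, n * t + 1 / 2), t), ?_, ?_, ?_, ?_, fun _ _ => mem_univ _⟩
    · refine hπc.comp (Continuous.prodMk (hHc.comp ?_) continuous_snd)
      exact Continuous.prodMk continuous_fst ((continuous_const.mul continuous_snd).add continuous_const)
    · intro s t
      show π (H (s, n * (t + 1) + 1 / 2), t + 1) = π (H (s, n * t + 1 / 2), t)
      rw [hHn, hπ.per]
    · funext t
      rw [hcore κ 0 t]
      show π (H (0, n * t + 1 / 2), t) = _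
      rw [hH0]
    · funext t
      rw [hcore κ' j' t]
      show π (H (1, n * t + 1 / 2), t) = _
      rw [hH1]
  obtain ⟨k, ε, F, hε, hFk⟩ := tube_match (bt_thick (n := n) (j := 0) hπ hκ) (bt_thick (n := n) (j := j') hπ hκ')
    (ρ₂ := 3 / 8) (by norm_num) (by norm_num) hFH
  obtain ⟨A, Q, hAQ⟩ := transfer (j := 0 + k) hπ hκ hκ' hA' F hε (fun t y hy => by rw [hFk t y hy, bt_rot])
  exact ⟨0 + k, rollSpin_of hπ hκ hAQ⟩

end Pool.Agent.NHS
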