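import Pool.Agent.NHS.CDf
import Pool.Agent.RSG.GcM
import Pool.Agent.RSG.Sph

/-!
# NHS/Zsp: the chart `zsp` of the twin   (difficulty 3)

Compare `RSG/PGm.lean` (`pG`), `RSG/GcM.lean` (`Gc_spec`, `Gc_ld`).
PROOFS.  Let `f = √(1 - |w|²) ex (lam + 1/2)`, `|f|² + |w|² = 1`, `R = √(1 - (im f)²)`, so `R² = (re f)² + |w|²`, `R ≥ |re f|`; `x² = (R + re f) / 2 > 0` iff not (`w = 0`, `re f ≤ 0`),
i.e. iff `OffS`.  `|w / (2 x)|² = |w|² / (2 (R + re f)) = (R - re f) / 2`; `h = im f / √(1 + R)`, `h² = (1 - R²) / (1 + R) = 1 - R`.  The sum of the squares is `1` (`pS4` does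
not rescale), `|c1|² - |c2|² = re f`, `h √(2 - h²) = h √(1 + R) = im f`.
`zsp_eq`: `x² = |c1|²` because `R = |c1|² + |c2|²` (`R² = 1 - (im fh)² = 1 - h² (2 - h²) = (1 - h²)²`), etc.
`zsp_ld`: smooth (`R + re f > 0`; `1 - (im f)² > 0` off the slit: if `|im f| = 1` then `w = 0` and `re f = 0`), local inverse near `z₀` (`c1 z₀ ≠ 0`):
`z ↦ (lam₀ + (log (fh z / fh z₀)).im / 2π, 2 |c1 z| c2 z, t₀ + (log (c1 z / c1 z₀)).im / 2π)` (`ld_two`, `zsp_eq`).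
`zsp_flip`: `cj ε f` instead of `f`.  `flS`: a linear isometry of `E5` restricted to the sphere.
`zsp_small`: `w = 2 |c1| c2`, so `|w|² / 4 = |c1|² |c2|² ≤ 1 / 64`; `- re fh = |c2|² - |c1|² ≥ - 1 / 64` and `- re fh = √(1 - |w|²) cos (2 π lam)`, `|w|² ≤ 1/16`; if `|lam| ≥ 1/3` then
`cos (2 π lam) ≤ - 1 / 2` (`|lam| ≤ 1/2`), contradiction; so `lam² < 1 / 9` and `1 / 9 + 1 / 64 < 9 / 64`.
-/

open scoped Manifold ContDiff Topology
open Set Filter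
open Complex (I)
open Pool.Agent.RSG

namespace Pool.Agent.NHS

variable {lam lam' t t' : ℝ} {w w' : ℂ}

private noncomputable def zsp_f (lam : ℝ) (w : ℂ) : ℂ := Real.sqrt (1 - ‖w‖ ^ 2) * ex (lam + 1 / 2)

private noncomputable def zsp_R (f : ℂ) : ℝ := Real.sqrt (1 - f.im ^ 2)

private noncomputable def zsp_x (f : ℂ) : ℝ := Real.sqrt ((zsp_R f + f.re) / 2)

private theorem zsp_def (lam : ℝ) (w : ℂ) (t : ℝ) : zsp lam w t =
    pS4 (zsp_x (zsp_f lam w) * ex t) (w / (2 * zsp_x (zsp_f lam w)))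
      ((zsp_f lam w).im / Real.sqrt (1 + zsp_R (zsp_f lam w))) := rfl

private theorem zsp_s_pos (hw : ‖w‖ < 1) : 0 < Real.sqrt (1 - ‖w‖ ^ 2) := by
  apply Real.sqrt_pos.2
  have := norm_nonneg w
  nlinarith

private theorem zsp_s_sq (hw : ‖w‖ < 1) : Real.sqrt (1 - ‖w‖ ^ 2) ^ 2 = 1 - ‖w‖ ^ 2 := by
  apply Real.sq_sqrt
  have := norm_nonneg w
  nlinarith

private theorem zsp_f_norm (lam : ℝ) (w : ℂ) : ‖zsp_f lam w‖ = Real.sqrt (1 - ‖w‖ ^ 2) := by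
  unfold zsp_f
  rw [norm_mul, ex_norm, mul_one, Complex.norm_real, Real.norm_of_nonneg (Real.sqrt_nonneg _)]

private theorem zsp_f_re (lam : ℝ) (w : ℂ) : (zsp_f lam w).re = Real.sqrt (1 - ‖w‖ ^ 2) * (ex (lam + 1 / 2)).re := by
  unfold zsp_f
  rw [Complex.re_ofReal_mul]

private theorem zsp_f_im (lam : ℝ) (w : ℂ) : (zsp_f lam w).im = Real.sqrt (1 - ‖w‖ ^ 2) * (ex (lam + 1 / 2)).im := by
  unfold zsp_f
  rw [Complex.im_ofReal_mul]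

/-- the basic identities -/
private theorem zsp_core (hw : ‖w‖ < 1) (ho : OffS lam w) :
    0 < 1 - (zsp_f lam w).im ^ 2 ∧ 0 < zsp_R (zsp_f lam w) + (zsp_f lam w).re ∧ 0 ≤ zsp_R (zsp_f lam w) ∧
    zsp_R (zsp_f lam w) ^ 2 = 1 - (zsp_f lam w).im ^ 2 ∧
    zsp_R (zsp_f lam w) ^ 2 = ‖w‖ ^ 2 + (zsp_f lam w).re ^ 2 := by
  have h1 : (zsp_f lam w).re ^ 2 + (zsp_f lam w).im ^ 2 = 1 - ‖w‖ ^ 2 := by
    rw [SphB_cx', zsp_f_norm, zsp_s_sq hw]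
  set f := zsp_f lam w with hf
  have h2 : 0 ≤ zsp_R f := Real.sqrt_nonneg _
  have h3 : 0 ≤ 1 - f.im ^ 2 := by nlinarith [sq_nonneg ‖w‖, sq_nonneg f.re]
  have h4 : zsp_R f ^ 2 = 1 - f.im ^ 2 := Real.sq_sqrt h3
  have h5 : zsp_R f ^ 2 = ‖w‖ ^ 2 + f.re ^ 2 := by rw [h4]; linarith
  have h6 : 0 < zsp_R f + f.re := by
    rcases ho with h | h
    · have hw0 : 0 < ‖w‖ ^ 2 := by
        have := norm_pos_iff.2 h
        positivity
      have h7 : f.re ^ 2 < zsp_R f ^ 2 := by linarith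
      have h8 := abs_lt_of_sq_lt_sq h7 h2
      have := (abs_lt.1 h8).1
      linarith
    · have : 0 < f.re := by
        rw [hf, zsp_f_re]
        exact mul_pos (zsp_s_pos hw) h
      linarith
  refine ⟨?_, h6, h2, h4, h5⟩
  rw [← h4]
  have h7 : 0 < zsp_R f := by
    rcases h2.lt_or_eq with h | h
    · exact h
    · exfalso
      rw [← h] at h5 h6
      have : f.re = 0 := by nlinarith [sq_nonneg ‖w‖, sq_nonneg f.re]
      linarith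
  positivity

private theorem zsp_x_pos (hw : ‖w‖ < 1) (ho : OffS lam w) : 0 < zsp_x (zsp_f lam w) := by
  obtain ⟨_, h, _⟩ := zsp_core hw ho
  exact Real.sqrt_pos.2 (by linarith)

private theorem zsp_x_sq (hw : ‖w‖ < 1) (ho : OffS lam w) :
    zsp_x (zsp_f lam w) ^ 2 = (zsp_R (zsp_f lam w) + (zsp_f lam w).re) / 2 := by
  obtain ⟨_, h, _⟩ := zsp_core hw ho
  exact Real.sq_sqrt (by linarith)

private theorem zsp_coord (t : ℝ) (hw : ‖w‖ < 1) (ho : OffS lam w) :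
    c1 (zsp lam w t) = zsp_x (zsp_f lam w) * ex t ∧ c2 (zsp lam w t) = w / (2 * zsp_x (zsp_f lam w)) ∧
      ht (zsp lam w t) = (zsp_f lam w).im / Real.sqrt (1 + zsp_R (zsp_f lam w)) ∧
      ‖c1 (zsp lam w t)‖ = zsp_x (zsp_f lam w) ∧
      ‖c2 (zsp lam w t)‖ ^ 2 = (zsp_R (zsp_f lam w) - (zsp_f lam w).re) / 2 := by
  obtain ⟨g1, g2, g3, g4, g5⟩ := zsp_core hw ho
  have gx := zsp_x_pos hw ho
  have gx2 := zsp_x_sq hw ho
  set f := zsp_f lam w with hf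
  have n1 : ‖(zsp_x f : ℂ) * ex t‖ = zsp_x f := by
    rw [norm_mul, ex_norm, mul_one, Complex.norm_real, Real.norm_of_nonneg gx.le]
  have n2 : ‖w / (2 * (zsp_x f : ℂ))‖ ^ 2 = (zsp_R f - f.re) / 2 := by
    rw [norm_div, norm_mul, Complex.norm_real, Real.norm_of_nonneg gx.le, div_pow, mul_pow, gx2]
    have h1 : ‖(2 : ℂ)‖ = 2 := by norm_num
    rw [h1, div_eq_iff (by nlinarith)]
    nlinarith
  have n3 : (f.im / Real.sqrt (1 + zsp_R f)) ^ 2 = 1 - zsp_R f := by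
    rw [div_pow, Real.sq_sqrt (by linarith), div_eq_iff (by linarith)]
    nlinarith
  have H : ‖(zsp_x f : ℂ) * ex t‖ ^ 2 + ‖w / (2 * (zsp_x f : ℂ))‖ ^ 2 + (f.im / Real.sqrt (1 + zsp_R f)) ^ 2 = 1 := by
    rw [n1, n2, n3, gx2]
    ring
  obtain ⟨e1, e2, e3⟩ := pS4_c H
  rw [zsp_def, ← hf]
  refine ⟨e1, e2, e3, ?_, ?_⟩
  · rw [e1, n1]
  · rw [e2, n2]

theorem zsp_spec (t : ℝ) (hw : ‖w‖ < 1) (ho : OffS lam w) :
    c1 (zsp lam w t) ≠ 0 ∧ c1 (zsp lam w t) = ‖c1 (zsp lam w t)‖ * ex t ∧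
      2 * ‖c1 (zsp lam w t)‖ * c2 (zsp lam w t) = w ∧
      fh (zsp lam w t) = Real.sqrt (1 - ‖w‖ ^ 2) * ex (lam + 1 / 2) := by
  obtain ⟨e1, e2, e3, e4, e5⟩ := zsp_coord t hw ho
  obtain ⟨g1, g2, g3, g4, g5⟩ := zsp_core hw ho
  have gx := zsp_x_pos hw ho
  have gx2 := zsp_x_sq hw ho
  have gx' : ((zsp_x (zsp_f lam w) : ℝ) : ℂ) ≠ 0 := by exact_mod_cast gx.ne'
  refine ⟨?_, ?_, ?_, ?_⟩
  · rw [← norm_pos_iff, e4]
    exact gx
  · rw [e4, e1]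
  · rw [e4, e2]
    field_simp
  · change fh (zsp lam w t) = zsp_f lam w
    unfold fh
    rw [e3, e4, e5, gx2]
    set f := zsp_f lam w with hf
    have n3 : (f.im / Real.sqrt (1 + zsp_R f)) ^ 2 = 1 - zsp_R f := by
      rw [div_pow, Real.sq_sqrt (by linarith), div_eq_iff (by linarith)]
      nlinarith
    rw [n3]
    have h6 : (2 : ℝ) - (1 - zsp_R f) = 1 + zsp_R f := by ring
    rw [h6, div_mul_cancel₀ _ (Real.sqrt_pos.2 (by linarith)).ne']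
    apply Complex.ext
    · change (zsp_R f + f.re) / 2 - (zsp_R f - f.re) / 2 = f.re
      ring
    · rfl

theorem zsp_fh_ne (t : ℝ) (hw : ‖w‖ < 1) (ho : OffS lam w) : fh (zsp lam w t) ≠ 0 := by
  obtain ⟨_, _, _, h⟩ := zsp_spec t hw ho
  rw [h]
  have : ((Real.sqrt (1 - ‖w‖ ^ 2) : ℝ) : ℂ) ≠ 0 := by exact_mod_cast (zsp_s_pos hw).ne'
  exact mul_ne_zero this (ex_ne _)

theorem zsp_eq {z : S4} (h1 : c1 z ≠ 0) (hf : fh z ≠ 0) (e1 : c1 z = ‖c1 z‖ * ex t) (e3 : fh z = ‖fh z‖ * ex (lam + 1 / 2)) :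
    z = zsp lam (2 * ‖c1 z‖ * c2 z) t ∧ OffS lam (2 * ‖c1 z‖ * c2 z) ∧ ‖(2 * ‖c1 z‖ * c2 z : ℂ)‖ < 1 := by
  have hs := S4_sq z
  have p1 : 0 < ‖c1 z‖ := norm_pos_iff.2 h1
  have q1 : (‖c1 z‖ : ℂ) ≠ 0 := by exact_mod_cast p1.ne'
  have hn : ‖(2 * ‖c1 z‖ * c2 z : ℂ)‖ = 2 * ‖c1 z‖ * ‖c2 z‖ := by
    rw [norm_mul, norm_mul, Complex.norm_real, norm_norm]
    norm_num
  have hlt : ‖(2 * ‖c1 z‖ * c2 z : ℂ)‖ < 1 := by
    rw [hn]
    exact (fh_ne_iff z).1 hf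
  have hsq := fh_sq z
  have hs1 : Real.sqrt (1 - ‖(2 * ‖c1 z‖ * c2 z : ℂ)‖ ^ 2) = ‖fh z‖ := by
    rw [hn]
    have e : 1 - (2 * ‖c1 z‖ * ‖c2 z‖) ^ 2 = ‖fh z‖ ^ 2 := by linarith
    rw [e, Real.sqrt_sq (norm_nonneg _)]
  have hF : zsp_f lam (2 * ‖c1 z‖ * c2 z) = fh z := by
    unfold zsp_f
    rw [hs1]
    exact e3.symm
  have hr : (fh z).re = ‖c1 z‖ ^ 2 - ‖c2 z‖ ^ 2 := rfl
  have hi : (fh z).im = ht z * Real.sqrt (2 - ht z ^ 2) := rfl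
  have h3 : 0 ≤ 2 - ht z ^ 2 := by nlinarith [sq_nonneg ‖c1 z‖, sq_nonneg ‖c2 z‖]
  have hR : zsp_R (fh z) = ‖c1 z‖ ^ 2 + ‖c2 z‖ ^ 2 := by
    unfold zsp_R
    rw [hi, mul_pow, Real.sq_sqrt h3]
    have h4 : 1 - ht z ^ 2 * (2 - ht z ^ 2) = (‖c1 z‖ ^ 2 + ‖c2 z‖ ^ 2) ^ 2 := by
      have h5 : ht z ^ 2 = 1 - ‖c1 z‖ ^ 2 - ‖c2 z‖ ^ 2 := by linarith
      rw [h5]
      ring
    rw [h4, Real.sqrt_sq (by positivity)]
  have hx : zsp_x (fh z) = ‖c1 z‖ := by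
    unfold zsp_x
    rw [hR, hr]
    have e1 : (‖c1 z‖ ^ 2 + ‖c2 z‖ ^ 2 + (‖c1 z‖ ^ 2 - ‖c2 z‖ ^ 2)) / 2 = ‖c1 z‖ ^ 2 := by ring
    rw [e1, Real.sqrt_sq p1.le]
  refine ⟨?_, ?_, hlt⟩
  · rw [zsp_def, hF, hx, hR, ← e1, hi]
    have e4 : 1 + (‖c1 z‖ ^ 2 + ‖c2 z‖ ^ 2) = 2 - ht z ^ 2 := by linarith
    have h6 : 0 < 2 - ht z ^ 2 := by nlinarith [sq_nonneg ‖c2 z‖]
    have e5 : 2 * (‖c1 z‖ : ℂ) * c2 z / (2 * ‖c1 z‖) = c2 z := by
      field_simp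
    rw [e4, mul_div_cancel_right₀ _ (Real.sqrt_pos.2 h6).ne', e5]
    exact (pS4_self z).symm
  · by_cases h2 : c2 z = 0
    · right
      have h4 : (fh z).re = ‖fh z‖ * (ex (lam + 1 / 2)).re := by
        conv_lhs => rw [e3]
        rw [Complex.re_ofReal_mul]
      rw [hr, h2, norm_zero] at h4
      have h5 : 0 < ‖fh z‖ := norm_pos_iff.2 hf
      by_contra h
      push Not at h
      have : ‖fh z‖ * (ex (lam + 1 / 2)).re ≤ 0 := mul_nonpos_of_nonneg_of_nonpos h5.le h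
      nlinarith
    · left
      exact mul_ne_zero (mul_ne_zero two_ne_zero q1) h2

theorem zsp_exists {z : S4} (h1 : c1 z ≠ 0) (hf : fh z ≠ 0) :
    ∃ lam w t, z = zsp lam w t ∧ OffS lam w ∧ ‖w‖ < 1 ∧ |lam| ≤ 1 / 2 := by
  have hpi := Real.pi_pos
  have e1 : c1 z = ‖c1 z‖ * ex (Complex.arg (c1 z) / (2 * Real.pi)) := ex_arg.symm
  have e3 : fh z = ‖fh z‖ * ex (Complex.arg (-fh z) / (2 * Real.pi) + 1 / 2) := by
    have h := ex_arg (p := -fh z)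
    rw [norm_neg] at h
    rw [ex_add, ex_half]
    linear_combination h
  obtain ⟨h2, h3, h4⟩ := zsp_eq h1 hf e1 e3
  refine ⟨_, _, _, h2, h3, h4, ?_⟩
  rw [abs_div, abs_of_pos (by positivity : (0 : ℝ) < 2 * Real.pi), div_le_iff₀ (by positivity)]
  have := Complex.abs_arg_le_pi (-fh z)
  linarith

private theorem zsp_smooth (hw : ‖w‖ < 1) (ho : OffS lam w) :
    ContMDiffAt 𝓘(ℝ, ℝ × ℂ × ℝ) (𝓡 4) ∞ (fun q : ℝ × ℂ × ℝ => zsp q.1 q.2.1 q.2.2) (lam, w, t) := by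
  obtain ⟨g1, g2, g3, g4, g5⟩ := zsp_core hw ho
  have gx := zsp_x_pos hw ho
  have gx2 := zsp_x_sq hw ho
  have a1 : ContDiffAt ℝ ∞ (fun a : ℝ × ℂ × ℝ => a.1) (lam, w, t) := contDiffAt_fst
  have a2 : ContDiffAt ℝ ∞ (fun a : ℝ × ℂ × ℝ => a.2.1) (lam, w, t) := contDiff_snd.fst.contDiffAt
  have a3 : ContDiffAt ℝ ∞ (fun a : ℝ × ℂ × ℝ => a.2.2) (lam, w, t) := contDiff_snd.snd.contDiffAt
  have hs : ContDiffAt ℝ ∞ (fun a : ℝ × ℂ × ℝ => Real.sqrt (1 - ‖a.2.1‖ ^ 2)) (lam, w, t) := by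
    apply ContDiffAt.sqrt
    · exact contDiffAt_const.sub ((contDiff_norm_sq ℝ).contDiffAt.comp (lam, w, t) a2)
    · have := norm_nonneg w
      change 1 - ‖w‖ ^ 2 ≠ 0
      nlinarith
  have hF : ContDiffAt ℝ ∞ (fun a : ℝ × ℂ × ℝ => zsp_f a.1 a.2.1) (lam, w, t) := by
    unfold zsp_f
    exact (Complex.ofRealCLM.contDiff.contDiffAt.comp (lam, w, t) hs).mul
      (ex_smooth.contDiffAt.comp (lam, w, t) (a1.add contDiffAt_const))
  have hre : ContDiffAt ℝ ∞ (fun a : ℝ × ℂ × ℝ => (zsp_f a.1 a.2.1).re) (lam, w, t) :=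
    Complex.reCLM.contDiff.contDiffAt.comp (lam, w, t) hF
  have him : ContDiffAt ℝ ∞ (fun a : ℝ × ℂ × ℝ => (zsp_f a.1 a.2.1).im) (lam, w, t) :=
    Complex.imCLM.contDiff.contDiffAt.comp (lam, w, t) hF
  have hR : ContDiffAt ℝ ∞ (fun a : ℝ × ℂ × ℝ => zsp_R (zsp_f a.1 a.2.1)) (lam, w, t) := by
    unfold zsp_R
    exact (contDiffAt_const.sub (him.pow 2)).sqrt g1.ne'
  have hx : ContDiffAt ℝ ∞ (fun a : ℝ × ℂ × ℝ => zsp_x (zsp_f a.1 a.2.1)) (lam, w, t) := by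
    unfold zsp_x
    refine ((hR.add hre).div_const 2).sqrt ?_
    change (zsp_R (zsp_f lam w) + (zsp_f lam w).re) / 2 ≠ 0
    linarith
  have hxc : ContDiffAt ℝ ∞ (fun a : ℝ × ℂ × ℝ => ((zsp_x (zsp_f a.1 a.2.1) : ℝ) : ℂ)) (lam, w, t) :=
    Complex.ofRealCLM.contDiff.contDiffAt.comp (lam, w, t) hx
  have hA : ContDiffAt ℝ ∞ (fun a : ℝ × ℂ × ℝ => ((zsp_x (zsp_f a.1 a.2.1) : ℝ) : ℂ) * ex a.2.2) (lam, w, t) :=
    hxc.mul (ex_smooth.contDiffAt.comp (lam, w, t) a3)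
  have gx' : ((zsp_x (zsp_f lam w) : ℝ) : ℂ) ≠ 0 := by exact_mod_cast gx.ne'
  have hB : ContDiffAt ℝ ∞ (fun a : ℝ × ℂ × ℝ => a.2.1 / (2 * ((zsp_x (zsp_f a.1 a.2.1) : ℝ) : ℂ))) (lam, w, t) := by
    have h2 : ContDiffAt ℝ ∞ (fun a : ℝ × ℂ × ℝ => 2 * ((zsp_x (zsp_f a.1 a.2.1) : ℝ) : ℂ)) (lam, w, t) :=
      contDiffAt_const.mul hxc
    have h3 : 2 * ((zsp_x (zsp_f lam w) : ℝ) : ℂ) ≠ 0 := mul_ne_zero two_ne_zero gx'
    exact a2.mul (h2.inv h3)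
  have hC : ContDiffAt ℝ ∞ (fun a : ℝ × ℂ × ℝ => (zsp_f a.1 a.2.1).im / Real.sqrt (1 + zsp_R (zsp_f a.1 a.2.1)))
      (lam, w, t) := by
    have h3 : 1 + zsp_R (zsp_f lam w) ≠ 0 := by linarith
    refine him.div ((contDiffAt_const.add hR).sqrt h3) ?_
    exact (Real.sqrt_pos.2 (by linarith : 0 < 1 + zsp_R (zsp_f lam w))).ne'
  have h := pS4_smooth (J := 𝓘(ℝ, ℝ × ℂ × ℝ)) hA.contMDiffAt hB.contMDiffAt hC.contMDiffAt ?_
  · exact h
  · change 0 < ‖((zsp_x (zsp_f lam w) : ℝ) : ℂ) * ex t‖ ^ 2 + ‖w / (2 * ((zsp_x (zsp_f lam w) : ℝ) : ℂ))‖ ^ 2 +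
      ((zsp_f lam w).im / Real.sqrt (1 + zsp_R (zsp_f lam w))) ^ 2
    rw [norm_mul, ex_norm, mul_one, Complex.norm_real, Real.norm_of_nonneg gx.le]
    positivity

private theorem zsp_offS_ev (ho : OffS lam w) :
    ∀ᶠ q : ℝ × ℂ × ℝ in 𝓝 (lam, w, t), OffS q.1 q.2.1 := by
  rcases ho with h | h
  · filter_upwards [(continuous_snd.fst).continuousAt.eventually_ne h] with q hq
    exact Or.inl hq
  · have hc : Continuous fun q : ℝ × ℂ × ℝ => (ex (q.1 + 1 / 2)).re :=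
      Complex.continuous_re.comp (ex_smooth.continuous.comp (continuous_fst.add continuous_const))
    have he : ∀ᶠ q : ℝ × ℂ × ℝ in 𝓝 (lam, w, t), 0 < (ex (q.1 + 1 / 2)).re :=
      continuousAt_const.eventually_lt hc.continuousAt h
    filter_upwards [he] with q hq
    exact Or.inr hq

theorem zsp_ld (hw : ‖w‖ < 1) (ho : OffS lam w) :
    IsLocalDiffeomorphAt 𝓘(ℝ, ℝ × ℂ × ℝ) (𝓡 4) ∞ (fun q : ℝ × ℂ × ℝ => zsp q.1 q.2.1 q.2.2) (lam, w, t) := by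
  obtain ⟨hc0, he0, hw0, hf0⟩ := zsp_spec t hw ho
  have hfn := zsp_fh_ne t hw ho
  set z₀ : S4 := zsp lam w t with hz₀
  have pc : 0 < ‖c1 z₀‖ := norm_pos_iff.2 hc0
  have pf : 0 < ‖fh z₀‖ := norm_pos_iff.2 hfn
  have hfe : fh z₀ = ‖fh z₀‖ * ex (lam + 1 / 2) := by
    have : ‖fh z₀‖ = Real.sqrt (1 - ‖w‖ ^ 2) := by
      rw [hf0, norm_mul, ex_norm, mul_one, Complex.norm_real, Real.norm_of_nonneg (Real.sqrt_nonneg _)]
    rw [this]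
    exact hf0
  have cc1 := c1_smooth.continuous
  have cc2 := c2_smooth.continuous
  have cf := fh_smooth.continuous
  have hpi : (2 * Real.pi) ≠ 0 := by positivity
  let g : S4 → ℝ × ℂ × ℝ := fun z => (lam + (Complex.log (fh z / fh z₀)).im / (2 * Real.pi),
    2 * ‖c1 z‖ * c2 z, t + (Complex.log (c1 z / c1 z₀)).im / (2 * Real.pi))
  have cq1 : Continuous fun z : S4 => c1 z / c1 z₀ := cc1.div_const _
  have cqf : Continuous fun z : S4 => fh z / fh z₀ := cf.div_const _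
  have N1 : ∀ᶠ z in 𝓝 z₀, c1 z ≠ 0 := cc1.continuousAt.eventually_ne hc0
  have N3 : ∀ᶠ z in 𝓝 z₀, fh z ≠ 0 := cf.continuousAt.eventually_ne hfn
  have N4 : ∀ᶠ z in 𝓝 z₀, c1 z / c1 z₀ ∈ Complex.slitPlane := by
    apply cq1.continuousAt.eventually_mem
    apply Complex.isOpen_slitPlane.mem_nhds
    show c1 z₀ / c1 z₀ ∈ _
    rw [div_self hc0]; exact Complex.one_mem_slitPlane
  have N5 : ∀ᶠ z in 𝓝 z₀, fh z / fh z₀ ∈ Complex.slitPlane := by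
    apply cqf.continuousAt.eventually_mem
    apply Complex.isOpen_slitPlane.mem_nhds
    show fh z₀ / fh z₀ ∈ _
    rw [div_self hfn]; exact Complex.one_mem_slitPlane
  have A1 : ∀ᶠ q : ℝ × ℂ × ℝ in 𝓝 (lam, w, t), OffS q.1 q.2.1 := zsp_offS_ev ho
  have A2 : ∀ᶠ a : ℝ × ℂ × ℝ in 𝓝 (lam, w, t), ‖a.2.1‖ < 1 :=
    (continuous_snd.fst.norm).continuousAt.eventually_lt continuousAt_const hw
  have A3 : ∀ᶠ a : ℝ × ℂ × ℝ in 𝓝 (lam, w, t), |a.2.2 - t| < 1 / 2 := by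
    have c : Continuous fun a : ℝ × ℂ × ℝ => |a.2.2 - t| := by fun_prop
    apply c.continuousAt.eventually_lt continuousAt_const
    simp
  have A4 : ∀ᶠ a : ℝ × ℂ × ℝ in 𝓝 (lam, w, t), |a.1 - lam| < 1 / 2 := by
    have c : Continuous fun a : ℝ × ℂ × ℝ => |a.1 - lam| := by fun_prop
    apply c.continuousAt.eventually_lt continuousAt_const
    simp
  have hq : ∀ {p p₀ : ℂ} {x x₀ : ℝ}, p ≠ 0 → p₀ ≠ 0 → p = ‖p‖ * ex x → p₀ = ‖p₀‖ * ex x₀ → |x - x₀| < 1 / 2 →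
      (Complex.log (p / p₀)).im = 2 * Real.pi * (x - x₀) := by
    intro p p₀ x x₀ hp hp₀ e e₀ hx
    have h1 : 0 < ‖p‖ := norm_pos_iff.2 hp
    have h2 : 0 < ‖p₀‖ := norm_pos_iff.2 hp₀
    have h3 : p / p₀ = ((‖p‖ / ‖p₀‖ : ℝ) : ℂ) * ex (x - x₀) := by
      rw [div_eq_iff hp₀]
      have h4 : ((‖p₀‖ : ℝ) : ℂ) ≠ 0 := by exact_mod_cast h2.ne'
      calc p = ‖p‖ * ex x := e
        _ = ‖p‖ * (ex (x - x₀) * ex x₀) := by rw [← ex_add, sub_add_cancel]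
        _ = ((‖p‖ / ‖p₀‖ : ℝ) : ℂ) * ex (x - x₀) * (‖p₀‖ * ex x₀) := by
          push_cast
          field_simp
        _ = _ := by rw [← e₀]
    rw [h3, ex_log (by positivity) (by have := (abs_lt.1 hx).1; linarith) (by have := (abs_lt.1 hx).2; linarith)]
  have hρ : ∀ {p p₀ : ℂ} {x₀ : ℝ}, p ≠ 0 → p₀ ≠ 0 → p₀ = ‖p₀‖ * ex x₀ →
      p = ‖p‖ * ex (x₀ + (Complex.log (p / p₀)).im / (2 * Real.pi)) := by
    intro p p₀ x₀ hp hp₀ e₀
    have h1 : ((‖p / p₀‖ : ℝ) : ℂ) * ex ((Complex.log (p / p₀)).im / (2 * Real.pi)) = p / p₀ := by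
      rw [Complex.log_im]
      exact ex_arg
    have h2 : ‖p / p₀‖ * ‖p₀‖ = ‖p‖ := by
      rw [← norm_mul, div_mul_cancel₀ _ hp₀]
    calc p = (p / p₀) * p₀ := by rw [div_mul_cancel₀ _ hp₀]
      _ = (((‖p / p₀‖ : ℝ) : ℂ) * ex ((Complex.log (p / p₀)).im / (2 * Real.pi))) * (‖p₀‖ * ex x₀) := by
        rw [h1, ← e₀]
      _ = ((‖p / p₀‖ * ‖p₀‖ : ℝ) : ℂ) * (ex x₀ * ex ((Complex.log (p / p₀)).im / (2 * Real.pi))) := by
        push_cast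
        ring
      _ = _ := by rw [h2, ← ex_add]
  refine ld_two (g := g) ?_ ?_ ?_ ?_
  · filter_upwards [A1, A2] with a ha1 ha2 using zsp_smooth (t := a.2.2) ha2 ha1
  · filter_upwards [N1, N4, N5] with z z1 z4 z5
    have s1 : ContMDiffAt (𝓡 4) 𝓘(ℝ, ℝ) ∞ (fun z : S4 => lam + (Complex.log (fh z / fh z₀)).im / (2 * Real.pi)) z := by
      have h0 : ContDiffAt ℝ ∞ (fun y : ℂ => y / fh z₀) (fh z) := contDiffAt_id.div_const _
      have h1 : ContDiffAt ℝ ∞ (fun y : ℂ => lam + (Complex.log (y / fh z₀)).im / (2 * Real.pi)) (fh z) :=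
        contDiffAt_const.add ((GcM_log_smooth h0 z5).div_const _)
      exact h1.contMDiffAt.comp z (fh_smooth z)
    have s3 : ContMDiffAt (𝓡 4) 𝓘(ℝ, ℝ) ∞ (fun z : S4 => t + (Complex.log (c1 z / c1 z₀)).im / (2 * Real.pi)) z := by
      have h0 : ContDiffAt ℝ ∞ (fun y : ℂ => y / c1 z₀) (c1 z) := contDiffAt_id.div_const _
      have h1 : ContDiffAt ℝ ∞ (fun y : ℂ => t + (Complex.log (y / c1 z₀)).im / (2 * Real.pi)) (c1 z) :=
        contDiffAt_const.add ((GcM_log_smooth h0 z4).div_const _)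
      exact h1.contMDiffAt.comp z (c1_smooth z)
    have s2 : ContMDiffAt (𝓡 4) 𝓘(ℝ, ℂ) ∞ (fun z : S4 => 2 * (‖c1 z‖ : ℂ) * c2 z) z := by
      have h0 : ContDiffAt ℝ ∞ (fun y : ℂ × ℂ => ((‖y.1‖ : ℝ) : ℂ)) (c1 z, c2 z) :=
        GcM_norm_smooth (f := fun y : ℂ × ℂ => y.1) contDiffAt_fst z1
      have h1 : ContDiffAt ℝ ∞ (fun y : ℂ × ℂ => 2 * (‖y.1‖ : ℂ) * y.2) (c1 z, c2 z) :=
        (contDiffAt_const.mul h0).mul contDiffAt_snd
      exact h1.contMDiffAt.comp z ((c1_smooth z).prodMk_space (c2_smooth z))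
    exact s1.prodMk_space (s2.prodMk_space s3)
  · filter_upwards [A1, A2, A3, A4] with a ha1 ha2 ha3 ha4
    obtain ⟨l', v', t'⟩ := a
    simp only at ha1 ha2 ha3 ha4
    obtain ⟨hc', he', hw', hf'⟩ := zsp_spec t' ha2 ha1
    have hfn' := zsp_fh_ne t' ha2 ha1
    have hfe' : fh (zsp l' v' t') = ‖fh (zsp l' v' t')‖ * ex (l' + 1 / 2) := by
      have : ‖fh (zsp l' v' t')‖ = Real.sqrt (1 - ‖v'‖ ^ 2) := by
        rw [hf', norm_mul, ex_norm, mul_one, Complex.norm_real, Real.norm_of_nonneg (Real.sqrt_nonneg _)]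
      rw [this]
      exact hf'
    have h1 := hq hc' hc0 he' he0 ha3
    have h2 := hq hfn' hfn hfe' hfe (by rw [show l' + 1 / 2 - (lam + 1 / 2) = l' - lam by ring]; exact ha4)
    show (lam + (Complex.log (fh (zsp l' v' t') / fh z₀)).im / (2 * Real.pi),
      2 * (‖c1 (zsp l' v' t')‖ : ℂ) * c2 (zsp l' v' t'), t + (Complex.log (c1 (zsp l' v' t') / c1 z₀)).im / (2 * Real.pi)) =
      (l', v', t')
    rw [h1, h2, hw']
    refine Prod.ext ?_ (Prod.ext rfl ?_)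
    · show lam + 2 * Real.pi * (l' + 1 / 2 - (lam + 1 / 2)) / (2 * Real.pi) = l'
      field_simp
      ring
    · show t + 2 * Real.pi * (t' - t) / (2 * Real.pi) = t'
      field_simp
      ring
  · filter_upwards [N1, N3] with z z1 z3
    have h1 := hρ z1 hc0 he0
    have h2 := hρ z3 hfn hfe
    have h3 : lam + 1 / 2 + (Complex.log (fh z / fh z₀)).im / (2 * Real.pi) =
      lam + (Complex.log (fh z / fh z₀)).im / (2 * Real.pi) + 1 / 2 := by ring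
    rw [h3] at h2
    exact (zsp_eq z1 z3 h1 h2).1.symm

theorem zsp_per (lam t : ℝ) (w : ℂ) (a c : ℤ) : zsp (lam + a) w (t + c) = zsp lam w t := by
  have h1 : zsp_f (lam + a) w = zsp_f lam w := by
    unfold zsp_f
    rw [show lam + (a : ℝ) + 1 / 2 = lam + 1 / 2 + a by ring, ex_add_int]
  rw [zsp_def, zsp_def, h1, ex_add_int]

theorem zsp_inj (hw : ‖w‖ < 1) (ho : OffS lam w) (hw' : ‖w'‖ < 1) (ho' : OffS lam' w') (h : zsp lam w t = zsp lam' w' t') :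
    w = w' ∧ (∃ k : ℤ, lam' = lam + k) ∧ ∃ k : ℤ, t' = t + k := by
  obtain ⟨a1, a2, a3, a4⟩ := zsp_spec t hw ho
  obtain ⟨b1, b2, b3, b4⟩ := zsp_spec t' hw' ho'
  rw [← h] at b1 b2 b3 b4
  have pc : 0 < ‖c1 (zsp lam w t)‖ := norm_pos_iff.2 a1
  refine ⟨by rw [← a3, ← b3], ?_, ?_⟩
  · obtain ⟨_, k, hk⟩ := ex_polar (zsp_s_pos hw) (zsp_s_pos hw') (a4.symm.trans b4)
    exact ⟨k, by linarith⟩
  · exact (ex_polar pc pc (a2.symm.trans b2)).2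

theorem flS_c {ε : ℝ} (hε : ε = 1 ∨ ε = -1) (z : S4) :
    c1 (flS ε z) = c1 z ∧ c2 (flS ε z) = c2 z ∧ ht (flS ε z) = ε * ht z ∧ fh (flS ε z) = cj ε (fh z) := by
  have h2 : ε ^ 2 = 1 := by rcases hε with rfl | rfl <;> norm_num
  have H : ‖c1 z‖ ^ 2 + ‖c2 z‖ ^ 2 + (ε * ht z) ^ 2 = 1 := by
    rw [mul_pow, h2, one_mul]
    exact S4_sq z
  obtain ⟨e1, e2, e3⟩ := pS4_c H
  refine ⟨e1, e2, e3, ?_⟩
  unfold flS fh
  rw [e1, e2, e3, mul_pow, h2, one_mul]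
  unfold cj
  simp only [mul_assoc]

private theorem zsp_f_flip {ε : ℝ} (hε : ε = 1 ∨ ε = -1) (lam : ℝ) (w : ℂ) :
    zsp_f (ε * lam) w = cj ε (zsp_f lam w) := by
  have h1 : ex (ε * lam + 1 / 2) = cj ε (ex (lam + 1 / 2)) := by
    rcases hε with rfl | rfl
    · rw [one_mul]
      unfold cj
      simp
    · have h2 : ex (-1 * lam + 1 / 2) = ex (-(lam + 1 / 2)) := by
        rw [show (-1 : ℝ) * lam + 1 / 2 = -(lam + 1 / 2) + ((1 : ℤ) : ℝ) by push_cast; ring, ex_add_int]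
      rw [h2, ex_neg]
      unfold cj
      apply Complex.ext <;> simp
  unfold zsp_f
  rw [h1]
  unfold cj
  apply Complex.ext
  · simp
  · simp
    ring

private theorem zsp_ex_flip {ε : ℝ} (hε : ε = 1 ∨ ε = -1) (lam : ℝ) :
    (ex (ε * lam + 1 / 2)).re = (ex (lam + 1 / 2)).re := by
  rcases hε with rfl | rfl
  · rw [one_mul]
  · have h2 : ex (-1 * lam + 1 / 2) = ex (-(lam + 1 / 2)) := by
      rw [show (-1 : ℝ) * lam + 1 / 2 = -(lam + 1 / 2) + ((1 : ℤ) : ℝ) by push_cast; ring, ex_add_int]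
    rw [h2, ex_neg]
    simp

theorem offS_flip {ε : ℝ} (hε : ε = 1 ∨ ε = -1) (ho : OffS lam w) : OffS (ε * lam) w := by
  unfold OffS at ho ⊢
  rw [zsp_ex_flip hε]
  exact ho

theorem zsp_flip {ε : ℝ} (hε : ε = 1 ∨ ε = -1) (hw : ‖w‖ < 1) (ho : OffS lam w) (t : ℝ) :
    zsp (ε * lam) w t = flS ε (zsp lam w t) := by
  have h2 : ε ^ 2 = 1 := by rcases hε with rfl | rfl <;> norm_num
  obtain ⟨a1, a2, a3, _, _⟩ := zsp_coord t hw ho
  obtain ⟨b1, b2, b3, _, _⟩ := zsp_coord t hw (offS_flip hε ho)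
  obtain ⟨c1', c2', c3', _⟩ := flS_c hε (zsp lam w t)
  have hre : (cj ε (zsp_f lam w)).re = (zsp_f lam w).re := rfl
  have him : (cj ε (zsp_f lam w)).im = ε * (zsp_f lam w).im := rfl
  have hR : zsp_R (zsp_f (ε * lam) w) = zsp_R (zsp_f lam w) := by
    rw [zsp_f_flip hε]
    unfold zsp_R
    rw [him, mul_pow, h2, one_mul]
  have hx : zsp_x (zsp_f (ε * lam) w) = zsp_x (zsp_f lam w) := by
    unfold zsp_x
    rw [hR, zsp_f_flip hε, hre]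
  apply S4_ext
  · rw [b1, c1', a1, hx]
  · rw [b2, c2', a2, hx]
  · rw [b3, c3', a3, hR, zsp_f_flip hε, him, mul_div_assoc]

theorem flS_flS {ε : ℝ} (hε : ε = 1 ∨ ε = -1) (z : S4) : flS ε (flS ε z) = z := by
  have h2 : ε * ε = 1 := by rcases hε with rfl | rfl <;> norm_num
  obtain ⟨a1, a2, a3, _⟩ := flS_c hε z
  obtain ⟨b1, b2, b3, _⟩ := flS_c hε (flS ε z)
  apply S4_ext
  · rw [b1, a1]
  · rw [b2, a2]
  · rw [b3, a3, ← mul_assoc, h2, one_mul]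

private theorem zsp_flS_smooth {ε : ℝ} (hε : ε = 1 ∨ ε = -1) : ContMDiff (𝓡 4) (𝓡 4) ∞ (flS ε) := by
  intro z
  have h2 : ε ^ 2 = 1 := by rcases hε with rfl | rfl <;> norm_num
  have h3 : ContMDiffAt (𝓡 4) 𝓘(ℝ, ℝ) ∞ (fun z : S4 => ε * ht z) z := by
    have h4 : ContDiff ℝ ∞ fun x : ℝ => ε * x := contDiff_const.mul contDiff_id
    exact (h4.contMDiff.comp ht_smooth) z
  have h := pS4_smooth (J := 𝓡 4) (c1_smooth z) (c2_smooth z) h3 ?_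
  · exact h
  · rw [mul_pow, h2, one_mul, S4_sq]
    exact one_pos

theorem flS_ld {ε : ℝ} (hε : ε = 1 ∨ ε = -1) (z : S4) : IsLocalDiffeomorphAt (𝓡 4) (𝓡 4) ∞ (flS ε) z := by
  refine ld_two (g := flS ε) ?_ ?_ ?_ ?_
  · exact Eventually.of_forall fun y => zsp_flS_smooth hε y
  · exact Eventually.of_forall fun y => zsp_flS_smooth hε y
  · exact Eventually.of_forall fun y => flS_flS hε y
  · exact Eventually.of_forall fun y => flS_flS hε y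

/-- off the slit, `OffS` in terms of `lam` -/
theorem offS_iff (hl : |lam| ≤ 1 / 2) : OffS lam 0 ↔ 1 / 4 < |lam| := by
  have hpi := Real.pi_pos
  have h1 : (ex (lam + 1 / 2)).re = -Real.cos (2 * Real.pi * |lam|) := by
    rw [ex_re, show 2 * Real.pi * (lam + 1 / 2) = 2 * Real.pi * lam + Real.pi by ring, Real.cos_add_pi]
    have : Real.cos (2 * Real.pi * |lam|) = Real.cos (2 * Real.pi * lam) := by
      rw [← Real.cos_abs (2 * Real.pi * lam), abs_mul, abs_of_pos (by positivity : (0 : ℝ) < 2 * Real.pi)]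
    rw [this]
  unfold OffS
  rw [h1]
  have h0 := abs_nonneg lam
  constructor
  · rintro (h | h)
    · exact absurd rfl h
    · by_contra hc
      push Not at hc
      have : 0 ≤ Real.cos (2 * Real.pi * |lam|) := by
        apply Real.cos_nonneg_of_neg_pi_div_two_le_of_le
        · nlinarith
        · nlinarith
      linarith
  · intro h
    right
    have : Real.cos (2 * Real.pi * |lam|) < 0 := by
      apply Real.cos_neg_of_pi_div_two_lt_of_lt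
      · nlinarith
      · nlinarith
    linarith

/-- the points near the sphere `c1 = 0` are in the tube -/
theorem zsp_small {z : S4} (h1 : c1 z ≠ 0) (hf : fh z ≠ 0) (hs : ‖c1 z‖ < 1 / 8) (e3 : fh z = ‖fh z‖ * ex (lam + 1 / 2))
    (hl : |lam| ≤ 1 / 2) : lam ^ 2 + ‖(2 * ‖c1 z‖ * c2 z : ℂ)‖ ^ 2 / 4 < 9 / 64 := by
  have hpi := Real.pi_pos
  have _h1 := h1
  have _hf := hf
  have hn : ‖(2 * ‖c1 z‖ * c2 z : ℂ)‖ = 2 * ‖c1 z‖ * ‖c2 z‖ := by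
    rw [norm_mul, norm_mul, Complex.norm_real, norm_norm]
    norm_num
  rw [hn]
  have h4 := S4_sq z
  have h5 := fh_sq z
  have n1 := norm_nonneg (c1 z)
  have n2 := norm_nonneg (c2 z)
  have n3 := norm_nonneg (fh z)
  have h6 : ‖c1 z‖ ^ 2 < 1 / 64 := by nlinarith
  have h7 : ‖c2 z‖ ^ 2 ≤ 1 := by nlinarith [sq_nonneg (ht z)]
  have h8 : (2 * ‖c1 z‖ * ‖c2 z‖) ^ 2 ≤ 4 / 64 := by
    have : (2 * ‖c1 z‖ * ‖c2 z‖) ^ 2 = 4 * (‖c1 z‖ ^ 2 * ‖c2 z‖ ^ 2) := by ring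
    rw [this]
    have : ‖c1 z‖ ^ 2 * ‖c2 z‖ ^ 2 ≤ 1 / 64 * 1 := by
      apply mul_le_mul h6.le h7 (sq_nonneg _) (by norm_num)
    linarith
  have h9 : 1 / 2 < ‖fh z‖ := by nlinarith
  have h10 : (fh z).re = ‖fh z‖ * (ex (lam + 1 / 2)).re := by
    conv_lhs => rw [e3]
    rw [Complex.re_ofReal_mul]
  have h11 : (fh z).re = ‖c1 z‖ ^ 2 - ‖c2 z‖ ^ 2 := rfl
  have h12 : (ex (lam + 1 / 2)).re = -Real.cos (2 * Real.pi * |lam|) := by
    rw [ex_re, show 2 * Real.pi * (lam + 1 / 2) = 2 * Real.pi * lam + Real.pi by ring, Real.cos_add_pi]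
    have : Real.cos (2 * Real.pi * |lam|) = Real.cos (2 * Real.pi * lam) := by
      rw [← Real.cos_abs (2 * Real.pi * lam), abs_mul, abs_of_pos (by positivity : (0 : ℝ) < 2 * Real.pi)]
    rw [this]
  have h13 : |lam| < 1 / 3 := by
    by_contra hc
    push Not at hc
    have h14 : Real.cos (2 * Real.pi * |lam|) ≤ -(1 / 2) := by
      have h15 : Real.cos (2 * Real.pi * |lam|) ≤ Real.cos (Real.pi - Real.pi / 3) := by
        apply Real.cos_le_cos_of_nonneg_of_le_pi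
        · linarith
        · nlinarith
        · nlinarith
      rw [Real.cos_pi_sub, Real.cos_pi_div_three] at h15
      exact h15
    rw [h11, h12] at h10
    nlinarith [sq_nonneg ‖c2 z‖]
  have h16 : lam ^ 2 < 1 / 9 := by
    rw [← sq_abs]
    have := abs_nonneg lam
    nlinarith
  linarith

end Pool.Agent.NHS
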